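import Mathlib

set_option autoImplicit false

namespace Pool.Agent.H590Z.HC

namespace H487

theorem frac_nonneg {h : ℝ} (hh : |h| ≤ 1 / 2) (k : ℤ) : 0 ≤ ((k : ℝ) + h) / k := by
  rw [abs_le] at hh
  rcases lt_trichotomy k 0 with hk | hk | hk
  · have : (k : ℝ) ≤ -1 := by exact_mod_cast (by omega : k ≤ -1)
    exact div_nonneg_of_nonpos (by linarith) (by linarith)
  · simp [hk]
  · have : (1 : ℝ) ≤ k := by exact_mod_cast (by omega : 1 ≤ k)
    exact div_nonneg (by linarith) (by linarith)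

theorem weights (s : ℝ) (hs : s = 1 ∨ s = -1) (M : Finset ℤ) : ∃ W : ℤ → ℝ,
    (∀ m ∈ M, 0 ≤ s * W m) ∧ ∑ m ∈ M, W m = s * M.card / 2 ∧
    ∀ z : ℝ, (∀ m ∈ M, z - (m + 1 / 2) ≠ 0) →
      ∏ m ∈ M, (z - (m + 1 / 2) + s / 2) / (z - (m + 1 / 2)) =
        1 + ∑ m ∈ M, W m / (z - (m + 1 / 2)) := by
  have hs2 : |s / 2| ≤ 1 / 2 := by rcases hs with rfl | rfl <;> norm_num [abs_le]
  have hss : s * s = 1 := by rcases hs with rfl | rfl <;> norm_num
  induction M using Finset.induction_on with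
  | empty => exact ⟨0, by simp, by simp, by simp⟩
  | insert a M ha ih =>
    obtain ⟨W, h1, h2, h3⟩ := ih
    have hne : ∀ m ∈ M, m ≠ a := fun m hm h => ha (h ▸ hm)
    have hne' : ∀ m ∈ M, ((m : ℝ) - a) ≠ 0 := fun m hm =>
      sub_ne_zero.2 (by exact_mod_cast hne m hm)
    have h4 := h3 (a + 1 / 2) fun m hm h => hne' m hm (by linarith)
    obtain ⟨W', hW1, hW2⟩ : ∃ W' : ℤ → ℝ, W' a = s / 2 * (1 - ∑ m ∈ M, W m / (m - a)) ∧
        ∀ m ∈ M, W' m = W m * (((m - a) + s / 2) / (m - a)) :=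
      ⟨fun m => if m = a then s / 2 * (1 - ∑ m ∈ M, W m / (m - a))
        else W m * (((m - a) + s / 2) / (m - a)), if_pos rfl, fun m hm => if_neg (hne m hm)⟩
    refine ⟨W', fun m hm => ?_, ?_, fun z hz => ?_⟩
    · rcases Finset.mem_insert.1 hm with h | h
      · have h5 : 1 - ∑ m ∈ M, W m / (m - a) =
            1 + ∑ m ∈ M, W m / ((a : ℝ) + 1 / 2 - (m + 1 / 2)) := by
          rw [sub_eq_add_neg, ← Finset.sum_neg_distrib]
          congr 1
          refine Finset.sum_congr rfl fun m _ => ?_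
          rw [← div_neg]
          congr 1
          ring
        rw [h, hW1, h5, ← h4, ← mul_assoc]
        refine mul_nonneg (by linarith) (Finset.prod_nonneg fun m _ => ?_)
        have := frac_nonneg hs2 (a - m)
        push_cast at this
        rwa [show (a : ℝ) + 1 / 2 - (m + 1 / 2) = a - m by ring]
      · rw [hW2 m h, ← mul_assoc]
        refine mul_nonneg (h1 m h) ?_
        have := frac_nonneg hs2 (m - a)
        push_cast at this
        exact this
    · have h5 : ∑ m ∈ M, W' m = ∑ m ∈ M, (W m + s / 2 * (W m / (m - a))) :=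
        Finset.sum_congr rfl fun m hm => by
          rw [hW2 m hm]
          have := hne' m hm
          field_simp
      rw [Finset.sum_insert ha, hW1, Finset.card_insert_of_notMem ha, h5,
        Finset.sum_add_distrib, ← Finset.mul_sum, h2]
      push_cast
      ring
    · have hza := hz a (Finset.mem_insert_self _ _)
      have h5 : ∑ m ∈ M, W' m / (z - (m + 1 / 2)) = ∑ m ∈ M,
          ((z - (a + 1 / 2) + s / 2) / (z - (a + 1 / 2)) * (W m / (z - (m + 1 / 2))) +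
            s / 2 / (z - (a + 1 / 2)) * (W m / (m - a))) :=
        Finset.sum_congr rfl fun m hm => by
          rw [hW2 m hm]
          have h6 := hne' m hm
          have h7 := hz m (Finset.mem_insert_of_mem hm)
          have hB : z - (m + 1 / 2) = z - (a + 1 / 2) - (m - a) := by ring
          rw [hB] at h7 ⊢
          generalize z - (a + 1 / 2) = A at *
          generalize (m : ℝ) - a = k at *
          field_simp
          ring
      rw [Finset.prod_insert ha, Finset.sum_insert ha, hW1,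
        h3 z fun m hm => hz m (Finset.mem_insert_of_mem hm), h5,
        Finset.sum_add_distrib, ← Finset.mul_sum, ← Finset.mul_sum]
      generalize z - (a + 1 / 2) = A at *
      field_simp
      ring

theorem one_side (s : ℝ) (hs : s = 1 ∨ s = -1) (c : ℤ → ℝ) (hc : ∀ n, 0 ≤ c n) (F M : Finset ℤ)
    (t : ℝ) (hM : ∀ m ∈ M, t ≤ s * ∑ n ∈ F, c n / ((m : ℝ) + 1 / 2 - n)) :
    t * M.card ≤ 2 * ∑ n ∈ F, c n := by
  obtain ⟨W, h1, h2, h3⟩ := weights s hs M
  have hss : s * s = 1 := by rcases hs with rfl | rfl <;> norm_num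
  have h4 : ∀ n : ℤ, ∑ m ∈ M, W m / ((m : ℝ) + 1 / 2 - n) ≤ 1 := by
    intro n
    have h5 := h3 n fun m _ h => by
      have h6 : ((2 * n : ℤ) : ℝ) = (2 * m + 1 : ℤ) := by push_cast; linarith
      have h7 : 2 * n = 2 * m + 1 := by exact_mod_cast h6
      omega
    have h6 : 0 ≤ ∏ m ∈ M, ((n : ℝ) - (m + 1 / 2) + s / 2) / (n - (m + 1 / 2)) := by
      refine Finset.prod_nonneg fun m _ => ?_
      by_cases h : n ≤ m
      · have : (n : ℝ) ≤ m := by exact_mod_cast h
        rcases hs with rfl | rfl <;> exact div_nonneg_of_nonpos (by linarith) (by linarith)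
      · have : (m : ℝ) + 1 ≤ n := by exact_mod_cast (by omega : m + 1 ≤ n)
        rcases hs with rfl | rfl <;> exact div_nonneg (by linarith) (by linarith)
    have h7 : ∑ m ∈ M, W m / ((m : ℝ) + 1 / 2 - n) = -∑ m ∈ M, W m / (n - (m + 1 / 2)) := by
      rw [← Finset.sum_neg_distrib]
      refine Finset.sum_congr rfl fun m _ => ?_
      rw [← div_neg, neg_sub]
    linarith
  have h5 : ∑ m ∈ M, s * W m * t ≤
      ∑ m ∈ M, s * W m * (s * ∑ n ∈ F, c n / ((m : ℝ) + 1 / 2 - n)) :=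
    Finset.sum_le_sum fun m hm => mul_le_mul_of_nonneg_left (hM m hm) (h1 m hm)
  have h6 : ∑ m ∈ M, s * W m * (s * ∑ n ∈ F, c n / ((m : ℝ) + 1 / 2 - n)) =
      ∑ n ∈ F, c n * ∑ m ∈ M, W m / ((m : ℝ) + 1 / 2 - n) := by
    simp only [Finset.mul_sum]
    rw [Finset.sum_comm]
    refine Finset.sum_congr rfl fun n _ => Finset.sum_congr rfl fun m _ => ?_
    linear_combination (W m * (c n / ((m : ℝ) + 1 / 2 - n))) * hss
  have h7 : ∑ n ∈ F, c n * ∑ m ∈ M, W m / ((m : ℝ) + 1 / 2 - n) ≤ ∑ n ∈ F, c n :=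
    Finset.sum_le_sum fun n _ => mul_le_of_le_one_right (hc n) (h4 n)
  rw [← Finset.sum_mul, ← Finset.mul_sum, h2] at h5
  have h8 : s * (s * M.card / 2) * t = t * M.card / 2 := by
    linear_combination (M.card / 2 * t) * hss
  linarith

theorem split (M : Finset ℤ) (p q : ℤ → Prop) (t A B : ℝ) (ht : 0 ≤ t) (h : ∀ m ∈ M, p m ∨ q m)
    (hp : ∀ N : Finset ℤ, (∀ m ∈ N, p m) → t * N.card ≤ A)
    (hq : ∀ N : Finset ℤ, (∀ m ∈ N, q m) → t * N.card ≤ B) : t * M.card ≤ A + B := by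
  classical
  have h1 := hp (M.filter p) fun m hm => (Finset.mem_filter.1 hm).2
  have h2 := hq (M.filter fun m => ¬ p m) fun m hm =>
    (h m (Finset.mem_filter.1 hm).1).resolve_left (Finset.mem_filter.1 hm).2
  have h3 : (M.card : ℝ) = (M.filter p).card + (M.filter fun m => ¬ p m).card := by
    exact_mod_cast (Finset.card_filter_add_card_filter_not (s := M) p).symm
  rw [h3]
  linarith

theorem two_side (c : ℤ → ℝ) (hc : ∀ n, 0 ≤ c n) (F M : Finset ℤ) (t : ℝ) (ht : 0 ≤ t)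
    (hM : ∀ m ∈ M, t ≤ |∑ n ∈ F, c n / ((m : ℝ) + 1 / 2 - n)|) :
    t * M.card ≤ 4 * ∑ n ∈ F, c n := by
  have := split M (fun m => t ≤ 1 * ∑ n ∈ F, c n / ((m : ℝ) + 1 / 2 - n))
    (fun m => t ≤ -1 * ∑ n ∈ F, c n / ((m : ℝ) + 1 / 2 - n)) t _ _ ht
    (fun m hm => by simpa using le_abs.1 (hM m hm))
    (fun N => one_side 1 (Or.inl rfl) c hc F N t) (fun N => one_side (-1) (Or.inr rfl) c hc F N t)
  linarith

theorem signed (c : ℤ → ℝ) (F M : Finset ℤ) (t : ℝ) (ht : 0 ≤ t)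
    (hM : ∀ m ∈ M, 2 * t ≤ |∑ n ∈ F, c n / ((m : ℝ) + 1 / 2 - n)|) :
    t * M.card ≤ 4 * ∑ n ∈ F, |c n| := by
  have := split M (fun m => t ≤ |∑ n ∈ F, (c n)⁺ / ((m : ℝ) + 1 / 2 - n)|)
    (fun m => t ≤ |∑ n ∈ F, (c n)⁻ / ((m : ℝ) + 1 / 2 - n)|) t _ _ ht
    (fun m hm => by
      have h1 := hM m hm
      have h2 : ∑ n ∈ F, c n / ((m : ℝ) + 1 / 2 - n) =
          ∑ n ∈ F, (c n)⁺ / ((m : ℝ) + 1 / 2 - n) - ∑ n ∈ F, (c n)⁻ / ((m : ℝ) + 1 / 2 - n) := by
        rw [← Finset.sum_sub_distrib]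
        refine Finset.sum_congr rfl fun n _ => ?_
        rw [← sub_div, posPart_sub_negPart]
      rw [h2] at h1
      have h3 := h1.trans (abs_sub _ _)
      by_contra h4
      push Not at h4
      linarith [h4.1, h4.2])
    (fun N => two_side _ (fun n => posPart_nonneg _) F N t ht)
    (fun N => two_side _ (fun n => negPart_nonneg _) F N t ht)
  rw [← mul_add, ← Finset.sum_add_distrib] at this
  simpa only [posPart_add_negPart] using this

end H487

theorem weak_type (c : ℤ → ℂ) (F M : Finset ℤ) (lam : ℝ) (hl : 0 < lam)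
    (hM : ∀ m ∈ M, lam < ‖∑ n ∈ F, c n / ((m : ℂ) + 1 / 2 - n)‖) :
    lam * M.card ≤ 64 * ∑ n ∈ F, ‖c n‖ := by
  have hc : ∀ m n : ℤ, ((m : ℂ) + 1 / 2 - n) = (((m : ℝ) + 1 / 2 - n : ℝ) : ℂ) := fun m n => by
    push_cast
    ring
  have := H487.split M (fun m => 2 * (lam / 4) ≤ |∑ n ∈ F, (c n).re / ((m : ℝ) + 1 / 2 - n)|)
    (fun m => 2 * (lam / 4) ≤ |∑ n ∈ F, (c n).im / ((m : ℝ) + 1 / 2 - n)|) (lam / 4) _ _
    (by positivity) (fun m hm => by
      have h1 := (hM m hm).trans_le (Complex.norm_le_abs_re_add_abs_im _)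
      simp only [hc, Complex.re_sum, Complex.im_sum, Complex.div_ofReal_re,
        Complex.div_ofReal_im] at h1
      by_contra h4
      push Not at h4
      linarith [h4.1, h4.2])
    (fun N => H487.signed _ F N _ (by positivity)) (fun N => H487.signed _ F N _ (by positivity))
  have h1 : ∑ n ∈ F, |(c n).re| ≤ ∑ n ∈ F, ‖c n‖ :=
    Finset.sum_le_sum fun n _ => Complex.abs_re_le_norm _
  have h2 : ∑ n ∈ F, |(c n).im| ≤ ∑ n ∈ F, ‖c n‖ :=
    Finset.sum_le_sum fun n _ => Complex.abs_im_le_norm _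
  have h3 : 0 ≤ ∑ n ∈ F, ‖c n‖ := Finset.sum_nonneg fun n _ => norm_nonneg _
  linarith

end Pool.Agent.H590Z.HC
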