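import Pool.Agent.H487Z.Exist

set_option autoImplicit false
set_option linter.unusedSectionVars false

namespace Pool.Agent.H487Z

open MeasureTheory Filter Topology
open scoped ENNReal

variable {V : Type} (G : SimpleGraph V) (hfin : ∀ v, (G.neighborSet v).Finite)

/-- the allowed next positions as a finite set -/
noncomputable def alF (x : V) (H : Set (Sym2 V)) : Finset V :=
  (allowed_finite G hfin x H).toFinset

theorem mem_alF {x w : V} {H : Set (Sym2 V)} : w ∈ alF G hfin x H ↔ w ∈ allowed G x H := by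
  simp [alF]

theorem card_alF (x : V) (H : Set (Sym2 V)) :
    (alF G hfin x H).card = (allowed G x H).ncard :=
  (Set.ncard_eq_toFinset_card _ (allowed_finite G hfin x H)).symm

theorem card_alF_pos (hne : ∀ v, ∃ w, G.Adj v w) (x : V) (H : Set (Sym2 V)) :
    0 < (alF G hfin x H).card := by
  obtain ⟨w, hw⟩ := allowed_nonempty G hne x H
  exact Finset.card_pos.2 ⟨w, (mem_alF G hfin).2 hw⟩

open Classical in
/-- probability of avoiding `Z` during the next `n` steps -/
noncomputable def av (Z : Set V) : ℕ → V → Set (Sym2 V) → ℝ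
  | 0, _, _ => 1
  | n + 1, x, H => (∑ w ∈ alF G hfin x H,
      if w ∈ Z then 0 else av Z n w (insert s(x, w) H)) / (alF G hfin x H).card

theorem av_nonneg (Z : Set V) : ∀ (n : ℕ) (x : V) (H : Set (Sym2 V)), 0 ≤ av G hfin Z n x H
  | 0, _, _ => zero_le_one
  | n + 1, x, H => by
    classical
    unfold av
    refine div_nonneg (Finset.sum_nonneg fun w _ => ?_) (Nat.cast_nonneg _)
    split_ifs
    · exact le_rfl
    · exact av_nonneg Z n _ _

theorem av_le_one (Z : Set V) : ∀ (n : ℕ) (x : V) (H : Set (Sym2 V)), av G hfin Z n x H ≤ 1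
  | 0, _, _ => le_rfl
  | n + 1, x, H => by
    classical
    unfold av
    refine div_le_one_of_le₀ ?_ (Nat.cast_nonneg _)
    calc _ ≤ ∑ w ∈ alF G hfin x H, (1 : ℝ) := by
          refine Finset.sum_le_sum fun w _ => ?_
          split_ifs
          · exact zero_le_one
          · exact av_le_one Z n _ _
      _ = _ := by simp

/-- geometric decay of the probability of staying in a finite set away from `o` -/
theorem av_decay (hconn : G.Connected) (hne : ∀ v, ∃ w, G.Adj v w) (o : V) (B : Finset V) :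
    ∃ θ C : ℝ, 0 ≤ θ ∧ θ < 1 ∧ ∀ (n : ℕ) (x : V) (H : Set (Sym2 V)), x ∈ B → x ≠ o →
      av G hfin ({o} ∪ (↑B)ᶜ) n x H ≤ θ ^ n * C := by
  classical
  let nb : V → Finset V := fun x => (hfin x).toFinset
  have mem_nb : ∀ x w, w ∈ nb x ↔ G.Adj x w := fun x w => by simp [nb]
  let EB : Finset (Sym2 V) := B.biUnion fun x => (nb x).image fun w => s(x, w)
  let Δ : ℕ := B.sup (fun x => (nb x).card) + 1
  let D : ℕ := B.sup (fun x => G.dist x o)
  let γ : ℝ := 1 / (2 * Δ)
  have hΔ : (1 : ℝ) ≤ Δ := by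
    simp only [Δ]
    push_cast
    have : (0 : ℝ) ≤ (B.sup (fun x => (nb x).card) : ℕ) := Nat.cast_nonneg _
    linarith
  have hγ0 : 0 < γ := by positivity
  have hγ1 : γ ≤ 1 := by
    rw [div_le_one (by positivity)]
    linarith
  let UF : Set (Sym2 V) → Finset (Sym2 V) := fun H => EB.filter fun ε => ε ∉ H
  have mem_UF : ∀ H ε, ε ∈ UF H ↔ ε ∈ EB ∧ ε ∉ H := fun H ε => Finset.mem_filter
  let U : Set (Sym2 V) → ℕ := fun H => (UF H).card
  let g : V → Set (Sym2 V) → ℝ := fun x H => 2 - γ ^ G.dist x o + 2 * U H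
  let η : ℝ := γ ^ D
  have hη0 : 0 < η := by positivity
  have hη1 : η ≤ 1 := pow_le_one₀ hγ0.le hγ1
  let C : ℝ := 2 + 2 * EB.card
  have hg1 : ∀ x H, 1 ≤ g x H := by
    intro x H
    have h1 : γ ^ G.dist x o ≤ 1 := pow_le_one₀ hγ0.le hγ1
    have h2 : (0 : ℝ) ≤ U H := Nat.cast_nonneg _
    simp only [g]
    linarith
  have hgC : ∀ x H, g x H ≤ C := by
    intro x H
    have h1 : 0 ≤ γ ^ G.dist x o := by positivity
    have h2 : (U H : ℝ) ≤ EB.card := by exact_mod_cast Finset.card_filter_le _ _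
    simp only [g, C]
    linarith
  have hC : 2 ≤ C := by
    have : (0 : ℝ) ≤ EB.card := Nat.cast_nonneg _
    simp only [C]
    linarith
  -- drift
  have hdrift : ∀ x H, x ∈ B → x ≠ o →
      ∑ w ∈ alF G hfin x H, g w (insert s(x, w) H) ≤ (alF G hfin x H).card * (g x H - η) := by
    intro x H hxB hxo
    by_cases hall : ∀ u, G.Adj x u → s(x, u) ∈ H
    · have hal : alF G hfin x H = nb x := by
        ext w
        rw [mem_alF, mem_nb]
        exact ⟨fun h => h.1, fun h => ⟨h, Or.inr hall⟩⟩
      rw [hal]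
      have hsum : ∑ w ∈ nb x, g w (insert s(x, w) H) =
          (nb x).card * (2 + 2 * (U H : ℝ)) - ∑ w ∈ nb x, γ ^ G.dist w o := by
        rw [← nsmul_eq_mul, ← Finset.sum_const, ← Finset.sum_sub_distrib]
        refine Finset.sum_congr rfl fun w hw => ?_
        rw [Set.insert_eq_of_mem (hall w ((mem_nb x w).1 hw))]
        simp only [g]
        ring
      rw [hsum]
      obtain ⟨p, hp⟩ := hconn.exists_walk_length_eq_dist x o
      obtain ⟨w₀, hw₀, hd⟩ : ∃ w₀, G.Adj x w₀ ∧ G.dist w₀ o + 1 ≤ G.dist x o := by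
        cases p with
        | nil => exact absurd rfl hxo
        | cons h p' =>
          refine ⟨_, h, ?_⟩
          rw [← hp, SimpleGraph.Walk.length_cons]
          exact Nat.succ_le_succ (G.dist_le p')
      have h1 : γ ^ G.dist w₀ o ≤ ∑ w ∈ nb x, γ ^ G.dist w o :=
        Finset.single_le_sum (f := fun w => γ ^ G.dist w o) (fun w _ => by positivity)
          ((mem_nb x w₀).2 hw₀)
      have h2 : γ ^ G.dist x o ≤ γ ^ G.dist w₀ o * γ := by
        rw [← pow_succ]
        exact pow_le_pow_of_le_one hγ0.le hγ1 hd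
      have h3 : η ≤ γ ^ G.dist x o :=
        pow_le_pow_of_le_one hγ0.le hγ1 (Finset.le_sup (f := fun x => G.dist x o) hxB)
      have h4 : ((nb x).card : ℝ) ≤ Δ := by
        have := Finset.le_sup (f := fun x => (nb x).card) hxB
        exact_mod_cast this.trans (Nat.le_succ _)
      have h5 : γ * (2 * Δ) = 1 := by
        simp only [γ]
        field_simp
      have h6 : 0 < γ ^ G.dist x o := by positivity
      have h7 : (0 : ℝ) ≤ (nb x).card := Nat.cast_nonneg _
      have h8 : 2 * Δ * γ ^ G.dist x o ≤ γ ^ G.dist w₀ o := by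
        calc 2 * Δ * γ ^ G.dist x o ≤ 2 * Δ * (γ ^ G.dist w₀ o * γ) := by gcongr
          _ = γ ^ G.dist w₀ o * (γ * (2 * Δ)) := by ring
          _ = _ := by rw [h5, mul_one]
      simp only [g]
      nlinarith [mul_le_mul_of_nonneg_left h3 h7, mul_le_mul_of_nonneg_right h4 h6.le]
    · rw [← nsmul_eq_mul, ← Finset.sum_const]
      refine Finset.sum_le_sum fun w hw => ?_
      have hw' := (mem_alF G hfin).1 hw
      have hnot : s(x, w) ∉ H := hw'.2.resolve_right hall
      have hmem : s(x, w) ∈ EB :=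
        Finset.mem_biUnion.2 ⟨x, hxB, Finset.mem_image.2 ⟨w, (mem_nb x w).2 hw'.1, rfl⟩⟩
      have hU : U (insert s(x, w) H) + 1 ≤ U H := by
        refine Finset.card_lt_card ⟨?_, ?_⟩
        · intro ε hε
          replace hε := (mem_UF _ _).1 hε
          refine (mem_UF _ _).2 ?_
          exact ⟨hε.1, fun h => hε.2 (Set.mem_insert_of_mem _ h)⟩
        · intro hsub
          have := hsub ((mem_UF _ _).2 ⟨hmem, hnot⟩)
          exact ((mem_UF _ _).1 this).2 (Set.mem_insert _ _)
      have hU' : (U (insert s(x, w) H) : ℝ) + 1 ≤ U H := by exact_mod_cast hU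
      have h1 : γ ^ G.dist x o ≤ 1 := pow_le_one₀ hγ0.le hγ1
      have h2 : 0 ≤ γ ^ G.dist w o := by positivity
      simp only [g]
      linarith
  refine ⟨1 - η / C, C, ?_, ?_, ?_⟩
  · rw [sub_nonneg, div_le_one (by linarith)]
    linarith
  · have : 0 < η / C := by positivity
    linarith
  have hθ : 0 ≤ 1 - η / C := by
    rw [sub_nonneg, div_le_one (by linarith)]
    linarith
  have key : ∀ (n : ℕ) (x : V) (H : Set (Sym2 V)), x ∈ B → x ≠ o →
      av G hfin ({o} ∪ (↑B)ᶜ) n x H ≤ (1 - η / C) ^ n * g x H := by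
    intro n
    induction n with
    | zero => intro x H _ _; simpa [av] using hg1 x H
    | succ n ih =>
      intro x H hxB hxo
      unfold av
      have hc : (0 : ℝ) < (alF G hfin x H).card := by exact_mod_cast card_alF_pos G hfin hne x H
      rw [div_le_iff₀ hc]
      calc _ ≤ ∑ w ∈ alF G hfin x H, (1 - η / C) ^ n * g w (insert s(x, w) H) := by
            refine Finset.sum_le_sum fun w _ => ?_
            split_ifs with hw
            · exact mul_nonneg (pow_nonneg hθ _) (zero_le_one.trans (hg1 _ _))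
            · simp only [Set.mem_union, Set.mem_singleton_iff, Set.mem_compl_iff,
                Finset.mem_coe, not_or, not_not] at hw
              exact ih w _ hw.2 hw.1
        _ ≤ (1 - η / C) ^ n * ((alF G hfin x H).card * (g x H - η)) := by
            rw [← Finset.mul_sum]
            exact mul_le_mul_of_nonneg_left (hdrift x H hxB hxo) (pow_nonneg hθ _)
        _ ≤ (1 - η / C) ^ n * ((alF G hfin x H).card * ((1 - η / C) * g x H)) := by
            refine mul_le_mul_of_nonneg_left (mul_le_mul_of_nonneg_left ?_ hc.le)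
              (pow_nonneg hθ _)
            have h1 : η / C * g x H ≤ η := by
              rw [div_mul_eq_mul_div, div_le_iff₀ (by linarith)]
              exact mul_le_mul_of_nonneg_left (hgC x H) hη0.le
            linarith
        _ = _ := by ring
  intro n x H hxB hxo
  exact (key n x H hxB hxo).trans
    (mul_le_mul_of_nonneg_left (hgC x H) (pow_nonneg hθ _))

/-- A Lyapunov system for the greedy walk. -/
structure Lyap (o : V) (S : Type) where
  pos : S → V
  cr : S → Set (Sym2 V)
  nxt : S → V → S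
  Good : S → Prop
  Φ : S → ℝ
  s₀ : S
  pos₀ : pos s₀ = o
  cr₀ : cr s₀ = ∅
  good₀ : Good s₀
  pos_nxt : ∀ s w, pos (nxt s w) = w
  cr_nxt : ∀ s w, cr (nxt s w) = insert s(pos s, w) (cr s)
  good_nxt : ∀ s w, Good s → w ∈ allowed G (pos s) (cr s) → Good (nxt s w)
  nonneg : ∀ s, Good s → 0 ≤ Φ s
  super : ∀ s, Good s → pos s ≠ o →
    ∑ w ∈ alF G hfin (pos s) (cr s), (Φ (nxt s w) - Φ s) ≤ 0
  proper : ∀ A : ℝ, ∃ B : Finset V, ∀ s, Good s → Φ s < A → pos s ∈ B

variable {G hfin}

theorem Lyap.bound {o : V} {S : Type} (L : Lyap G hfin o S) (hne : ∀ v, ∃ w, G.Adj v w)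
    {A : ℝ} (hA : 0 < A) {B : Finset V} (hB : ∀ s, L.Good s → L.Φ s < A → L.pos s ∈ B) :
    ∀ (n : ℕ) (s : S), L.Good s → L.pos s ≠ o →
      av G hfin {o} n (L.pos s) (L.cr s) ≤
        L.Φ s / A + av G hfin ({o} ∪ (↑B)ᶜ) n (L.pos s) (L.cr s) := by
  classical
  intro n
  induction n with
  | zero =>
    intro s hs _
    have := div_nonneg (L.nonneg s hs) hA.le
    simp only [av]
    linarith
  | succ n ih =>
    intro s hs hso
    unfold av
    have hc : (0 : ℝ) < (alF G hfin (L.pos s) (L.cr s)).card := by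
      exact_mod_cast card_alF_pos G hfin hne _ _
    have hsup := L.super s hs hso
    rw [Finset.sum_sub_distrib, Finset.sum_const, nsmul_eq_mul, sub_nonpos] at hsup
    rw [div_le_iff₀ hc, add_mul, div_mul_cancel₀ _ hc.ne']
    calc _ ≤ ∑ w ∈ alF G hfin (L.pos s) (L.cr s), (L.Φ (L.nxt s w) / A +
          if w ∈ ({o} ∪ (↑B)ᶜ : Set V) then 0
          else av G hfin ({o} ∪ (↑B)ᶜ) n w (insert s(L.pos s, w) (L.cr s))) := by
          refine Finset.sum_le_sum fun w hw => ?_
          have hg := L.good_nxt s w hs ((mem_alF G hfin).1 hw)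
          have h0 := div_nonneg (L.nonneg _ hg) hA.le
          by_cases hwo : w = o
          · simp [hwo] at h0 ⊢
            exact h0
          · have h1 : w ∉ ({o} : Set V) := hwo
            rw [if_neg h1]
            by_cases hwB : w ∈ B
            · have h2 : w ∉ ({o} ∪ (↑B)ᶜ : Set V) := by simp [hwo, hwB]
              rw [if_neg h2]
              have := ih (L.nxt s w) hg (by rw [L.pos_nxt]; exact hwo)
              rwa [L.pos_nxt, L.cr_nxt] at this
            · have h2 : w ∈ ({o} ∪ (↑B)ᶜ : Set V) := by simp [hwB]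
              rw [if_pos h2, add_zero]
              refine (av_le_one G hfin _ _ _ _).trans ?_
              rw [le_div_iff₀ hA, one_mul]
              by_contra hlt
              have := hB _ hg (not_le.1 hlt)
              rw [L.pos_nxt] at this
              exact hwB this
      _ ≤ _ := by
          rw [Finset.sum_add_distrib, ← Finset.sum_div]
          refine add_le_add ?_ (le_of_eq (Finset.sum_congr rfl fun w _ => by congr))
          rw [div_mul_eq_mul_div]
          exact div_le_div_of_nonneg_right (by linarith) hA.le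

theorem Lyap.tendsto_of_ne {o : V} {S : Type} (L : Lyap G hfin o S) (hconn : G.Connected)
    (hne : ∀ v, ∃ w, G.Adj v w) (s : S) (hs : L.Good s) (hso : L.pos s ≠ o) :
    Tendsto (fun n => av G hfin {o} n (L.pos s) (L.cr s)) atTop (𝓝 0) := by
  rw [Metric.tendsto_atTop]
  intro ε hε
  have hΦ := L.nonneg s hs
  set A : ℝ := L.Φ s + 1 + 2 * L.Φ s / ε with hAdef
  have hA0 : 0 ≤ 2 * L.Φ s / ε := by positivity
  have hA : 0 < A := by linarith
  obtain ⟨B, hB⟩ := L.proper A
  obtain ⟨θ, C, hθ0, hθ1, hdec⟩ := av_decay G hfin hconn hne o B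
  have hlim : Tendsto (fun n : ℕ => θ ^ n * C) atTop (𝓝 0) := by
    simpa using (tendsto_pow_atTop_nhds_zero_of_lt_one hθ0 hθ1).mul_const C
  obtain ⟨N, hN⟩ := (Metric.tendsto_atTop.1 hlim) (ε / 2) (by positivity)
  refine ⟨N, fun n hn => ?_⟩
  have h1 := L.bound hne hA hB n s hs hso
  have h2 := hdec n (L.pos s) (L.cr s) (hB s hs (by linarith)) hso
  have h3 := hN n hn
  rw [Real.dist_eq, sub_zero] at h3 ⊢
  rw [abs_of_nonneg (av_nonneg G hfin _ _ _ _)]
  have h4 : L.Φ s / A ≤ ε / 2 := by
    rw [div_le_iff₀ hA]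
    have : ε / 2 * (2 * L.Φ s / ε) = L.Φ s := by field_simp
    nlinarith
  linarith [le_abs_self (θ ^ n * C)]

theorem Lyap.tendsto {o : V} {S : Type} (L : Lyap G hfin o S) (hconn : G.Connected)
    (hne : ∀ v, ∃ w, G.Adj v w) (s : S) (hs : L.Good s) :
    Tendsto (fun n => av G hfin {o} n (L.pos s) (L.cr s)) atTop (𝓝 0) := by
  classical
  rw [← tendsto_add_atTop_iff_nat 1]
  simp only [av]
  have : Tendsto (fun n => ∑ w ∈ alF G hfin (L.pos s) (L.cr s),
      if w ∈ ({o} : Set V) then 0 else av G hfin {o} n w (insert s(L.pos s, w) (L.cr s)))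
      atTop (𝓝 (∑ w ∈ alF G hfin (L.pos s) (L.cr s), (0 : ℝ))) := by
    refine tendsto_finset_sum _ fun w hw => ?_
    by_cases hwo : w = o
    · simp [hwo]
    · have h1 : w ∉ ({o} : Set V) := hwo
      simp only [if_neg h1]
      have := L.tendsto_of_ne hconn hne (L.nxt s w)
        (L.good_nxt s w hs ((mem_alF G hfin).1 hw)) (by rw [L.pos_nxt]; exact hwo)
      rwa [L.pos_nxt, L.cr_nxt] at this
  simpa using this.div_const _

theorem meas_avoid [Countable V] (hne : ∀ v, ∃ w, G.Adj v w) {Ω : Type} [MeasurableSpace Ω]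
    {P : Measure Ω} {X : ℕ → Ω → V} {v₀ : V} (hX : IsGRW G v₀ P X) (o : V) :
    ∀ (n : ℕ) (x : ℕ → V) (t : ℕ),
      P {ω | (∀ s, s ≤ t → X s ω = x s) ∧ ∀ m, t < m → m ≤ t + n → X m ω ≠ o} ≤
        P {ω | ∀ s, s ≤ t → X s ω = x s} *
          ENNReal.ofReal (av G hfin {o} n (x t) (crossed x t)) := by
  classical
  intro n
  induction n with
  | zero =>
    intro x t
    simp only [av, ENNReal.ofReal_one, mul_one]
    exact measure_mono fun ω h => h.1
  | succ n ih =>
    intro x t
    let y : V → ℕ → V := fun w => Function.update x (t + 1) w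
    have hy : ∀ w s, s ≤ t → y w s = x s := fun w s hs =>
      Function.update_of_ne (by omega) _ _
    have hy' : ∀ w, y w (t + 1) = w := fun w => Function.update_self _ _ _
    have hcyl : ∀ w, {ω | ∀ s, s ≤ t + 1 → X s ω = y w s} =
        {ω | (∀ s, s ≤ t → X s ω = x s) ∧ X (t + 1) ω = w} := by
      intro w
      ext ω
      simp only [Set.mem_ofPred_eq]
      constructor
      · intro h
        exact ⟨fun s hs => (h s (by omega)).trans (hy w s hs), (h _ le_rfl).trans (hy' w)⟩
      · rintro ⟨h1, h2⟩ s hs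
        rcases Nat.lt_or_ge s (t + 1) with h | h
        · rw [hy w s (by omega)]
          exact h1 s (by omega)
        · have : s = t + 1 := by omega
          rw [this, hy', h2]
    have hcr : ∀ w, crossed (y w) (t + 1) = insert s(x t, w) (crossed x t) := by
      intro w
      rw [crossed_succ, hy w t le_rfl, hy', crossed_congr (hy w)]
    let E : V → Set Ω := fun w => if w = o then ∅ else
      {ω | (∀ s, s ≤ t + 1 → X s ω = y w s) ∧ ∀ m, t + 1 < m → m ≤ t + 1 + n → X m ω ≠ o}
    have hsub : {ω | (∀ s, s ≤ t → X s ω = x s) ∧ ∀ m, t < m → m ≤ t + (n + 1) → X m ω ≠ o} ⊆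
        ⋃ w, E w := by
      rintro ω ⟨h1, h2⟩
      refine Set.mem_iUnion.2 ⟨X (t + 1) ω, ?_⟩
      have h3 : X (t + 1) ω ≠ o := h2 _ (by omega) (by omega)
      simp only [E, if_neg h3]
      refine ⟨?_, fun m hm hm' => h2 m (by omega) (by omega)⟩
      have : ω ∈ {ω' | ∀ s, s ≤ t + 1 → X s ω' = y (X (t + 1) ω) s} := by
        rw [hcyl]
        exact ⟨h1, rfl⟩
      exact this
    set c := (alF G hfin (x t) (crossed x t)).card with hc
    have hc0 : 0 < c := card_alF_pos G hfin hne _ _
    have hE : ∀ w, P (E w) ≤ P {ω | ∀ s, s ≤ t → X s ω = x s} *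
        (if w ∈ alF G hfin (x t) (crossed x t) then ENNReal.ofReal ((if w ∈ ({o} : Set V) then 0
          else av G hfin {o} n w (insert s(x t, w) (crossed x t))) / c) else 0) := by
      intro w
      by_cases hwo : w = o
      · simp [E, hwo]
      · have h1 : w ∉ ({o} : Set V) := hwo
        simp only [E, if_neg hwo, if_neg h1]
        refine (ih (y w) (t + 1)).trans ?_
        rw [hcyl, hX.step, hy', hcr, mul_assoc]
        refine mul_le_mul_right ?_ _
        by_cases hw : w ∈ allowed G (x t) (crossed x t)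
        · rw [if_pos hw, if_pos ((mem_alF G hfin).2 hw), ← card_alF G hfin, ← hc,
            ENNReal.ofReal_div_of_pos (by exact_mod_cast hc0), ENNReal.ofReal_natCast,
            ENNReal.div_eq_inv_mul]
        · rw [if_neg hw, zero_mul]
          exact zero_le
    calc _ ≤ P (⋃ w, E w) := measure_mono hsub
      _ ≤ ∑' w, P (E w) := measure_iUnion_le _
      _ ≤ ∑' w, P {ω | ∀ s, s ≤ t → X s ω = x s} *
        (if w ∈ alF G hfin (x t) (crossed x t) then ENNReal.ofReal ((if w ∈ ({o} : Set V) then 0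
          else av G hfin {o} n w (insert s(x t, w) (crossed x t))) / c) else 0) :=
          ENNReal.tsum_le_tsum hE
      _ = _ := by
          rw [ENNReal.tsum_mul_left]
          congr 1
          rw [tsum_eq_sum (s := alF G hfin (x t) (crossed x t)) (fun w hw => if_neg hw)]
          rw [Finset.sum_congr rfl (fun w hw => if_pos hw), ← ENNReal.ofReal_sum_of_nonneg]
          · simp only [av]
            rw [Finset.sum_div]
            congr
          · intro w _
            refine div_nonneg ?_ (Nat.cast_nonneg _)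
            split_ifs
            · exact le_rfl
            · exact av_nonneg G hfin _ _ _ _

theorem Lyap.good_of_pos {o : V} {S : Type} (L : Lyap G hfin o S) {Ω : Type} [MeasurableSpace Ω]
    {P : Measure Ω} [IsProbabilityMeasure P] {X : ℕ → Ω → V} (hX : IsGRW G o P X) (x : ℕ → V) :
    ∀ t : ℕ, P {ω | ∀ s, s ≤ t → X s ω = x s} ≠ 0 →
      ∃ s, L.Good s ∧ L.pos s = x t ∧ L.cr s = crossed x t := by
  classical
  intro t
  induction t with
  | zero =>
    intro h
    refine ⟨L.s₀, L.good₀, ?_, by rw [L.cr₀, crossed_zero]⟩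
    rw [L.pos₀]
    by_contra hne
    apply h
    have h1 : P {ω | X 0 ω = o}ᶜ = 0 := by
      rw [prob_compl_eq_zero_iff (hX.meas 0 o)]
      exact hX.start
    refine measure_mono_null ?_ h1
    intro ω hω h2
    exact hne (h2.symm.trans (hω 0 le_rfl))
  | succ t ih =>
    intro h
    have hcyl : {ω | ∀ s, s ≤ t + 1 → X s ω = x s} =
        {ω | (∀ s, s ≤ t → X s ω = x s) ∧ X (t + 1) ω = x (t + 1)} := by
      ext ω
      simp only [Set.mem_ofPred_eq]
      constructor
      · intro h
        exact ⟨fun s hs => h s (by omega), h _ le_rfl⟩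
      · rintro ⟨h1, h2⟩ s hs
        rcases Nat.lt_or_ge s (t + 1) with h | h
        · exact h1 s (by omega)
        · have : s = t + 1 := by omega
          rw [this, h2]
    rw [hcyl, hX.step] at h
    obtain ⟨s, hs, hp, hc⟩ := ih (left_ne_zero_of_mul h)
    have hal : x (t + 1) ∈ allowed G (x t) (crossed x t) := by
      by_contra hn
      exact right_ne_zero_of_mul h (if_neg hn)
    refine ⟨L.nxt s (x (t + 1)), L.good_nxt _ _ hs (by rw [hp, hc]; exact hal), L.pos_nxt _ _, ?_⟩
    rw [L.cr_nxt, hp, hc, crossed_succ]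

theorem Lyap.recurrent [Countable V] {o : V} {S : Type} (L : Lyap G hfin o S)
    (hconn : G.Connected) (hne : ∀ v, ∃ w, G.Adj v w) : GRWRecurrent G o := by
  classical
  refine ⟨exists_GRW G hfin hne o, ?_⟩
  intro Ω _ P _ X hX
  have hnull : ∀ (t : ℕ) (x : ℕ → V),
      P {ω | (∀ s, s ≤ t → X s ω = x s) ∧ ∀ m, t < m → X m ω ≠ o} = 0 := by
    intro t x
    by_cases h : P {ω | ∀ s, s ≤ t → X s ω = x s} = 0
    · exact measure_mono_null (fun ω hω => hω.1) h
    obtain ⟨s, hs, hp, hc⟩ := L.good_of_pos hX x t h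
    have hlim := L.tendsto hconn hne s hs
    rw [hp, hc] at hlim
    have hlim2 : Tendsto (fun n => ENNReal.ofReal (av G hfin {o} n (x t) (crossed x t)))
        atTop (𝓝 0) := by
      simpa using ENNReal.tendsto_ofReal hlim
    refine le_antisymm (ge_of_tendsto' hlim2 fun n => ?_) zero_le
    calc _ ≤ P {ω | (∀ s, s ≤ t → X s ω = x s) ∧ ∀ m, t < m → m ≤ t + n → X m ω ≠ o} :=
          measure_mono fun ω hω => ⟨hω.1, fun m hm _ => hω.2 m hm⟩
      _ ≤ _ := meas_avoid (hfin := hfin) hne hX o n x t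
      _ ≤ 1 * _ := mul_le_mul_left prob_le_one _
      _ = _ := one_mul _
  rw [ae_iff]
  refine measure_mono_null (t := ⋃ t : ℕ, ⋃ h : Finset.Iic t → V,
    {ω | (∀ s, s ≤ t → X s ω = extPath o t h s) ∧ ∀ m, t < m → X m ω ≠ o}) ?_ ?_
  · intro ω hω
    have hf : {t | X t ω = o}.Finite := Set.not_infinite.1 hω
    obtain ⟨t, ht⟩ := hf.bddAbove
    refine Set.mem_iUnion.2 ⟨t, Set.mem_iUnion.2 ⟨fun i => X i ω, ?_, ?_⟩⟩
    · intro s hs
      simp [extPath, hs]
    · intro m hm h
      have := ht h
      omega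
  · exact measure_iUnion_null fun t => measure_iUnion_null fun h => hnull t _

end Pool.Agent.H487Z
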