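import Mathlib

set_option autoImplicit false

namespace Pool.Agent.H487Z

open MeasureTheory
open scoped ENNReal

/-- `H_t`: the set of (undirected) edges crossed by the path `x` during its first `t` steps. -/
def crossed {V : Type} (x : ℕ → V) (t : ℕ) : Set (Sym2 V) :=
  {ε | ∃ s, s < t ∧ ε = s(x s, x (s + 1))}

/-- The vertices among which the greedy walker, standing at `x` with set of crossed edges `H`,
chooses its next position uniformly: the neighbours `w` of `x` whose edge `x w` is not yet crossed,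
and all neighbours of `x` if every edge at `x` is crossed. -/
def allowed {V : Type} (G : SimpleGraph V) (x : V) (H : Set (Sym2 V)) : Set V :=
  {w | G.Adj x w ∧ (s(x, w) ∉ H ∨ ∀ u, G.Adj x u → s(x, u) ∈ H)}

open Classical in
/-- The process `X` on the probability space `(Ω, P)` is the greedy random walk with the uniform
rule on `G` started at `v₀`: it starts at `v₀`, and given the history `X s = x s` (`s ≤ t`) the
next position is uniformly distributed on `allowed G (x t) (crossed x t)`. -/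
structure IsGRW {V Ω : Type} [MeasurableSpace Ω] (G : SimpleGraph V) (v₀ : V) (P : Measure Ω)
    (X : ℕ → Ω → V) : Prop where
  meas : ∀ t v, MeasurableSet {ω | X t ω = v}
  start : P {ω | X 0 ω = v₀} = 1
  step : ∀ (t : ℕ) (x : ℕ → V) (w : V),
    P {ω | (∀ s, s ≤ t → X s ω = x s) ∧ X (t + 1) ω = w} =
      P {ω | ∀ s, s ≤ t → X s ω = x s} *
        (if w ∈ allowed G (x t) (crossed x t) then
          ((allowed G (x t) (crossed x t)).ncard : ℝ≥0∞)⁻¹ else 0)

/-- The greedy random walk on `G` started at `v₀` exists, and it returns to `v₀` infinitely often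
almost surely (on whatever probability space it is realised). -/
def GRWRecurrent {V : Type} (G : SimpleGraph V) (v₀ : V) : Prop :=
  (∃ (Ω : Type) (_ : MeasurableSpace Ω) (P : Measure Ω) (X : ℕ → Ω → V),
      IsProbabilityMeasure P ∧ IsGRW G v₀ P X) ∧
    ∀ (Ω : Type) [MeasurableSpace Ω] (P : Measure Ω) [IsProbabilityMeasure P] (X : ℕ → Ω → V),
      IsGRW G v₀ P X → ∀ᵐ ω ∂P, {t | X t ω = v₀}.Infinite

/-- The edge boundary of a finite set `S` of vertices: the edges with exactly one endpoint in `S`. -/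
def edgeBoundary {V : Type} (G : SimpleGraph V) (S : Finset V) : Set (Sym2 V) :=
  {ε | ∃ a b, G.Adj a b ∧ a ∈ S ∧ b ∉ S ∧ ε = s(a, b)}

/-- Rough isometry to `ℤ³` with its nearest-neighbour (that is, `ℓ¹`) metric. -/
def RoughlyIsometricZ3 {V : Type} (G : SimpleGraph V) : Prop :=
  ∃ (φ : V → Fin 3 → ℤ) (a b c : ℝ), 1 ≤ a ∧ 0 ≤ b ∧ 0 ≤ c ∧
    (∀ x y : V, a⁻¹ * (G.dist x y : ℝ) - b ≤ ((∑ i, |φ x i - φ y i| : ℤ) : ℝ) ∧
      ((∑ i, |φ x i - φ y i| : ℤ) : ℝ) ≤ a * (G.dist x y : ℝ) + b) ∧
    ∀ p : Fin 3 → ℤ, ∃ x : V, ((∑ i, |φ x i - p i| : ℤ) : ℝ) ≤ c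

end Pool.Agent.H487Z
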