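import Pool.Agent.H487Z.Defs

set_option autoImplicit false
set_option linter.unusedSectionVars false

namespace Pool.Agent.H487Z

open MeasureTheory ProbabilityTheory Preorder
open scoped ENNReal

variable {V : Type} (G : SimpleGraph V)

theorem allowed_finite (hfin : ∀ v, (G.neighborSet v).Finite) (x : V) (H : Set (Sym2 V)) :
    (allowed G x H).Finite :=
  (hfin x).subset fun _ h => h.1

theorem allowed_nonempty (hne : ∀ v, ∃ w, G.Adj v w) (x : V) (H : Set (Sym2 V)) :
    (allowed G x H).Nonempty := by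
  by_cases h : ∀ u, G.Adj x u → s(x, u) ∈ H
  · obtain ⟨w, hw⟩ := hne x
    exact ⟨w, hw, Or.inr h⟩
  · push Not at h
    obtain ⟨w, hw, hw'⟩ := h
    exact ⟨w, hw, Or.inl hw'⟩

theorem crossed_congr {x y : ℕ → V} {t : ℕ} (h : ∀ s, s ≤ t → x s = y s) :
    crossed x t = crossed y t := by
  ext ε
  simp only [crossed, Set.mem_ofPred_eq]
  constructor
  · rintro ⟨s, hs, rfl⟩
    exact ⟨s, hs, by rw [h s hs.le, h (s + 1) hs]⟩
  · rintro ⟨s, hs, rfl⟩
    exact ⟨s, hs, by rw [h s hs.le, h (s + 1) hs]⟩

theorem crossed_succ (x : ℕ → V) (t : ℕ) :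
    crossed x (t + 1) = insert s(x t, x (t + 1)) (crossed x t) := by
  ext ε
  simp only [crossed, Set.mem_ofPred_eq, Set.mem_insert_iff]
  constructor
  · rintro ⟨s, hs, rfl⟩
    rcases Nat.lt_succ_iff_lt_or_eq.mp hs with h | h
    · exact Or.inr ⟨s, h, rfl⟩
    · exact Or.inl (by rw [h])
  · rintro (rfl | ⟨s, hs, rfl⟩)
    · exact ⟨t, Nat.lt_succ_self t, rfl⟩
    · exact ⟨s, hs.trans (Nat.lt_succ_self t), rfl⟩

theorem crossed_zero (x : ℕ → V) : crossed x 0 = ∅ := by
  ext ε
  simp [crossed]

/-- extension of a finite history to a path -/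
def extPath (v₀ : V) (t : ℕ) (h : Finset.Iic t → V) : ℕ → V :=
  fun s => if hs : s ≤ t then h ⟨s, Finset.mem_Iic.2 hs⟩ else v₀

theorem exists_GRW_aux [Countable V] [MeasurableSpace V] [DiscreteMeasurableSpace V] (hfin : ∀ v, (G.neighborSet v).Finite)
    (hne : ∀ v, ∃ w, G.Adj v w) (v₀ : V) :
    ∃ (Ω : Type) (_ : MeasurableSpace Ω) (P : Measure Ω) (X : ℕ → Ω → V),
      IsProbabilityMeasure P ∧ IsGRW G v₀ P X := by
  classical
  let q : (t : ℕ) → (Finset.Iic t → V) → PMF V := fun t h =>
    PMF.uniformOfFinset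
      (allowed_finite G hfin (extPath v₀ t h t) (crossed (extPath v₀ t h) t)).toFinset
      ((Set.Finite.toFinset_nonempty _).2 (allowed_nonempty G hne _ _))
  let κ : (t : ℕ) → Kernel (Finset.Iic t → V) V := fun t =>
    Kernel.ofFunOfCountable (fun h => (q t h).toMeasure)
  have : ∀ t, IsMarkovKernel (κ t) := fun t =>
    ⟨fun h => inferInstanceAs (IsProbabilityMeasure (q t h).toMeasure)⟩
  let P : Measure (ℕ → V) := Kernel.trajMeasure (X := fun _ => V) (Measure.dirac v₀) κ
  have : IsProbabilityMeasure P := by unfold P; infer_instance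
  refine ⟨ℕ → V, inferInstance, P, fun t ω => ω t, inferInstance, ?_, ?_, ?_⟩
  · intro t v
    exact measurable_pi_apply (X := fun _ : ℕ => V) t (measurableSet_singleton v)
  · have h1 : P.map (frestrictLe (π := fun _ => V) 0)
        = (Measure.dirac v₀).map (MeasurableEquiv.piUnique (fun _ : Finset.Iic 0 => V)).symm := by
      unfold P Kernel.trajMeasure
      rw [Measure.map_comp _ _ (by fun_prop), Kernel.traj_map_frestrictLe,
        Kernel.partialTraj_self]
      exact Measure.id_comp
    have h2 : {ω : ℕ → V | ω 0 = v₀} = (frestrictLe (π := fun _ => V) 0) ⁻¹'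
        {h | h ⟨0, by simp⟩ = v₀} := rfl
    rw [h2, ← Measure.map_apply (measurable_frestrictLe (X := fun _ => V) 0)
      (DiscreteMeasurableSpace.forall_measurableSet _), h1,
      Measure.map_apply (by fun_prop) (DiscreteMeasurableSpace.forall_measurableSet _)]
    rw [Measure.dirac_apply_of_mem]
    rfl
  · intro t x w
    have h1 := Kernel.map_frestrictLe_trajMeasure_compProd_eq_map_trajMeasure
      (X := fun _ => V) (μ₀ := Measure.dirac v₀) (κ := κ) (a := t)
    let h₀ : Finset.Iic t → V := fun i => x i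
    have hA : {ω : ℕ → V | ∀ s, s ≤ t → ω s = x s} =
        (frestrictLe (π := fun _ => V) t) ⁻¹' {h₀} := by
      ext ω
      simp only [Set.mem_ofPred_eq, Set.mem_preimage, Set.mem_singleton_iff]
      constructor
      · intro h
        funext i
        exact h i (Finset.mem_Iic.1 i.2)
      · intro h s hs
        exact congrFun h ⟨s, Finset.mem_Iic.2 hs⟩
    have hB : {ω : ℕ → V | (∀ s, s ≤ t → ω s = x s) ∧ ω (t + 1) = w} =
        (fun ω : ℕ → V => (frestrictLe (π := fun _ => V) t ω, ω (t + 1))) ⁻¹' ({h₀} ×ˢ {w}) := by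
      ext ω
      have := Set.ext_iff.1 hA ω
      simp only [Set.mem_ofPred_eq, Set.mem_preimage, Set.mem_singleton_iff] at this
      simp only [Set.mem_ofPred_eq, Set.mem_preimage, Set.mem_prod, Set.mem_singleton_iff, this]
    have hx : ∀ s, s ≤ t → extPath v₀ t h₀ s = x s := by
      intro s hs
      simp [extPath, hs, h₀]
    rw [hB, hA, ← Measure.map_apply (by fun_prop) (DiscreteMeasurableSpace.forall_measurableSet _),
      ← Measure.map_apply (measurable_frestrictLe (X := fun _ => V) t)
        (DiscreteMeasurableSpace.forall_measurableSet _)]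
    unfold P
    rw [← h1, Measure.compProd_apply_prod (measurableSet_singleton _) (measurableSet_singleton _),
      lintegral_singleton, mul_comm]
    congr 1
    change (q t h₀).toMeasure {w} = _
    rw [PMF.toMeasure_apply_singleton _ _ (measurableSet_singleton _)]
    simp only [q, PMF.uniformOfFinset_apply, Set.Finite.mem_toFinset]
    rw [← Set.ncard_eq_toFinset_card _ (allowed_finite G hfin _ _), crossed_congr hx, hx t le_rfl]

theorem exists_GRW [Countable V] (hfin : ∀ v, (G.neighborSet v).Finite)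
    (hne : ∀ v, ∃ w, G.Adj v w) (v₀ : V) :
    ∃ (Ω : Type) (_ : MeasurableSpace Ω) (P : Measure Ω) (X : ℕ → Ω → V),
      IsProbabilityMeasure P ∧ IsGRW G v₀ P X :=
  @exists_GRW_aux V G _ ⊤ (@DiscreteMeasurableSpace.mk V ⊤ fun _ => trivial) hfin hne v₀

end Pool.Agent.H487Z
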