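import Pool.Agent.H487Z.Abstract

set_option autoImplicit false
set_option linter.unusedSectionVars false

namespace Pool.Agent.H487Z

open scoped Classical

/-- indicator of a proposition -/
noncomputable def ind (p : Prop) : ℝ := if p then 1 else 0

theorem ind_pos {p : Prop} (h : p) : ind p = 1 := if_pos h

theorem ind_neg {p : Prop} (h : ¬ p) : ind p = 0 := if_neg h

theorem ind_nonneg (p : Prop) : 0 ≤ ind p := by
  unfold ind
  split_ifs <;> norm_num

theorem ind_le_one (p : Prop) : ind p ≤ 1 := by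
  unfold ind
  split_ifs <;> norm_num

theorem ind_mono {p q : Prop} (h : p → q) : ind p ≤ ind q := by
  by_cases hp : p
  · rw [ind_pos hp, ind_pos (h hp)]
  · rw [ind_neg hp]
    exact ind_nonneg q

theorem ind_congr {p q : Prop} (h : p ↔ q) : ind p = ind q := by rw [propext h]

@[simp] theorem ind_true : ind True = 1 := ind_pos trivial

@[simp] theorem ind_false : ind False = 0 := ind_neg id

/-- parameters of the construction -/
structure Par where
  e : ℕ → ℕ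
  M : ℕ
  nb : ℕ → Finset ℕ
  E : ℝ
  W : ℝ
  δ : ℝ
  hM : 4 ≤ M
  nb_symm : ∀ i j, i ∈ nb j → j ∈ nb i
  nb_irr : ∀ j, j ∉ nb j
  he1 : ∀ j, E * (9 / 8) ^ j ≤ e j
  he2 : ∀ j, (e j : ℝ) ≤ 2 * E * (9 / 8) ^ j
  hδ0 : 0 < δ
  hδ : 10000 ≤ Real.log (1 / δ)
  hδR : 200 ≤ δ * (M - 1 / 3)
  hδE : 102 ≤ δ * E
  hER : 2 * ((M : ℝ) - 1 / 3) ≤ E
  hW0 : 0 ≤ W
  hEW : 300 * ((M : ℝ) - 1 / 3) * W ≤ E
  hw : ∀ j, (∑ i ∈ nb j, ((i - j : ℕ) : ℝ)) ≤ W * (17 / 16) ^ j

namespace Par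

variable (P : Par)

/-- valves -/
abbrev Va := Σ j : ℕ, Fin (P.e j)

/-- vertices -/
abbrev Vx := ℕ ⊕ (P.Va × {n : ℕ // 1 ≤ n ∧ n ≤ P.M})

/-- the valves of the cut `j` -/
def fib (j : ℕ) : Finset P.Va :=
  Finset.univ.map ⟨Sigma.mk (β := fun j => Fin (P.e j)) j, sigma_mk_injective⟩

theorem mem_fib {j : ℕ} {v : P.Va} : v ∈ P.fib j ↔ v.1 = j := by
  obtain ⟨i, a⟩ := v
  simp only [fib, Finset.mem_map, Finset.mem_univ, Function.Embedding.coeFn_mk, true_and]
  constructor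
  · rintro ⟨b, hb⟩
    exact (congrArg Sigma.fst hb).symm
  · rintro rfl
    exact ⟨a, rfl⟩

theorem card_fib (j : ℕ) : (P.fib j).card = P.e j := by simp [fib]

/-- the `n`-th vertex along the valve `v` -/
def node (v : P.Va) (n : ℕ) : P.Vx :=
  if h : 1 ≤ n ∧ n ≤ P.M then Sum.inr (v, ⟨n, h⟩)
  else if n = 0 then Sum.inl v.1 else Sum.inl (v.1 + 1)

theorem node_zero (v : P.Va) : P.node v 0 = Sum.inl v.1 := by simp [node]

theorem node_top (v : P.Va) : P.node v (P.M + 1) = Sum.inl (v.1 + 1) := by simp [node]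

theorem node_inn (v : P.Va) {n : ℕ} (h : 1 ≤ n ∧ n ≤ P.M) :
    P.node v n = Sum.inr (v, ⟨n, h⟩) := by simp [node, h]

/-- adjacency -/
def adj : P.Vx → P.Vx → Prop
  | Sum.inl i, Sum.inl j => i ∈ P.nb j
  | Sum.inl i, Sum.inr (v, n) => (i = v.1 ∧ n.1 = 1) ∨ (i = v.1 + 1 ∧ n.1 = P.M)
  | Sum.inr (v, n), Sum.inl i => (i = v.1 ∧ n.1 = 1) ∨ (i = v.1 + 1 ∧ n.1 = P.M)
  | Sum.inr (v, n), Sum.inr (v', n') => v = v' ∧
      (n.1 + 1 = n'.1 ∨ n'.1 + 1 = n.1 ∨ (n.1 = 1 ∧ n'.1 = 3) ∨ (n.1 = 3 ∧ n'.1 = 1))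

/-- the graph -/
def G : SimpleGraph P.Vx where
  Adj := P.adj
  symm := ⟨by
    rintro (i | ⟨v, n⟩) (j | ⟨v', n'⟩) h
    · exact P.nb_symm _ _ h
    · exact h
    · exact h
    · obtain ⟨h1, h2⟩ := h
      exact ⟨h1.symm, by omega⟩⟩
  loopless := ⟨by
    rintro (i | ⟨v, n⟩) h
    · exact P.nb_irr _ h
    · obtain ⟨_, h2⟩ := h
      omega⟩

theorem adj_hub (j : ℕ) (w : P.Vx) : P.G.Adj (Sum.inl j) w ↔
    (∃ v : P.Va, v.1 = j ∧ w = P.node v 1) ∨ (∃ v : P.Va, v.1 + 1 = j ∧ w = P.node v P.M) ∨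
      ∃ i ∈ P.nb j, w = Sum.inl i := by
  have hM := P.hM
  have h1 : ∀ v, P.node v 1 = Sum.inr (v, ⟨1, by omega⟩) := fun v => P.node_inn v (by omega)
  have h2 : ∀ v, P.node v P.M = Sum.inr (v, ⟨P.M, by omega⟩) := fun v => P.node_inn v (by omega)
  simp only [h1, h2]
  rcases w with i | ⟨v, n, hn⟩
  · change j ∈ P.nb i ↔ _
    simp only [reduceCtorEq, and_false, exists_false, false_or, Sum.inl.injEq, exists_eq_right']
    exact ⟨P.nb_symm _ _, P.nb_symm _ _⟩
  · change (j = v.1 ∧ n = 1) ∨ (j = v.1 + 1 ∧ n = P.M) ↔ _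
    simp only [Sum.inr.injEq, Prod.mk.injEq, Subtype.mk.injEq, reduceCtorEq, and_false,
      exists_false, or_false]
    constructor
    · rintro (⟨rfl, rfl⟩ | ⟨rfl, rfl⟩)
      · exact Or.inl ⟨v, rfl, rfl, rfl⟩
      · exact Or.inr ⟨v, rfl, rfl, rfl⟩
    · rintro (⟨v', rfl, rfl, rfl⟩ | ⟨v', rfl, rfl, rfl⟩)
      · exact Or.inl ⟨rfl, rfl⟩
      · exact Or.inr ⟨rfl, rfl⟩

theorem adj_node (v : P.Va) {n : ℕ} (h : 1 ≤ n ∧ n ≤ P.M) (w : P.Vx) :
    P.G.Adj (P.node v n) w ↔ w = P.node v (n - 1) ∨ w = P.node v (n + 1) ∨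
      (n = 1 ∧ w = P.node v 3) ∨ (n = 3 ∧ w = P.node v 1) := by
  have hM := P.hM
  rw [P.node_inn v h]
  rcases w with i | ⟨v', n', hn'⟩
  · change (i = v.1 ∧ n = 1) ∨ (i = v.1 + 1 ∧ n = P.M) ↔ _
    have h3 : Sum.inl i ≠ P.node v 3 := by
      rw [P.node_inn v (n := 3) (by omega)]
      simp
    have h1 : Sum.inl i ≠ P.node v 1 := by
      rw [P.node_inn v (n := 1) (by omega)]
      simp
    have h2 : Sum.inl i = P.node v (n - 1) ↔ (i = v.1 ∧ n = 1) := by
      by_cases hn : n = 1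
      · subst hn
        simp [node]
      · rw [P.node_inn v (n := n - 1) (by omega)]
        simp [hn]
    have h4 : Sum.inl i = P.node v (n + 1) ↔ (i = v.1 + 1 ∧ n = P.M) := by
      by_cases hn : n = P.M
      · rw [hn]
        simp [node]
      · rw [P.node_inn v (n := n + 1) (by omega)]
        simp [hn]
    simp only [h1, h2, h3, h4, and_false, or_false]
  · change v = v' ∧ (n + 1 = n' ∨ n' + 1 = n ∨ (n = 1 ∧ n' = 3) ∨ (n = 3 ∧ n' = 1)) ↔ _
    by_cases hv : v = v'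
    · subst hv
      unfold node
      split_ifs <;> simp <;> omega
    · have hv' : ¬ v' = v := fun h => hv h.symm
      unfold node
      split_ifs <;> simp [hv, hv']

theorem node_inj {v v' : P.Va} {n n' : ℕ} (h : 1 ≤ n ∧ n ≤ P.M) :
    P.node v n = P.node v' n' ↔ v = v' ∧ n = n' := by
  constructor
  · intro he
    rw [P.node_inn v h] at he
    unfold node at he
    split_ifs at he
    · simpa using he
  · rintro ⟨rfl, rfl⟩
    rfl

theorem node_ne_hub {v : P.Va} {n : ℕ} (h : 1 ≤ n ∧ n ≤ P.M) (i : ℕ) :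
    P.node v n ≠ Sum.inl i := by
  rw [P.node_inn v h]
  simp

theorem node_inj_same {v : P.Va} {n n' : ℕ} (h : n ≤ P.M + 1) (h' : n' ≤ P.M + 1) :
    P.node v n = P.node v n' ↔ n = n' := by
  constructor
  · intro he
    unfold node at he
    split_ifs at he <;> simp at he <;> omega
  · rintro rfl
    rfl

/-- path edges -/
def pE (v : P.Va) (n : ℕ) : Sym2 P.Vx := s(P.node v n, P.node v (n + 1))

/-- chords -/
def cE (v : P.Va) : Sym2 P.Vx := s(P.node v 1, P.node v 3)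

/-- thin edges -/
def tE (i j : ℕ) : Sym2 P.Vx := s(Sum.inl i, Sum.inl j)

theorem pE_inj {v v' : P.Va} {n n' : ℕ} (h : n ≤ P.M) (h' : n' ≤ P.M) :
    P.pE v n = P.pE v' n' ↔ v = v' ∧ n = n' := by
  have hM := P.hM
  constructor
  · intro he
    unfold pE at he
    rw [Sym2.eq_iff] at he
    have hv : v = v' := by
      rcases Nat.eq_zero_or_pos n with h0 | h0
      · subst h0
        rcases he with ⟨_, h2⟩ | ⟨_, h2⟩
        · exact ((P.node_inj (by omega)).1 h2).1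
        · exact ((P.node_inj (by omega)).1 h2).1
      · rcases he with ⟨h2, _⟩ | ⟨h2, _⟩
        · exact ((P.node_inj (by omega)).1 h2).1
        · exact ((P.node_inj (by omega)).1 h2).1
    subst hv
    refine ⟨rfl, ?_⟩
    rcases he with ⟨h1, _⟩ | ⟨h1, h2⟩
    · exact (P.node_inj_same (by omega) (by omega)).1 h1
    · have := (P.node_inj_same (by omega) (by omega)).1 h1
      have := (P.node_inj_same (by omega) (by omega)).1 h2
      omega
  · rintro ⟨rfl, rfl⟩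
    rfl

theorem cE_inj {v v' : P.Va} : P.cE v = P.cE v' ↔ v = v' := by
  have hM := P.hM
  constructor
  · intro he
    unfold cE at he
    rw [Sym2.eq_iff] at he
    rcases he with ⟨h2, _⟩ | ⟨h2, _⟩
    · exact ((P.node_inj (by omega)).1 h2).1
    · exact ((P.node_inj (by omega)).1 h2).1
  · rintro rfl
    rfl

theorem cE_ne_pE (v v' : P.Va) (n : ℕ) : P.cE v ≠ P.pE v' n := by
  have hM := P.hM
  intro he
  unfold cE pE at he
  rw [Sym2.eq_iff] at he
  rcases he with ⟨h1, h2⟩ | ⟨h1, h2⟩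
  · have := ((P.node_inj (by omega)).1 h1).2
    have := ((P.node_inj (by omega)).1 h2).2
    omega
  · have := ((P.node_inj (by omega)).1 h1).2
    have := ((P.node_inj (by omega)).1 h2).2
    omega

theorem pE_ne_tE (v : P.Va) {n : ℕ} (h : n ≤ P.M) (i j : ℕ) : P.pE v n ≠ P.tE i j := by
  have hM := P.hM
  intro he
  unfold tE pE at he
  rw [Sym2.eq_iff] at he
  rcases Nat.eq_zero_or_pos n with h0 | h0
  · subst h0
    rcases he with ⟨_, h2⟩ | ⟨_, h2⟩
    · exact P.node_ne_hub (by omega) _ h2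
    · exact P.node_ne_hub (by omega) _ h2
  · rcases he with ⟨h2, _⟩ | ⟨h2, _⟩
    · exact P.node_ne_hub (by omega) _ h2
    · exact P.node_ne_hub (by omega) _ h2

theorem cE_ne_tE (v : P.Va) (i j : ℕ) : P.cE v ≠ P.tE i j := by
  have hM := P.hM
  intro he
  unfold tE cE at he
  rw [Sym2.eq_iff] at he
  rcases he with ⟨h2, _⟩ | ⟨h2, _⟩
  · exact P.node_ne_hub (by omega) _ h2
  · exact P.node_ne_hub (by omega) _ h2

theorem e_pos (j : ℕ) : 0 < P.e j := by
  have h1 := P.he1 j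
  have h2 := P.hδE
  have h3 := P.hδ0
  have hE : 0 < P.E := by
    by_contra h
    nlinarith [not_lt.1 h]
  have : (0 : ℝ) < P.e j := lt_of_lt_of_le (by positivity) h1
  exact_mod_cast this

/-- neighbours of a hub -/
noncomputable def nbHub (j : ℕ) : Finset P.Vx :=
  ((P.fib j).image (fun v => P.node v 1) ∪
    ((P.fib (j - 1)).filter (fun v => v.1 + 1 = j)).image (fun v => P.node v P.M)) ∪
    (P.nb j).image Sum.inl

theorem mem_nbHub {j : ℕ} {w : P.Vx} : w ∈ P.nbHub j ↔ P.G.Adj (Sum.inl j) w := by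
  rw [adj_hub]
  simp only [nbHub, Finset.mem_union, Finset.mem_image, Finset.mem_filter, mem_fib]
  constructor
  · rintro ((⟨v, h, rfl⟩ | ⟨v, h, rfl⟩) | ⟨i, h, rfl⟩)
    · exact Or.inl ⟨v, h, rfl⟩
    · exact Or.inr (Or.inl ⟨v, h.2, rfl⟩)
    · exact Or.inr (Or.inr ⟨i, h, rfl⟩)
  · rintro (⟨v, h, rfl⟩ | ⟨v, h, rfl⟩ | ⟨i, h, rfl⟩)
    · exact Or.inl (Or.inl ⟨v, h, rfl⟩)
    · exact Or.inl (Or.inr ⟨v, ⟨by omega, h⟩, rfl⟩)
    · exact Or.inr ⟨i, h, rfl⟩

theorem hfin (x : P.Vx) : (P.G.neighborSet x).Finite := by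
  rcases x with j | ⟨v, n, hn⟩
  · refine (P.nbHub j).finite_toSet.subset fun w hw => ?_
    exact P.mem_nbHub.2 hw
  · refine (Set.toFinite {P.node v (n - 1), P.node v (n + 1), P.node v 3, P.node v 1}).subset
      fun w hw => ?_
    have : P.G.Adj (P.node v n) w := by rw [P.node_inn v hn]; exact hw
    rw [P.adj_node v hn] at this
    simp only [Set.mem_insert_iff, Set.mem_singleton_iff]
    tauto

theorem hne (x : P.Vx) : ∃ w, P.G.Adj x w := by
  rcases x with j | ⟨v, n, hn⟩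
  · exact ⟨_, (P.adj_hub j _).2 (Or.inl ⟨⟨j, ⟨0, P.e_pos j⟩⟩, rfl, rfl⟩)⟩
  · refine ⟨P.node v (n + 1), ?_⟩
    rw [← P.node_inn v hn, P.adj_node v hn]
    tauto

theorem adj_succ (v : P.Va) {n : ℕ} (h : n ≤ P.M) : P.G.Adj (P.node v n) (P.node v (n + 1)) := by
  have hM := P.hM
  rcases Nat.eq_zero_or_pos n with h0 | h0
  · subst h0
    rw [P.node_zero, P.adj_hub]
    exact Or.inl ⟨v, rfl, rfl⟩
  · rw [P.adj_node v ⟨h0, h⟩]
    tauto

theorem reach_node (v : P.Va) : ∀ n, n ≤ P.M + 1 → P.G.Reachable (Sum.inl v.1) (P.node v n) := by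
  intro n
  induction n with
  | zero => intro _; rw [P.node_zero]
  | succ n ih => intro h; exact (ih (by omega)).trans (P.adj_succ v (by omega)).reachable

theorem reach_hub : ∀ j : ℕ, P.G.Reachable (Sum.inl 0) (Sum.inl j) := by
  intro j
  induction j with
  | zero => rfl
  | succ j ih =>
    have := P.reach_node ⟨j, ⟨0, P.e_pos j⟩⟩ (P.M + 1) le_rfl
    rw [P.node_top] at this
    exact ih.trans this

theorem conn : P.G.Connected := by
  have h : ∀ x, P.G.Reachable (Sum.inl 0) x := by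
    rintro (j | ⟨v, n, hn⟩)
    · exact P.reach_hub j
    · rw [← P.node_inn v hn]
      exact (P.reach_hub v.1).trans (P.reach_node v n (by omega))
  exact ⟨fun x y => (h x).symm.trans (h y)⟩

/-- neighbours as a finite set -/
noncomputable def nbF (x : P.Vx) : Finset P.Vx := (P.hfin x).toFinset

theorem mem_nbF {x w : P.Vx} : w ∈ P.nbF x ↔ P.G.Adj x w := by simp [nbF]

theorem sum_alF_all {x : P.Vx} {H : Set (Sym2 P.Vx)} (hall : ∀ u, P.G.Adj x u → s(x, u) ∈ H)
    (f : P.Vx → ℝ) : ∑ w ∈ alF P.G P.hfin x H, f w = ∑ w ∈ P.nbF x, f w := by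
  congr 1
  ext w
  rw [mem_alF, mem_nbF]
  exact ⟨fun h => h.1, fun h => ⟨h, Or.inr hall⟩⟩

theorem sum_alF_greedy {x : P.Vx} {H : Set (Sym2 P.Vx)}
    (hall : ¬ ∀ u, P.G.Adj x u → s(x, u) ∈ H) (f : P.Vx → ℝ) :
    ∑ w ∈ alF P.G P.hfin x H, f w = ∑ w ∈ P.nbF x, ind (s(x, w) ∉ H) * f w := by
  have : alF P.G P.hfin x H = (P.nbF x).filter fun w => ¬ s(x, w) ∈ H := by
    ext w
    rw [mem_alF, Finset.mem_filter, mem_nbF]
    exact ⟨fun h => ⟨h.1, h.2.resolve_right hall⟩, fun h => ⟨h.1, Or.inl h.2⟩⟩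
  rw [this, Finset.sum_filter]
  refine Finset.sum_congr rfl fun w _ => ?_
  split_ifs with h
  · rw [ind_neg (not_not.2 h), zero_mul]
  · rw [ind_pos h, one_mul]

theorem sum_nbF_hub (j : ℕ) (f : P.Vx → ℝ) : ∑ w ∈ P.nbF (Sum.inl (j + 1)), f w =
    ∑ v ∈ P.fib (j + 1), f (P.node v 1) + ∑ v ∈ P.fib j, f (P.node v P.M) +
      ∑ i ∈ P.nb (j + 1), f (Sum.inl i) := by
  have hM := P.hM
  have h0 : P.nbF (Sum.inl (j + 1)) = P.nbHub (j + 1) := by
    ext w
    rw [mem_nbF, mem_nbHub]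
  have h1 : (P.fib (j + 1 - 1)).filter (fun v => v.1 + 1 = j + 1) = P.fib j := by
    ext v
    simp only [Finset.mem_filter, mem_fib]
    omega
  rw [h0, nbHub, h1, Finset.sum_union, Finset.sum_union, Finset.sum_image, Finset.sum_image,
    Finset.sum_image]
  · intro a _ b _ h
    exact Sum.inl_injective h
  · intro a _ b _ h
    exact ((P.node_inj (by omega)).1 h).1
  · intro a _ b _ h
    exact ((P.node_inj (by omega)).1 h).1
  · rw [Finset.disjoint_left]
    intro w h1 h2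
    obtain ⟨a, _, rfl⟩ := Finset.mem_image.1 h1
    obtain ⟨b, _, hb⟩ := Finset.mem_image.1 h2
    have := ((P.node_inj (by omega)).1 hb).2
    omega
  · rw [Finset.disjoint_left]
    intro w h1 h2
    obtain ⟨i, _, rfl⟩ := Finset.mem_image.1 h2
    rcases Finset.mem_union.1 h1 with h | h
    · obtain ⟨a, _, ha⟩ := Finset.mem_image.1 h
      exact P.node_ne_hub (by omega) _ ha
    · obtain ⟨a, _, ha⟩ := Finset.mem_image.1 h
      exact P.node_ne_hub (by omega) _ ha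

theorem sum_nbF_one (v : P.Va) (f : P.Vx → ℝ) : ∑ w ∈ P.nbF (P.node v 1), f w =
    f (P.node v 0) + f (P.node v 2) + f (P.node v 3) := by
  have hM := P.hM
  have h0 : P.nbF (P.node v 1) = {P.node v 0, P.node v 2, P.node v 3} := by
    ext w
    rw [mem_nbF, P.adj_node v (by omega)]
    simp
  rw [h0, Finset.sum_insert, Finset.sum_insert, Finset.sum_singleton, add_assoc]
  · simp [P.node_inj_same (v := v) (n := 2) (n' := 3) (by omega) (by omega)]
  · simp [P.node_inj_same (v := v) (n := 0) (n' := 3) (by omega) (by omega),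
      P.node_inj_same (v := v) (n := 0) (n' := 2) (by omega) (by omega)]

theorem sum_nbF_three (v : P.Va) (f : P.Vx → ℝ) : ∑ w ∈ P.nbF (P.node v 3), f w =
    f (P.node v 2) + f (P.node v 4) + f (P.node v 1) := by
  have hM := P.hM
  have h0 : P.nbF (P.node v 3) = {P.node v 2, P.node v 4, P.node v 1} := by
    ext w
    rw [mem_nbF, P.adj_node v (by omega)]
    simp
  rw [h0, Finset.sum_insert, Finset.sum_insert, Finset.sum_singleton, add_assoc]
  · simp [P.node_inj_same (v := v) (n := 4) (n' := 1) (by omega) (by omega)]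
  · simp [P.node_inj_same (v := v) (n := 2) (n' := 4) (by omega) (by omega),
      P.node_inj_same (v := v) (n := 2) (n' := 1) (by omega) (by omega)]

theorem sum_nbF_other (v : P.Va) {n : ℕ} (h : n + 1 ≤ P.M) (h1 : n ≠ 0) (h3 : n ≠ 2)
    (f : P.Vx → ℝ) : ∑ w ∈ P.nbF (P.node v (n + 1)), f w =
    f (P.node v n) + f (P.node v (n + 2)) := by
  have hM := P.hM
  have h0 : P.nbF (P.node v (n + 1)) = {P.node v n, P.node v (n + 2)} := by
    ext w
    rw [mem_nbF, P.adj_node v (by omega)]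
    simp [h1, h3]
  rw [h0, Finset.sum_insert, Finset.sum_singleton]
  simp [P.node_inj_same (v := v) (n := n) (n' := n + 2) (by omega) (by omega)]

end Par

end Pool.Agent.H487Z
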