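import Pool.Agent.H487Z.HeDefs

set_option autoImplicit false
set_option linter.unusedSectionVars false

namespace Pool.Agent.H487Z.Heesch

open Set Metric Complex MeasureTheory
open scoped Classical

/-- the sup norm -/
noncomputable def nu (z : ℂ) : ℝ := max |z.re| |z.im|

theorem continuous_nu : Continuous nu := by
  unfold nu
  fun_prop

theorem nu_le_iff {z : ℂ} {r : ℝ} :
    nu z ≤ r ↔ (-r ≤ z.re ∧ z.re ≤ r) ∧ -r ≤ z.im ∧ z.im ≤ r := by
  simp [nu, abs_le]

theorem nu_lt_iff {z : ℂ} {r : ℝ} :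
    nu z < r ↔ (-r < z.re ∧ z.re < r) ∧ -r < z.im ∧ z.im < r := by
  simp [nu, abs_lt]

theorem nu_le_norm (z : ℂ) : nu z ≤ ‖z‖ := max_le (abs_re_le_norm z) (abs_im_le_norm z)

theorem norm_le_nu (z : ℂ) : ‖z‖ ≤ 2 * nu z := by
  have := norm_le_abs_re_add_abs_im z
  have h1 : |z.re| ≤ nu z := le_max_left _ _
  have h2 : |z.im| ≤ nu z := le_max_right _ _
  linarith

theorem norm_lt_two {z : ℂ} (h : nu z ≤ 1) : ‖z‖ < 2 := by
  rw [nu_le_iff] at h
  have h1 : ‖z‖ ^ 2 = z.re * z.re + z.im * z.im := by rw [← normSq_apply, normSq_eq_norm_sq]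
  by_contra h2
  nlinarith [not_lt.1 h2]

/-- the two shapes: a square and a square ring -/
def sh : Bool → Set ℂ
  | false => {z | nu z ≤ 1}
  | true => {z | 1 ≤ nu z ∧ nu z ≤ 3}

theorem sh_le {b : Bool} {z : ℂ} (h : z ∈ sh b) : nu z ≤ 3 := by
  cases b
  · exact le_trans h (by norm_num)
  · exact h.2

theorem isCompact_sh (b : Bool) : IsCompact (sh b) := by
  refine isCompact_of_isClosed_isBounded ?_
    ((isBounded_closedBall (x := (0 : ℂ)) (r := 6)).subset fun z hz => ?_)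
  · cases b
    · exact isClosed_le continuous_nu continuous_const
    · exact (isClosed_le continuous_const continuous_nu).inter
        (isClosed_le continuous_nu continuous_const)
  · rw [mem_closedBall_zero_iff]
    linarith [norm_le_nu z, sh_le hz]

theorem box_atom {a b c d : ℝ} (hab : a < b) (hcd : c < d) :
    IsOpen (Ioo a b ×ℂ Ioo c d) ∧ IsPreconnected (Ioo a b ×ℂ Ioo c d) ∧
      closure (Ioo a b ×ℂ Ioo c d) = Icc a b ×ℂ Icc c d := by
  refine ⟨isOpen_Ioo.reProdIm isOpen_Ioo, Convex.isPreconnected ?_, ?_⟩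
  · exact ((convex_halfSpace_re_gt a).inter (convex_halfSpace_re_lt b)).inter
      ((convex_halfSpace_im_gt c).inter (convex_halfSpace_im_lt d))
  · rw [closure_reProdIm, closure_Ioo hab.ne, closure_Ioo hcd.ne]

theorem atom {b : Bool} {z : ℂ} (h : z ∈ sh b) : ∃ U : Set ℂ, IsOpen U ∧ IsPreconnected U ∧
    z ∈ closure U ∧ U ⊆ sh b ∧ (b = false → ball 0 1 ⊆ U) ∧
      (b = true → ∃ x ∈ U, ∃ y ∈ U, 4 ≤ dist x y) := by
  have main : ∀ a₁ a₂ c d : ℝ, a₁ < a₂ → c < d → z ∈ Icc a₁ a₂ ×ℂ Icc c d →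
      Ioo a₁ a₂ ×ℂ Ioo c d ⊆ sh b → (b = false → ball 0 1 ⊆ Ioo a₁ a₂ ×ℂ Ioo c d) →
      (b = true → ∃ x ∈ Ioo a₁ a₂ ×ℂ Ioo c d, ∃ y ∈ Ioo a₁ a₂ ×ℂ Ioo c d, 4 ≤ dist x y) →
      ∃ U : Set ℂ, IsOpen U ∧ IsPreconnected U ∧
        z ∈ closure U ∧ U ⊆ sh b ∧ (b = false → ball 0 1 ⊆ U) ∧
        (b = true → ∃ x ∈ U, ∃ y ∈ U, 4 ≤ dist x y) := by
    intro a₁ a₂ c d h1 h2 h3 h4 h5 h6
    obtain ⟨g1, g2, g3⟩ := box_atom h1 h2
    exact ⟨_, g1, g2, g3 ▸ h3, h4, h5, h6⟩
  have dre : ∀ x y : ℂ, 4 ≤ x.re - y.re → 4 ≤ dist x y := fun x y h => by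
    rw [dist_eq_norm]
    exact h.trans ((le_abs_self _).trans (abs_re_le_norm (x - y)))
  have dim : ∀ x y : ℂ, 4 ≤ x.im - y.im → 4 ≤ dist x y := fun x y h => by
    rw [dist_eq_norm]
    exact h.trans ((le_abs_self _).trans (abs_im_le_norm (x - y)))
  cases b
  · refine main (-1) 1 (-1) 1 (by norm_num) (by norm_num) (nu_le_iff.1 h) ?_ ?_ (by simp)
    · intro w hw
      exact (nu_lt_iff.2 hw).le
    · intro _ w hw
      exact nu_lt_iff.1 ((nu_le_norm w).trans_lt (mem_ball_zero_iff.1 hw))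
  · obtain ⟨h1, h3⟩ := h
    rw [nu_le_iff] at h3
    have sub : ∀ w : ℂ, (-3 < w.re ∧ w.re < 3) ∧ -3 < w.im ∧ w.im < 3 →
        (1 < w.re ∨ w.re < -1 ∨ 1 < w.im ∨ w.im < -1) → w ∈ sh true := by
      intro w hw hw'
      refine ⟨not_lt.1 fun h => ?_, (nu_lt_iff.2 hw).le⟩
      rw [nu_lt_iff] at h
      rcases hw' with h' | h' | h' | h' <;> linarith [h.1.1, h.1.2, h.2.1, h.2.2]
    have h2 : 1 ≤ z.re ∨ z.re ≤ -1 ∨ 1 ≤ z.im ∨ z.im ≤ -1 := by
      by_contra h
      push Not at h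
      exact absurd (nu_lt_iff.2 ⟨⟨h.2.1, h.1⟩, h.2.2.2, h.2.2.1⟩) (not_lt.2 h1)
    rcases h2 with h2 | h2 | h2 | h2
    · refine main 1 3 (-3) 3 (by norm_num) (by norm_num) ⟨⟨h2, h3.1.2⟩, h3.2⟩ ?_ (by simp)
        fun _ => ⟨⟨2, 2⟩, ?_, ⟨2, -2⟩, ?_, dim _ _ (by norm_num)⟩
      · intro w hw
        exact sub w ⟨⟨by linarith [hw.1.1], hw.1.2⟩, hw.2⟩ (Or.inl hw.1.1)
      all_goals norm_num [mem_reProdIm]
    · refine main (-3) (-1) (-3) 3 (by norm_num) (by norm_num) ⟨⟨h3.1.1, h2⟩, h3.2⟩ ?_ (by simp)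
        fun _ => ⟨⟨-2, 2⟩, ?_, ⟨-2, -2⟩, ?_, dim _ _ (by norm_num)⟩
      · intro w hw
        exact sub w ⟨⟨hw.1.1, by linarith [hw.1.2]⟩, hw.2⟩ (Or.inr (Or.inl hw.1.2))
      all_goals norm_num [mem_reProdIm]
    · refine main (-3) 3 1 3 (by norm_num) (by norm_num) ⟨h3.1, h2, h3.2.2⟩ ?_ (by simp)
        fun _ => ⟨⟨2, 2⟩, ?_, ⟨-2, 2⟩, ?_, dre _ _ (by norm_num)⟩
      · intro w hw
        exact sub w ⟨hw.1, by linarith [hw.2.1], hw.2.2⟩ (Or.inr (Or.inr (Or.inl hw.2.1)))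
      all_goals norm_num [mem_reProdIm]
    · refine main (-3) 3 (-3) (-1) (by norm_num) (by norm_num) ⟨h3.1, h3.2.1, h2⟩ ?_ (by simp)
        fun _ => ⟨⟨2, -2⟩, ?_, ⟨-2, -2⟩, ?_, dre _ _ (by norm_num)⟩
      · intro w hw
        exact sub w ⟨hw.1, hw.2.1, by linarith [hw.2.2]⟩ (Or.inr (Or.inr (Or.inr hw.2.2)))
      all_goals norm_num [mem_reProdIm]

theorem hole {V : Set ℂ} (hV : IsPreconnected V) (h0 : 0 ∈ closure V)
    (h : ∀ v ∈ V, ¬ (1 < nu v ∧ nu v < 3)) : ∀ v ∈ V, nu v ≤ 1 := by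
  intro v hv
  by_contra h1
  obtain ⟨w, hw, hw'⟩ := mem_closure_iff.1 h0 {z | nu z < 1}
    (isOpen_lt continuous_nu continuous_const) (by simp [nu])
  have h2 := hV.intermediate_value hw' hv continuous_nu.continuousOn
  have h3 : nu w < 1 := hw
  have h4 : 1 < min (nu v) 2 := lt_min (not_le.1 h1) (by norm_num)
  obtain ⟨x, hx, hx'⟩ := h2 (show min (nu v) 2 ∈ Icc (nu w) (nu v) from
    ⟨by linarith, min_le_left _ _⟩)
  exact h x hx ⟨hx' ▸ h4, hx' ▸ (min_le_right _ _).trans_lt (by norm_num)⟩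

theorem center_eq {w : ℂ} (h : ∀ z ∈ ball w 1, nu z ≤ 1) : w = 0 := by
  have h1 : closedBall w 1 ⊆ {z | nu z ≤ 1} := by
    rw [← closure_ball w one_ne_zero]
    exact closure_minimal h (isClosed_le continuous_nu continuous_const)
  have h2 : ∀ v : ℂ, ‖v‖ = 1 → nu (w + v) ≤ 1 := fun v hv =>
    h1 (by simp [mem_closedBall, dist_eq_norm, hv])
  have a := nu_le_iff.1 (h2 1 (by simp))
  have b := nu_le_iff.1 (h2 (-1) (by simp))
  have c := nu_le_iff.1 (h2 I (by simp))
  have d := nu_le_iff.1 (h2 (-I) (by simp))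
  simp at a b c d
  exact Complex.ext (by simpa using le_antisymm a.1.2 b.1.1) (by simpa using le_antisymm c.2.2 d.2.1)

variable {L : Type} [Fintype L]

/-- a union of placed shapes -/
def body (ring : L → Bool) (e : L → ℂ ≃ᵢ ℂ) : Set ℂ := ⋃ l, e l '' sh (ring l)

theorem image_body (ring : L → Bool) (e : L → ℂ ≃ᵢ ℂ) (g : ℂ ≃ᵢ ℂ) :
    g '' body ring e = body ring fun l => (e l).trans g := by
  simp [body, image_iUnion, image_image]

theorem mem_interior_body {ring : L → Bool} {e : L → ℂ ≃ᵢ ℂ} {l : L} {U : Set ℂ} (hU : IsOpen U)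
    (h : U ⊆ sh (ring l)) : e l '' U ⊆ interior (body ring e) :=
  interior_maximal ((image_mono h).trans (subset_iUnion (fun l => e l '' sh (ring l)) l))
    ((e l).toHomeomorph.isOpenMap U hU)

theorem isBody_body (ring : L → Bool) (e : L → ℂ ≃ᵢ ℂ) : IsBody (body ring e) := by
  have hc : IsCompact (body ring e) :=
    isCompact_iUnion fun l => (isCompact_sh _).image (e l).continuous
  refine ⟨hc, Subset.antisymm (closure_minimal interior_subset hc.isClosed) ?_⟩
  intro x hx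
  obtain ⟨l, z, hz, rfl⟩ := mem_iUnion.1 hx
  obtain ⟨U, h1, _, h3, h4, _⟩ := atom hz
  exact closure_mono (mem_interior_body h1 h4)
    (image_closure_subset_closure_image (e l).continuous ⟨z, h3, rfl⟩)

theorem ring_int {ring : L → Bool} {e : L → ℂ ≃ᵢ ℂ} {l : L} (hl : ring l = true) {z : ℂ}
    (hz : 1 < nu z ∧ nu z < 3) : e l z ∈ interior (body ring e) :=
  mem_interior_body (U := {z | 1 < nu z ∧ nu z < 3})
    ((isOpen_lt continuous_const continuous_nu).inter (isOpen_lt continuous_nu continuous_const))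
    (by rw [hl]; exact fun w hw => ⟨hw.1.le, hw.2.le⟩) ⟨z, hz, rfl⟩

theorem fill {ring : L → Bool} {e e' : L → ℂ ≃ᵢ ℂ} {l : L} (hl : ring l = true)
    (hd : Disjoint (interior (body ring e)) (interior (body ring e')))
    (h : e l 0 ∈ body ring e') : ∃ l', ring l' = false ∧ e' l' 0 = e l 0 := by
  obtain ⟨l', z, hz, hz'⟩ := mem_iUnion.1 h
  obtain ⟨U, h1, h2, h3, h4, h5, h6⟩ := atom hz
  let ψ : ℂ ≃ᵢ ℂ := (e' l').trans (e l).symm
  have hψ : ∀ x, e l (ψ x) = e' l' x := fun x => (e l).apply_symm_apply _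
  have h0 : ψ z = 0 := (e l).injective (by rw [hψ, hz'])
  have h7 := hole (h2.image ψ ψ.continuous.continuousOn)
    (image_closure_subset_closure_image ψ.continuous ⟨z, h3, h0⟩) (by
      rintro _ ⟨x, hx, rfl⟩ hv
      have := ring_int (e := e) hl hv
      rw [hψ] at this
      exact disjoint_left.1 hd this (mem_interior_body h1 h4 ⟨x, hx, rfl⟩))
  cases hb : ring l'
  · refine ⟨l', hb, ?_⟩
    rw [← hψ, center_eq (w := ψ 0) fun w hw => h7 w ?_]
    rw [← ψ.image_ball] at hw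
    exact image_mono (h5 hb) hw
  · obtain ⟨x, hx, y, hy, hxy⟩ := h6 hb
    have a := norm_lt_two (h7 _ ⟨x, hx, rfl⟩)
    have b := norm_lt_two (h7 _ ⟨y, hy, rfl⟩)
    rw [← ψ.dist_eq, dist_eq_norm] at hxy
    linarith [norm_sub_le (ψ x) (ψ y)]

theorem not_tiles (ring : L → Bool) (e : L → ℂ ≃ᵢ ℂ)
    (hfar : ∀ l l', l ≠ l' → 6 < dist (e l 0) (e l' 0))
    (hcard : 2 * (Finset.univ.filter fun l => ring l = false).card ≤
      (Finset.univ.filter fun l => ring l = true).card) (l₀ : L) (hl₀ : ring l₀ = false) :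
    ¬ Tiles (body ring e) := by
  rintro ⟨F, ⟨hF, hdis⟩, hcov⟩
  choose g hg using fun T : F => hF T.1 T.2
  let E : F → L → ℂ ≃ᵢ ℂ := fun T l => (e l).trans (g T)
  have hE : ∀ T : F, T.1 = body ring (E T) := fun T => by rw [hg T, image_body]
  have hdis' : ∀ S T : F, S ≠ T →
      Disjoint (interior (body ring (E S))) (interior (body ring (E T))) := fun S T h => by
    rw [← hE, ← hE]
    exact hdis _ S.2 _ T.2 fun h' => h (Subtype.ext h')
  have hcov' : ∀ z, ∃ T : F, z ∈ body ring (E T) := fun z => by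
    obtain ⟨T, hT, hz⟩ := mem_sUnion.1 (hcov ▸ mem_univ z)
    exact ⟨⟨T, hT⟩, hE ⟨T, hT⟩ ▸ hz⟩
  have hdist : ∀ (T : F) l l' z z', dist (E T l z) (E T l' z') = dist (e l z) (e l' z') :=
    fun T l l' z z' => (g T).dist_eq _ _
  have key : ∀ p : F × L, ring p.2 = true →
      ∃ q : F × L, ring q.2 = false ∧ E q.1 q.2 0 = E p.1 p.2 0 := by
    rintro ⟨T, l⟩ hl
    obtain ⟨T', hT'⟩ := hcov' (E T l 0)
    have hne : T ≠ T' := by
      rintro rfl
      obtain ⟨l', z, hz, hz'⟩ := mem_iUnion.1 hT'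
      by_cases hll : l = l'
      · subst hll
        rw [(E T l).injective hz', show ring l = true from hl] at hz
        have := hz.1
        norm_num [nu] at this
      · have h1 := hfar l l' hll
        rw [← hdist T, ← hz', (E T l').dist_eq, dist_zero_right] at h1
        linarith [norm_le_nu z, sh_le hz]
    obtain ⟨l', h1, h2⟩ := fill hl (hdis' T T' hne) hT'
    exact ⟨(T', l'), h1, h2⟩
  have inj : ∀ p q : F × L, ring p.2 = true → ring q.2 = true →
      E p.1 p.2 0 = E q.1 q.2 0 → p = q := by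
    rintro ⟨T, l⟩ ⟨T', l'⟩ hl hl' h
    have hT : T = T' := by
      by_contra hne
      have h1 : E T l 2 ∈ interior (body ring (E T)) := ring_int hl (by norm_num [nu])
      obtain ⟨z, hz⟩ := (E T' l').surjective (E T l 2)
      have h2 : ‖z‖ = 2 := by
        rw [← dist_zero_right, ← (E T' l').dist_eq, hz, ← h, (E T l).dist_eq]
        simp
      have h3 : E T' l' z ∈ interior (body ring (E T')) := ring_int hl'
        ⟨not_le.1 fun h => by linarith [norm_lt_two h], by linarith [nu_le_norm z]⟩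
      exact disjoint_left.1 (hdis' T T' hne) h1 (hz ▸ h3)
    subst hT
    have hll : l = l' := by
      by_contra hne
      have h1 := hfar l l' hne
      rw [← hdist T, show E T l 0 = E T l' 0 from h, dist_self] at h1
      linarith
    rw [hll]
  haveI : Nonempty L := ⟨l₀⟩
  obtain ⟨T₀, -⟩ := hcov' 0
  haveI : Nonempty F := ⟨T₀⟩
  choose! q hq1 hq2 using key
  obtain ⟨B, hB⟩ : ∃ B : ℝ, ∀ l, dist (e l 0) (e l₀ 0) ≤ B :=
    ⟨∑ l, dist (e l 0) (e l₀ 0), fun l => Finset.single_le_sum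
      (f := fun l => dist (e l 0) (e l₀ 0)) (fun _ _ => dist_nonneg) (Finset.mem_univ l)⟩
  have hB0 : 0 ≤ B := dist_nonneg.trans (hB l₀)
  have grow : ∀ i : ℕ, ∃ s : Finset F, 2 ^ i ≤ s.card ∧
      ∀ T ∈ s, dist (E T l₀ 0) (E T₀ l₀ 0) ≤ 2 * B * i := by
    intro i
    induction i with
    | zero => exact ⟨{T₀}, by simp, by simp⟩
    | succ i ih =>
      obtain ⟨s, hs1, hs2⟩ := ih
      set A := s ×ˢ Finset.univ.filter fun l => ring l = true with hA
      have hAr : ∀ p ∈ A, ring p.2 = true := fun p hp =>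
        (Finset.mem_filter.1 (Finset.mem_product.1 hp).2).2
      refine ⟨A.image fun p => (q p).1, ?_, ?_⟩
      · have h1 : A.card ≤ ((A.image fun p => (q p).1) ×ˢ
            Finset.univ.filter fun l => ring l = false).card := by
          refine Finset.card_le_card_of_injOn q (fun p hp => ?_) fun p hp p' hp' h => ?_
          · exact Finset.mem_coe.2 (Finset.mem_product.2 ⟨Finset.mem_image_of_mem _ hp,
              Finset.mem_filter.2 ⟨Finset.mem_univ _, hq1 p (hAr p hp)⟩⟩)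
          · refine inj p p' (hAr p hp) (hAr p' hp') ?_
            rw [← hq2 p (hAr p hp), ← hq2 p' (hAr p' hp'), h]
        rw [hA, Finset.card_product, Finset.card_product, ← hA] at h1
        have h2 : 0 < (Finset.univ.filter fun l => ring l = false).card :=
          Finset.card_pos.2 ⟨l₀, by simp [hl₀]⟩
        have h3 := (Nat.mul_le_mul_left s.card hcard).trans h1
        rw [← mul_assoc] at h3
        have h4 := Nat.le_of_mul_le_mul_right h3 h2
        rw [pow_succ]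
        omega
      · intro T hT
        obtain ⟨p, hp, rfl⟩ := Finset.mem_image.1 hT
        have h1 := hs2 _ (Finset.mem_product.1 hp).1
        have h2 := hq2 p (hAr p hp)
        have h3 := dist_triangle4 (E (q p).1 l₀ 0) (E p.1 p.2 0) (E p.1 l₀ 0) (E T₀ l₀ 0)
        have h4 : dist (E (q p).1 l₀ 0) (E p.1 p.2 0) ≤ B := by
          rw [← h2, hdist, dist_comm]
          exact hB _
        have h5 : dist (E p.1 p.2 0) (E p.1 l₀ 0) ≤ B := by
          rw [hdist]
          exact hB _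
        push_cast
        linarith
  have hball : ∀ T : F, ball (E T l₀ 0) 1 ⊆ interior (body ring (E T)) := fun T => by
    rw [← (E T l₀).image_ball]
    refine mem_interior_body isOpen_ball fun w hw => ?_
    rw [hl₀]
    exact (nu_le_norm w).trans (mem_ball_zero_iff.1 hw).le
  have area : ∀ i : ℕ, (2 : ℝ) ^ i ≤ (2 * B * i + 1) ^ 2 := by
    intro i
    obtain ⟨s, hs1, hs2⟩ := grow i
    have h1 : volume (⋃ T ∈ s, ball (E T l₀ 0) 1) ≤ volume (ball (E T₀ l₀ 0) (2 * B * i + 1)) := by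
      refine measure_mono (iUnion₂_subset fun T hT => ball_subset ?_)
      linarith [hs2 T hT]
    rw [measure_biUnion_finset (fun S _ T _ h => (hdis' S T h).mono (hball S) (hball T))
      (fun _ _ => measurableSet_ball)] at h1
    simp only [Complex.volume_ball, ENNReal.ofReal_one, one_pow, one_mul, Finset.sum_const,
      nsmul_eq_mul] at h1
    rw [ENNReal.mul_le_mul_iff_left (by simp [← NNReal.coe_eq_zero]) (by simp),
      ← ENNReal.ofReal_pow (by positivity), ← ENNReal.ofReal_natCast,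
      ENNReal.ofReal_le_ofReal_iff (by positivity)] at h1
    exact le_trans (by exact_mod_cast hs1) h1
  have h1 := (tendsto_pow_const_div_const_pow_of_one_lt 2 (show (1 : ℝ) < 2 by norm_num)).eventually
    (gt_mem_nhds (show (0 : ℝ) < 1 / (2 * B + 1) ^ 2 by positivity))
  obtain ⟨i, hi, hi1⟩ := (h1.and (Filter.eventually_ge_atTop 1)).exists
  have h2 : (1 : ℝ) ≤ i := by exact_mod_cast hi1
  have h3 : (2 * B * i + 1) ^ 2 ≤ ((2 * B + 1) * i) ^ 2 :=
    pow_le_pow_left₀ (by positivity) (by linarith) 2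
  rw [div_lt_div_iff₀ (by positivity) (by positivity)] at hi
  have := area i
  nlinarith

end Pool.Agent.H487Z.Heesch
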