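import Pool.Agent.H487Z.HeDefs

set_option autoImplicit false
set_option linter.unusedSectionVars false

namespace Pool.Agent.H487Z.Heesch

open Complex
open scoped Classical

section Generic

variable {M : Type} [Fintype M]

/-- a character value -/
noncomputable def chi (κ : M → ℂ) (ξ : M → ℝ) (δ : M → ℤ) : ℂ := cexp (∑ m, δ m * κ m * ξ m)

/-- the character in the exponent -/
noncomputable def chiL (κ : M → ℂ) (ξ : M → ℝ) : Multiplicative (M → ℤ) →* ℂ where
  toFun δ := chi κ ξ δ.toAdd
  map_one' := by simp [chi]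
  map_mul' a b := by simp [chi, add_mul, Finset.sum_add_distrib, Complex.exp_add]

/-- the character in the point -/
noncomputable def chiR (κ : M → ℂ) (δ : M → ℤ) : Multiplicative (M → ℝ) →* ℂ where
  toFun ξ := chi κ ξ.toAdd δ
  map_one' := by simp [chi]
  map_mul' a b := by simp [chi, mul_add, Finset.sum_add_distrib, Complex.exp_add]

theorem chiR_inj {κ : M → ℂ} (hκ : ∀ m, κ m = 1 ∨ κ m = I) : Function.Injective (chiR κ) := by
  intro δ δ' h
  funext m
  by_contra hne
  have hne' : ((δ m : ℝ) - δ' m) ≠ 0 := sub_ne_zero.2 (by exact_mod_cast hne)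
  have h1 := DFunLike.congr_fun h
    (Multiplicative.ofAdd (Pi.single m (Real.pi / ((δ m : ℝ) - δ' m))))
  have h2 : ∀ (η : M → ℤ) (t : ℝ), chi κ (Pi.single m t) η = cexp (η m * κ m * t) := by
    intro η t
    unfold chi
    rw [Finset.sum_eq_single m (fun b _ hb => by simp [hb]) (by simp)]
    simp
  change chi κ (Pi.single m _) δ = chi κ (Pi.single m _) δ' at h1
  rw [h2, h2, ← div_eq_one_iff_eq (Complex.exp_ne_zero _), ← Complex.exp_sub] at h1
  have h3 : ((δ m : ℂ) - δ' m) ≠ 0 := by exact_mod_cast hne'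
  have h4 : (δ m : ℂ) * κ m * ((Real.pi / ((δ m : ℝ) - δ' m) : ℝ) : ℂ) -
      δ' m * κ m * ((Real.pi / ((δ m : ℝ) - δ' m) : ℝ) : ℂ) = Real.pi * κ m := by
    push_cast
    field_simp
  rw [h4] at h1
  rcases hκ m with h5 | h5
  · rw [h5, mul_one, ← Complex.ofReal_exp, Complex.ofReal_eq_one, Real.exp_eq_one_iff] at h1
    exact Real.pi_ne_zero h1
  · rw [h5, Complex.exp_pi_mul_I] at h1
    norm_num at h1

theorem generic {κ : M → ℂ} (hκ : ∀ m, κ m = 1 ∨ κ m = I) {ι : Type} (s : Finset ι)
    (r : ι → ((M → ℤ) →₀ ℂ)) (hr : ∀ i ∈ s, r i ≠ 0) :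
    ∃ ξ : M → ℝ, ∀ i ∈ s, Finsupp.linearCombination ℂ (chi κ ξ) (r i) ≠ 0 := by
  have h1 : (∏ i ∈ s, AddMonoidAlgebra.ofCoeff (r i) : AddMonoidAlgebra ℂ (M → ℤ)) ≠ 0 :=
    Finset.prod_ne_zero_iff.2 fun i hi h => hr i hi (congrArg AddMonoidAlgebra.coeff h)
  have h2 := (linearIndependent_monoidHom (Multiplicative (M → ℝ)) ℂ).comp _ (chiR_inj hκ)
  have hl : ∀ (ξ : M → ℝ) (f : AddMonoidAlgebra ℂ (M → ℤ)),
      AddMonoidAlgebra.lift ℂ ℂ (M → ℤ) (chiL κ ξ) f =
        Finsupp.linearCombination ℂ (chi κ ξ) f.coeff := fun ξ f => by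
    rw [AddMonoidAlgebra.lift_apply, Finsupp.linearCombination_apply]
    rfl
  by_contra hcon
  push Not at hcon
  refine h1 (AddMonoidAlgebra.coeffEquiv.injective (linearIndependent_iff.1 h2 _ ?_))
  funext ξ
  obtain ⟨i, hi, h3⟩ := hcon ξ.toAdd
  have h4 := hl ξ.toAdd (∏ i ∈ s, AddMonoidAlgebra.ofCoeff (r i))
  rw [map_prod, Finset.prod_eq_zero hi (by rw [hl]; exact h3)] at h4
  rw [Finsupp.linearCombination_apply, Finsupp.sum, Finset.sum_apply]
  rw [Finsupp.linearCombination_apply, Finsupp.sum] at h4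
  exact h4.symm

end Generic

section Words

variable {L K : Type} [Fintype L] [DecidableEq L] (J : K → Finset L → L)

/-- pieces used along an address -/
noncomputable def used : List (L × K) → Finset L
  | [] => ∅
  | p :: σ => insert (J p.2 (insert p.1 (used σ))) (insert p.1 (used σ))

/-- the piece by which a tile is attached -/
noncomputable def att : List (L × K) → Option L
  | [] => none
  | p :: σ => some (J p.2 (insert p.1 (used J σ)))

/-- formal rotation of a tile -/
noncomputable def rot : List (L × K) → L → ℤ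
  | [] => 0
  | p :: σ => rot σ + Pi.single p.1 1 - Pi.single (J p.2 (insert p.1 (used J σ))) 1

/-- formal translation of a tile -/
noncomputable def lam : List (L × K) → ((L → ℤ) × L) →₀ ℂ
  | [] => 0
  | p :: σ => lam σ + Finsupp.single (rot J σ, p.1) 1 -
      Finsupp.single (rot J (p :: σ), J p.2 (insert p.1 (used J σ))) 1

/-- valid addresses -/
def valid (ok : L → K → Prop) : List (L × K) → Prop
  | [] => True
  | p :: σ => valid ok σ ∧ att J σ ≠ some p.1 ∧ ok p.1 p.2 ∧
      J p.2 (insert p.1 (used J σ)) ∉ insert p.1 (used J σ)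

theorem card_used : ∀ τ : List (L × K), (used J τ).card ≤ 2 * τ.length
  | [] => by simp [used]
  | p :: σ => by
    have h1 := card_used σ
    have h2 := Finset.card_insert_le p.1 (used J σ)
    have h3 := Finset.card_insert_le (J p.2 (insert p.1 (used J σ))) (insert p.1 (used J σ))
    rw [used, List.length_cons]
    omega

theorem rot_out : ∀ (τ : List (L × K)) (m : L), m ∉ used J τ → rot J τ m = 0
  | [], _, _ => rfl
  | p :: σ, m, h => by
    simp only [used, Finset.mem_insert, not_or] at h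
    simp [rot, rot_out σ m h.2.2, h.1, h.2.1]

theorem lam_out : ∀ (τ : List (L × K)) (x : (L → ℤ) × L) (m : L), m ∉ used J τ →
    (x.1 m ≠ 0 ∨ x.2 = m) → lam J τ x = 0
  | [], _, _, _, _ => rfl
  | p :: σ, x, m, h, hx => by
    have h1 := rot_out J (p :: σ) m h
    simp only [used, Finset.mem_insert, not_or] at h
    have h2 := rot_out J σ m h.2.2
    rw [lam, Finsupp.sub_apply, Finsupp.add_apply, lam_out σ x m h.2.2 hx,
      Finsupp.single_eq_of_ne, Finsupp.single_eq_of_ne]
    · simp
    · rintro rfl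
      exact hx.elim (fun a => a h1) fun a => h.1 a.symm
    · rintro rfl
      exact hx.elim (fun a => a h2) fun a => h.2.1 a.symm

theorem lam_cons (p : L × K) (σ : List (L × K)) :
    lam J (p :: σ) + Finsupp.single (rot J (p :: σ), J p.2 (insert p.1 (used J σ))) 1 =
      lam J σ + Finsupp.single (rot J σ, p.1) 1 := by rw [lam, sub_add_cancel]

theorem rot_cons (p : L × K) (σ : List (L × K)) :
    rot J (p :: σ) + Pi.single (J p.2 (insert p.1 (used J σ))) 1 = rot J σ + Pi.single p.1 1 := by
  rw [rot, sub_add_cancel]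

variable {J} {ok : L → K → Prop}

theorem rot_att {p : L × K} {σ : List (L × K)} (h : valid J ok (p :: σ)) :
    rot J σ (J p.2 (insert p.1 (used J σ))) = 0 ∧
      rot J (p :: σ) (J p.2 (insert p.1 (used J σ))) = -1 := by
  have h1 := h.2.2.2
  simp only [Finset.mem_insert, not_or] at h1
  have h2 := rot_out J σ _ h1.2
  exact ⟨h2, by simp [rot, h2, h1.1]⟩

theorem lam_rot {τ : List (L × K)} (h : valid J ok τ) (m : L) :
    lam J τ (rot J τ, m) = if att J τ = some m then -1 else 0 := by
  cases τ with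
  | nil => simp [lam, att]
  | cons p σ =>
    obtain ⟨h1, h2⟩ := rot_att h
    have h3 := h.2.2.2
    simp only [Finset.mem_insert, not_or] at h3
    rw [lam, Finsupp.sub_apply, Finsupp.add_apply,
      lam_out J σ _ _ h3.2 (Or.inl (by simp only [h2]; norm_num)), Finsupp.single_eq_of_ne]
    · simp only [att, Option.some.injEq, Finsupp.single_apply, Prod.mk.injEq, true_and]
      split_ifs <;> simp
    · intro h4
      rw [← show rot J (p :: σ) = rot J σ from congrArg Prod.fst h4, h2] at h1
      norm_num at h1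

theorem lam_top {τ : List (L × K)} (h : valid J ok τ) {l : L} (hl : att J τ ≠ some l)
    {x : (L → ℤ) × L} (hx : x.1 + Pi.single x.2 1 = rot J τ + Pi.single l 1) : lam J τ x = 0 := by
  cases τ with
  | nil => rfl
  | cons p σ =>
    obtain ⟨h1, h2⟩ := rot_att h
    have h3 := h.2.2.2
    simp only [Finset.mem_insert, not_or] at h3
    set j := J p.2 (insert p.1 (used J σ)) with hj
    have h4 : j ≠ l := fun h => hl (by rw [← h]; rfl)
    have h5 := congrFun hx j
    simp only [Pi.add_apply, h2, Pi.single_eq_of_ne h4] at h5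
    rw [lam, Finsupp.sub_apply, Finsupp.add_apply, lam_out J σ x j h3.2,
      Finsupp.single_eq_of_ne, Finsupp.single_eq_of_ne]
    · simp
    · rintro rfl
      simp [h2, ← hj] at h5
    · rintro rfl
      simp [h1, h3.1] at h5
    · by_contra h6
      push Not at h6
      simp [h6.1, Ne.symm h6.2] at h5

theorem bd_lam : ∀ τ : List (L × K),
    Finsupp.lmapDomain ℂ ℂ (fun x : (L → ℤ) × L => x.1 + Pi.single x.2 1) (lam J τ) = 0
  | [] => by simp [lam]
  | p :: σ => by
    rw [lam, map_sub, map_add, bd_lam σ]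
    simp [rot]

theorem patch_top {τ τ' : List (L × K)} {l l' : L} (hv : valid J ok τ) (hv' : valid J ok τ')
    (hl : att J τ ≠ some l) (hl' : att J τ' ≠ some l')
    (h : lam J τ + Finsupp.single (rot J τ, l) 1 = lam J τ' + Finsupp.single (rot J τ', l') 1) :
    l = l' ∧ rot J τ = rot J τ' ∧ lam J τ = lam J τ' ∧ att J τ = att J τ' := by
  have h1 := congrArg
    (Finsupp.lmapDomain ℂ ℂ fun x : (L → ℤ) × L => x.1 + Pi.single x.2 1) h
  rw [map_add, map_add, bd_lam, bd_lam] at h1
  simp only [zero_add, Finsupp.lmapDomain_apply, Finsupp.mapDomain_single,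
    Finsupp.single_left_inj (one_ne_zero (α := ℂ))] at h1
  have h2 := DFunLike.congr_fun h (rot J τ, l)
  rw [Finsupp.add_apply, Finsupp.add_apply, lam_top hv hl rfl, lam_top hv' hl' h1,
    Finsupp.single_eq_same, Finsupp.single_apply] at h2
  have h3 : (rot J τ', l') = (rot J τ, l) := by
    by_contra h3
    rw [if_neg h3] at h2
    norm_num at h2
  rw [h3, add_left_inj] at h
  have h4 : rot J τ' = rot J τ := congrArg Prod.fst h3
  refine ⟨(congrArg Prod.snd h3).symm, h4.symm, h, Option.ext fun m => ?_⟩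
  have h6 := lam_rot hv m
  rw [h, ← h4, lam_rot hv'] at h6
  split_ifs at h6 with a b b
  · simp [a, b]
  · norm_num at h6
  · norm_num at h6
  · simp [a, b]

theorem patch_inj (hJ : ∀ c c' U U', J c U = J c' U' → c = c') :
    ∀ (τ τ' : List (L × K)) (l l' : L), valid J ok τ → valid J ok τ' → att J τ ≠ some l →
      att J τ' ≠ some l' →
      lam J τ + Finsupp.single (rot J τ, l) 1 = lam J τ' + Finsupp.single (rot J τ', l') 1 →
      τ = τ' ∧ l = l' := by
  intro τ
  induction τ with
  | nil =>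
    intro τ' l l' hv hv' hl hl' h
    obtain ⟨h1, -, -, h2⟩ := patch_top hv hv' hl hl' h
    cases τ' with
    | nil => exact ⟨rfl, h1⟩
    | cons p' σ' => simp [att] at h2
  | cons p σ ih =>
    intro τ' l l' hv hv' hl hl' h
    obtain ⟨h1, h2, h3, h4⟩ := patch_top hv hv' hl hl' h
    cases τ' with
    | nil => simp [att] at h4
    | cons p' σ' =>
      have h8 : J p.2 (insert p.1 (used J σ)) = J p'.2 (insert p'.1 (used J σ')) :=
        Option.some.inj h4
      rw [lam, lam, h2, h8, sub_left_inj] at h3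
      obtain ⟨rfl, h9⟩ := ih σ' p.1 p'.1 hv.1 hv'.1 hv.2.1 hv'.2.1 h3
      exact ⟨by rw [Prod.ext h9 (hJ _ _ _ _ h8)], h1⟩

end Words

end Pool.Agent.H487Z.Heesch
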