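import Pool.Agent.H487Z.HeA
import Pool.Agent.H487Z.HeB

set_option autoImplicit false
set_option linter.unusedSectionVars false

namespace Pool.Agent.H487Z.Heesch

open Set Metric Complex
open scoped Classical

/-- size of a cell index -/
def nrm (c : ℤ × ℤ) : ℕ := max c.1.natAbs c.2.natAbs

/-- centre of a cell -/
def cpt (c : ℤ × ℤ) : ℂ := ⟨2 * c.1, 2 * c.2⟩

/-- cells occupied by a shape -/
def occ : Bool → ℤ × ℤ → Prop
  | false, c => nrm c = 0
  | true, c => nrm c = 1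

/-- the grid lines -/
def grid : Set ℂ := {z | ∃ n : ℤ, z.re = n ∨ z.im = n}

theorem cell_iff {z : ℂ} {c : ℤ × ℤ} : nu (z - cpt c) ≤ 1 ↔
    ((2 * c.1 - 1 : ℝ) ≤ z.re ∧ z.re ≤ 2 * c.1 + 1) ∧
      (2 * c.2 - 1 : ℝ) ≤ z.im ∧ z.im ≤ 2 * c.2 + 1 := by
  rw [nu_le_iff]
  simp only [cpt, sub_re, sub_im]
  constructor <;> rintro ⟨⟨a, b⟩, c, d⟩ <;> refine ⟨⟨?_, ?_⟩, ?_, ?_⟩ <;> linarith

theorem cover1 (x : ℝ) : ∀ r : ℕ, -(2 * (r : ℝ) + 1) ≤ x → x ≤ 2 * r + 1 →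
    ∃ n : ℤ, n.natAbs ≤ r ∧ (2 * n - 1 : ℝ) ≤ x ∧ x ≤ 2 * n + 1 := by
  intro r
  induction r with
  | zero => exact fun a b => ⟨0, le_rfl, by simpa using a, by simpa using b⟩
  | succ r ih =>
    intro a b
    push_cast at a b
    by_cases h1 : -(2 * (r : ℝ) + 1) ≤ x
    · by_cases h2 : x ≤ 2 * r + 1
      · obtain ⟨n, h3, h4⟩ := ih h1 h2
        exact ⟨n, by omega, h4⟩
      · exact ⟨r + 1, by omega, by push_cast; linarith, by push_cast; linarith⟩
    · exact ⟨-(r + 1), by omega, by push_cast; linarith, by push_cast; linarith⟩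

theorem cover2 {z : ℂ} {r : ℕ} (h : nu z ≤ 2 * r + 1) :
    ∃ c : ℤ × ℤ, nrm c ≤ r ∧ nu (z - cpt c) ≤ 1 := by
  rw [nu_le_iff] at h
  obtain ⟨a, ha, ha'⟩ := cover1 z.re r h.1.1 h.1.2
  obtain ⟨b, hb, hb'⟩ := cover1 z.im r h.2.1 h.2.2
  exact ⟨(a, b), max_le ha hb, cell_iff.2 ⟨ha', hb'⟩⟩

theorem cell_nu {z : ℂ} {c : ℤ × ℤ} (h : nu (z - cpt c) ≤ 1) : nu z ≤ 2 * nrm c + 1 := by
  rw [cell_iff] at h
  have h1 : -(nrm c : ℤ) ≤ c.1 ∧ c.1 ≤ nrm c ∧ -(nrm c : ℤ) ≤ c.2 ∧ c.2 ≤ nrm c := by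
    unfold nrm
    omega
  have h2 : -(nrm c : ℝ) ≤ c.1 ∧ (c.1 : ℝ) ≤ nrm c ∧ -(nrm c : ℝ) ≤ c.2 ∧ (c.2 : ℝ) ≤ nrm c := by
    exact_mod_cast h1
  rw [nu_le_iff]
  refine ⟨⟨?_, ?_⟩, ?_, ?_⟩ <;> linarith [h.1.1, h.1.2, h.2.1, h.2.2, h2.1, h2.2.1, h2.2.2.1,
    h2.2.2.2]

theorem occ_sh {b : Bool} {z : ℂ} {c : ℤ × ℤ} (hc : occ b c) (h : nu (z - cpt c) ≤ 1) :
    z ∈ sh b := by
  have h1 := cell_nu h
  cases b
  · rw [show nrm c = 0 from hc] at h1
    simpa [sh] using h1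
  · rw [show nrm c = 1 from hc] at h1
    refine ⟨not_lt.1 fun h2 => ?_, by linarith [show ((1 : ℕ) : ℝ) = 1 by simp]⟩
    rw [cell_iff] at h
    rw [nu_lt_iff] at h2
    have a1 : (c.1 : ℝ) < 1 := by linarith [h.1.1, h2.1.2]
    have a2 : (-1 : ℝ) < c.1 := by linarith [h.1.2, h2.1.1]
    have a3 : (c.2 : ℝ) < 1 := by linarith [h.2.1, h2.2.2]
    have a4 : (-1 : ℝ) < c.2 := by linarith [h.2.2, h2.2.1]
    have h3 : c.1 < 1 ∧ -1 < c.1 ∧ c.2 < 1 ∧ -1 < c.2 :=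
      ⟨by exact_mod_cast a1, by exact_mod_cast a2, by exact_mod_cast a3, by exact_mod_cast a4⟩
    have h4 : nrm c = 1 := hc
    unfold nrm at h4
    omega

theorem cell_strict {z : ℂ} {c : ℤ × ℤ} (hz : z ∉ grid) (h : nu (z - cpt c) ≤ 1) :
    ((2 * c.1 - 1 : ℝ) < z.re ∧ z.re < 2 * c.1 + 1) ∧
      (2 * c.2 - 1 : ℝ) < z.im ∧ z.im < 2 * c.2 + 1 := by
  rw [cell_iff] at h
  refine ⟨⟨h.1.1.lt_of_ne fun a => hz ⟨2 * c.1 - 1, Or.inl ?_⟩,
    h.1.2.lt_of_ne fun a => hz ⟨2 * c.1 + 1, Or.inl ?_⟩⟩,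
    h.2.1.lt_of_ne fun a => hz ⟨2 * c.2 - 1, Or.inr ?_⟩,
    h.2.2.lt_of_ne fun a => hz ⟨2 * c.2 + 1, Or.inr ?_⟩⟩ <;> push_cast <;> linarith

theorem cell_cell {z : ℂ} {c c' : ℤ × ℤ} (hz : z ∉ grid) (h : nu (z - cpt c) ≤ 1)
    (h' : nu (z - cpt c') ≤ 1) : c = c' := by
  have a := cell_strict hz h
  have b := cell_strict hz h'
  have a1 : (c.1 : ℝ) < c'.1 + 1 := by linarith [a.1.1, b.1.2]
  have a2 : (c'.1 : ℝ) < c.1 + 1 := by linarith [a.1.2, b.1.1]
  have a3 : (c.2 : ℝ) < c'.2 + 1 := by linarith [a.2.1, b.2.2]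
  have a4 : (c'.2 : ℝ) < c.2 + 1 := by linarith [a.2.2, b.2.1]
  have h3 : c.1 < c'.1 + 1 ∧ c'.1 < c.1 + 1 ∧ c.2 < c'.2 + 1 ∧ c'.2 < c.2 + 1 :=
    ⟨by exact_mod_cast a1, by exact_mod_cast a2, by exact_mod_cast a3, by exact_mod_cast a4⟩
  ext <;> omega

theorem cell_sh {b : Bool} {z : ℂ} {c : ℤ × ℤ} (hz : z ∉ grid) (h : nu (z - cpt c) ≤ 1)
    (h' : z ∈ sh b) : occ b c := by
  cases b
  · rw [cell_cell hz h (c' := (0, 0)) (cell_iff.2 (by simpa using nu_le_iff.1 h'))]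
    rfl
  · obtain ⟨c', h1, h2⟩ := cover2 (z := z) (r := 1) (by linarith [h'.2, show ((1 : ℕ) : ℝ) = 1 by simp])
    rw [← cell_cell hz h h2] at h1
    by_contra h3
    have h4 : c = (0, 0) := by
      have : ¬ nrm c = 1 := h3
      unfold nrm at *
      ext <;> simp only <;> omega
    have h5 := cell_strict hz h
    rw [h4] at h5
    exact absurd (nu_lt_iff.2 (by simpa using h5)) (not_lt.2 h'.1)

theorem isMeagre_grid : IsMeagre grid := by
  have h1 : ∀ x : ℝ, IsMeagre ({x} : Set ℝ) := fun x =>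
    IsNowhereDense.isMeagre (by simp [IsNowhereDense])
  have : grid = ⋃ n : ℤ, (re ⁻¹' {(n : ℝ)} ∪ im ⁻¹' {(n : ℝ)}) := by
    ext z
    simp [grid]
  rw [this]
  exact isMeagre_iUnion fun n => ((h1 _).preimage_of_isOpenMap continuous_re isOpenMap_re).union
    ((h1 _).preimage_of_isOpenMap continuous_im isOpenMap_im)

/-- a rigid motion -/
noncomputable def iso (p : ℂ) (ω : Circle) : ℂ ≃ᵢ ℂ :=
  (rotation ω).toIsometryEquiv.trans (IsometryEquiv.addLeft p)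

theorem iso_apply (p : ℂ) (ω : Circle) (z : ℂ) : iso p ω z = p + ω * z := rfl

variable (k : ℕ)

/-- cells of a patch -/
abbrev Cel := {c : ℤ × ℤ // nrm c ≤ k + 1}

instance : Finite (Cel k) := by
  refine Set.Finite.to_subtype (s := {c : ℤ × ℤ | nrm c ≤ k + 1})
    (((Set.finite_Icc (-(k + 1 : ℤ)) (k + 1)).prod
      (Set.finite_Icc (-(k + 1 : ℤ)) (k + 1))).subset fun c hc => ?_)
  have : nrm c ≤ k + 1 := hc
  unfold nrm at this
  simp only [mem_prod, mem_Icc]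
  omega

noncomputable instance : Fintype (Cel k) := Fintype.ofFinite _

/-- pieces -/
abbrev Pc := (Cel k × Fin (2 * k + 1)) × Fin 3

variable {k}

/-- which pieces are rings -/
def rg (l : Pc k) : Bool := decide (l.2 ≠ 0)

/-- choice of a fresh square -/
noncomputable def Jf (c : Cel k) (U : Finset (Pc k)) : Pc k :=
  if h : ∃ q, ((c, q), (0 : Fin 3)) ∉ U then ((c, h.choose), 0) else ((c, 0), 0)

theorem Jf_cell (c : Cel k) (U : Finset (Pc k)) : (Jf c U).1.1 = c ∧ rg (Jf c U) = false := by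
  unfold Jf
  split_ifs <;> simp [rg]

theorem Jf_fresh (c : Cel k) {U : Finset (Pc k)} (hU : U.card ≤ 2 * k) : Jf c U ∉ U := by
  have h : ∃ q, ((c, q), (0 : Fin 3)) ∉ U := by
    by_contra h
    push Not at h
    have := Finset.card_le_card_of_injOn (s := Finset.univ) (t := U)
      (fun q : Fin (2 * k + 1) => ((c, q), (0 : Fin 3))) (fun q _ => h q)
      (fun q _ q' _ h => by simpa using h)
    rw [Finset.card_univ, Fintype.card_fin] at this
    omega
  rw [Jf, dif_pos h]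
  exact h.choose_spec

theorem card_rg : 2 * (Finset.univ.filter fun l : Pc k => rg l = false).card ≤
    (Finset.univ.filter fun l : Pc k => rg l = true).card := by
  have h1 : (Finset.univ.filter fun l : Pc k => rg l = false) = Finset.univ ×ˢ {0} := by
    ext ⟨a, b⟩
    fin_cases b <;> simp [rg]
  have h2 : (Finset.univ.filter fun l : Pc k => rg l = true) = Finset.univ ×ˢ {1, 2} := by
    ext ⟨a, b⟩
    fin_cases b <;> simp [rg]
  rw [h1, h2, Finset.card_product, Finset.card_product, Finset.card_singleton,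
    Finset.card_pair (by decide)]
  omega

/-- addresses -/
abbrev Ad (k : ℕ) := List (Pc k × Cel k)

/-- the layer in which a tile appears -/
def depth : Ad k → ℕ
  | [] => 0
  | p :: σ => depth σ + max 1 (nrm p.2.1 - 1)

theorem length_le : ∀ τ : Ad k, τ.length ≤ depth τ
  | [] => le_rfl
  | p :: σ => by
    have := length_le σ
    rw [depth, List.length_cons]
    omega

/-- valid addresses -/
abbrev Val (τ : Ad k) : Prop := valid Jf (fun l c => ¬ occ (rg l) c.1) τ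

variable (x : Pc k → ℝ) (a : Pc k → ℂ)

/-- the rotation given by a formal exponent -/
noncomputable def UU (γ : Pc k → ℤ) : Circle := Circle.exp (∑ m, γ m * x m)

theorem UU_add (γ γ' : Pc k → ℤ) : UU x (γ + γ') = UU x γ * UU x γ' := by
  simp [UU, add_mul, Finset.sum_add_distrib, Circle.exp_add]

/-- placement of the pieces -/
noncomputable def ee (l : Pc k) : ℂ ≃ᵢ ℂ := iso (a l) (UU x (Pi.single l 1))

/-- small part of the translation -/
noncomputable def sm : Ad k → ℂ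
  | [] => 0
  | p :: σ => sm σ + UU x (rot Jf σ + Pi.single p.1 1) * cpt p.2.1

/-- evaluation of formal translations -/
noncomputable def ev : (((Pc k → ℤ) × Pc k) →₀ ℂ) →ₗ[ℂ] ℂ :=
  Finsupp.linearCombination ℂ fun y => UU x y.1 * a y.2

/-- motion of a tile -/
noncomputable def gg (τ : Ad k) : ℂ ≃ᵢ ℂ := iso (ev x a (lam Jf τ) + sm x τ) (UU x (rot Jf τ))

/-- placement of a piece of a tile -/
noncomputable def EE (τ : Ad k) (l : Pc k) : ℂ ≃ᵢ ℂ := (ee x a l).trans (gg x a τ)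

theorem EE_apply (τ : Ad k) (l : Pc k) (z : ℂ) : EE x a τ l z =
    ev x a (lam Jf τ + Finsupp.single (rot Jf τ, l) 1) + sm x τ +
      UU x (rot Jf τ + Pi.single l 1) * z := by
  simp only [EE, IsometryEquiv.trans_apply, ee, gg, iso_apply, map_add, UU_add, ev,
    Finsupp.linearCombination_single, Circle.coe_mul, one_smul]
  ring

theorem EE_att (p : Pc k × Cel k) (σ : Ad k) (z : ℂ) :
    EE x a (p :: σ) (Jf p.2 (insert p.1 (used Jf σ))) z = EE x a σ p.1 (cpt p.2.1 + z) := by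
  rw [EE_apply, EE_apply, lam_cons, rot_cons, sm]
  ring

theorem EE_nil (l : Pc k) : EE x a [] l = ee x a l := by
  ext z
  simp [EE, gg, iso_apply, lam, sm, rot, UU]

theorem exists_far (k : ℕ) (D : ℝ) : ∃ (x : Pc k → ℝ) (a : Pc k → ℂ), ∀ (τ τ' : Ad k) (l l' : Pc k),
    Val τ → Val τ' → depth τ ≤ k → depth τ' ≤ k → att Jf τ ≠ some l → att Jf τ' ≠ some l' →
    (τ, l) ≠ (τ', l') → D < dist (EE x a τ l 0) (EE x a τ' l' 0) := by
  let S : Finset (Ad k × Pc k) :=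
    ((List.finite_length_le (Pc k × Cel k) k).toFinset ×ˢ Finset.univ).filter
      fun p => Val p.1 ∧ att Jf p.1 ≠ some p.2
  let s := (S ×ˢ S).filter fun q => q.1 ≠ q.2
  let Λ : Ad k × Pc k → (((Pc k → ℤ) × Pc k) →₀ ℂ) := fun p =>
    lam Jf p.1 + Finsupp.single (rot Jf p.1, p.2) 1
  let key : (Pc k → ℤ) × Pc k → (Pc k ⊕ Pc k → ℤ) := fun y => Sum.elim y.1 (Pi.single y.2 1)
  have hkey : Function.Injective key := by
    intro y y' h
    refine Prod.ext (funext fun m => congrFun h (Sum.inl m)) ?_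
    by_contra h1
    have h2 := congrFun h (Sum.inr y.2)
    simp [key, h1] at h2
  obtain ⟨ξ, hξ⟩ := generic (κ := Sum.elim (fun _ : Pc k => I) fun _ : Pc k => 1)
    (by rintro (m | m) <;> simp) s (fun q => Finsupp.mapDomain key (Λ q.1 - Λ q.2)) (by
      intro q hq h
      obtain ⟨h1, h2⟩ := Finset.mem_filter.1 hq
      have h3 := (Finset.mem_filter.1 (Finset.mem_product.1 h1).1).2
      have h4 := (Finset.mem_filter.1 (Finset.mem_product.1 h1).2).2
      have h5 := Finsupp.mapDomain_injective hkey (h.trans Finsupp.mapDomain_zero.symm)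
      have h6 := patch_inj (fun c c' U U' h => by rw [← (Jf_cell c U).1, h, (Jf_cell c' U').1])
        _ _ _ _ h3.1 h4.1 h3.2 h4.2 (sub_eq_zero.1 h5)
      exact h2 (Prod.ext h6.1 h6.2))
  let x : Pc k → ℝ := fun m => ξ (Sum.inl m)
  let A : Pc k → ℂ := fun m => cexp (ξ (Sum.inr m))
  have hchi : chi (Sum.elim (fun _ : Pc k => I) fun _ : Pc k => 1) ξ ∘ key =
      fun y => UU x y.1 * A y.2 := by
    funext y
    simp only [Function.comp, chi, key, Fintype.sum_sum_type, Sum.elim_inl, Sum.elim_inr,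
      Complex.exp_add, UU, Circle.coe_exp, x, A]
    rw [Finset.sum_eq_single (s := Finset.univ) (f := fun m => ((Pi.single y.2 (1 : ℤ) : Pc k → ℤ) m : ℂ) * 1 *
      (ξ (Sum.inr m) : ℂ)) y.2 (fun b _ hb => by simp [hb]) (by simp)]
    congr 2
    · push_cast
      rw [Finset.sum_mul]
      exact Finset.sum_congr rfl fun m _ => by ring
    · simp
  simp only [Finsupp.linearCombination_mapDomain, hchi] at hξ
  have hev : ∀ (t : ℝ) f, ev x (fun m => t * A m) f = t * ev x A f := by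
    intro t f
    simp only [ev, Finsupp.linearCombination_apply, Finsupp.sum, Finset.mul_sum, smul_eq_mul]
    exact Finset.sum_congr rfl fun m _ => by ring
  have h1 : ∀ᶠ t : ℝ in Filter.atTop, ∀ q ∈ s,
      D + ‖sm x q.1.1 - sm x q.2.1‖ < t * ‖ev x A (Λ q.1 - Λ q.2)‖ := by
    rw [Filter.eventually_all_finset]
    intro q hq
    exact (Filter.tendsto_id.atTop_mul_const (norm_pos_iff.2 (hξ q hq))).eventually_gt_atTop _
  obtain ⟨t, ht, ht0⟩ := (h1.and (Filter.eventually_ge_atTop 0)).exists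
  refine ⟨x, fun m => t * A m, fun τ τ' l l' h1 h2 h3 h4 h5 h6 h7 => ?_⟩
  have h8 := ht ((τ, l), (τ', l')) (by
    simp only [s, S, Finset.mem_filter, Finset.mem_product, Set.Finite.mem_toFinset,
      Finset.mem_univ, and_true]
    exact ⟨⟨⟨(length_le τ).trans h3, h1, h5⟩, (length_le τ').trans h4, h2, h6⟩, h7⟩)
  rw [EE_apply, EE_apply, hev, hev, dist_eq_norm]
  have h9 : (t : ℂ) * ev x A (Λ (τ, l) - Λ (τ', l')) =
      (t * ev x A (Λ (τ, l)) + sm x τ + UU x (rot Jf τ + Pi.single l 1) * 0 -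
        (t * ev x A (Λ (τ', l')) + sm x τ' + UU x (rot Jf τ' + Pi.single l' 1) * 0)) -
        (sm x τ - sm x τ') := by
    rw [map_sub]
    ring
  have h10 := congrArg norm h9
  rw [norm_mul, Complex.norm_real, Real.norm_of_nonneg ht0] at h10
  rw [h10] at h8
  linarith [norm_sub_le (t * ev x A (Λ (τ, l)) + sm x τ + UU x (rot Jf τ + Pi.single l 1) * 0 -
    (t * ev x A (Λ (τ', l')) + sm x τ' + UU x (rot Jf τ' + Pi.single l' 1) * 0))
    (sm x τ - sm x τ')]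

end Pool.Agent.H487Z.Heesch
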