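import Pool.Agent.H487Z.HeC

set_option autoImplicit false
set_option linter.unusedSectionVars false

namespace Pool.Agent.H487Z.Heesch

open Set Metric Complex
open scoped Classical

variable {k : ℕ} (x : Pc k → ℝ) (a : Pc k → ℂ)

/-- the tile with a given address -/
def tile (τ : Ad k) : Set ℂ := body rg (EE x a τ)

/-- the `i`-th packing -/
def fam (i : ℕ) : Set (Set ℂ) := tile x a '' {τ | Val τ ∧ depth τ ≤ i}

theorem tile_eq (τ : Ad k) : tile x a τ = gg x a τ '' body rg (ee x a) := by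
  rw [image_body]
  rfl

theorem fam_finite (i : ℕ) : (fam x a i).Finite :=
  ((List.finite_length_le _ i).subset fun τ hτ => (length_le τ).trans hτ.2).image _

theorem locate {τ : Ad k} (hτ : Val τ) {z : ℂ} (hz : z ∈ tile x a τ) :
    ∃ (σ : Ad k) (l : Pc k) (w : ℂ), Val σ ∧ att Jf σ ≠ some l ∧ z = EE x a σ l w ∧
      ((σ = τ ∧ w ∈ sh (rg l)) ∨
        ∃ c : Cel k, τ = (l, c) :: σ ∧ ¬ occ (rg l) c.1 ∧ nu (w - cpt c.1) ≤ 1) := by
  obtain ⟨l, w, hw, rfl⟩ := mem_iUnion.1 hz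
  by_cases h : att Jf τ = some l
  · cases τ with
    | nil => simp [att] at h
    | cons p σ =>
      have h1 : Jf p.2 (insert p.1 (used Jf σ)) = l := Option.some.inj h
      subst h1
      rw [(Jf_cell _ _).2] at hw
      exact ⟨σ, p.1, _, hτ.1, hτ.2.1, EE_att x a p σ w,
        Or.inr ⟨p.2, rfl, hτ.2.2.1, by rw [add_sub_cancel_left]; exact hw⟩⟩
  · exact ⟨τ, l, w, hτ, h, rfl, Or.inl ⟨rfl, hw⟩⟩

theorem cover {σ : Ad k} {l : Pc k} (hσ : Val σ) (hl : att Jf σ ≠ some l) {r i : ℕ} (hr : 2 ≤ r)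
    (hi : depth σ + r ≤ i + 1) (hk : i ≤ k) {w : ℂ} (hw : nu w ≤ 2 * r + 1) :
    EE x a σ l w ∈ ⋃₀ fam x a i := by
  obtain ⟨c, hc, hc'⟩ := cover2 hw
  by_cases ho : occ (rg l) c
  · exact ⟨_, ⟨σ, ⟨hσ, by omega⟩, rfl⟩, mem_iUnion.2 ⟨l, w, occ_sh ho hc', rfl⟩⟩
  · let p : Pc k × Cel k := (l, ⟨c, by omega⟩)
    have h1 := card_used Jf σ
    have h2 := length_le σ
    have h3 := Finset.card_insert_le l (used Jf σ)
    refine ⟨_, ⟨p :: σ, ⟨⟨hσ, hl, ho, Jf_fresh _ (by simp only [p]; omega)⟩, ?_⟩, rfl⟩,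
      mem_iUnion.2 ⟨Jf p.2 (insert p.1 (used Jf σ)), w - cpt c, ?_, ?_⟩⟩
    · simp only [depth, p]
      omega
    · rw [(Jf_cell _ _).2]
      exact hc'
    · rw [EE_att]
      simp [p]

theorem surround {i : ℕ} (hi : i < k) {T : Set ℂ} (hT : T ∈ fam x a i) :
    T ⊆ interior (⋃₀ fam x a (i + 1)) := by
  obtain ⟨τ, ⟨hτ, hd⟩, rfl⟩ := hT
  intro z hz
  obtain ⟨σ, l, w, h1, h2, rfl, h3⟩ := locate x a hτ hz
  have main : ∀ r : ℕ, 2 ≤ r → depth σ + r ≤ i + 2 → nu w < 2 * r + 1 →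
      EE x a σ l w ∈ interior (⋃₀ fam x a (i + 1)) := by
    intro r hr hr' hw
    refine interior_maximal (s := ⋃₀ fam x a (i + 1))
      (t := EE x a σ l '' {w | nu w < 2 * r + 1}) ?_ ((EE x a σ l).toHomeomorph.isOpenMap _
        (isOpen_lt continuous_nu continuous_const)) ⟨w, hw, rfl⟩
    rintro _ ⟨v, hv, rfl⟩
    exact cover x a h1 h2 hr hr' hi (le_of_lt hv)
  rcases h3 with ⟨rfl, h3⟩ | ⟨c, rfl, -, h3⟩
  · exact main 2 le_rfl (by omega) (by linarith [sh_le h3, show ((2 : ℕ) : ℝ) = 2 by simp])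
  · rw [depth] at hd
    refine main (max 1 (nrm c.1 - 1) + 2) (by omega) (by simp only at hd; omega)
      ((cell_nu h3).trans_lt ?_)
    have : nrm c.1 < max 1 (nrm c.1 - 1) + 2 := by omega
    have h4 : (nrm c.1 : ℝ) < ((max 1 (nrm c.1 - 1) + 2 : ℕ) : ℝ) := by exact_mod_cast this
    linarith

theorem packing (hfar : ∀ (τ τ' : Ad k) (l l' : Pc k),
    Val τ → Val τ' → depth τ ≤ k → depth τ' ≤ k → att Jf τ ≠ some l → att Jf τ' ≠ some l' →
    (τ, l) ≠ (τ', l') → 4 * (2 * (k + 1 : ℝ) + 1) < dist (EE x a τ l 0) (EE x a τ' l' 0))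
    {i : ℕ} (hi : i ≤ k) : IsPacking (body rg (ee x a)) (fam x a i) := by
  constructor
  · rintro _ ⟨τ, -, rfl⟩
    exact ⟨_, tile_eq x a τ⟩
  rintro _ ⟨τ, ⟨hτ, hd⟩, rfl⟩ _ ⟨τ', ⟨hτ', hd'⟩, rfl⟩ hne
  have hne' : τ ≠ τ' := fun h => hne (by rw [h])
  have hm : IsMeagre (⋃ q : Ad k × Pc k, (EE x a q.1 q.2).symm ⁻¹' grid) :=
    isMeagre_iUnion fun q => isMeagre_grid.preimage_of_isOpenMap (EE x a q.1 q.2).symm.continuous
      (EE x a q.1 q.2).symm.toHomeomorph.isOpenMap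
  rw [disjoint_iff_inter_eq_empty]
  by_contra hcon
  refine not_isMeagre_of_isOpen (isOpen_interior.inter isOpen_interior)
    (nonempty_iff_ne_empty.2 hcon) (hm.mono fun z hz => ?_)
  obtain ⟨σ, l, w, h1, h2, h3, h4⟩ := locate x a hτ (interior_subset hz.1)
  obtain ⟨σ', l', w', h1', h2', h3', h4'⟩ := locate x a hτ' (interior_subset hz.2)
  have bd : ∀ (τ σ : Ad k) (l : Pc k) (w : ℂ), depth τ ≤ i → ((σ = τ ∧ w ∈ sh (rg l)) ∨
      ∃ c : Cel k, τ = (l, c) :: σ ∧ ¬ occ (rg l) c.1 ∧ nu (w - cpt c.1) ≤ 1) →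
      depth σ ≤ k ∧ ‖w‖ ≤ 2 * (2 * (k + 1 : ℝ) + 1) := by
    intro τ σ l w hd h
    have h0 : (0 : ℝ) ≤ k := Nat.cast_nonneg _
    rcases h with ⟨rfl, h⟩ | ⟨c, rfl, -, h⟩
    · exact ⟨by omega, by linarith [norm_le_nu w, sh_le h]⟩
    · rw [depth] at hd
      have h5 : (nrm c.1 : ℝ) ≤ k + 1 := by exact_mod_cast c.2
      exact ⟨by omega, by linarith [norm_le_nu w, cell_nu h]⟩
  have b1 := bd _ _ _ _ hd h4
  have b2 := bd _ _ _ _ hd' h4'
  have h5 : (σ, l) = (σ', l') := by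
    by_contra h5
    have h6 := hfar _ _ _ _ h1 h1' b1.1 b2.1 h2 h2' h5
    have h7 := dist_triangle_right (EE x a σ l 0) (EE x a σ' l' 0) z
    rw [h3, (EE x a σ l).dist_eq, ← h3, h3', (EE x a σ' l').dist_eq, dist_zero_left,
      dist_zero_left] at h7
    linarith [b1.2, b2.2]
  obtain ⟨rfl, rfl⟩ := Prod.ext_iff.1 h5
  have h6 : w = w' := (EE x a σ l).injective (h3.symm.trans h3')
  subst h6
  refine mem_iUnion.2 ⟨(σ, l), ?_⟩
  rw [mem_preimage, h3, IsometryEquiv.symm_apply_apply]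
  by_contra hg
  rcases h4 with ⟨rfl, h4⟩ | ⟨c, rfl, h4, h7⟩ <;> rcases h4' with ⟨rfl, h4'⟩ | ⟨c', rfl, h4', h7'⟩
  · exact hne' rfl
  · exact h4' (cell_sh hg h7' h4)
  · exact h4 (cell_sh hg h7 h4')
  · exact hne' (by rw [Subtype.ext (cell_cell hg h7 h7')])

theorem main_complex (k : ℕ) :
    ∃ C : Set ℂ, C.Nonempty ∧ IsBody C ∧ Surrounded C k ∧ ¬ Tiles C := by
  obtain ⟨x, a, hfar⟩ := exists_far k (4 * (2 * (k + 1 : ℝ) + 1))
  let l₀ : Pc k := ((⟨(0, 0), by simp [nrm]⟩, 0), 0)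
  have hne : (body rg (ee x a)).Nonempty :=
    ⟨_, mem_iUnion.2 ⟨l₀, 0, by simp [l₀, rg, sh, nu], rfl⟩⟩
  have h0 : tile x a [] = body rg (ee x a) := by
    unfold tile
    rw [show EE x a [] = ee x a from funext (EE_nil x a)]
  have hmem : ∀ i, body rg (ee x a) ∈ fam x a i := fun i => ⟨[], ⟨trivial, Nat.zero_le _⟩, h0⟩
  refine ⟨body rg (ee x a), hne, isBody_body _ _, ⟨fam x a, ?_,
    fun i hi => ⟨fam_finite x a i, packing x a hfar hi⟩, fun i hi => ⟨⟨?_, fun h => ?_⟩, ?_⟩⟩,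
    not_tiles _ _ (fun l l' h => ?_) card_rg l₀ (by simp [l₀, rg])⟩
  · refine Subset.antisymm ?_ (singleton_subset_iff.2 (hmem 0))
    rintro _ ⟨τ, ⟨-, hd⟩, rfl⟩
    have := length_le τ
    rw [List.length_eq_zero_iff.1 (show τ.length = 0 by omega), h0]
    rfl
  · exact image_mono fun τ hτ => ⟨hτ.1, hτ.2.trans (Nat.le_succ i)⟩
  · have h1 : IsCompact (⋃₀ fam x a (i + 1)) := (fam_finite x a _).isCompact_sUnion (by
      rintro _ ⟨τ, -, rfl⟩
      exact (isBody_body _ _).1)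
    have h2 : IsOpen (⋃₀ fam x a (i + 1)) :=
      subset_interior_iff_isOpen.1 (sUnion_subset fun T hT => surround x a hi (h hT))
    rw [IsClopen.eq_univ ⟨h1.isClosed, h2⟩ (hne.mono (subset_sUnion_of_mem (hmem _)))] at h1
    exact noncompact_univ ℂ h1
  · intro T hT
    rw [closure_compl]
    exact disjoint_compl_left_iff_subset.2 (surround x a hi hT)
  · have := hfar [] [] l l' trivial trivial (Nat.zero_le _) (Nat.zero_le _) (by simp [att])
      (by simp [att]) (by simpa using h)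
    rw [EE_nil, EE_nil] at this
    have h0 : (0 : ℝ) ≤ k := Nat.cast_nonneg _
    linarith

section Transport

variable {X Y : Type} [MetricSpace X] [MetricSpace Y] (e : X ≃ᵢ Y)

theorem image_interior' (S : Set X) : e '' interior S = interior (e '' S) :=
  e.toHomeomorph.image_interior S

theorem IsPacking.image {C : Set X} {F : Set (Set X)} (h : IsPacking C F) :
    IsPacking (e '' C) (image e '' F) := by
  constructor
  · rintro _ ⟨T, hT, rfl⟩
    obtain ⟨g, rfl⟩ := h.1 T hT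
    exact ⟨e.symm.trans (g.trans e), by simp [image_image]⟩
  · rintro _ ⟨S, hS, rfl⟩ _ ⟨T, hT, rfl⟩ hne
    rw [← image_interior', ← image_interior']
    exact (disjoint_image_iff e.injective).2 (h.2 S hS T hT fun h => hne (by rw [h]))

theorem sUnion_image' (F : Set (Set X)) : ⋃₀ (image e '' F) = e '' ⋃₀ F := by
  rw [image_sUnion]

include e in
theorem transport {k : ℕ} (h : ∃ C : Set X, C.Nonempty ∧ IsBody C ∧ Surrounded C k ∧ ¬ Tiles C) :
    ∃ C : Set Y, C.Nonempty ∧ IsBody C ∧ Surrounded C k ∧ ¬ Tiles C := by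
  obtain ⟨C, h1, h2, ⟨F, h3, h4, h5⟩, h6⟩ := h
  refine ⟨e '' C, h1.image _, ⟨h2.1.image e.continuous, ?_⟩,
    ⟨fun i => image e '' F i, by simp [h3], fun i hi => ⟨(h4 i hi).1.image _, (h4 i hi).2.image e⟩,
      fun i hi => ⟨?_, ?_⟩⟩, ?_⟩
  · rw [← image_interior']
    exact (e.toHomeomorph.image_closure _).symm.trans (congrArg _ h2.2)
  · exact (image_injective.2 e.injective).injOn.image_ssubset_image_iff (subset_univ _)
      (subset_univ _) |>.2 (h5 i hi).1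
  · rintro _ ⟨T, hT, rfl⟩
    have := (h5 i hi).2 T hT
    rw [closure_compl, disjoint_compl_left_iff_subset] at this ⊢
    rw [sUnion_image', ← image_interior']
    exact image_mono this
  · rintro ⟨G, hG, hG'⟩
    refine h6 ⟨image e.symm '' G, ?_, ?_⟩
    · simpa [image_image] using hG.image e.symm
    · rw [sUnion_image', hG', image_univ, e.symm.surjective.range_eq]

end Transport

theorem main_plane (k : ℕ) : ∃ C : Set (EuclideanSpace ℝ (Fin 2)),
    C.Nonempty ∧ IsBody C ∧ Surrounded C k ∧ ¬ Tiles C :=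
  transport Complex.orthonormalBasisOneI.repr.toIsometryEquiv (main_complex k)

end Pool.Agent.H487Z.Heesch
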