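import Mathlib

set_option autoImplicit false

namespace Pool.Agent.H487Z.Heesch

variable {X : Type} [MetricSpace X]

/-- A body: a compact set that equals the closure of its interior. -/
def IsBody (C : Set X) : Prop := IsCompact C ∧ closure (interior C) = C

/-- A packing by congruent copies of `C`: every member is the image of `C` under an isometry of the
space onto itself, and different members have disjoint interiors. -/
def IsPacking (C : Set X) (F : Set (Set X)) : Prop :=
  (∀ T ∈ F, ∃ g : X ≃ᵢ X, T = g '' C) ∧
    ∀ S ∈ F, ∀ T ∈ F, S ≠ T → Disjoint (interior S) (interior T)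

/-- `C` admits a tiling of the space by congruent copies. -/
def Tiles (C : Set X) : Prop := ∃ F : Set (Set X), IsPacking C F ∧ ⋃₀ F = Set.univ

/-- `C` can be surrounded `k` times: there are finite packings
`F 0 = {C} ⊂ F 1 ⊂ ⋯ ⊂ F k` such that the closure of the complement of `⋃ F (i+1)` meets no member
of `F i`. -/
def Surrounded (C : Set X) (k : ℕ) : Prop :=
  ∃ F : ℕ → Set (Set X), F 0 = {C} ∧ (∀ i, i ≤ k → (F i).Finite ∧ IsPacking C (F i)) ∧
    ∀ i, i < k → F i ⊂ F (i + 1) ∧ ∀ T ∈ F i, Disjoint (closure (⋃₀ F (i + 1))ᶜ) T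

end Pool.Agent.H487Z.Heesch
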