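import Pool.Agent.H487Z.HnDefs

set_option autoImplicit false
set_option linter.unusedSectionVars false

namespace Pool.Agent.H487Z.HeeschN

open Set Metric MeasureTheory Pool.Agent.H487Z.Heesch
open scoped Classical

/-- Euclidean space -/
abbrev Eu (n : ℕ) := EuclideanSpace ℝ (Fin n)

variable {n : ℕ}

/-- the sup norm -/
noncomputable def nu (z : Eu n) : ℝ := ‖z.ofLp‖

theorem continuous_nu : Continuous (nu (n := n)) := by
  unfold nu
  fun_prop

theorem nu_nonneg (z : Eu n) : 0 ≤ nu z := norm_nonneg _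

theorem nu_le_iff {z : Eu n} {r : ℝ} (hr : 0 ≤ r) : nu z ≤ r ↔ ∀ i, -r ≤ z i ∧ z i ≤ r := by
  simp [nu, pi_norm_le_iff_of_nonneg hr, abs_le]

theorem nu_lt_iff {z : Eu n} {r : ℝ} (hr : 0 < r) : nu z < r ↔ ∀ i, -r < z i ∧ z i < r := by
  simp [nu, pi_norm_lt_iff hr, abs_lt]

theorem nu_le_norm (z : Eu n) : nu z ≤ ‖z‖ :=
  (pi_norm_le_iff_of_nonneg (norm_nonneg _)).2 fun i => PiLp.norm_apply_le z i

theorem norm_le_nu (z : Eu n) : ‖z‖ ≤ n * nu z := by
  have h0 := nu_nonneg z
  refine abs_le_of_sq_le_sq' ?_ (by positivity) |>.2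
  rw [EuclideanSpace.norm_sq_eq]
  refine (Finset.sum_le_card_nsmul _ _ (nu z ^ 2) fun i _ =>
    pow_le_pow_left₀ (norm_nonneg _) (norm_le_pi_norm z.ofLp i) 2).trans ?_
  rw [Finset.card_univ, Fintype.card_fin, nsmul_eq_mul, mul_pow]
  refine mul_le_mul_of_nonneg_right ?_ (by positivity)
  exact_mod_cast Nat.le_self_pow two_ne_zero n

theorem convex_nu (r : ℝ) : Convex ℝ {z : Eu n | nu z ≤ r} := by
  have h : {z : Eu n | nu z ≤ r} =
      (WithLp.linearEquiv 2 ℝ (Fin n → ℝ)).toLinearMap ⁻¹' closedBall 0 r := by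
    ext z
    simp [nu]
  rw [h]
  exact (convex_closedBall (0 : Fin n → ℝ) r).linear_preimage _

/-- the two shapes: a cube and a cube with a cubical hole -/
def sh (n : ℕ) : Bool → Set (Eu n)
  | false => {z | nu z ≤ 1}
  | true => {z | 1 ≤ nu z ∧ nu z ≤ 2 * n + 1}

theorem sh_le {b : Bool} {z : Eu n} (h : z ∈ sh n b) : nu z ≤ 2 * n + 1 := by
  cases b
  · exact le_trans h (by simp)
  · exact h.2

theorem isCompact_sh (b : Bool) : IsCompact (sh n b) := by
  refine isCompact_of_isClosed_isBounded ?_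
    ((isBounded_closedBall (x := (0 : Eu n)) (r := n * (2 * n + 1))).subset fun z hz => ?_)
  · cases b
    · exact isClosed_le continuous_nu continuous_const
    · exact (isClosed_le continuous_const continuous_nu).inter
        (isClosed_le continuous_nu continuous_const)
  · rw [mem_closedBall_zero_iff]
    exact (norm_le_nu z).trans (mul_le_mul_of_nonneg_left (sh_le hz) (Nat.cast_nonneg _))

theorem coord_lt {x w : Eu n} (h : w ∈ ball x 1) (i : Fin n) : x i - 1 < w i ∧ w i < x i + 1 := by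
  have := (PiLp.dist_apply_le w x i).trans_lt h
  rw [Real.dist_eq, abs_lt] at this
  constructor <;> linarith [this.1, this.2]

theorem atom (hn : 2 ≤ n) {b : Bool} {z : Eu n} (h : z ∈ sh n b) : ∃ U : Set (Eu n), IsOpen U ∧
    IsPreconnected U ∧ z ∈ closure U ∧ U ⊆ sh n b ∧ (b = false → ball 0 1 ⊆ U) ∧
      (b = true → ∃ x ∈ U, ∃ y ∈ U, 4 * n ≤ dist x y) := by
  have main : ∀ (K : Set (Eu n)) (x : Eu n), Convex ℝ K → z ∈ K → ball x 1 ⊆ K →
      IsPreconnected (interior K) ∧ z ∈ closure (interior K) := by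
    intro K x h1 h2 h3
    refine ⟨h1.interior.isPreconnected, ?_⟩
    rw [h1.closure_interior_eq_closure_of_nonempty_interior
      ⟨x, interior_maximal h3 isOpen_ball (mem_ball_self one_pos)⟩]
    exact subset_closure h2
  cases b
  · have h1 : ball (0 : Eu n) 1 ⊆ sh n false := fun w hw =>
      (nu_le_norm w).trans (mem_ball_zero_iff.1 hw).le
    obtain ⟨h2, h3⟩ := main _ 0 (convex_nu 1) h h1
    exact ⟨_, isOpen_interior, h2, h3, interior_subset,
      fun _ => interior_maximal h1 isOpen_ball, by simp⟩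
  · obtain ⟨i, s, hs, hi⟩ : ∃ (i : Fin n) (s : ℝ), (s = 1 ∨ s = -1) ∧ 1 ≤ s * z i := by
      by_contra h1
      push Not at h1
      refine absurd ((nu_lt_iff one_pos).2 fun i => ?_) (not_lt.2 h.1)
      constructor <;> linarith [h1 i 1 (Or.inl rfl), h1 i (-1) (Or.inr rfl)]
    have hn' : (2 : ℝ) ≤ n := by exact_mod_cast hn
    let K : Set (Eu n) := {w | nu w ≤ 2 * n + 1} ∩ {w | 1 ≤ s * w i}
    have hK : Convex ℝ K := (convex_nu _).inter (convex_halfSpace_ge
      (f := fun w : Eu n => s * w i) ⟨fun a b => by simp [mul_add], fun a b => by simp; ring⟩ 1)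
    let p : ℝ → Eu n := fun t => WithLp.toLp 2 fun j => if j = i then 2 * s else 2 * n * t
    have hp : ∀ t : ℝ, (t = 1 ∨ t = -1) → ball (p t) 1 ⊆ K := by
      intro t ht w hw
      refine ⟨(nu_le_iff (by positivity)).2 fun j => ?_, ?_⟩
      · have := coord_lt hw j
        simp only [p] at this
        split_ifs at this
        · rcases hs with rfl | rfl <;> constructor <;> linarith [this.1, this.2]
        · rcases ht with rfl | rfl <;> constructor <;> linarith [this.1, this.2]
      · have := coord_lt hw i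
        simp only [p, if_true] at this
        change 1 ≤ s * w i
        rcases hs with rfl | rfl <;> linarith [this.1, this.2]
    obtain ⟨h2, h3⟩ := main K _ hK ⟨h.2, hi⟩ (hp 1 (Or.inl rfl))
    refine ⟨_, isOpen_interior, h2, h3, fun w hw => ?_, by simp, fun _ =>
      ⟨p 1, interior_maximal (hp _ (Or.inl rfl)) isOpen_ball (mem_ball_self one_pos),
        p (-1), interior_maximal (hp _ (Or.inr rfl)) isOpen_ball (mem_ball_self one_pos), ?_⟩⟩
    · have h4 := interior_subset hw
      refine ⟨not_lt.1 fun h5 => ?_, h4.1⟩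
      have h6 := (nu_lt_iff one_pos).1 h5 i
      have h7 : 1 ≤ s * w i := h4.2
      rcases hs with rfl | rfl <;> linarith [h6.1, h6.2]
    · haveI : Nontrivial (Fin n) := Fin.nontrivial_iff_two_le.2 hn
      obtain ⟨j, hj⟩ := exists_ne i
      refine le_trans ?_ (PiLp.dist_apply_le (p 1) (p (-1)) j)
      simp only [p, hj, if_false, Real.dist_eq]
      exact le_trans (by linarith) (le_abs_self _)

theorem hole (hn : 2 ≤ n) {V : Set (Eu n)} (hV : IsPreconnected V) (h0 : 0 ∈ closure V)
    (h : ∀ v ∈ V, ¬ (1 < nu v ∧ nu v < 2 * n + 1)) : ∀ v ∈ V, nu v ≤ 1 := by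
  intro v hv
  by_contra h1
  have hn' : (2 : ℝ) ≤ n := by exact_mod_cast hn
  obtain ⟨w, hw, hw'⟩ := mem_closure_iff.1 h0 {z | nu z < 1}
    (isOpen_lt continuous_nu continuous_const) (by simp [nu])
  have h2 := hV.intermediate_value hw' hv continuous_nu.continuousOn
  have h3 : nu w < 1 := hw
  have h4 : 1 < min (nu v) 2 := lt_min (not_le.1 h1) (by norm_num)
  obtain ⟨x, hx, hx'⟩ := h2 (show min (nu v) 2 ∈ Icc (nu w) (nu v) from
    ⟨by linarith, min_le_left _ _⟩)
  exact h x hx ⟨hx' ▸ h4, hx' ▸ (min_le_right _ _).trans_lt (by linarith)⟩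

theorem center_eq {w : Eu n} (h : ∀ z ∈ ball w 1, nu z ≤ 1) : w = 0 := by
  have h1 : closedBall w 1 ⊆ {z | nu z ≤ 1} := by
    rw [← closure_ball w one_ne_zero]
    exact closure_minimal h (isClosed_le continuous_nu continuous_const)
  have h2 : ∀ v : Eu n, ‖v‖ = 1 → nu (w + v) ≤ 1 := fun v hv =>
    h1 (by simp [mem_closedBall, dist_eq_norm, hv])
  ext i
  have a := (nu_le_iff zero_le_one).1 (h2 (EuclideanSpace.single i 1) (by simp)) i
  have b := (nu_le_iff zero_le_one).1 (h2 (EuclideanSpace.single i (-1)) (by simp)) i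
  simp at a b
  simpa using le_antisymm a.2 b.1

variable {L : Type} [Fintype L]

/-- a union of placed shapes -/
def body (ring : L → Bool) (e : L → Eu n ≃ᵢ Eu n) : Set (Eu n) := ⋃ l, e l '' sh n (ring l)

theorem image_body (ring : L → Bool) (e : L → Eu n ≃ᵢ Eu n) (g : Eu n ≃ᵢ Eu n) :
    g '' body ring e = body ring fun l => (e l).trans g := by
  simp [body, image_iUnion, image_image]

theorem mem_interior_body {ring : L → Bool} {e : L → Eu n ≃ᵢ Eu n} {l : L} {U : Set (Eu n)}
    (hU : IsOpen U) (h : U ⊆ sh n (ring l)) : e l '' U ⊆ interior (body ring e) :=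
  interior_maximal ((image_mono h).trans (subset_iUnion (fun l => e l '' sh n (ring l)) l))
    ((e l).toHomeomorph.isOpenMap U hU)

theorem isBody_body (hn : 2 ≤ n) (ring : L → Bool) (e : L → Eu n ≃ᵢ Eu n) :
    IsBody (body ring e) := by
  have hc : IsCompact (body ring e) :=
    isCompact_iUnion fun l => (isCompact_sh _).image (e l).continuous
  refine ⟨hc, Subset.antisymm (closure_minimal interior_subset hc.isClosed) ?_⟩
  intro x hx
  obtain ⟨l, z, hz, rfl⟩ := mem_iUnion.1 hx
  obtain ⟨U, h1, _, h3, h4, _⟩ := atom hn hz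
  exact closure_mono (mem_interior_body h1 h4)
    (image_closure_subset_closure_image (e l).continuous ⟨z, h3, rfl⟩)

theorem ring_int {ring : L → Bool} {e : L → Eu n ≃ᵢ Eu n} {l : L} (hl : ring l = true) {z : Eu n}
    (hz : 1 < nu z ∧ nu z < 2 * n + 1) : e l z ∈ interior (body ring e) :=
  mem_interior_body (U := {z | 1 < nu z ∧ nu z < 2 * n + 1})
    ((isOpen_lt continuous_const continuous_nu).inter (isOpen_lt continuous_nu continuous_const))
    (by rw [hl]; exact fun w hw => ⟨hw.1.le, hw.2.le⟩) ⟨z, hz, rfl⟩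

theorem norm_le_of_nu {z : Eu n} (h : nu z ≤ 1) : ‖z‖ ≤ n :=
  (norm_le_nu z).trans (mul_le_of_le_one_right (Nat.cast_nonneg _) h)

theorem fill (hn : 2 ≤ n) {ring : L → Bool} {e e' : L → Eu n ≃ᵢ Eu n} {l : L} (hl : ring l = true)
    (hd : Disjoint (interior (body ring e)) (interior (body ring e')))
    (h : e l 0 ∈ body ring e') : ∃ l', ring l' = false ∧ e' l' 0 = e l 0 := by
  obtain ⟨l', z, hz, hz'⟩ := mem_iUnion.1 h
  obtain ⟨U, h1, h2, h3, h4, h5, h6⟩ := atom hn hz
  let ψ : Eu n ≃ᵢ Eu n := (e' l').trans (e l).symm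
  have hψ : ∀ x, e l (ψ x) = e' l' x := fun x => (e l).apply_symm_apply _
  have h0 : ψ z = 0 := (e l).injective (by rw [hψ, hz'])
  have h7 := hole hn (h2.image ψ ψ.continuous.continuousOn)
    (image_closure_subset_closure_image ψ.continuous ⟨z, h3, h0⟩) (by
      rintro _ ⟨x, hx, rfl⟩ hv
      have := ring_int (e := e) hl hv
      rw [hψ] at this
      exact disjoint_left.1 hd this (mem_interior_body h1 h4 ⟨x, hx, rfl⟩))
  cases hb : ring l'
  · refine ⟨l', hb, ?_⟩
    rw [← hψ, center_eq (w := ψ 0) fun w hw => h7 w ?_]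
    rw [← ψ.image_ball] at hw
    exact image_mono (h5 hb) hw
  · obtain ⟨x, hx, y, hy, hxy⟩ := h6 hb
    have a := norm_le_of_nu (h7 _ ⟨x, hx, rfl⟩)
    have b := norm_le_of_nu (h7 _ ⟨y, hy, rfl⟩)
    have hn' : (2 : ℝ) ≤ n := by exact_mod_cast hn
    rw [← ψ.dist_eq, dist_eq_norm] at hxy
    linarith [norm_sub_le (ψ x) (ψ y)]

theorem not_tiles (hn : 2 ≤ n) (ring : L → Bool) (e : L → Eu n ≃ᵢ Eu n)
    (hfar : ∀ l l', l ≠ l' → n * (2 * n + 1) < dist (e l 0) (e l' 0))
    (hcard : 2 * (Finset.univ.filter fun l => ring l = false).card ≤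
      (Finset.univ.filter fun l => ring l = true).card) (l₀ : L) (hl₀ : ring l₀ = false) :
    ¬ Tiles (body ring e) := by
  rintro ⟨F, ⟨hF, hdis⟩, hcov⟩
  have hn' : (2 : ℝ) ≤ n := by exact_mod_cast hn
  choose g hg using fun T : F => hF T.1 T.2
  let E : F → L → Eu n ≃ᵢ Eu n := fun T l => (e l).trans (g T)
  have hE : ∀ T : F, T.1 = body ring (E T) := fun T => by rw [hg T, image_body]
  have hdis' : ∀ S T : F, S ≠ T →
      Disjoint (interior (body ring (E S))) (interior (body ring (E T))) := fun S T h => by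
    rw [← hE, ← hE]
    exact hdis _ S.2 _ T.2 fun h' => h (Subtype.ext h')
  have hcov' : ∀ z, ∃ T : F, z ∈ body ring (E T) := fun z => by
    obtain ⟨T, hT, hz⟩ := mem_sUnion.1 (hcov ▸ mem_univ z)
    exact ⟨⟨T, hT⟩, hE ⟨T, hT⟩ ▸ hz⟩
  have hdist : ∀ (T : F) l l' z z', dist (E T l z) (E T l' z') = dist (e l z) (e l' z') :=
    fun T l l' z z' => (g T).dist_eq _ _
  have key : ∀ p : F × L, ring p.2 = true →
      ∃ q : F × L, ring q.2 = false ∧ E q.1 q.2 0 = E p.1 p.2 0 := by
    rintro ⟨T, l⟩ hl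
    obtain ⟨T', hT'⟩ := hcov' (E T l 0)
    have hne : T ≠ T' := by
      rintro rfl
      obtain ⟨l', z, hz, hz'⟩ := mem_iUnion.1 hT'
      by_cases hll : l = l'
      · subst hll
        rw [(E T l).injective hz', show ring l = true from hl] at hz
        have := hz.1
        norm_num [nu] at this
      · have h1 := hfar l l' hll
        rw [← hdist T, ← hz', (E T l').dist_eq, dist_zero_right] at h1
        linarith [norm_le_nu z, mul_le_mul_of_nonneg_left (sh_le hz) (Nat.cast_nonneg n)]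
    obtain ⟨l', h1, h2⟩ := fill hn hl (hdis' T T' hne) hT'
    exact ⟨(T', l'), h1, h2⟩
  have hring : ∀ z : Eu n, ‖z‖ = n + 1 → 1 < nu z ∧ nu z < 2 * n + 1 := fun z hz =>
    ⟨not_le.1 fun h => by linarith [norm_le_of_nu h], by linarith [nu_le_norm z]⟩
  have inj : ∀ p q : F × L, ring p.2 = true → ring q.2 = true →
      E p.1 p.2 0 = E q.1 q.2 0 → p = q := by
    rintro ⟨T, l⟩ ⟨T', l'⟩ hl hl' h
    have hT : T = T' := by
      by_contra hne
      let y : Eu n := EuclideanSpace.single ⟨0, by omega⟩ (n + 1)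
      have hy : ‖y‖ = n + 1 := by
        simp only [y, PiLp.norm_single, Real.norm_eq_abs]
        exact abs_of_nonneg (by positivity)
      have h1 : E T l y ∈ interior (body ring (E T)) := ring_int hl (hring y hy)
      obtain ⟨z, hz⟩ := (E T' l').surjective (E T l y)
      have h2 : ‖z‖ = n + 1 := by
        rw [← dist_zero_right, ← (E T' l').dist_eq, hz, ← h, (E T l).dist_eq, dist_zero_right, hy]
      have h3 : E T' l' z ∈ interior (body ring (E T')) := ring_int hl' (hring z h2)
      exact disjoint_left.1 (hdis' T T' hne) h1 (hz ▸ h3)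
    subst hT
    have hll : l = l' := by
      by_contra hne
      have h1 := hfar l l' hne
      rw [← hdist T, show E T l 0 = E T l' 0 from h, dist_self] at h1
      nlinarith
    rw [hll]
  haveI : Nonempty L := ⟨l₀⟩
  obtain ⟨T₀, -⟩ := hcov' 0
  haveI : Nonempty F := ⟨T₀⟩
  choose! q hq1 hq2 using key
  obtain ⟨B, hB⟩ : ∃ B : ℝ, ∀ l, dist (e l 0) (e l₀ 0) ≤ B :=
    ⟨∑ l, dist (e l 0) (e l₀ 0), fun l => Finset.single_le_sum
      (f := fun l => dist (e l 0) (e l₀ 0)) (fun _ _ => dist_nonneg) (Finset.mem_univ l)⟩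
  have hB0 : 0 ≤ B := dist_nonneg.trans (hB l₀)
  have grow : ∀ i : ℕ, ∃ s : Finset F, 2 ^ i ≤ s.card ∧
      ∀ T ∈ s, dist (E T l₀ 0) (E T₀ l₀ 0) ≤ 2 * B * i := by
    intro i
    induction i with
    | zero => exact ⟨{T₀}, by simp, by simp⟩
    | succ i ih =>
      obtain ⟨s, hs1, hs2⟩ := ih
      set A := s ×ˢ Finset.univ.filter fun l => ring l = true with hA
      have hAr : ∀ p ∈ A, ring p.2 = true := fun p hp =>
        (Finset.mem_filter.1 (Finset.mem_product.1 hp).2).2
      refine ⟨A.image fun p => (q p).1, ?_, ?_⟩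
      · have h1 : A.card ≤ ((A.image fun p => (q p).1) ×ˢ
            Finset.univ.filter fun l => ring l = false).card := by
          refine Finset.card_le_card_of_injOn q (fun p hp => ?_) fun p hp p' hp' h => ?_
          · exact Finset.mem_coe.2 (Finset.mem_product.2 ⟨Finset.mem_image_of_mem _ hp,
              Finset.mem_filter.2 ⟨Finset.mem_univ _, hq1 p (hAr p hp)⟩⟩)
          · refine inj p p' (hAr p hp) (hAr p' hp') ?_
            rw [← hq2 p (hAr p hp), ← hq2 p' (hAr p' hp'), h]
        rw [hA, Finset.card_product, Finset.card_product, ← hA] at h1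
        have h2 : 0 < (Finset.univ.filter fun l => ring l = false).card :=
          Finset.card_pos.2 ⟨l₀, by simp [hl₀]⟩
        have h3 := (Nat.mul_le_mul_left s.card hcard).trans h1
        rw [← mul_assoc] at h3
        have h4 := Nat.le_of_mul_le_mul_right h3 h2
        rw [pow_succ]
        omega
      · intro T hT
        obtain ⟨p, hp, rfl⟩ := Finset.mem_image.1 hT
        have h1 := hs2 _ (Finset.mem_product.1 hp).1
        have h2 := hq2 p (hAr p hp)
        have h3 := dist_triangle4 (E (q p).1 l₀ 0) (E p.1 p.2 0) (E p.1 l₀ 0) (E T₀ l₀ 0)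
        have h4 : dist (E (q p).1 l₀ 0) (E p.1 p.2 0) ≤ B := by
          rw [← h2, hdist, dist_comm]
          exact hB _
        have h5 : dist (E p.1 p.2 0) (E p.1 l₀ 0) ≤ B := by
          rw [hdist]
          exact hB _
        push_cast
        linarith
  have hball : ∀ T : F, ball (E T l₀ 0) 1 ⊆ interior (body ring (E T)) := fun T => by
    rw [← (E T l₀).image_ball]
    refine mem_interior_body isOpen_ball fun w hw => ?_
    rw [hl₀]
    exact (nu_le_norm w).trans (mem_ball_zero_iff.1 hw).le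
  have area : ∀ i : ℕ, (2 : ℝ) ^ i ≤ (2 * B * i + 1) ^ n := by
    intro i
    obtain ⟨s, hs1, hs2⟩ := grow i
    have h1 : volume (⋃ T ∈ s, ball (E T l₀ 0) 1) ≤ volume (ball (E T₀ l₀ 0) (2 * B * i + 1)) := by
      refine measure_mono (iUnion₂_subset fun T hT => ball_subset ?_)
      linarith [hs2 T hT]
    rw [measure_biUnion_finset (fun S _ T _ h => (hdis' S T h).mono (hball S) (hball T))
      (fun _ _ => measurableSet_ball), Measure.addHaar_ball_of_pos _ _ (by positivity)] at h1
    simp only [Measure.addHaar_ball_center volume _ 1, Finset.sum_const, nsmul_eq_mul,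
      finrank_euclideanSpace_fin] at h1
    rw [ENNReal.mul_le_mul_iff_left (measure_ball_pos _ _ one_pos).ne' measure_ball_lt_top.ne,
      ← ENNReal.ofReal_natCast, ENNReal.ofReal_le_ofReal_iff (by positivity)] at h1
    exact le_trans (by exact_mod_cast hs1) h1
  have h1 := (tendsto_pow_const_div_const_pow_of_one_lt n (show (1 : ℝ) < 2 by norm_num)).eventually
    (gt_mem_nhds (show (0 : ℝ) < 1 / (2 * B + 1) ^ n by positivity))
  obtain ⟨i, hi, hi1⟩ := (h1.and (Filter.eventually_ge_atTop 1)).exists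
  have h2 : (1 : ℝ) ≤ i := by exact_mod_cast hi1
  have h3 : (2 * B * i + 1) ^ n ≤ ((2 * B + 1) * i) ^ n :=
    pow_le_pow_left₀ (by positivity) (by linarith) n
  rw [div_lt_div_iff₀ (by positivity) (by positivity)] at hi
  have := area i
  rw [mul_pow] at h3
  linarith

end Pool.Agent.H487Z.HeeschN
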