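import Pool.Agent.H487Z.HnA
import Pool.Agent.H487Z.HeB

set_option autoImplicit false
set_option linter.unusedSectionVars false

namespace Pool.Agent.H487Z.HeeschN

open Set Metric Complex Pool.Agent.H487Z.Heesch
open scoped Classical

variable {n : ℕ}

/-- size of a cell index -/
def nrm (c : Fin n → ℤ) : ℕ := Finset.univ.sup fun i => (c i).natAbs

theorem nrm_le_iff {c : Fin n → ℤ} {r : ℕ} : nrm c ≤ r ↔ ∀ i, (c i).natAbs ≤ r := by simp [nrm]

/-- centre of a cell -/
noncomputable def cpt (c : Fin n → ℤ) : Eu n := WithLp.toLp 2 fun i => 2 * (c i : ℝ)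

/-- cells occupied by a shape -/
def occ : Bool → (Fin n → ℤ) → Prop
  | false, c => nrm c ≤ 0
  | true, c => ¬ nrm c ≤ 0 ∧ nrm c ≤ n

/-- the grid hyperplanes -/
def grid (n : ℕ) : Set (Eu n) := {z | ∃ (i : Fin n) (m : ℤ), z i = m}

theorem cell_iff {z : Eu n} {c : Fin n → ℤ} : nu (z - cpt c) ≤ 1 ↔
    ∀ i, (2 * c i - 1 : ℝ) ≤ z i ∧ z i ≤ 2 * c i + 1 := by
  rw [nu_le_iff zero_le_one]
  refine forall_congr' fun i => ?_
  simp only [cpt, PiLp.sub_apply]
  constructor <;> rintro ⟨a, b⟩ <;> constructor <;> linarith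

theorem cover1 (x : ℝ) : ∀ r : ℕ, -(2 * (r : ℝ) + 1) ≤ x → x ≤ 2 * r + 1 →
    ∃ n : ℤ, n.natAbs ≤ r ∧ (2 * n - 1 : ℝ) ≤ x ∧ x ≤ 2 * n + 1 := by
  intro r
  induction r with
  | zero => exact fun a b => ⟨0, le_rfl, by simpa using a, by simpa using b⟩
  | succ r ih =>
    intro a b
    push_cast at a b
    by_cases h1 : -(2 * (r : ℝ) + 1) ≤ x
    · by_cases h2 : x ≤ 2 * r + 1
      · obtain ⟨n, h3, h4⟩ := ih h1 h2
        exact ⟨n, by omega, h4⟩
      · exact ⟨r + 1, by omega, by push_cast; linarith, by push_cast; linarith⟩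
    · exact ⟨-(r + 1), by omega, by push_cast; linarith, by push_cast; linarith⟩

theorem cover2 {z : Eu n} {r : ℕ} (h : nu z ≤ 2 * r + 1) :
    ∃ c : Fin n → ℤ, nrm c ≤ r ∧ nu (z - cpt c) ≤ 1 := by
  rw [nu_le_iff (by positivity)] at h
  choose c hc hc' using fun i => cover1 (z i) r (h i).1 (h i).2
  exact ⟨c, nrm_le_iff.2 hc, cell_iff.2 hc'⟩

theorem cell_nu {z : Eu n} {c : Fin n → ℤ} {r : ℕ} (hc : nrm c ≤ r) (h : nu (z - cpt c) ≤ 1) :
    nu z ≤ 2 * r + 1 := by
  rw [cell_iff] at h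
  refine (nu_le_iff (by positivity)).2 fun i => ?_
  have h1 := nrm_le_iff.1 hc i
  have h2 : -(r : ℝ) ≤ c i := by exact_mod_cast (by omega : -(r : ℤ) ≤ c i)
  have h3 : (c i : ℝ) ≤ r := by exact_mod_cast (by omega : c i ≤ (r : ℤ))
  constructor <;> linarith [(h i).1, (h i).2]

theorem occ_sh {b : Bool} {z : Eu n} {c : Fin n → ℤ} (hc : occ b c) (h : nu (z - cpt c) ≤ 1) :
    z ∈ sh n b := by
  cases b
  · simpa [sh] using cell_nu hc h
  · refine ⟨not_lt.1 fun h2 => hc.1 (nrm_le_iff.2 fun i => ?_), cell_nu hc.2 h⟩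
    have h3 := cell_iff.1 h i
    have h4 := (nu_lt_iff one_pos).1 h2 i
    have a1 : c i < 1 := by exact_mod_cast (by linarith [h3.1, h4.2] : (c i : ℝ) < 1)
    have a2 : -1 < c i := by exact_mod_cast (by linarith [h3.2, h4.1] : (-1 : ℝ) < c i)
    omega

theorem cell_strict {z : Eu n} {c : Fin n → ℤ} (hz : z ∉ grid n) (h : nu (z - cpt c) ≤ 1)
    (i : Fin n) : (2 * c i - 1 : ℝ) < z i ∧ z i < 2 * c i + 1 := by
  have h1 := cell_iff.1 h i
  refine ⟨h1.1.lt_of_ne fun a => hz ⟨i, 2 * c i - 1, ?_⟩,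
    h1.2.lt_of_ne fun a => hz ⟨i, 2 * c i + 1, ?_⟩⟩ <;> push_cast <;> linarith

theorem cell_cell {z : Eu n} {c c' : Fin n → ℤ} (hz : z ∉ grid n) (h : nu (z - cpt c) ≤ 1)
    (h' : nu (z - cpt c') ≤ 1) : c = c' := by
  funext i
  have a := cell_strict hz h i
  have b := cell_strict hz h' i
  have a1 : c i < c' i + 1 := by exact_mod_cast (by linarith [a.1, b.2] : (c i : ℝ) < c' i + 1)
  have a2 : c' i < c i + 1 := by exact_mod_cast (by linarith [a.2, b.1] : (c' i : ℝ) < c i + 1)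
  omega

theorem cell_sh {b : Bool} {z : Eu n} {c : Fin n → ℤ} (hz : z ∉ grid n) (h : nu (z - cpt c) ≤ 1)
    (h' : z ∈ sh n b) : occ b c := by
  cases b
  · obtain ⟨c', h1, h2⟩ := cover2 (z := z) (r := 0) (by simpa [sh] using h')
    rw [cell_cell hz h h2]
    exact h1
  · obtain ⟨c', h1, h2⟩ := cover2 (z := z) (r := n) h'.2
    rw [← cell_cell hz h h2] at h1
    refine ⟨fun h3 => absurd ((nu_lt_iff one_pos).2 fun i => ?_) (not_lt.2 h'.1), h1⟩
    have h4 : c i = 0 := by simpa using nrm_le_iff.1 h3 i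
    simpa [h4] using cell_strict hz h i

theorem isMeagre_grid : IsMeagre (grid n) := by
  have h1 : ∀ x : ℝ, IsMeagre ({x} : Set ℝ) := fun x =>
    IsNowhereDense.isMeagre (by simp [IsNowhereDense])
  have : grid n = ⋃ (i : Fin n) (m : ℤ), (EuclideanSpace.proj i : Eu n →L[ℝ] ℝ) ⁻¹' {(m : ℝ)} := by
    ext z
    simp [grid]
  rw [this]
  exact isMeagre_iUnion fun i => isMeagre_iUnion fun m => (h1 _).preimage_of_isOpenMap
    (ContinuousLinearMap.continuous _) (ContinuousLinearMap.isOpenMap _ fun t =>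
      ⟨EuclideanSpace.single i t, by simp⟩)

/-- a circle of rotations about a subspace of codimension two -/
structure Rot (n : ℕ) where
  ρ : Circle → Eu n ≃ₗᵢ[ℝ] Eu n
  ι : ℂ →ₗᵢ[ℝ] Eu n
  one : ∀ z, ρ 1 z = z
  mul : ∀ ω ω' z, ρ (ω * ω') z = ρ ω (ρ ω' z)
  comm : ∀ ω a, ρ ω (ι a) = ι (ω * a)

theorem exists_rot (hn : 2 ≤ n) : Nonempty (Rot n) := by
  have h : Module.finrank ℝ (WithLp 2 (ℂ × Eu (n - 2))) = n := by
    rw [(WithLp.linearEquiv 2 ℝ (ℂ × Eu (n - 2))).finrank_eq, Module.finrank_prod,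
      Complex.finrank_real_complex, finrank_euclideanSpace_fin]
    omega
  let e : WithLp 2 (ℂ × Eu (n - 2)) ≃ₗᵢ[ℝ] Eu n :=
    ((stdOrthonormalBasis ℝ _).reindex (finCongr h)).repr
  let j : ℂ →ₗᵢ[ℝ] WithLp 2 (ℂ × Eu (n - 2)) :=
    ⟨(WithLp.linearEquiv 2 ℝ (ℂ × Eu (n - 2))).symm.toLinearMap ∘ₗ LinearMap.inl ℝ ℂ _,
      fun a => by simp⟩
  refine ⟨⟨fun ω => e.symm.trans ((LinearIsometryEquiv.withLpProdCongr 2 (rotation ω)
    (LinearIsometryEquiv.refl ℝ _)).trans e), e.toLinearIsometry.comp j, fun z => ?_,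
    fun ω ω' z => ?_, fun ω a => ?_⟩⟩
  · simp only [LinearIsometryEquiv.trans_apply, LinearIsometryEquiv.withLpProdCongr_apply]
    rw [rotation_apply, Circle.coe_one, one_mul]
    exact e.apply_symm_apply z
  · simp [mul_assoc]
  · simp [j]

variable (R : Rot n)

/-- a rigid motion -/
noncomputable def iso (p : Eu n) (ω : Circle) : Eu n ≃ᵢ Eu n :=
  (R.ρ ω).toIsometryEquiv.trans (IsometryEquiv.addLeft p)

theorem iso_apply (p : Eu n) (ω : Circle) (z : Eu n) : iso R p ω z = p + R.ρ ω z := rfl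

variable (n) (k : ℕ)

/-- cells of a patch -/
abbrev Cel := {c : Fin n → ℤ // nrm c ≤ k + n}

instance : Finite (Cel n k) := by
  refine Set.Finite.to_subtype (s := {c : Fin n → ℤ | nrm c ≤ k + n})
    ((Set.finite_Icc (fun _ => -(k + n : ℤ)) fun _ => (k + n : ℤ)).subset fun c hc => ?_)
  have := nrm_le_iff.1 hc
  constructor <;> intro i <;> have := this i <;> simp only <;> omega

noncomputable instance : Fintype (Cel n k) := Fintype.ofFinite _

/-- pieces -/
abbrev Pc := (Cel n k × Fin (2 * k + 1)) × Fin 3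

/-- addresses -/
abbrev Ad := List (Pc n k × Cel n k)

variable {n k}

/-- which pieces are rings -/
def rg (l : Pc n k) : Bool := decide (l.2 ≠ 0)

/-- choice of a fresh cube -/
noncomputable def Jf (c : Cel n k) (U : Finset (Pc n k)) : Pc n k :=
  if h : ∃ q, ((c, q), (0 : Fin 3)) ∉ U then ((c, h.choose), 0) else ((c, 0), 0)

theorem Jf_cell (c : Cel n k) (U : Finset (Pc n k)) : (Jf c U).1.1 = c ∧ rg (Jf c U) = false := by
  unfold Jf
  split_ifs <;> simp [rg]

theorem Jf_fresh (c : Cel n k) {U : Finset (Pc n k)} (hU : U.card ≤ 2 * k) : Jf c U ∉ U := by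
  have h : ∃ q, ((c, q), (0 : Fin 3)) ∉ U := by
    by_contra h
    push Not at h
    have := Finset.card_le_card_of_injOn (s := Finset.univ) (t := U)
      (fun q : Fin (2 * k + 1) => ((c, q), (0 : Fin 3))) (fun q _ => h q)
      (fun q _ q' _ h => by simpa using h)
    rw [Finset.card_univ, Fintype.card_fin] at this
    omega
  rw [Jf, dif_pos h]
  exact h.choose_spec

theorem card_rg : 2 * (Finset.univ.filter fun l : Pc n k => rg l = false).card ≤
    (Finset.univ.filter fun l : Pc n k => rg l = true).card := by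
  have h1 : (Finset.univ.filter fun l : Pc n k => rg l = false) = Finset.univ ×ˢ {0} := by
    ext ⟨a, b⟩
    fin_cases b <;> simp [rg]
  have h2 : (Finset.univ.filter fun l : Pc n k => rg l = true) = Finset.univ ×ˢ {1, 2} := by
    ext ⟨a, b⟩
    fin_cases b <;> simp [rg]
  rw [h1, h2, Finset.card_product, Finset.card_product, Finset.card_singleton,
    Finset.card_pair (by decide)]
  omega

/-- the layer in which a tile appears -/
def depth : Ad n k → ℕ
  | [] => 0
  | p :: σ => depth σ + max 1 (nrm p.2.1 - n)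

theorem length_le : ∀ τ : Ad n k, τ.length ≤ depth τ
  | [] => le_rfl
  | p :: σ => by
    have := length_le σ
    rw [depth, List.length_cons]
    omega

/-- valid addresses -/
abbrev Val (τ : Ad n k) : Prop := valid Jf (fun l c => ¬ occ (rg l) c.1) τ

variable (x : Pc n k → ℝ) (a : Pc n k → ℂ)

/-- the rotation given by a formal exponent -/
noncomputable def UU (γ : Pc n k → ℤ) : Circle := Circle.exp (∑ m, γ m * x m)

theorem UU_add (γ γ' : Pc n k → ℤ) : UU x (γ + γ') = UU x γ * UU x γ' := by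
  simp [UU, add_mul, Finset.sum_add_distrib, Circle.exp_add]

/-- placement of the pieces -/
noncomputable def ee (l : Pc n k) : Eu n ≃ᵢ Eu n := iso R (R.ι (a l)) (UU x (Pi.single l 1))

/-- small part of the translation -/
noncomputable def sm : Ad n k → Eu n
  | [] => 0
  | p :: σ => sm σ + R.ρ (UU x (rot Jf σ + Pi.single p.1 1)) (cpt p.2.1)

/-- evaluation of formal translations -/
noncomputable def ev : (((Pc n k → ℤ) × Pc n k) →₀ ℂ) →ₗ[ℂ] ℂ :=
  Finsupp.linearCombination ℂ fun y => UU x y.1 * a y.2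

/-- motion of a tile -/
noncomputable def gg (τ : Ad n k) : Eu n ≃ᵢ Eu n :=
  iso R (R.ι (ev x a (lam Jf τ)) + sm R x τ) (UU x (rot Jf τ))

/-- placement of a piece of a tile -/
noncomputable def EE (τ : Ad n k) (l : Pc n k) : Eu n ≃ᵢ Eu n := (ee R x a l).trans (gg R x a τ)

theorem EE_apply (τ : Ad n k) (l : Pc n k) (z : Eu n) : EE R x a τ l z =
    R.ι (ev x a (lam Jf τ + Finsupp.single (rot Jf τ, l) 1)) + sm R x τ +
      R.ρ (UU x (rot Jf τ + Pi.single l 1)) z := by
  simp only [EE, IsometryEquiv.trans_apply, ee, gg, iso_apply, map_add, UU_add, ev,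
    Finsupp.linearCombination_single, one_smul, R.mul, R.comm]
  abel

theorem EE_att (p : Pc n k × Cel n k) (σ : Ad n k) (z : Eu n) :
    EE R x a (p :: σ) (Jf p.2 (insert p.1 (used Jf σ))) z = EE R x a σ p.1 (cpt p.2.1 + z) := by
  rw [EE_apply, EE_apply, lam_cons, rot_cons, sm, map_add (R.ρ _)]
  abel

theorem EE_nil (l : Pc n k) : EE R x a [] l = ee R x a l := by
  refine IsometryEquiv.ext fun z => ?_
  simp [EE, gg, iso_apply, lam, sm, rot, UU, R.one]

theorem exists_far (k : ℕ) (D : ℝ) : ∃ (x : Pc n k → ℝ) (a : Pc n k → ℂ),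
    ∀ (τ τ' : Ad n k) (l l' : Pc n k),
    Val τ → Val τ' → depth τ ≤ k → depth τ' ≤ k → att Jf τ ≠ some l → att Jf τ' ≠ some l' →
    (τ, l) ≠ (τ', l') → D < dist (EE R x a τ l 0) (EE R x a τ' l' 0) := by
  let S : Finset (Ad n k × Pc n k) :=
    ((List.finite_length_le (Pc n k × Cel n k) k).toFinset ×ˢ Finset.univ).filter
      fun p => Val p.1 ∧ att Jf p.1 ≠ some p.2
  let s := (S ×ˢ S).filter fun q => q.1 ≠ q.2
  let Λ : Ad n k × Pc n k → (((Pc n k → ℤ) × Pc n k) →₀ ℂ) := fun p =>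
    lam Jf p.1 + Finsupp.single (rot Jf p.1, p.2) 1
  let key : (Pc n k → ℤ) × Pc n k → (Pc n k ⊕ Pc n k → ℤ) := fun y =>
    Sum.elim y.1 (Pi.single y.2 1)
  have hkey : Function.Injective key := by
    intro y y' h
    refine Prod.ext (funext fun m => congrFun h (Sum.inl m)) ?_
    by_contra h1
    have h2 := congrFun h (Sum.inr y.2)
    simp [key, h1] at h2
  obtain ⟨ξ, hξ⟩ := generic (κ := Sum.elim (fun _ : Pc n k => I) fun _ : Pc n k => 1)
    (by rintro (m | m) <;> simp) s (fun q => Finsupp.mapDomain key (Λ q.1 - Λ q.2)) (by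
      intro q hq h
      obtain ⟨h1, h2⟩ := Finset.mem_filter.1 hq
      have h3 := (Finset.mem_filter.1 (Finset.mem_product.1 h1).1).2
      have h4 := (Finset.mem_filter.1 (Finset.mem_product.1 h1).2).2
      have h5 := Finsupp.mapDomain_injective hkey (h.trans Finsupp.mapDomain_zero.symm)
      have h6 := patch_inj (fun c c' U U' h => by rw [← (Jf_cell c U).1, h, (Jf_cell c' U').1])
        _ _ _ _ h3.1 h4.1 h3.2 h4.2 (sub_eq_zero.1 h5)
      exact h2 (Prod.ext h6.1 h6.2))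
  let x : Pc n k → ℝ := fun m => ξ (Sum.inl m)
  let A : Pc n k → ℂ := fun m => cexp (ξ (Sum.inr m))
  have hchi : chi (Sum.elim (fun _ : Pc n k => I) fun _ : Pc n k => 1) ξ ∘ key =
      fun y => UU x y.1 * A y.2 := by
    funext y
    simp only [Function.comp, chi, key, Fintype.sum_sum_type, Sum.elim_inl, Sum.elim_inr,
      Complex.exp_add, UU, Circle.coe_exp, x, A]
    rw [Finset.sum_eq_single (s := Finset.univ)
      (f := fun m => ((Pi.single y.2 (1 : ℤ) : Pc n k → ℤ) m : ℂ) * 1 *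
      (ξ (Sum.inr m) : ℂ)) y.2 (fun b _ hb => by simp [hb]) (by simp)]
    congr 2
    · push_cast
      rw [Finset.sum_mul]
      exact Finset.sum_congr rfl fun m _ => by ring
    · simp
  simp only [Finsupp.linearCombination_mapDomain, hchi] at hξ
  have hev : ∀ (t : ℝ) f, ev x (fun m => t * A m) f = t * ev x A f := by
    intro t f
    simp only [ev, Finsupp.linearCombination_apply, Finsupp.sum, Finset.mul_sum, smul_eq_mul]
    exact Finset.sum_congr rfl fun m _ => by ring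
  have h1 : ∀ᶠ t : ℝ in Filter.atTop, ∀ q ∈ s,
      D + ‖sm R x q.1.1 - sm R x q.2.1‖ < t * ‖ev x A (Λ q.1 - Λ q.2)‖ := by
    rw [Filter.eventually_all_finset]
    intro q hq
    exact (Filter.tendsto_id.atTop_mul_const (norm_pos_iff.2 (hξ q hq))).eventually_gt_atTop _
  obtain ⟨t, ht, ht0⟩ := (h1.and (Filter.eventually_ge_atTop 0)).exists
  refine ⟨x, fun m => t * A m, fun τ τ' l l' h1 h2 h3 h4 h5 h6 h7 => ?_⟩
  have h8 := ht ((τ, l), (τ', l')) (by
    simp only [s, S, Finset.mem_filter, Finset.mem_product, Set.Finite.mem_toFinset,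
      Finset.mem_univ, and_true]
    exact ⟨⟨⟨(length_le τ).trans h3, h1, h5⟩, (length_le τ').trans h4, h2, h6⟩, h7⟩)
  rw [EE_apply, EE_apply, hev, hev, dist_eq_norm, map_zero, map_zero, add_zero, add_zero]
  have h9 : R.ι ((t : ℂ) * ev x A (Λ (τ, l) - Λ (τ', l'))) =
      (R.ι (t * ev x A (Λ (τ, l))) + sm R x τ - (R.ι (t * ev x A (Λ (τ', l'))) + sm R x τ')) -
        (sm R x τ - sm R x τ') := by
    rw [map_sub, mul_sub, map_sub]
    abel
  have h10 := congrArg norm h9
  rw [R.ι.norm_map, norm_mul, Complex.norm_real, Real.norm_of_nonneg ht0] at h10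
  rw [h10] at h8
  linarith [norm_sub_le
    (R.ι (t * ev x A (Λ (τ, l))) + sm R x τ - (R.ι (t * ev x A (Λ (τ', l'))) + sm R x τ'))
    (sm R x τ - sm R x τ')]

end Pool.Agent.H487Z.HeeschN
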