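import Pool.Agent.H487Z.HnC

set_option autoImplicit false
set_option linter.unusedSectionVars false

namespace Pool.Agent.H487Z.HeeschN

open Set Metric Complex Pool.Agent.H487Z.Heesch
open scoped Classical

variable {n k : ℕ} (R : Rot n) (x : Pc n k → ℝ) (a : Pc n k → ℂ)

/-- the tile with a given address -/
def tile (τ : Ad n k) : Set (Eu n) := body rg (EE R x a τ)

/-- the `i`-th packing -/
def fam (i : ℕ) : Set (Set (Eu n)) := tile R x a '' {τ | Val τ ∧ depth τ ≤ i}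

theorem tile_eq (τ : Ad n k) : tile R x a τ = gg R x a τ '' body rg (ee R x a) := by
  rw [image_body]
  rfl

theorem fam_finite (i : ℕ) : (fam R x a i).Finite :=
  ((List.finite_length_le _ i).subset fun τ hτ => (length_le τ).trans hτ.2).image _

theorem locate {τ : Ad n k} (hτ : Val τ) {z : Eu n} (hz : z ∈ tile R x a τ) :
    ∃ (σ : Ad n k) (l : Pc n k) (w : Eu n), Val σ ∧ att Jf σ ≠ some l ∧ z = EE R x a σ l w ∧
      ((σ = τ ∧ w ∈ sh n (rg l)) ∨
        ∃ c : Cel n k, τ = (l, c) :: σ ∧ ¬ occ (rg l) c.1 ∧ nu (w - cpt c.1) ≤ 1) := by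
  obtain ⟨l, w, hw, rfl⟩ := mem_iUnion.1 hz
  by_cases h : att Jf τ = some l
  · cases τ with
    | nil => simp [att] at h
    | cons p σ =>
      have h1 : Jf p.2 (insert p.1 (used Jf σ)) = l := Option.some.inj h
      subst h1
      rw [(Jf_cell _ _).2] at hw
      exact ⟨σ, p.1, _, hτ.1, hτ.2.1, EE_att R x a p σ w,
        Or.inr ⟨p.2, rfl, hτ.2.2.1, by rw [add_sub_cancel_left]; exact hw⟩⟩
  · exact ⟨τ, l, w, hτ, h, rfl, Or.inl ⟨rfl, hw⟩⟩

theorem cover {σ : Ad n k} {l : Pc n k} (hσ : Val σ) (hl : att Jf σ ≠ some l) {r i : ℕ}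
    (hr : n + 1 ≤ r) (hi : depth σ + r ≤ i + n) (hk : i ≤ k) {w : Eu n} (hw : nu w ≤ 2 * r + 1) :
    EE R x a σ l w ∈ ⋃₀ fam R x a i := by
  obtain ⟨c, hc, hc'⟩ := cover2 hw
  by_cases ho : occ (rg l) c
  · exact ⟨_, ⟨σ, ⟨hσ, by omega⟩, rfl⟩, mem_iUnion.2 ⟨l, w, occ_sh ho hc', rfl⟩⟩
  · let p : Pc n k × Cel n k := (l, ⟨c, by omega⟩)
    have h1 := card_used Jf σ
    have h2 := length_le σ
    have h3 := Finset.card_insert_le l (used Jf σ)
    refine ⟨_, ⟨p :: σ, ⟨⟨hσ, hl, ho, Jf_fresh _ (by simp only [p]; omega)⟩, ?_⟩, rfl⟩,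
      mem_iUnion.2 ⟨Jf p.2 (insert p.1 (used Jf σ)), w - cpt c, ?_, ?_⟩⟩
    · simp only [depth, p]
      omega
    · rw [(Jf_cell _ _).2]
      exact hc'
    · rw [EE_att]
      simp [p]

theorem surround {i : ℕ} (hi : i < k) {T : Set (Eu n)} (hT : T ∈ fam R x a i) :
    T ⊆ interior (⋃₀ fam R x a (i + 1)) := by
  obtain ⟨τ, ⟨hτ, hd⟩, rfl⟩ := hT
  intro z hz
  obtain ⟨σ, l, w, h1, h2, rfl, h3⟩ := locate R x a hτ hz
  have main : ∀ r : ℕ, n + 1 ≤ r → depth σ + r ≤ i + 1 + n → ∀ r' : ℕ, r' < r →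
      nu w ≤ 2 * r' + 1 → EE R x a σ l w ∈ interior (⋃₀ fam R x a (i + 1)) := by
    intro r hr hr' r' h4 hw
    have h5 : (r' : ℝ) < r := by exact_mod_cast h4
    refine interior_maximal (s := ⋃₀ fam R x a (i + 1))
      (t := EE R x a σ l '' {w | nu w < 2 * r + 1}) ?_ ((EE R x a σ l).toHomeomorph.isOpenMap _
        (isOpen_lt continuous_nu continuous_const)) ⟨w, show nu w < _ by linarith, rfl⟩
    rintro _ ⟨v, hv, rfl⟩
    exact cover R x a h1 h2 hr hr' hi (le_of_lt hv)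
  rcases h3 with ⟨rfl, h3⟩ | ⟨c, rfl, -, h3⟩
  · exact main (n + 1) le_rfl (by omega) n (by omega) (sh_le h3)
  · rw [depth] at hd
    exact main (max 1 (nrm c.1 - n) + n + 1) (by omega) (by simp only at hd; omega) (nrm c.1)
      (by omega) (cell_nu le_rfl h3)

theorem packing (hfar : ∀ (τ τ' : Ad n k) (l l' : Pc n k),
    Val τ → Val τ' → depth τ ≤ k → depth τ' ≤ k → att Jf τ ≠ some l → att Jf τ' ≠ some l' →
    (τ, l) ≠ (τ', l') →
      2 * (n * (2 * ((k + n : ℕ) : ℝ) + 1)) < dist (EE R x a τ l 0) (EE R x a τ' l' 0))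
    {i : ℕ} (hi : i ≤ k) : IsPacking (body rg (ee R x a)) (fam R x a i) := by
  constructor
  · rintro _ ⟨τ, -, rfl⟩
    exact ⟨_, tile_eq R x a τ⟩
  rintro _ ⟨τ, ⟨hτ, hd⟩, rfl⟩ _ ⟨τ', ⟨hτ', hd'⟩, rfl⟩ hne
  have hne' : τ ≠ τ' := fun h => hne (by rw [h])
  have hm : IsMeagre (⋃ q : Ad n k × Pc n k, (EE R x a q.1 q.2).symm ⁻¹' grid n) :=
    isMeagre_iUnion fun q => isMeagre_grid.preimage_of_isOpenMap (EE R x a q.1 q.2).symm.continuous
      (EE R x a q.1 q.2).symm.toHomeomorph.isOpenMap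
  rw [disjoint_iff_inter_eq_empty]
  by_contra hcon
  refine not_isMeagre_of_isOpen (isOpen_interior.inter isOpen_interior)
    (nonempty_iff_ne_empty.2 hcon) (hm.mono fun z hz => ?_)
  obtain ⟨σ, l, w, h1, h2, h3, h4⟩ := locate R x a hτ (interior_subset hz.1)
  obtain ⟨σ', l', w', h1', h2', h3', h4'⟩ := locate R x a hτ' (interior_subset hz.2)
  have bd : ∀ (τ σ : Ad n k) (l : Pc n k) (w : Eu n), depth τ ≤ i → ((σ = τ ∧ w ∈ sh n (rg l)) ∨
      ∃ c : Cel n k, τ = (l, c) :: σ ∧ ¬ occ (rg l) c.1 ∧ nu (w - cpt c.1) ≤ 1) →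
      depth σ ≤ k ∧ ‖w‖ ≤ n * (2 * ((k + n : ℕ) : ℝ) + 1) := by
    intro τ σ l w hd h
    have h0 : (0 : ℝ) ≤ k := Nat.cast_nonneg _
    rcases h with ⟨rfl, h⟩ | ⟨c, rfl, -, h⟩
    · refine ⟨by omega, (norm_le_nu w).trans (mul_le_mul_of_nonneg_left ?_ (Nat.cast_nonneg _))⟩
      push_cast
      linarith [sh_le h]
    · rw [depth] at hd
      exact ⟨by omega, (norm_le_nu w).trans
        (mul_le_mul_of_nonneg_left (cell_nu c.2 h) (Nat.cast_nonneg _))⟩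
  have b1 := bd _ _ _ _ hd h4
  have b2 := bd _ _ _ _ hd' h4'
  have h5 : (σ, l) = (σ', l') := by
    by_contra h5
    have h6 := hfar _ _ _ _ h1 h1' b1.1 b2.1 h2 h2' h5
    have h7 := dist_triangle_right (EE R x a σ l 0) (EE R x a σ' l' 0) z
    rw [h3, (EE R x a σ l).dist_eq, ← h3, h3', (EE R x a σ' l').dist_eq, dist_zero_left,
      dist_zero_left] at h7
    linarith [b1.2, b2.2]
  obtain ⟨rfl, rfl⟩ := Prod.ext_iff.1 h5
  have h6 : w = w' := (EE R x a σ l).injective (h3.symm.trans h3')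
  subst h6
  refine mem_iUnion.2 ⟨(σ, l), ?_⟩
  rw [mem_preimage, h3, IsometryEquiv.symm_apply_apply]
  by_contra hg
  rcases h4 with ⟨rfl, h4⟩ | ⟨c, rfl, h4, h7⟩ <;> rcases h4' with ⟨rfl, h4'⟩ | ⟨c', rfl, h4', h7'⟩
  · exact hne' rfl
  · exact h4' (cell_sh hg h7' h4)
  · exact h4 (cell_sh hg h7 h4')
  · exact hne' (by rw [Subtype.ext (cell_cell hg h7 h7')])

theorem exists_interior {O : Set (Eu n)} (hO : IsOpen O) (hne : O.Nonempty) {G : Set (Set (Eu n))}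
    (hG : G.Finite) (hc : ∀ S ∈ G, IsClosed S) (h : O ⊆ ⋃₀ G) :
    ∃ S ∈ G, (O ∩ interior S).Nonempty := by
  by_contra h1
  push Not at h1
  refine not_isMeagre_of_isOpen hO hne ((isMeagre_biUnion hG.countable fun S hS =>
    IsNowhereDense.isMeagre (s := frontier S) ?_).mono fun z hz => ?_)
  · rw [isClosed_frontier.isNowhereDense_iff, interior_frontier (hc S hS)]
  · obtain ⟨S, hS, hz'⟩ := h hz
    exact mem_biUnion hS ⟨subset_closure hz', fun h2 => (h1 S hS).subset ⟨hz, h2⟩⟩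

theorem completely {C : Set (Eu n)} {F : ℕ → Set (Set (Eu n))} (h0 : ∀ T ∈ F 0, T = C)
    (hC : ∀ i, C ∈ F i) (hfin : ∀ i, (F i).Finite) (hp : IsPacking C (F k))
    (hb : ∀ T ∈ F k, IsBody T) (hm : ∀ i, i ≤ k → F i ⊆ F k) (hm' : ∀ i, F i ⊆ F (i + 1))
    (hs : ∀ i, i < k → ∀ T ∈ F i, T ⊆ interior (⋃₀ F (i + 1))) : CompletelySurrounded C k := by
  have step : ∀ i, i < k → ∀ T ∈ F i, ∀ Q ∈ F k, (T ∩ Q).Nonempty → Q ∈ F (i + 1) := by
    rintro i hi T hT Q hQ ⟨z, hz, hz'⟩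
    rw [← (hb Q hQ).2] at hz'
    obtain ⟨S, hS, y, hy, hy'⟩ := exists_interior (isOpen_interior.inter isOpen_interior)
      (mem_closure_iff.1 hz' _ isOpen_interior (hs i hi T hT hz)) (hfin (i + 1))
      (fun S hS => (hb S (hm _ hi hS)).1.isClosed) (inter_subset_left.trans interior_subset)
    by_cases hSQ : S = Q
    · exact hSQ ▸ hS
    · exact absurd hy.2 (disjoint_left.1 (hp.2 S (hm _ hi hS) Q hQ hSQ) hy')
  have mono : ∀ i j, i ≤ j → F i ⊆ F j := fun i j h => monotone_nat_of_le_succ hm' h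
  refine ⟨F k, hfin k, hp, hC k, fun j hj => ?_⟩
  rintro z ⟨T, ⟨m, c, hmj, hc0, rfl, hc1, hc2⟩, hz⟩
  have h1 : ∀ i, i ≤ m → c i ∈ F i := by
    intro i
    induction i with
    | zero => exact fun _ => hc0 ▸ hC 0
    | succ i ih =>
      exact fun h => step i (by omega) _ (ih (by omega)) _ (hc1 _ h) (hc2 i (by omega))
  have h2 := hs j hj _ (mono _ _ hmj (h1 m le_rfl)) hz
  have h3 : IsClosed (⋃₀ {Q ∈ F k | z ∉ Q}) := by
    rw [sUnion_eq_biUnion]
    exact ((hfin k).subset (sep_subset _ _)).isClosed_biUnion fun Q hQ => (hb Q hQ.1).1.isClosed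
  refine interior_maximal (t := interior (⋃₀ F (j + 1)) ∩ (⋃₀ {Q ∈ F k | z ∉ Q})ᶜ) ?_
    (isOpen_interior.inter h3.isOpen_compl) ⟨h2, fun ⟨Q, hQ, h⟩ => hQ.2 h⟩
  rintro y ⟨hy, hy'⟩
  obtain ⟨Q, hQ, hyQ⟩ := interior_subset hy
  have hQk := hm _ hj hQ
  have hzQ : z ∈ Q := by
    by_contra h
    exact hy' ⟨Q, ⟨hQk, h⟩, hyQ⟩
  refine ⟨Q, ⟨m + 1, fun i => if i ≤ m then c i else Q, by omega, by simp [hc0], by simp,
    fun i hi => ?_, fun i hi => ?_⟩, hyQ⟩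
  · beta_reduce
    split_ifs with h
    · exact hc1 i h
    · exact hQk
  · by_cases h : i < m
    · simp only [if_pos h.le, if_pos (Nat.succ_le_of_lt h)]
      exact hc2 i h
    · have : i = m := by omega
      subst this
      simp only [le_refl, if_true, add_le_iff_nonpos_right, nonpos_iff_eq_zero, one_ne_zero,
        if_false]
      exact ⟨z, hz, hzQ⟩

theorem main_dim {n : ℕ} (hn : 2 ≤ n) (k : ℕ) : ∃ C : Set (Eu n),
    (interior C).Nonempty ∧ IsBody C ∧ CompletelySurrounded C k ∧ ¬ Tiles C := by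
  obtain ⟨R⟩ := exists_rot hn
  obtain ⟨x, a, hfar⟩ := exists_far R k (2 * (n * (2 * ((k + n : ℕ) : ℝ) + 1)))
  let l₀ : Pc n k := ((⟨0, by simp [nrm]⟩, 0), 0)
  have hne : (body rg (ee R x a)).Nonempty :=
    ⟨_, mem_iUnion.2 ⟨l₀, 0, by simp [l₀, rg, sh, nu], rfl⟩⟩
  have h0 : tile R x a [] = body rg (ee R x a) := by
    unfold tile
    rw [show EE R x a [] = ee R x a from funext (EE_nil R x a)]
  have hmem : ∀ i, body rg (ee R x a) ∈ fam R x a i :=
    fun i => ⟨[], ⟨trivial, Nat.zero_le _⟩, h0⟩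
  have hb := isBody_body hn rg (ee R x a)
  refine ⟨body rg (ee R x a), closure_nonempty_iff.1 (hb.2.symm ▸ hne), hb,
    completely (F := fam R x a) ?_ hmem (fam_finite R x a) (packing R x a hfar le_rfl) ?_
      (fun i hi => image_mono fun τ hτ => ⟨hτ.1, hτ.2.trans hi⟩)
      (fun i => image_mono fun τ hτ => ⟨hτ.1, hτ.2.trans (Nat.le_succ i)⟩)
      fun i hi T hT => surround R x a hi hT,
    not_tiles hn _ _ (fun l l' h => ?_) card_rg l₀ (by simp [l₀, rg])⟩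
  · rintro _ ⟨τ, ⟨-, hd⟩, rfl⟩
    have := length_le τ
    rw [List.length_eq_zero_iff.1 (show τ.length = 0 by omega), h0]
  · rintro _ ⟨τ, -, rfl⟩
    exact isBody_body hn _ _
  · have := hfar [] [] l l' trivial trivial (Nat.zero_le _) (Nat.zero_le _) (by simp [att])
      (by simp [att]) (by simpa using h)
    rw [EE_nil, EE_nil] at this
    have h1 : (0 : ℝ) ≤ k := Nat.cast_nonneg _
    have h2 : (0 : ℝ) ≤ n := Nat.cast_nonneg _
    push_cast at this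
    nlinarith [mul_nonneg h1 h2, mul_nonneg h2 h2]

end Pool.Agent.H487Z.HeeschN
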