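import Pool.Agent.H487Z.HeDefs

set_option autoImplicit false

namespace Pool.Agent.H487Z.Heesch

variable {X : Type} [MetricSpace X]

/-- `C^k(A)`: the tiles of the patch `P` reachable from `A` by a chain of at most `k` steps through
tiles of `P`, consecutive tiles having a common point. -/
def corona (P : Set (Set X)) (A : Set X) (k : ℕ) : Set (Set X) :=
  {Q | ∃ (m : ℕ) (c : ℕ → Set X), m ≤ k ∧ c 0 = A ∧ c m = Q ∧ (∀ i, i ≤ m → c i ∈ P) ∧
    ∀ i, i < m → (c i ∩ c (i + 1)).Nonempty}

/-- `A` is completely surrounded `k` times: in some finite patch `P` of congruent copies of `A`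
containing `A`, the union of `C^j(A)` lies in the interior of the union of `C^(j+1)(A)` for every
`j < k`. -/
def CompletelySurrounded (A : Set X) (k : ℕ) : Prop :=
  ∃ P : Set (Set X), P.Finite ∧ IsPacking A P ∧ A ∈ P ∧
    ∀ j, j < k → ⋃₀ corona P A j ⊆ interior (⋃₀ corona P A (j + 1))

end Pool.Agent.H487Z.Heesch
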