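import Pool.Agent.H487Z.Inner

set_option autoImplicit false
set_option linter.unusedSectionVars false

namespace Pool.Agent.H487Z

open scoped Classical

namespace Par

variable {P : Par}

/-- all cuts from `k` on have many untouched long paths -/
def Fr (P : Par) (k : ℕ) (H : Set (Sym2 P.Vx)) : Prop := ∀ j, k ≤ j → P.δ * P.e j < P.D j H

theorem Fr.D_ge {k j : ℕ} {H : Set (Sym2 P.Vx)} (h : P.Fr k H) (hj : k ≤ j) : 102 ≤ P.D j H := by
  linarith [h j hj, P.δe_ge j]

theorem T_low {k j : ℕ} (h : j < k) (x : P.Vx) (H : Set (Sym2 P.Vx)) :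
    P.T k j x H = P.LC j x H := by
  unfold T LC
  rw [if_pos h]

theorem T_eq (k : ℕ) (x : P.Vx) (H : Set (Sym2 P.Vx)) :
    P.T k k x H = P.Up 5 k x H + P.Cred k H := by
  unfold T
  rw [if_neg (lt_irrefl k), if_pos rfl]

theorem T_high {k j : ℕ} (h : k < j) (x : P.Vx) (H : Set (Sym2 P.Vx)) :
    P.T k j x H = (9 / 8) ^ (j - k) * P.Up 0 j x H := by
  unfold T
  rw [if_neg (by omega), if_neg (by omega)]

theorem drift_inner {k N : ℕ} {v : P.Va} {n : ℕ} (hn : 1 ≤ n ∧ n ≤ P.M) {H : Set (Sym2 P.Vx)}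
    (hV : P.VInv (P.node v n) H) (hF : P.Fr k H) (hN : v.1 < N) :
    ∑ w ∈ alF P.G P.hfin (P.node v n) H,
      (P.Φf k N w (insert s(P.node v n, w) H) - P.Φf k N (P.node v n) H) ≤ 0 := by
  have hM := P.hM
  have hl := hV v
  rw [P.loc_node v hn.2] at hl
  have h1 : ∑ w ∈ alF P.G P.hfin (P.node v n) H,
      (P.Φf k N w (insert s(P.node v n, w) H) - P.Φf k N (P.node v n) H) =
      ∑ w ∈ alF P.G P.hfin (P.node v n) H,
      (P.T k v.1 w (insert s(P.node v n, w) H) - P.T k v.1 (P.node v n) H) := by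
    refine Finset.sum_congr rfl fun w hw => ?_
    rcases (P.adj_node v hn w).1 ((mem_alF _ _).1 hw).1 with rfl | rfl | ⟨rfl, rfl⟩ | ⟨rfl, rfl⟩
    · rw [s_down v hn.1]
      exact (vE v (by omega)).Φ_diff H hN k _ _
    · exact (vE v hn.2).Φ_diff H hN k _ _
    · exact ValveEdge.Φ_diff (ε := P.cE v) (Or.inr rfl) H hN k _ _
    · rw [s_chord]
      exact ValveEdge.Φ_diff (ε := P.cE v) (Or.inr rfl) H hN k _ _
  rw [h1]
  rcases lt_trichotomy v.1 k with h | h | h
  · simp only [T_low h]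
    exact LC_inner hn hl
  · subst h
    simp only [T_eq]
    refine le_trans (Finset.sum_le_sum fun w _ => ?_)
      (Up_inner (κ := 5) (by norm_num) (by linarith [hF.D_ge le_rfl]) hn hl)
    have := P.Cred_mono (Set.subset_insert s(P.node v n, w) H) v.1
    linarith
  · simp only [T_high h, ← mul_sub]
    rw [← Finset.mul_sum]
    exact mul_nonpos_of_nonneg_of_nonpos (by positivity)
      (Up_inner (κ := 0) le_rfl (by linarith [hF.D_ge h.le]) hn hl)

/-! ### entering a valve from below -/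

theorem Up_enter {κ : ℝ} (hκ : 0 ≤ κ) {v : P.Va} {H : Set (Sym2 P.Vx)} (hD : 1 < P.D v.1 H)
    (hl : LocInv P.M (fun m => P.pE v m ∈ H) (P.cE v ∈ H) 0) :
    P.Up κ v.1 (P.node v 1) (insert (P.pE v 0) H) - P.Up κ v.1 (P.node v 0) H ≤
      - κ * ind (P.tn v H ∧ P.pE v 0 ∉ H) / P.D v.1 H +
      ind (P.tn v H) * (4 / 5 * (51 / 50 / (P.D v.1 H - 1) +
        κ * (P.F v.1 H - ind (P.tn v H ∧ P.pE v 0 ∉ H)) / (P.D v.1 H * (P.D v.1 H - 1)))) +
      ind (¬ P.tn v H) * (P.h 3 / P.D v.1 H) := by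
  have hM := P.hM
  have d0 : P.D v.1 (insert (P.pE v 0) H) = P.D v.1 H := by
    rw [(vE v (m := 0) (by omega)).D_same, ind_congr (tn_small (by omega) H)]
    ring
  have f0 : P.F v.1 (insert (P.pE v 0) H) = P.F v.1 H - ind (P.tn v H ∧ P.pE v 0 ∉ H) := by
    rw [(vE v (m := 0) (by omega)).F_same,
      ind_neg (p := P.tn v (insert (P.pE v 0) H) ∧ P.pE v 0 ∉ insert (P.pE v 0) H)
        fun a => a.2 (Set.mem_insert _ _), add_zero]
  have hF0 := P.F_nonneg v.1 (insert (P.pE v 0) H)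
  rw [Up_zero, Up_inn κ v _ (n := 1) (by omega), d0]
  rw [f0] at hF0 ⊢
  simp only [ins_ne (v := v) (m := 3) (m₀ := 0) (by omega) (by omega) (by omega),
    ins_ne (v := v) (m := P.M) (m₀ := 0) (by omega) le_rfl (by omega)]
  have hpsi : Psi κ (P.e v.1) (P.D v.1 H) (P.F v.1 H - ind (P.tn v H ∧ P.pE v 0 ∉ H)) =
      Psi κ (P.e v.1) (P.D v.1 H) (P.F v.1 H) -
        κ * ind (P.tn v H ∧ P.pE v 0 ∉ H) / P.D v.1 H := by
    unfold Psi
    ring
  rw [hpsi]
  unfold lv
  by_cases htn : P.tn v H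
  · rw [if_pos (show ¬ P.pE v 3 ∈ H ∧ ¬ P.pE v P.M ∈ H from htn), ind_pos htn,
      ind_neg (not_not.2 htn)]
    have h1 := Del_le (κ := κ) (F := P.F v.1 H - ind (P.tn v H ∧ P.pE v 0 ∉ H)) (P.e_pos' v.1) hD
    have h2 := Del_nonneg (P.e_pos' v.1) hD hκ hF0
    have h3 := mul_le_mul_of_nonneg_right (th_one_le (P.pE v 1 ∈ insert (P.pE v 0) H)
      (P.pE v 2 ∈ insert (P.pE v 0) H) (P.cE v ∈ insert (P.pE v 0) H)) h2
    have h4 : - κ * ind (P.tn v H ∧ P.pE v 0 ∉ H) / P.D v.1 H =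
      - (κ * ind (P.tn v H ∧ P.pE v 0 ∉ H) / P.D v.1 H) := by ring
    linarith
  · rw [if_neg (show ¬ (¬ P.pE v 3 ∈ H ∧ ¬ P.pE v P.M ∈ H) from htn), ind_neg htn, ind_pos htn]
    have h1 : P.et (P.pE v 1 ∈ insert (P.pE v 0) H) (P.pE v 2 ∈ insert (P.pE v 0) H)
        (P.cE v ∈ insert (P.pE v 0) H) (P.pE v 3 ∈ H) (P.pE v P.M ∈ H) 1 ≤ P.h 3 := by
      unfold et
      split_ifs with a b c
      · have := (hl.tup a.1 a.2).1
        omega
      · exact le_refl _
      · exact P.h_le_three (by omega)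
      · exact le_refl _
    have h2 := div_le_div_of_nonneg_right h1 (show 0 ≤ P.D v.1 H by linarith)
    have h4 : - κ * ind (P.tn v H ∧ P.pE v 0 ∉ H) / P.D v.1 H =
      - (κ * ind (P.tn v H ∧ P.pE v 0 ∉ H) / P.D v.1 H) := by ring
    linarith

theorem h3_e {j : ℕ} {D : ℝ} (hD : P.δ * P.e j < D) : P.h 3 / D ≤ 1 / 120 / P.e j := by
  have he := P.e_pos' j
  have hR := P.R_pos
  have hD0 : 0 < D := by linarith [P.δe_ge j]
  rw [h_three, div_div, div_le_div_iff₀ (by positivity) he]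
  have h1 := P.δR_ge
  nlinarith [mul_lt_mul_of_pos_left hD hR]

theorem enter_frontier {v : P.Va} {H : Set (Sym2 P.Vx)} (hF : P.Fr v.1 H)
    (hl : LocInv P.M (fun m => P.pE v m ∈ H) (P.cE v ∈ H) 0) (hn : P.pE v 0 ∉ H) :
    P.T v.1 v.1 (P.node v 1) (insert (P.pE v 0) H) - P.T v.1 v.1 (P.node v 0) H ≤ 0 := by
  have hD := hF.D_ge le_rfl
  have h1 := Up_enter (κ := 5) (by norm_num) (by linarith) hl
  have h2 := Cred_small (v := v) (Or.inl rfl) hn
  have he := P.e_pos' v.1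
  have hI := one_le_I v.1
  have h3 : 1 / P.e v.1 ≤ I v.1 / (P.e v.1 : ℝ) := by gcongr
  have h5 : 0 ≤ 1 / (P.e v.1 : ℝ) := by positivity
  rw [T_eq, T_eq]
  by_cases htn : P.tn v H
  · rw [ind_pos htn, ind_neg (not_not.2 htn), ind_pos (p := P.tn v H ∧ P.pE v 0 ∉ H) ⟨htn, hn⟩] at h1
    have hFD := P.F_le_D v.1 H
    set D := P.D v.1 H
    set F := P.F v.1 H
    have h6 : 5 * (F - 1) / (D * (D - 1)) ≤ 5 / D := by
      rw [div_le_div_iff₀ (by nlinarith) (by linarith)]
      nlinarith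
    have h7 : 4 / 5 * (51 / 50 / (D - 1)) ≤ 1 / D := by
      rw [← mul_div_assoc, div_le_div_iff₀ (by linarith) (by linarith)]
      linarith
    have h8 : -5 * 1 / D = - 5 * (1 / D) := by ring
    have h9 : 5 / D = 5 * (1 / D) := by ring
    linarith
  · rw [ind_neg htn, ind_pos htn, ind_neg (p := P.tn v H ∧ P.pE v 0 ∉ H) fun a => htn a.1] at h1
    have h6 := h3_e (hF _ le_rfl)
    have h7 : 1 / 120 / (P.e v.1 : ℝ) = 1 / 120 * (1 / P.e v.1) := by ring
    simp only [mul_zero, zero_div, zero_mul, zero_add, one_mul] at h1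
    linarith

theorem enter_sum {κ : ℝ} (hκ : 0 ≤ κ) {a : ℕ} {H : Set (Sym2 P.Vx)} (hD : P.δ * P.e a < P.D a H)
    (hl : ∀ v, LocInv P.M (fun m => P.pE v m ∈ H) (P.cE v ∈ H) 0) (hκF : κ * P.F a H = 0)
    (q : P.Va → Prop) :
    ∑ v ∈ P.fib a, ind (q v) *
      (P.Up κ a (P.node v 1) (insert (P.pE v 0) H) - P.Up κ a (P.node v 0) H) ≤ 833 / 1000 := by
  have hD' : 102 ≤ P.D a H := by linarith [P.δe_ge a]
  have he := P.e_pos' a
  have h3 := h3_e hD
  have h4 : 0 ≤ P.h 3 / P.D a H := div_nonneg (P.h_nonneg 3) (by linarith)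
  have h5 : 0 ≤ 4 / 5 * (51 / 50 / (P.D a H - 1)) := by
    have : 0 < P.D a H - 1 := by linarith
    positivity
  calc _ ≤ ∑ v ∈ P.fib a, (ind (P.tn v H) * (4 / 5 * (51 / 50 / (P.D a H - 1))) +
        1 / 120 / P.e a) := by
        refine Finset.sum_le_sum fun v hv => ?_
        obtain rfl := P.mem_fib.1 hv
        have h1 := Up_enter hκ (by linarith) (hl v)
        have h2 : - κ * ind (P.tn v H ∧ P.pE v 0 ∉ H) / P.D v.1 H ≤ 0 := by
          refine div_nonpos_of_nonpos_of_nonneg ?_ (by linarith)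
          nlinarith [ind_nonneg (P.tn v H ∧ P.pE v 0 ∉ H)]
        have h6 : κ * (P.F v.1 H - ind (P.tn v H ∧ P.pE v 0 ∉ H)) /
            (P.D v.1 H * (P.D v.1 H - 1)) ≤ 0 := by
          refine div_nonpos_of_nonpos_of_nonneg ?_ (by nlinarith)
          nlinarith [ind_nonneg (P.tn v H ∧ P.pE v 0 ∉ H)]
        have h7 := ind_nonneg (P.tn v H)
        have h8 := mul_le_of_le_one_left h4 (ind_le_one (¬ P.tn v H))
        have h9 : P.Up κ v.1 (P.node v 1) (insert (P.pE v 0) H) - P.Up κ v.1 (P.node v 0) H ≤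
            ind (P.tn v H) * (4 / 5 * (51 / 50 / (P.D v.1 H - 1))) + 1 / 120 / P.e v.1 := by
          nlinarith [mul_nonneg h7 (neg_nonneg.2 h6)]
        have h10 : 0 ≤ ind (P.tn v H) * (4 / 5 * (51 / 50 / (P.D v.1 H - 1))) +
            1 / 120 / P.e v.1 := by positivity
        by_cases hq : q v
        · rw [ind_pos hq, one_mul]; exact h9
        · rw [ind_neg hq, zero_mul]; exact h10
    _ = P.D a H * (4 / 5 * (51 / 50 / (P.D a H - 1))) + 1 / 120 := by
        rw [Finset.sum_add_distrib, ← Finset.sum_mul, Finset.sum_const, card_fib, nsmul_eq_mul]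
        congr 1
        field_simp
    _ ≤ _ := by
        have : P.D a H * (4 / 5 * (51 / 50 / (P.D a H - 1))) ≤ 8241 / 10000 := by
          rw [← mul_div_assoc, ← mul_div_assoc, div_le_iff₀ (by linarith)]
          linarith
        linarith

/-! ### entering a valve from above -/

theorem descend_sum {κ : ℝ} {j : ℕ} {H : Set (Sym2 P.Vx)} (hD : 102 ≤ P.D j H)
    (hl : ∀ v, LocInv P.M (fun m => P.pE v m ∈ H) (P.cE v ∈ H) 0) :
    ∑ v ∈ P.fib j, ind (P.pE v P.M ∉ H) * (P.Up κ j (P.node v P.M) (insert (P.pE v P.M) H) -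
      P.Up κ j (P.node v (P.M + 1)) H) ≤ - 97 / 100 := by
  have hM := P.hM
  set D := P.D j H with hDdef
  set F := P.F j H with hFdef
  set c₀ := Psi κ (P.e j) (D - 1) F + P.h 3 / (D - 1) - Psi κ (P.e j) D F - 1 / D with hc₀
  have h1 : ∀ v ∈ P.fib j, ind (P.pE v P.M ∉ H) *
      (P.Up κ j (P.node v P.M) (insert (P.pE v P.M) H) - P.Up κ j (P.node v (P.M + 1)) H) =
      ind (P.tn v H) * c₀ - κ / (D - 1) * ind (P.tn v H ∧ P.pE v 0 ∉ H) := by
    intro v hv
    obtain rfl := P.mem_fib.1 hv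
    by_cases hn : P.pE v P.M ∈ H
    · rw [ind_neg (not_not.2 hn), ind_neg (p := P.tn v H) fun a => a.2 hn,
        ind_neg (p := P.tn v H ∧ P.pE v 0 ∉ H) fun a => a.1.2 hn]
      ring
    · have h3 : P.pE v 3 ∉ H := fun a => by
        have := ((hl v).tup a hn).1
        omega
      have htn : P.tn v H := ⟨h3, hn⟩
      have htn' : ¬ P.tn v (insert (P.pE v P.M) H) := fun a => a.2 (Set.mem_insert _ _)
      rw [ind_pos hn, ind_pos htn, Up_top, Up_inn κ v _ (n := P.M) (by omega),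
        (vE v le_rfl).D_same, (vE v le_rfl).F_same, ind_pos htn, ind_neg htn',
        ind_neg (p := P.tn v (insert (P.pE v P.M) H) ∧ P.pE v 0 ∉ insert (P.pE v P.M) H)
          fun a => htn' a.1]
      simp only [ins_self, ins_ne (v := v) (m := 3) (m₀ := P.M) (by omega) (by omega) le_rfl, h3,
        lv, et, add_zero, not_true, and_false, if_false, false_and, not_false_iff, if_true]
      rw [hc₀, ← hDdef, ← hFdef]
      unfold Psi
      ring
  rw [Finset.sum_congr rfl h1, Finset.sum_sub_distrib, ← Finset.sum_mul, ← Finset.mul_sum]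
  change D * c₀ - κ / (D - 1) * F ≤ _
  have h2 := (log_step (P.e_pos' j) (show 1 < D by linarith)).2
  have h3 : D * c₀ - κ / (D - 1) * F = D / 50 * (Real.log (P.e j / (D - 1)) - Real.log (P.e j / D))
      + D * P.h 3 / (D - 1) - 1 := by
    have : D - 1 ≠ 0 := by linarith
    have : D ≠ 0 := by linarith
    rw [hc₀]
    unfold Psi
    field_simp
    ring
  rw [h3]
  have h4 : D / 50 * (Real.log (P.e j / (D - 1)) - Real.log (P.e j / D)) ≤ 203 / 10000 := by
    refine (mul_le_mul_of_nonneg_left h2 (by linarith)).trans ?_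
    rw [mul_one_div, div_le_iff₀ (by linarith)]
    linarith
  have h5 : D * P.h 3 / (D - 1) ≤ 5 / 1000 := by
    have h6 : P.h 3 ≤ 1 / 240 := by
      rw [h_three, div_le_iff₀ P.R_pos]
      linarith [P.R_ge']
    rw [div_le_iff₀ (by linarith)]
    nlinarith [P.h_nonneg 3]
  linarith

/-! ### thin edges -/

theorem τ_anti {a b : ℕ} (h : a ≤ b) : P.τ b ≤ P.τ a := by
  have := P.R_pos
  have := P.E_pos
  unfold τ
  gcongr
  norm_num

theorem up_le_τ {k l : ℕ} (h : k ≤ l) {D : ℝ} (hD : P.δ * P.e l < D) :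
    (9 / 8) ^ (l - k) * (1 / D) ≤ P.τ k := by
  have hR := P.R_pos
  have hE := P.E_pos
  have hδ := P.hδ0
  have hD0 : 0 < D := by linarith [P.δe_ge l]
  unfold τ
  rw [mul_one_div, div_le_div_iff₀ hD0 (by positivity)]
  have h1 : ((9 : ℝ) / 8) ^ (l - k) * (P.E * (9 / 8) ^ k) = P.E * (9 / 8) ^ l := by
    rw [mul_left_comm, ← pow_add, Nat.sub_add_cancel h]
  rw [h1]
  have h2 := P.he1 l
  have h3 := P.δR_ge
  have he := P.e_pos' l
  nlinarith [mul_lt_mul_of_pos_left hD hR]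

theorem thin_T {k : ℕ} {H : Set (Sym2 P.Vx)} (hF : P.Fr k H) (a i l : ℕ) :
    P.T k l (Sum.inl i) (insert (P.tE a i) H) - P.T k l (Sum.inl a) H ≤
      (if a ≤ l ∧ l < i then P.τ (min a k) else 0) +
      (if l = a ∧ a ≤ k then P.Cred a (insert (P.tE a i) H) - P.Cred a H else 0) := by
  have hM := P.hM
  have htn : ∀ v, P.tn v (insert (P.tE a i) H) ↔ P.tn v H := fun v => by
    unfold tn
    rw [pE_ins_tE v (by omega), pE_ins_tE v le_rfl]
  have hD : P.D l (insert (P.tE a i) H) = P.D l H := by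
    unfold D
    simp only [htn]
  have hF' : P.F l (insert (P.tE a i) H) = P.F l H := by
    unfold F
    simp only [htn, pE_ins_tE _ (Nat.zero_le _)]
  have hfull : P.full l (insert (P.tE a i) H) ↔ P.full l H := by
    unfold full
    simp only [pE_ins_tE _ (show 3 ≤ P.M by omega), pE_ins_tE _ le_rfl]
  have hC : l ≤ k → P.Cred l (insert (P.tE a i) H) - P.Cred l H ≤
      (if l = a ∧ a ≤ k then P.Cred a (insert (P.tE a i) H) - P.Cred a H else 0) := by
    intro _
    split_ifs with h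
    · rw [h.1]
    · exact sub_nonpos.2 (P.Cred_mono (Set.subset_insert _ _) l)
  have hτ := P.τ_nonneg (min a k)
  have hUp : ∀ κ : ℝ, k ≤ l → (9 / 8) ^ (l - k) * (P.Up κ l (Sum.inl i) (insert (P.tE a i) H) -
      P.Up κ l (Sum.inl a) H) ≤ (if a ≤ l ∧ l < i then P.τ (min a k) else 0) := by
    intro κ hl
    unfold Up
    rw [hD, hF', rel_hub, rel_hub]
    have h1 := (up_le_τ hl (hF l hl)).trans (τ_anti (P := P) (min_le_right a k))
    have h2 : 0 ≤ (9 / 8 : ℝ) ^ (l - k) * (1 / P.D l H) := by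
      have := hF.D_ge hl
      positivity
    split_ifs with b1 b2 b3 b4 b5 b6 b7 <;> first | omega | nlinarith
  rcases lt_trichotomy l k with h | h | h
  · rw [T_low h, T_low h]
    have h1 := hC h.le
    have h2 : P.Low l (Sum.inl i) (insert (P.tE a i) H) - P.Low l (Sum.inl a) H ≤
        (if a ≤ l ∧ l < i then P.τ (min a k) else 0) := by
      have h3 : 0 ≤ I l * P.R / P.e l :=
        div_nonneg (mul_nonneg (by linarith [one_le_I l]) P.R_pos.le) (P.e_pos' l).le
      have h4 : a ≤ l → I l * P.R / P.e l ≤ P.τ (min a k) := fun b =>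
        P.IR_le_τ ((min_le_left a k).trans b)
      unfold Low
      simp only [hfull, rel_hub]
      by_cases b : a ≤ l
      · have h5 := h4 b
        split_ifs <;> first | omega | linarith
      · split_ifs <;> first | omega | linarith
    unfold LC
    linarith
  · subst h
    rw [T_eq, T_eq]
    have h1 := hC le_rfl
    have h2 := hUp 5 le_rfl
    rw [Nat.sub_self, pow_zero, one_mul] at h2
    linarith
  · rw [T_high h, T_high h, ← mul_sub, if_neg (show ¬ (l = a ∧ a ≤ k) by omega), add_zero]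
    exact hUp 0 h.le

theorem thin_Φ {k N : ℕ} {H : Set (Sym2 P.Vx)} (hF : P.Fr k H) {a : ℕ} (ha : a < N) (i : ℕ) :
    P.Φf k N (Sum.inl i) (insert (P.tE a i) H) - P.Φf k N (Sum.inl a) H ≤
      P.τ (min a k) * ((i - a : ℕ) : ℝ) +
      (if a ≤ k then P.Cred a (insert (P.tE a i) H) - P.Cred a H else 0) := by
  unfold Φf
  rw [add_sub_add_left_eq_sub, ← Finset.sum_sub_distrib]
  refine (Finset.sum_le_sum fun l _ => thin_T hF a i l).trans ?_
  rw [Finset.sum_add_distrib]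
  refine add_le_add ?_ (le_of_eq ?_)
  · rw [← Finset.sum_filter, Finset.sum_const, nsmul_eq_mul, mul_comm]
    refine mul_le_mul_of_nonneg_left ?_ (P.τ_nonneg _)
    have : ((Finset.range N).filter fun l => a ≤ l ∧ l < i) ⊆ Finset.Ico a i := by
      intro l hl
      exact Finset.mem_Ico.2 (Finset.mem_filter.1 hl).2
    have := Finset.card_le_card this
    rw [Nat.card_Ico] at this
    exact_mod_cast this
  · rw [Finset.sum_eq_single_of_mem a (Finset.mem_range.2 ha)]
    · simp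
    · intro l _ hl
      rw [if_neg fun b => hl b.1]

theorem thin_Cred {H : Set (Sym2 P.Vx)} {a i : ℕ} (hi : i ∈ P.nb a) (hn : P.tE a i ∉ H) :
    P.Cred a (insert (P.tE a i) H) - P.Cred a H ≤ - (P.τ a * ((i - a : ℕ) : ℝ)) := by
  have hH : H ⊆ insert (P.tE a i) H := Set.subset_insert _ _
  have h1 : P.U a (insert (P.tE a i) H) ≤ P.U a H := Finset.sum_le_sum fun v _ => P.u_mono hH v
  have h2 : P.TC a (insert (P.tE a i) H) ≤ P.TC a H - ((i - a : ℕ) : ℝ) := by
    unfold TC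
    rw [← Finset.add_sum_erase _ _ hi, ← Finset.add_sum_erase _ _ hi, ind_pos hn,
      ind_neg (not_not.2 (Set.mem_insert _ _))]
    have : ∑ x ∈ (P.nb a).erase i, ind (P.tE a x ∉ insert (P.tE a i) H) * ((x - a : ℕ) : ℝ) ≤
        ∑ x ∈ (P.nb a).erase i, ind (P.tE a x ∉ H) * ((x - a : ℕ) : ℝ) :=
      Finset.sum_le_sum fun x _ =>
        mul_le_mul_of_nonneg_right (P.ite_mono hH _) (Nat.cast_nonneg _)
    linarith
  have h3 : 0 ≤ I a / P.e a := div_nonneg (by linarith [one_le_I a]) (P.e_pos' a).le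
  have h4 := P.τ_nonneg a
  unfold Cred
  nlinarith [mul_le_mul_of_nonneg_left h1 h3, mul_le_mul_of_nonneg_left h2 h4]

end Par

end Pool.Agent.H487Z
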