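import Pool.Agent.H487Z.Pot

set_option autoImplicit false
set_option linter.unusedSectionVars false

namespace Pool.Agent.H487Z

open scoped Classical

namespace Par

variable {P : Par}

theorem sum_alF_w (x : P.Vx) (H : Set (Sym2 P.Vx)) (f : P.Vx → ℝ) :
    ∑ w ∈ alF P.G P.hfin x H, f w =
      ∑ w ∈ P.nbF x, ind (s(x, w) ∉ H ∨ ∀ u, P.G.Adj x u → s(x, u) ∈ H) * f w := by
  by_cases hall : ∀ u, P.G.Adj x u → s(x, u) ∈ H
  · rw [P.sum_alF_all hall]
    refine Finset.sum_congr rfl fun w _ => ?_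
    rw [ind_pos (Or.inr hall), one_mul]
  · rw [P.sum_alF_greedy hall]
    refine Finset.sum_congr rfl fun w _ => ?_
    rw [ind_congr (or_iff_left hall)]

theorem ins_ne {v : P.Va} {m m₀ : ℕ} (hne : m ≠ m₀) (h : m ≤ P.M) (h₀ : m₀ ≤ P.M)
    (H : Set (Sym2 P.Vx)) : P.pE v m ∈ insert (P.pE v m₀) H ↔ P.pE v m ∈ H := by
  rw [pE_ins_pE h h₀]
  simp [hne]

theorem ins_self (ε : Sym2 P.Vx) (H : Set (Sym2 P.Vx)) : ε ∈ insert ε H ↔ True := by simp

/-! ### below the frontier -/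

/-- potential of a cut below the frontier, with credits -/
noncomputable def LC (P : Par) (j : ℕ) (x : P.Vx) (H : Set (Sym2 P.Vx)) : ℝ :=
  P.Low j x H + P.Cred j H

theorem LC_notfull {j : ℕ} {H H' : Set (Sym2 P.Vx)} (hf : ¬ P.full j H) (hH : H ⊆ H')
    (x x' : P.Vx) : P.LC j x' H' ≤ P.LC j x H := by
  unfold LC
  have h1 := P.Low_le j x' H'
  have h2 : P.Low j x H = I j * P.R / P.e j := by
    unfold Low
    rw [if_neg hf, mul_one]
  have h3 := P.Cred_mono hH j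
  linarith

theorem Low_full {v : P.Va} {H : Set (Sym2 P.Vx)} (hf : P.full v.1 H) {n : ℕ} (hn : n ≤ P.M + 1) :
    P.Low v.1 (P.node v n) H = I v.1 * P.R / P.e v.1 * P.h n := by
  unfold Low
  rw [if_pos hf, P.rel_h v hn]

theorem Cred_small {v : P.Va} {H : Set (Sym2 P.Vx)} {ε : Sym2 P.Vx}
    (hε : ε = P.pE v 0 ∨ ε = P.pE v 1 ∨ ε = P.pE v 2 ∨ ε = P.cE v) (hn : ε ∉ H) :
    P.Cred v.1 (insert ε H) ≤ P.Cred v.1 H - I v.1 / P.e v.1 := by
  have hM := P.hM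
  have hV : P.ValveEdge v ε := by
    rcases hε with rfl | rfl | rfl | rfl
    · exact Or.inl ⟨0, by omega, rfl⟩
    · exact Or.inl ⟨1, by omega, rfl⟩
    · exact Or.inl ⟨2, by omega, rfl⟩
    · exact Or.inr rfl
  have hu : P.u v (insert ε H) ≤ P.u v H - 1 := by
    have hH : H ⊆ insert ε H := Set.subset_insert _ _
    have h0 := P.ite_mono hH (P.pE v 0)
    have h1 := P.ite_mono hH (P.pE v 1)
    have h2 := P.ite_mono hH (P.pE v 2)
    have h3 := P.ite_mono hH (P.cE v)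
    have h4 : ind (ε ∉ insert ε H) = 0 := ind_neg (not_not.2 (Set.mem_insert _ _))
    have h5 : ind (ε ∉ H) = 1 := ind_pos hn
    unfold u
    rcases hε with rfl | rfl | rfl | rfl <;> linarith
  unfold Cred
  rw [hV.U_same, hV.TC_same]
  have h3 : 0 ≤ I v.1 / P.e v.1 := div_nonneg (by linarith [one_le_I v.1]) (P.e_pos' v.1).le
  nlinarith

theorem LC_small {v : P.Va} {H : Set (Sym2 P.Vx)} {ε : Sym2 P.Vx}
    (hε : ε = P.pE v 0 ∨ ε = P.pE v 1 ∨ ε = P.pE v 2 ∨ ε = P.cE v) (hn : ε ∉ H) {n n' : ℕ}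
    (h1 : n ≤ P.M + 1) (h2 : n' ≤ P.M + 1) (hh : P.h n' ≤ P.h n + 1 / P.R) :
    P.LC v.1 (P.node v n') (insert ε H) ≤ P.LC v.1 (P.node v n) H := by
  by_cases hf : P.full v.1 H
  · have hf' : P.full v.1 (insert ε H) := fun v' hv' =>
      ⟨Set.mem_insert_of_mem _ (hf v' hv').1, Set.mem_insert_of_mem _ (hf v' hv').2⟩
    unfold LC
    rw [Low_full hf h1, Low_full hf' h2]
    have h3 := Cred_small hε hn
    have h4 : 0 ≤ I v.1 * P.R / P.e v.1 :=
      div_nonneg (mul_nonneg (by linarith [one_le_I v.1]) P.R_pos.le) (P.e_pos' v.1).le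
    have h5 : I v.1 * P.R / P.e v.1 * (1 / P.R) = I v.1 / P.e v.1 := by
      have := P.R_pos
      field_simp
    nlinarith [mul_le_mul_of_nonneg_left hh h4]
  · exact LC_notfull hf (Set.subset_insert _ _) _ _

theorem h_step {n n' : ℕ} (hn : n ≤ 3) (hn' : n' ≤ 3) (h : n ≠ 0 ∨ n' ≤ 1) :
    P.h n' ≤ P.h n + 1 / P.R := by
  have hR := P.R_pos
  have e1 := P.h_one
  have e2 : P.h 2 = 4 / 3 * (1 / P.R) := by rw [P.h_two]; ring
  have e3 : P.h 3 = 5 / 3 * (1 / P.R) := by rw [P.h_three]; ring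
  have e0 := P.h_zero
  have : 0 < 1 / P.R := by positivity
  interval_cases n <;> interval_cases n' <;> first | omega | linarith

theorem LC_path {v : P.Va} {H : Set (Sym2 P.Vx)} {n₀ : ℕ}
    (hl : LocInv P.M (fun m => P.pE v m ∈ H) (P.cE v ∈ H) n₀) {m n n' : ℕ} (hm : m ≤ P.M)
    (hmv : (n = m ∧ n' = m + 1) ∨ (n = m + 1 ∧ n' = m)) (hn : P.pE v m ∉ H) :
    P.LC v.1 (P.node v n') (insert (P.pE v m) H) ≤ P.LC v.1 (P.node v n) H := by
  have hM := P.hM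
  by_cases hf : P.full v.1 H
  · have h3 : m ≤ 2 := by
      by_contra hc
      exact hn (hl.tall (hf v rfl).1 (hf v rfl).2 m (by omega) hm)
    refine LC_small ?_ hn (by omega) (by omega) (h_step (by omega) (by omega) (by omega))
    interval_cases m <;> simp
  · exact LC_notfull hf (Set.subset_insert _ _) _ _

theorem ind_mul_nonpos {p : Prop} {a : ℝ} (h : p → a ≤ 0) : ind p * a ≤ 0 := by
  by_cases hp : p
  · rw [ind_pos hp, one_mul]; exact h hp
  · rw [ind_neg hp, zero_mul]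

theorem LC_harm {v : P.Va} {H : Set (Sym2 P.Vx)} {n : ℕ} (hn : 1 ≤ n ∧ n ≤ P.M) :
    ∑ w ∈ P.nbF (P.node v n), (P.LC v.1 w H - P.LC v.1 (P.node v n) H) = 0 := by
  have hM := P.hM
  by_cases hf : P.full v.1 H
  · have hR := P.R_pos
    have key : ∀ m, m ≤ P.M + 1 → P.LC v.1 (P.node v m) H =
        I v.1 * P.R / P.e v.1 * P.h m + P.Cred v.1 H := fun m hm => by
      unfold LC
      rw [Low_full hf hm]
    obtain ⟨m, rfl⟩ : ∃ m, n = m + 1 := ⟨n - 1, by omega⟩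
    by_cases h0 : m = 0
    · subst h0
      rw [zero_add, P.sum_nbF_one, key 0 (by omega), key 1 (by omega), key 2 (by omega),
        key 3 (by omega), h_zero, h_one, h_two, h_three]
      ring
    · by_cases h2 : m = 2
      · subst h2
        rw [show 2 + 1 = 3 from rfl, P.sum_nbF_three, key 4 (by omega), key 1 (by omega),
          key 2 (by omega), key 3 (by omega), h_one, h_two, h_three, P.h_big (n := 4) (by omega)]
        push_cast
        ring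
      · rw [P.sum_nbF_other v hn.2 h0 h2, key m (by omega), key (m + 1) (by omega),
          key (m + 2) (by omega)]
        by_cases h1 : m = 1
        · subst h1
          rw [h_one, show 1 + 1 = 2 from rfl, h_two, show 1 + 2 = 3 from rfl, h_three]
          ring
        · rw [P.h_big (n := m) (by omega), P.h_big (n := m + 1) (by omega),
            P.h_big (n := m + 2) (by omega)]
          push_cast
          ring
  · refine Finset.sum_eq_zero fun w _ => ?_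
    unfold LC Low
    rw [if_neg hf, if_neg hf, sub_self]

theorem LC_inner {v : P.Va} {H : Set (Sym2 P.Vx)} {n : ℕ} (hn : 1 ≤ n ∧ n ≤ P.M)
    (hl : LocInv P.M (fun m => P.pE v m ∈ H) (P.cE v ∈ H) n) :
    ∑ w ∈ alF P.G P.hfin (P.node v n) H,
      (P.LC v.1 w (insert s(P.node v n, w) H) - P.LC v.1 (P.node v n) H) ≤ 0 := by
  have hM := P.hM
  by_cases hall : ∀ u, P.G.Adj (P.node v n) u → s(P.node v n, u) ∈ H
  · rw [P.sum_alF_all hall, ← LC_harm (H := H) hn]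
    refine le_of_eq (Finset.sum_congr rfl fun w hw => ?_)
    rw [Set.insert_eq_of_mem (hall w (P.mem_nbF.1 hw))]
  · rw [P.sum_alF_greedy hall]
    refine Finset.sum_nonpos fun w hw => ind_mul_nonpos fun hnot => sub_nonpos.2 ?_
    rcases (P.adj_node v hn w).1 (P.mem_nbF.1 hw) with rfl | rfl | ⟨rfl, rfl⟩ | ⟨rfl, rfl⟩
    · rw [s_down v hn.1] at hnot ⊢
      exact LC_path hl (by omega) (Or.inr ⟨by omega, rfl⟩) hnot
    · exact LC_path hl hn.2 (Or.inl ⟨rfl, rfl⟩) hnot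
    · exact LC_small (ε := P.cE v) (by simp) hnot (by omega) (by omega)
        (h_step (by omega) (by omega) (by omega))
    · rw [s_chord] at hnot ⊢
      exact LC_small (ε := P.cE v) (by simp) hnot (by omega) (by omega)
        (h_step (by omega) (by omega) (by omega))

/-! ### at or above the frontier -/

/-- the local value -/
noncomputable def lv (P : Par) (Δ D : ℝ) (p1 p2 c p3 pM : Prop) (n : ℕ) : ℝ :=
  if ¬ p3 ∧ ¬ pM then th p1 p2 c n * Δ else P.et p1 p2 c p3 pM n / D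

theorem Up_zero (κ : ℝ) (v : P.Va) (H : Set (Sym2 P.Vx)) :
    P.Up κ v.1 (P.node v 0) H = Psi κ (P.e v.1) (P.D v.1 H) (P.F v.1 H) := by
  unfold Up
  rw [P.rel_zero, add_zero]

theorem Up_top (κ : ℝ) (v : P.Va) (H : Set (Sym2 P.Vx)) :
    P.Up κ v.1 (P.node v (P.M + 1)) H =
      Psi κ (P.e v.1) (P.D v.1 H) (P.F v.1 H) + 1 / P.D v.1 H := by
  unfold Up
  rw [P.rel_top]

theorem Up_inn (κ : ℝ) (v : P.Va) (H : Set (Sym2 P.Vx)) {n : ℕ} (hn : 1 ≤ n ∧ n ≤ P.M) :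
    P.Up κ v.1 (P.node v n) H = Psi κ (P.e v.1) (P.D v.1 H) (P.F v.1 H) +
      P.lv (Del κ (P.e v.1) (P.D v.1 H) (P.F v.1 H)) (P.D v.1 H) (P.pE v 1 ∈ H) (P.pE v 2 ∈ H)
        (P.cE v ∈ H) (P.pE v 3 ∈ H) (P.pE v P.M ∈ H) n := by
  unfold Up
  rw [P.rel_inn v hn]
  unfold inVal lv
  by_cases h : P.tn v H
  · rw [if_pos h, if_pos (show ¬ P.pE v 3 ∈ H ∧ ¬ P.pE v P.M ∈ H from h)]
  · rw [if_neg h, if_neg (show ¬ (¬ P.pE v 3 ∈ H ∧ ¬ P.pE v P.M ∈ H) from h)]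

theorem DF_same {v : P.Va} {ε : Sym2 P.Vx} (hε : P.ValveEdge v ε) {H : Set (Sym2 P.Vx)}
    (htn : P.tn v (insert ε H) ↔ P.tn v H) (hF : P.tn v H → P.pE v 0 ∈ H) :
    P.D v.1 (insert ε H) = P.D v.1 H ∧ P.F v.1 (insert ε H) = P.F v.1 H := by
  rw [hε.D_same, hε.F_same, ind_congr htn, ind_neg (p := P.tn v H ∧ P.pE v 0 ∉ H) fun a => a.2 (hF a.1),
    ind_neg (p := P.tn v (insert ε H) ∧ P.pE v 0 ∉ insert ε H)
      fun a => a.2 (Set.mem_insert_of_mem _ (hF (htn.1 a.1)))]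
  constructor <;> ring

theorem tn_small {v : P.Va} {m : ℕ} (hm : m ≤ 2) (H : Set (Sym2 P.Vx)) :
    P.tn v (insert (P.pE v m) H) ↔ P.tn v H := by
  have hM := P.hM
  unfold tn
  rw [ins_ne (by omega) (by omega) (by omega), ins_ne (by omega) le_rfl (by omega)]

theorem tn_chord {v : P.Va} (H : Set (Sym2 P.Vx)) : P.tn v (insert (P.cE v) H) ↔ P.tn v H := by
  unfold tn
  rw [pE_ins_cE, pE_ins_cE]

theorem tn_not {v : P.Va} {H : Set (Sym2 P.Vx)} (h : ¬ P.tn v H) (ε : Sym2 P.Vx) :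
    P.tn v (insert ε H) ↔ P.tn v H :=
  ⟨fun a => ⟨fun b => a.1 (Set.mem_insert_of_mem _ b), fun b => a.2 (Set.mem_insert_of_mem _ b)⟩,
    fun a => absurd a h⟩

section pure

variable {Δ D : ℝ} {p0 p1 p2 c p3 pM : Prop}

theorem hD_facts (P : Par) {D : ℝ} (hD : 0 < D) :
    0 ≤ P.h 1 / D ∧ P.h 2 / D = 4 / 3 * (P.h 1 / D) ∧ P.h 3 / D = 5 / 3 * (P.h 1 / D) ∧
      P.h 4 / D = 8 / 3 * (P.h 1 / D) := by
  refine ⟨div_nonneg (P.h_nonneg 1) hD.le, ?_, ?_, ?_⟩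
  · rw [h_one, h_two]; ring
  · rw [h_one, h_three]; ring
  · rw [h_one, P.h_big (n := 4) (by omega)]; push_cast; ring

theorem pure_one (hΔ : 0 ≤ Δ) (hD : 0 < D)
    (s1 : ¬ p3 → ¬ pM → p0 ∧ ((¬ p1 ∧ ¬ p2 ∧ ¬ c) ∨ (p1 ∧ p2 ∧ c))) (ht : p3 ↔ pM) :
    ind (¬ p0 ∨ (p0 ∧ p1 ∧ c)) * (0 - P.lv Δ D p1 p2 c p3 pM 1) +
      ind (¬ p1 ∨ (p0 ∧ p1 ∧ c)) * (P.lv Δ D True p2 c p3 pM 2 - P.lv Δ D p1 p2 c p3 pM 1) +
      ind (¬ c ∨ (p0 ∧ p1 ∧ c)) * (P.lv Δ D p1 p2 True p3 pM 3 - P.lv Δ D p1 p2 c p3 pM 1)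
      ≤ 0 := by
  obtain ⟨e1, e2, e3, -⟩ := hD_facts P hD
  by_cases h3 : p3
  · have hM := ht.1 h3
    by_cases h0 : p0 <;> by_cases h1 : p1 <;> by_cases h2 : p2 <;> by_cases hc : c <;>
      simp [lv, et, h0, h1, h2, hc, h3, hM] <;> linarith
  · have hM : ¬ pM := fun a => h3 (ht.2 a)
    obtain ⟨h0, ⟨h1, h2, hc⟩ | ⟨h1, h2, hc⟩⟩ := s1 h3 hM <;>
      simp [lv, th, h0, h1, h2, hc, h3, hM] <;> linarith

theorem pure_two (hΔ : 0 ≤ Δ) (hD : 0 < D)
    (s2 : ¬ p3 → ¬ pM → (p1 ∧ ¬ p2 ∧ ¬ c) ∨ (¬ p1 ∧ p2 ∧ c) ∨ (p1 ∧ p2 ∧ c)) (ht : p3 ↔ pM) :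
    ind (¬ p1 ∨ (p1 ∧ p2)) * (P.lv Δ D True p2 c p3 pM 1 - P.lv Δ D p1 p2 c p3 pM 2) +
      ind (¬ p2 ∨ (p1 ∧ p2)) * (P.lv Δ D p1 True c p3 pM 3 - P.lv Δ D p1 p2 c p3 pM 2) ≤ 0 := by
  obtain ⟨e1, e2, e3, -⟩ := hD_facts P hD
  by_cases h3 : p3
  · have hM := ht.1 h3
    by_cases h1 : p1 <;> by_cases h2 : p2 <;> by_cases hc : c <;>
      simp [lv, et, h1, h2, hc, h3, hM] <;> linarith
  · have hM : ¬ pM := fun a => h3 (ht.2 a)
    obtain ⟨h1, h2, hc⟩ | ⟨h1, h2, hc⟩ | ⟨h1, h2, hc⟩ := s2 h3 hM <;>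
      simp [lv, th, h1, h2, hc, h3, hM] <;> linarith

theorem pure_three_none (hΔ : 0 ≤ Δ)
    (s3 : (p1 ∧ p2 ∧ ¬ c) ∨ (¬ p1 ∧ ¬ p2 ∧ c) ∨ (p1 ∧ p2 ∧ c)) :
    ind (¬ p2) * (P.lv Δ D p1 True c False False 2 - P.lv Δ D p1 p2 c False False 3) +
      (Δ - P.lv Δ D p1 p2 c False False 3) +
      ind (¬ c) * (P.lv Δ D p1 p2 True False False 1 - P.lv Δ D p1 p2 c False False 3) ≤ 0 := by
  obtain ⟨h1, h2, hc⟩ | ⟨h1, h2, hc⟩ | ⟨h1, h2, hc⟩ := s3 <;>
    simp [lv, th, h1, h2, hc] <;> linarith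

theorem pure_three_all (hD : 0 < D) (hz : p1 ↔ p2) :
    ind (¬ p2 ∨ (p2 ∧ c)) * (P.lv Δ D p1 True c True True 2 - P.lv Δ D p1 p2 c True True 3) +
      ind (p2 ∧ c) * (P.h 4 / D - P.lv Δ D p1 p2 c True True 3) +
      ind (¬ c ∨ (p2 ∧ c)) * (P.lv Δ D p1 p2 True True True 1 - P.lv Δ D p1 p2 c True True 3)
      ≤ 0 := by
  obtain ⟨e1, e2, e3, e4⟩ := hD_facts P hD
  by_cases h2 : p2
  · have h1 := hz.2 h2
    by_cases hc : c <;> simp [lv, et, h1, h2, hc] <;> linarith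
  · have h1 : ¬ p1 := fun a => h2 (hz.1 a)
    by_cases hc : c <;> simp [lv, et, h1, h2, hc] <;> linarith

end pure

theorem vE (v : P.Va) {m : ℕ} (hm : m ≤ P.M) : P.ValveEdge v (P.pE v m) := Or.inl ⟨m, hm, rfl⟩

theorem Up_one {κ : ℝ} (hκ : 0 ≤ κ) {v : P.Va} {H : Set (Sym2 P.Vx)} (hD : 1 < P.D v.1 H)
    (hl : LocInv P.M (fun m => P.pE v m ∈ H) (P.cE v ∈ H) 1) :
    ∑ w ∈ alF P.G P.hfin (P.node v 1) H,
      (P.Up κ v.1 w (insert s(P.node v 1, w) H) - P.Up κ v.1 (P.node v 1) H) ≤ 0 := by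
  have hM := P.hM
  have hF : P.tn v H → P.pE v 0 ∈ H := fun a => (hl.s1 a.1 a.2 rfl).1
  obtain ⟨d0, f0⟩ := DF_same (vE v (m := 0) (by omega)) (tn_small (by omega) H) hF
  obtain ⟨d1, f1⟩ := DF_same (vE v (m := 1) (by omega)) (tn_small (by omega) H) hF
  obtain ⟨d2, f2⟩ := DF_same (v := v) (Or.inr rfl) (tn_chord H) hF
  have ht : P.pE v 3 ∈ H ↔ P.pE v P.M ∈ H := by
    constructor
    · intro a
      by_contra b
      have := (hl.tup a b).1
      omega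
    · intro b
      by_contra a
      have := (hl.tdown a b).1
      omega
  rw [sum_alF_w, P.sum_nbF_one, all_node (by omega)]
  have e0 : s(P.node v 1, P.node v 0) = P.pE v 0 := s_down v (n := 1) le_rfl
  have e1 : s(P.node v 1, P.node v 2) = P.pE v 1 := rfl
  have e2 : s(P.node v 1, P.node v 3) = P.cE v := rfl
  rw [e0, e1, e2, Up_zero, Up_inn κ v _ (n := 1) (by omega), Up_inn κ v _ (n := 2) (by omega),
    Up_inn κ v _ (n := 3) (by omega), d0, f0, d1, f1, d2, f2]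
  simp only [ins_self, pE_ins_cE, cE_ins_pE, ins_ne (v := v) (m := 2) (m₀ := 1) (by omega) (by omega)
    (by omega), ins_ne (v := v) (m := 3) (m₀ := 1) (by omega) (by omega) (by omega),
    ins_ne (v := v) (m := P.M) (m₀ := 1) (by omega) le_rfl (by omega), true_or, forall_const,
    Nat.sub_self]
  have := pure_one (P := P) (Del_nonneg (P.e_pos' v.1) hD hκ (P.F_nonneg v.1 H))
    (show 0 < P.D v.1 H by linarith) (fun a b => hl.s1 a b rfl) ht
  linarith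

theorem Up_two {κ : ℝ} (hκ : 0 ≤ κ) {v : P.Va} {H : Set (Sym2 P.Vx)} (hD : 1 < P.D v.1 H)
    (hl : LocInv P.M (fun m => P.pE v m ∈ H) (P.cE v ∈ H) 2) :
    ∑ w ∈ alF P.G P.hfin (P.node v 2) H,
      (P.Up κ v.1 w (insert s(P.node v 2, w) H) - P.Up κ v.1 (P.node v 2) H) ≤ 0 := by
  have hM := P.hM
  have hF : P.tn v H → P.pE v 0 ∈ H := fun a => (hl.s2 a.1 a.2 rfl).1
  obtain ⟨d1, f1⟩ := DF_same (vE v (m := 1) (by omega)) (tn_small (by omega) H) hF
  obtain ⟨d2, f2⟩ := DF_same (vE v (m := 2) (by omega)) (tn_small (by omega) H) hF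
  have ht : P.pE v 3 ∈ H ↔ P.pE v P.M ∈ H := by
    constructor
    · intro a
      by_contra b
      have := (hl.tup a b).1
      omega
    · intro b
      by_contra a
      have := (hl.tdown a b).1
      omega
  rw [sum_alF_w, P.sum_nbF_other v (n := 1) (by omega) (by omega) (by omega), all_node (by omega)]
  have e0 : s(P.node v (1 + 1), P.node v 1) = P.pE v 1 := s_down v (n := 2) (by omega)
  have e1 : s(P.node v (1 + 1), P.node v (1 + 2)) = P.pE v 2 := rfl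
  rw [e0, e1, Up_inn κ v _ (n := 1) (by omega), Up_inn κ v _ (n := 1 + 1) (by omega),
    Up_inn κ v _ (n := 1 + 2) (by omega), d1, f1, d2, f2]
  simp only [ins_self, cE_ins_pE, ins_ne (v := v) (m := 2) (m₀ := 1) (by omega) (by omega)
    (by omega), ins_ne (v := v) (m := 3) (m₀ := 1) (by omega) (by omega) (by omega),
    ins_ne (v := v) (m := P.M) (m₀ := 1) (by omega) le_rfl (by omega),
    ins_ne (v := v) (m := 1) (m₀ := 2) (by omega) (by omega) (by omega),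
    ins_ne (v := v) (m := 3) (m₀ := 2) (by omega) (by omega) (by omega),
    ins_ne (v := v) (m := P.M) (m₀ := 2) (by omega) le_rfl (by omega), Nat.reduceAdd,
    Nat.add_one_sub_one, Nat.reduceEqDiff, or_self, IsEmpty.forall_iff, and_true]
  have := pure_two (P := P) (Del_nonneg (P.e_pos' v.1) hD hκ (P.F_nonneg v.1 H))
    (show 0 < P.D v.1 H by linarith) (fun a b => (hl.s2 a b rfl).2) ht
  linarith

theorem Up_three {κ : ℝ} (hκ : 0 ≤ κ) {v : P.Va} {H : Set (Sym2 P.Vx)} (hD : 1 < P.D v.1 H)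
    (hl : LocInv P.M (fun m => P.pE v m ∈ H) (P.cE v ∈ H) 3) :
    ∑ w ∈ alF P.G P.hfin (P.node v 3) H,
      (P.Up κ v.1 w (insert s(P.node v 3, w) H) - P.Up κ v.1 (P.node v 3) H) ≤ 0 := by
  have hM := P.hM
  have hF : P.tn v H → P.pE v 0 ∈ H := fun a => (hl.s3 a.1 a.2 rfl).1
  obtain ⟨d1, f1⟩ := DF_same (vE v (m := 2) (by omega)) (tn_small (by omega) H) hF
  obtain ⟨d2, f2⟩ := DF_same (v := v) (Or.inr rfl) (tn_chord H) hF
  rw [sum_alF_w, P.sum_nbF_three, all_node (by omega)]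
  have e0 : s(P.node v 3, P.node v 2) = P.pE v 2 := s_down v (n := 3) (by omega)
  have e1 : s(P.node v 3, P.node v 4) = P.pE v 3 := rfl
  rw [e0, e1, s_chord, Up_inn κ v _ (n := 1) (by omega), Up_inn κ v _ (n := 2) (by omega),
    Up_inn κ v _ (n := 3) (by omega), Up_inn κ v _ (n := 4) (by omega), d1, f1, d2, f2]
  simp only [ins_self, cE_ins_pE, pE_ins_cE,
    ins_ne (v := v) (m := 1) (m₀ := 2) (by omega) (by omega) (by omega),
    ins_ne (v := v) (m := 3) (m₀ := 2) (by omega) (by omega) (by omega),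
    ins_ne (v := v) (m := P.M) (m₀ := 2) (by omega) le_rfl (by omega),
    ins_ne (v := v) (m := P.M) (m₀ := 3) (by omega) le_rfl (by omega),
    Nat.add_one_sub_one, or_true, forall_const]
  by_cases h3 : P.pE v 3 ∈ H
  · have hM' : P.pE v P.M ∈ H := by
      by_contra b
      have := (hl.tup h3 b).1
      omega
    rw [Set.insert_eq_of_mem h3]
    have := pure_three_all (P := P) (Δ := Del κ (P.e v.1) (P.D v.1 H) (P.F v.1 H))
      (c := P.cE v ∈ H) (show 0 < P.D v.1 H by linarith) (hl.zpar (by omega))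
    have e4 : ∀ p1 p2 c : Prop, P.lv (Del κ (P.e v.1) (P.D v.1 H) (P.F v.1 H)) (P.D v.1 H) p1 p2 c
        True True 4 = P.h 4 / P.D v.1 H := fun p1 p2 c => by simp [lv, et]
    simp only [h3, hM', true_and, not_true, false_or, e4]
    linarith
  · have hM' : P.pE v P.M ∉ H := by
      intro b
      have := (hl.tdown h3 b).1
      omega
    have htn : P.tn v H := ⟨h3, hM'⟩
    have htn' : ¬ P.tn v (insert (P.pE v 3) H) := fun a => a.1 (Set.mem_insert _ _)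
    have d3 : P.D v.1 (insert (P.pE v 3) H) = P.D v.1 H - 1 := by
      rw [(vE v (m := 3) (by omega)).D_same, ind_pos htn, ind_neg htn', add_zero]
    have f3 : P.F v.1 (insert (P.pE v 3) H) = P.F v.1 H := by
      rw [(vE v (m := 3) (by omega)).F_same, ind_neg (p := P.tn v H ∧ P.pE v 0 ∉ H)
        fun a => a.2 (hF a.1), ind_neg (p := P.tn v (insert (P.pE v 3) H) ∧ _) fun a => htn' a.1]
      ring
    rw [d3, f3]
    have := pure_three_none (P := P) (D := P.D v.1 H)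
      (Del_nonneg (P.e_pos' v.1) hD hκ (P.F_nonneg v.1 H)) (hl.s3 h3 hM' rfl).2
    have e4 : ∀ (a b : ℝ) (p1 p2 c : Prop), P.lv a b p1 p2 c True False 4 = 1 / b :=
      fun a b p1 p2 c => by simp [lv, et]
    simp only [h3, hM', false_and, and_false, or_false, not_false_iff, ind_true, e4]
    have e5 : Del κ (P.e v.1) (P.D v.1 H) (P.F v.1 H) = Psi κ (P.e v.1) (P.D v.1 H - 1) (P.F v.1 H) +
      1 / (P.D v.1 H - 1) - Psi κ (P.e v.1) (P.D v.1 H) (P.F v.1 H) := rfl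
    linarith

theorem Up_long {κ : ℝ} {v : P.Va} {H : Set (Sym2 P.Vx)} {n : ℕ} (hn : 3 ≤ n)
    (hn' : n + 1 ≤ P.M) (hl : LocInv P.M (fun m => P.pE v m ∈ H) (P.cE v ∈ H) (n + 1)) :
    ∑ w ∈ alF P.G P.hfin (P.node v (n + 1)) H,
      (P.Up κ v.1 w (insert s(P.node v (n + 1), w) H) - P.Up κ v.1 (P.node v (n + 1)) H) ≤ 0 := by
  have hM := P.hM
  have htn : ¬ P.tn v H := fun a => by
    have := (hl.tnone a.1 a.2).2
    omega
  have hF : P.tn v H → P.pE v 0 ∈ H := fun a => absurd a htn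
  obtain ⟨d1, f1⟩ := DF_same (vE v (m := n) (by omega)) (tn_not htn _) hF
  obtain ⟨d2, f2⟩ := DF_same (vE v (m := n + 1) (by omega)) (tn_not htn _) hF
  rw [sum_alF_w, P.sum_nbF_other v hn' (by omega) (by omega), all_node (by omega)]
  have e0 : s(P.node v (n + 1), P.node v n) = P.pE v n := s_down v (n := n + 1) (by omega)
  have e1 : s(P.node v (n + 1), P.node v (n + 2)) = P.pE v (n + 1) := rfl
  have e2 : ¬ (n + 1 = 1 ∨ n + 1 = 3) := by omega
  rw [e0, e1, Up_inn κ v _ (n := n) (by omega), Up_inn κ v _ (n := n + 1) (by omega), d1, f1]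
  simp only [Nat.add_one_sub_one, e2, IsEmpty.forall_iff, and_true]
  have hup : ∀ a : ℝ, (n + 1 = P.M → a = 1 / P.D v.1 H) → (n + 1 ≠ P.M → a = P.lv
      (Del κ (P.e v.1) (P.D v.1 H) (P.F v.1 H)) (P.D v.1 H) (P.pE v 1 ∈ insert (P.pE v (n + 1)) H)
      (P.pE v 2 ∈ insert (P.pE v (n + 1)) H) (P.cE v ∈ insert (P.pE v (n + 1)) H)
      (P.pE v 3 ∈ insert (P.pE v (n + 1)) H) (P.pE v P.M ∈ insert (P.pE v (n + 1)) H) (n + 2)) →
      P.Up κ v.1 (P.node v (n + 2)) (insert (P.pE v (n + 1)) H) =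
        Psi κ (P.e v.1) (P.D v.1 H) (P.F v.1 H) + a := by
    intro a h1 h2
    by_cases h : n + 1 = P.M
    · rw [show n + 2 = P.M + 1 by omega, Up_top, d2, f2, h1 h]
    · rw [Up_inn κ v _ (n := n + 2) (by omega), d2, f2, h2 h]
  have n1 : ¬ n ≤ 2 := by omega
  have n2 : ¬ n + 1 ≤ 2 := by omega
  have n3 : ¬ n + 2 ≤ 2 := by omega
  by_cases h3 : P.pE v 3 ∈ H <;> by_cases hM' : P.pE v P.M ∈ H
  · have a1 := hl.tall h3 hM' n hn (by omega)
    have a2 := hl.tall h3 hM' (n + 1) (by omega) hn'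
    rw [hup (P.h (n + 2) / P.D v.1 H)]
    · simp only [Set.insert_eq_of_mem a1, a1, a2, h3, hM', lv, et, n1, n2]
      rw [P.h_big (n := n) hn, P.h_big (n := n + 1) (by omega), P.h_big (n := n + 2) (by omega)]
      simp
      apply le_of_eq
      ring
    · intro h
      rw [show n + 2 = P.M + 1 by omega, h_top]
    · intro _
      simp [Set.insert_eq_of_mem a2, h3, hM', lv, et, n3]
  · have a := (hl.tup h3 hM').2
    have a1 := (a n hn (by omega)).2 (by omega)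
    have a2 : P.pE v (n + 1) ∉ H := fun b => by
      have := (a (n + 1) (by omega) hn').1 b
      omega
    rw [hup (1 / P.D v.1 H) (fun _ => rfl)]
    · simp [a1, a2, h3, hM', lv, et]
    · intro h
      simp [ins_ne (v := v) (m := P.M) (m₀ := n + 1) (Ne.symm h) le_rfl hn', h3, hM', lv, et]
  · have a := (hl.tdown h3 hM').2
    have a1 := (a (n + 1) (by omega) hn').2 le_rfl
    have a2 : P.pE v n ∉ H := fun b => by
      have := (a n hn (by omega)).1 b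
      omega
    have b1 : P.pE v P.M ∈ insert (P.pE v n) H := Set.mem_insert_of_mem _ hM'
    by_cases h : n = 3
    · subst h
      simp [a1, a2, hM', lv, et]
    · simp [a1, a2, h3, hM', lv, et, ins_ne (v := v) (m := 3) (m₀ := n) (Ne.symm h) (by omega)
        (by omega)]
  · exact absurd ⟨h3, hM'⟩ htn

theorem Up_inner {κ : ℝ} (hκ : 0 ≤ κ) {v : P.Va} {H : Set (Sym2 P.Vx)} (hD : 1 < P.D v.1 H)
    {n : ℕ} (hn : 1 ≤ n ∧ n ≤ P.M) (hl : LocInv P.M (fun m => P.pE v m ∈ H) (P.cE v ∈ H) n) :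
    ∑ w ∈ alF P.G P.hfin (P.node v n) H,
      (P.Up κ v.1 w (insert s(P.node v n, w) H) - P.Up κ v.1 (P.node v n) H) ≤ 0 := by
  by_cases h1 : n = 1
  · subst h1; exact Up_one hκ hD hl
  by_cases h2 : n = 2
  · subst h2; exact Up_two hκ hD hl
  by_cases h3 : n = 3
  · subst h3; exact Up_three hκ hD hl
  obtain ⟨m, rfl⟩ : ∃ m, n = m + 1 := ⟨n - 1, by omega⟩
  exact Up_long (by omega) hn.2 hl

end Par

end Pool.Agent.H487Z
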