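import Pool.Agent.H487Z.Graph

set_option autoImplicit false
set_option linter.unusedSectionVars false

namespace Pool.Agent.H487Z

open scoped Classical

/-- the local invariant of a valve; `n` is the position of the walker in the valve, `0` outside -/
structure LocInv (M : ℕ) (p : ℕ → Prop) (c : Prop) (n : ℕ) : Prop where
  tnone : ¬ p 3 → ¬ p M → (∀ m, 3 ≤ m → m ≤ M → ¬ p m) ∧ n ≤ 3
  s0 : ¬ p 3 → ¬ p M → n = 0 → (¬ p 0 ∧ ¬ p 1 ∧ ¬ p 2 ∧ ¬ c) ∨ (p 0 ∧ p 1 ∧ p 2 ∧ c)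
  s1 : ¬ p 3 → ¬ p M → n = 1 → p 0 ∧ ((¬ p 1 ∧ ¬ p 2 ∧ ¬ c) ∨ (p 1 ∧ p 2 ∧ c))
  s2 : ¬ p 3 → ¬ p M → n = 2 →
    p 0 ∧ ((p 1 ∧ ¬ p 2 ∧ ¬ c) ∨ (¬ p 1 ∧ p 2 ∧ c) ∨ (p 1 ∧ p 2 ∧ c))
  s3 : ¬ p 3 → ¬ p M → n = 3 →
    p 0 ∧ ((p 1 ∧ p 2 ∧ ¬ c) ∨ (¬ p 1 ∧ ¬ p 2 ∧ c) ∨ (p 1 ∧ p 2 ∧ c))
  tall : p 3 → p M → ∀ m, 3 ≤ m → m ≤ M → p m
  tup : p 3 → ¬ p M → 4 ≤ n ∧ ∀ m, 3 ≤ m → m ≤ M → (p m ↔ m < n)
  tdown : ¬ p 3 → p M → 4 ≤ n ∧ ∀ m, 3 ≤ m → m ≤ M → (p m ↔ n ≤ m)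
  zpar : n ≠ 2 → (p 1 ↔ p 2)
  zin : n = 2 → p 1 ∨ p 2

namespace LocInv

variable {M : ℕ} {p p' : ℕ → Prop} {c c' : Prop} {n : ℕ}

theorem congr (hM : 4 ≤ M) (h : LocInv M p c n) (hp : ∀ m, m ≤ M → (p' m ↔ p m))
    (hc : c' ↔ c) : LocInv M p' c' n := by
  have h0 := hp 0 (by omega)
  have h1 := hp 1 (by omega)
  have h2 := hp 2 (by omega)
  have h3 := hp 3 (by omega)
  have h4 := hp M le_rfl
  constructor
  · rw [h3, h4]
    intro a b
    exact ⟨fun m hm hm' => by rw [hp m hm']; exact (h.tnone a b).1 m hm hm', (h.tnone a b).2⟩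
  · rw [h0, h1, h2, h3, h4, hc]; exact h.s0
  · rw [h0, h1, h2, h3, h4, hc]; exact h.s1
  · rw [h0, h1, h2, h3, h4, hc]; exact h.s2
  · rw [h0, h1, h2, h3, h4, hc]; exact h.s3
  · rw [h3, h4]
    intro a b m hm hm'
    rw [hp m hm']
    exact h.tall a b m hm hm'
  · rw [h3, h4]
    intro a b
    exact ⟨(h.tup a b).1, fun m hm hm' => by rw [hp m hm']; exact (h.tup a b).2 m hm hm'⟩
  · rw [h3, h4]
    intro a b
    exact ⟨(h.tdown a b).1, fun m hm hm' => by rw [hp m hm']; exact (h.tdown a b).2 m hm hm'⟩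
  · rw [h1, h2]; exact h.zpar
  · rw [h1, h2]; exact h.zin

/-- a move that does not change the long path, between positions at most three -/
theorem small (hM : 4 ≤ M) (h : LocInv M p c n) (hn : n ≤ 3) {n' : ℕ} (hn' : n' ≤ 3)
    (hp : ∀ m, 3 ≤ m → m ≤ M → (p' m ↔ p m))
    (s0 : ¬ p 3 → ¬ p M → n' = 0 →
      (¬ p' 0 ∧ ¬ p' 1 ∧ ¬ p' 2 ∧ ¬ c') ∨ (p' 0 ∧ p' 1 ∧ p' 2 ∧ c'))
    (s1 : ¬ p 3 → ¬ p M → n' = 1 → p' 0 ∧ ((¬ p' 1 ∧ ¬ p' 2 ∧ ¬ c') ∨ (p' 1 ∧ p' 2 ∧ c')))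
    (s2 : ¬ p 3 → ¬ p M → n' = 2 →
      p' 0 ∧ ((p' 1 ∧ ¬ p' 2 ∧ ¬ c') ∨ (¬ p' 1 ∧ p' 2 ∧ c') ∨ (p' 1 ∧ p' 2 ∧ c')))
    (s3 : ¬ p 3 → ¬ p M → n' = 3 →
      p' 0 ∧ ((p' 1 ∧ p' 2 ∧ ¬ c') ∨ (¬ p' 1 ∧ ¬ p' 2 ∧ c') ∨ (p' 1 ∧ p' 2 ∧ c')))
    (zpar : n' ≠ 2 → (p' 1 ↔ p' 2)) (zin : n' = 2 → p' 1 ∨ p' 2) : LocInv M p' c' n' := by
  have h3 := hp 3 le_rfl (by omega)
  have h4 := hp M (by omega) le_rfl
  constructor
  · rw [h3, h4]
    intro a b
    exact ⟨fun m hm hm' => by rw [hp m hm hm']; exact (h.tnone a b).1 m hm hm', hn'⟩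
  · rw [h3, h4]; exact s0
  · rw [h3, h4]; exact s1
  · rw [h3, h4]; exact s2
  · rw [h3, h4]; exact s3
  · rw [h3, h4]
    intro a b m hm hm'
    rw [hp m hm hm']
    exact h.tall a b m hm hm'
  · rw [h3, h4]
    intro a b
    have := (h.tup a b).1
    omega
  · rw [h3, h4]
    intro a b
    have := (h.tdown a b).1
    omega
  · exact zpar
  · exact zin

/-- crossing a small path edge -/
theorem small_path (hM : 4 ≤ M) (h : LocInv M p c n) {n' m₀ : ℕ} (hm₀ : m₀ ≤ 2)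
    (hmv : (n = m₀ ∧ n' = m₀ + 1) ∨ (n = m₀ + 1 ∧ n' = m₀))
    (hal : n ≠ 0 → ¬ p m₀ ∨ (p (n - 1) ∧ p n ∧ ((n = 1 ∨ n = 3) → c)))
    (hp : ∀ m, m ≤ M → (p' m ↔ m = m₀ ∨ p m)) (hc : c' ↔ c) : LocInv M p' c' n' := by
  have h0 := hp 0 (by omega)
  have h1 := hp 1 (by omega)
  have h2 := hp 2 (by omega)
  have a0 := h.s0
  have a1 := h.s1
  have a2 := h.s2
  have a3 := h.s3
  have a4 := h.zpar
  have a5 := h.zin
  refine h.small hM (by omega) (by omega) (fun m hm hm' => by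
    rw [hp m hm']
    exact ⟨fun a => a.resolve_left (by omega), Or.inr⟩) ?_ ?_ ?_ ?_ ?_ ?_ <;>
  simp only [h0, h1, h2, hc] <;> clear h0 h1 h2 hc hp h <;>
  interval_cases m₀ <;> rcases hmv with ⟨rfl, rfl⟩ | ⟨rfl, rfl⟩ <;>
  simp at hal a0 a1 a2 a3 a4 a5 ⊢ <;> grind

/-- crossing the chord -/
theorem chord (hM : 4 ≤ M) (h : LocInv M p c n) {n' : ℕ}
    (hmv : (n = 1 ∧ n' = 3) ∨ (n = 3 ∧ n' = 1))
    (hal : ¬ c ∨ (p (n - 1) ∧ p n ∧ c))
    (hp : ∀ m, m ≤ M → (p' m ↔ p m)) (hc : c') : LocInv M p' c' n' := by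
  have h0 := hp 0 (by omega)
  have h1 := hp 1 (by omega)
  have h2 := hp 2 (by omega)
  have a1 := h.s1
  have a3 := h.s3
  have a4 := h.zpar
  refine h.small hM (by omega) (by omega) (fun m _ hm' => hp m hm') ?_ ?_ ?_ ?_ ?_ ?_ <;>
  simp only [h0, h1, h2, hc] <;> clear h0 h1 h2 hc hp h <;>
  rcases hmv with ⟨rfl, rfl⟩ | ⟨rfl, rfl⟩ <;>
  simp at hal a1 a3 a4 ⊢ <;> grind

/-- moving up along the long path -/
theorem long_up (hM : 4 ≤ M) (h : LocInv M p c n) {n' : ℕ} (hn : 3 ≤ n) (hn' : n ≤ M)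
    (hmv : (n < M ∧ n' = n + 1) ∨ (n = M ∧ n' = 0))
    (hal : ¬ p n ∨ (p (n - 1) ∧ p n))
    (hp : ∀ m, m ≤ M → (p' m ↔ m = n ∨ p m)) (hc : c' ↔ c) : LocInv M p' c' n' := by
  have h1 : p' 1 ↔ p 1 := by rw [hp 1 (by omega)]; exact ⟨fun a => a.resolve_left (by omega), Or.inr⟩
  have h2 : p' 2 ↔ p 2 := by rw [hp 2 (by omega)]; exact ⟨fun a => a.resolve_left (by omega), Or.inr⟩
  have hz : p' 1 ↔ p' 2 := by rw [h1, h2]; exact h.zpar (by omega)
  -- after the move the edge 3 is crossed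
  have key : p' 3 ∧ ((p' M ∧ ∀ m, 3 ≤ m → m ≤ M → p' m) ∨
      (¬ p' M ∧ 4 ≤ n' ∧ ∀ m, 3 ≤ m → m ≤ M → (p' m ↔ m < n'))) := by
    by_cases a : p 3 <;> by_cases b : p M
    · have := h.tall a b
      exact ⟨(hp 3 (by omega)).2 (Or.inr a), Or.inl ⟨(hp M le_rfl).2 (Or.inr b),
        fun m hm hm' => (hp m hm').2 (Or.inr (this m hm hm'))⟩⟩
    · obtain ⟨t1, t2⟩ := h.tup a b
      refine ⟨(hp 3 (by omega)).2 (Or.inr a), ?_⟩
      rcases hmv with ⟨u1, rfl⟩ | ⟨rfl, rfl⟩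
      · refine Or.inr ⟨?_, by omega, fun m hm hm' => ?_⟩
        · rw [hp M le_rfl]
          rintro (u | u)
          · omega
          · exact b u
        · rw [hp m hm', t2 m hm hm']
          omega
      · refine Or.inl ⟨(hp _ le_rfl).2 (Or.inl rfl), fun m hm hm' => ?_⟩
        rw [hp m hm', t2 m hm hm']
        omega
    · obtain ⟨t1, t2⟩ := h.tdown a b
      have u1 := (t2 n hn hn').2 le_rfl
      have u2 := t2 (n - 1) (by omega) (by omega)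
      rcases hal with u | u
      · exact absurd u1 u
      · have := u2.1 u.1
        omega
    · obtain ⟨t1, t2⟩ := h.tnone a b
      have : n = 3 := by omega
      subst this
      refine ⟨(hp 3 (by omega)).2 (Or.inl rfl), Or.inr ⟨?_, by omega, fun m hm hm' => ?_⟩⟩
      · rw [hp M le_rfl]
        rintro (u | u)
        · omega
        · exact b u
      · rw [hp m hm']
        have := t1 m hm hm'
        constructor
        · rintro (u | u)
          · omega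
          · exact absurd u this
        · intro u
          left
          omega
  obtain ⟨k1, k2⟩ := key
  refine ⟨fun a => absurd k1 a, fun a => absurd k1 a, fun a => absurd k1 a, fun a => absurd k1 a,
    fun a => absurd k1 a, fun _ b => ?_, fun _ b => ?_, fun a => absurd k1 a, fun _ => hz,
    fun a => by omega⟩
  · rcases k2 with k | k
    · exact k.2
    · exact absurd b k.1
  · rcases k2 with k | k
    · exact absurd k.1 b
    · exact k.2

/-- moving down along the long path -/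
theorem long_down (hM : 4 ≤ M) (h : LocInv M p c n) {n' : ℕ} (hn : 3 ≤ n') (hn' : n' ≤ M)
    (hmv : (n' < M ∧ n = n' + 1) ∨ (n' = M ∧ n = 0))
    (hal : n ≠ 0 → ¬ p n' ∨ (p n' ∧ p n))
    (hp : ∀ m, m ≤ M → (p' m ↔ m = n' ∨ p m)) (hc : c' ↔ c) : LocInv M p' c' n' := by
  have h1 : p' 1 ↔ p 1 := by rw [hp 1 (by omega)]; exact ⟨fun a => a.resolve_left (by omega), Or.inr⟩
  have h2 : p' 2 ↔ p 2 := by rw [hp 2 (by omega)]; exact ⟨fun a => a.resolve_left (by omega), Or.inr⟩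
  have hz : p' 1 ↔ p' 2 := by rw [h1, h2]; exact h.zpar (by omega)
  have key : p' M ∧ ((p' 3 ∧ ∀ m, 3 ≤ m → m ≤ M → p' m) ∨
      (¬ p' 3 ∧ 4 ≤ n' ∧ ∀ m, 3 ≤ m → m ≤ M → (p' m ↔ n' ≤ m))) := by
    by_cases a : p 3 <;> by_cases b : p M
    · have := h.tall a b
      exact ⟨(hp M le_rfl).2 (Or.inr b), Or.inl ⟨(hp 3 (by omega)).2 (Or.inr a),
        fun m hm hm' => (hp m hm').2 (Or.inr (this m hm hm'))⟩⟩
    · obtain ⟨t1, t2⟩ := h.tup a b
      have u1 := (t2 n' hn hn').2 (by omega)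
      have u2 := t2 n (by omega) (by omega)
      rcases hal (by omega) with u | u
      · exact absurd u1 u
      · have := u2.1 u.2
        omega
    · obtain ⟨t1, t2⟩ := h.tdown a b
      refine ⟨(hp M le_rfl).2 (Or.inr b), ?_⟩
      by_cases h3 : n' = 3
      · subst h3
        refine Or.inl ⟨(hp _ (by omega)).2 (Or.inl rfl), fun m hm hm' => ?_⟩
        rw [hp m hm', t2 m hm hm']
        omega
      · refine Or.inr ⟨?_, by omega, fun m hm hm' => ?_⟩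
        · rw [hp 3 (by omega)]
          rintro (u | u)
          · omega
          · exact a u
        · rw [hp m hm', t2 m hm hm']
          omega
    · obtain ⟨t1, t2⟩ := h.tnone a b
      have : n' = M := by omega
      subst this
      refine ⟨(hp _ le_rfl).2 (Or.inl rfl), Or.inr ⟨?_, by omega, fun m hm hm' => ?_⟩⟩
      · rw [hp 3 (by omega)]
        rintro (u | u)
        · omega
        · exact a u
      · rw [hp m hm']
        have := t1 m hm hm'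
        constructor
        · rintro (u | u)
          · omega
          · exact absurd u this
        · intro u
          left
          omega
  obtain ⟨k1, k2⟩ := key
  refine ⟨fun _ a => absurd k1 a, fun _ a => absurd k1 a, fun _ a => absurd k1 a,
    fun _ a => absurd k1 a, fun _ a => absurd k1 a, fun a _ => ?_, fun _ a => absurd k1 a,
    fun a _ => ?_, fun _ => hz, fun a => by omega⟩
  · rcases k2 with k | k
    · exact k.2
    · exact absurd a k.1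
  · rcases k2 with k | k
    · exact absurd k.1 a
    · exact k.2

theorem init (M : ℕ) : LocInv M (fun _ => False) False 0 := by
  constructor <;> simp

end LocInv

namespace Par

variable (P : Par)

/-- position inside a valve -/
noncomputable def loc (v : P.Va) : P.Vx → ℕ
  | Sum.inl _ => 0
  | Sum.inr (v', n) => if v' = v then n.1 else 0

theorem loc_node (v : P.Va) {n : ℕ} (h : n ≤ P.M) : P.loc v (P.node v n) = n := by
  unfold node
  split_ifs with h1 h2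
  · simp [loc]
  · simp [loc, h2]
  · omega

theorem loc_node_top (v : P.Va) : P.loc v (P.node v (P.M + 1)) = 0 := by
  rw [node_top]; rfl

theorem loc_node_ne {v v' : P.Va} (h : v ≠ v') (n : ℕ) : P.loc v' (P.node v n) = 0 := by
  unfold node
  split_ifs with h1 h2
  · simp [loc, h]
  · rfl
  · rfl

theorem loc_hub (v : P.Va) (i : ℕ) : P.loc v (Sum.inl i) = 0 := rfl

/-- all valves satisfy the local invariant -/
def VInv (x : P.Vx) (H : Set (Sym2 P.Vx)) : Prop :=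
  ∀ v, LocInv P.M (fun m => P.pE v m ∈ H) (P.cE v ∈ H) (P.loc v x)

/-- edges of a valve -/
def ValveEdge (v : P.Va) (ε : Sym2 P.Vx) : Prop := (∃ m, m ≤ P.M ∧ ε = P.pE v m) ∨ ε = P.cE v

variable {P}

theorem pE_ins_pE {v : P.Va} {m m₀ : ℕ} (h : m ≤ P.M) (h₀ : m₀ ≤ P.M) (H : Set (Sym2 P.Vx)) :
    P.pE v m ∈ insert (P.pE v m₀) H ↔ m = m₀ ∨ P.pE v m ∈ H := by
  rw [Set.mem_insert_iff, P.pE_inj h h₀]
  simp

theorem cE_ins_pE (v v' : P.Va) (m₀ : ℕ) (H : Set (Sym2 P.Vx)) :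
    P.cE v ∈ insert (P.pE v' m₀) H ↔ P.cE v ∈ H := by
  rw [Set.mem_insert_iff]
  simp [P.cE_ne_pE]

theorem pE_ins_cE (v v' : P.Va) (m : ℕ) (H : Set (Sym2 P.Vx)) :
    P.pE v m ∈ insert (P.cE v') H ↔ P.pE v m ∈ H := by
  rw [Set.mem_insert_iff]
  simp [(P.cE_ne_pE v' v m).symm]

theorem pE_ins_tE (v : P.Va) {m : ℕ} (h : m ≤ P.M) (i j : ℕ) (H : Set (Sym2 P.Vx)) :
    P.pE v m ∈ insert (P.tE i j) H ↔ P.pE v m ∈ H := by
  rw [Set.mem_insert_iff]
  simp [P.pE_ne_tE v h]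

theorem cE_ins_tE (v : P.Va) (i j : ℕ) (H : Set (Sym2 P.Vx)) :
    P.cE v ∈ insert (P.tE i j) H ↔ P.cE v ∈ H := by
  rw [Set.mem_insert_iff]
  simp [P.cE_ne_tE]

theorem ValveEdge.pE_other {v v' : P.Va} {ε : Sym2 P.Vx} (hε : P.ValveEdge v ε) (hv : v' ≠ v)
    {m : ℕ} (h : m ≤ P.M) (H : Set (Sym2 P.Vx)) : P.pE v' m ∈ insert ε H ↔ P.pE v' m ∈ H := by
  rcases hε with ⟨m₀, h₀, rfl⟩ | rfl
  · rw [Set.mem_insert_iff, P.pE_inj h h₀]
    simp [hv]
  · exact pE_ins_cE _ _ _ _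

theorem ValveEdge.cE_other {v v' : P.Va} {ε : Sym2 P.Vx} (hε : P.ValveEdge v ε) (hv : v' ≠ v)
    (H : Set (Sym2 P.Vx)) : P.cE v' ∈ insert ε H ↔ P.cE v' ∈ H := by
  rcases hε with ⟨m₀, h₀, rfl⟩ | rfl
  · exact cE_ins_pE _ _ _ _
  · rw [Set.mem_insert_iff, P.cE_inj]
    simp [hv]

theorem ValveEdge.tE_mem {v : P.Va} {ε : Sym2 P.Vx} (hε : P.ValveEdge v ε) (i j : ℕ)
    (H : Set (Sym2 P.Vx)) : P.tE i j ∈ insert ε H ↔ P.tE i j ∈ H := by
  rw [Set.mem_insert_iff]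
  rcases hε with ⟨m₀, h₀, rfl⟩ | rfl
  · simp [(P.pE_ne_tE v h₀ i j).symm]
  · simp [(P.cE_ne_tE v i j).symm]

theorem VInv.step_valve {H : Set (Sym2 P.Vx)} {v : P.Va} {n n' : ℕ} {ε : Sym2 P.Vx}
    (h : P.VInv (P.node v n) H) (hε : P.ValveEdge v ε)
    (hv : LocInv P.M (fun m => P.pE v m ∈ insert ε H) (P.cE v ∈ insert ε H)
      (P.loc v (P.node v n'))) : P.VInv (P.node v n') (insert ε H) := by
  intro v'
  by_cases hvv : v' = v
  · subst hvv
    exact hv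
  · have := h v'
    rw [P.loc_node_ne (Ne.symm hvv)] at this ⊢
    exact this.congr P.hM (fun m hm => hε.pE_other hvv hm H) (hε.cE_other hvv H)

theorem s_down (v : P.Va) {n : ℕ} (h : 1 ≤ n) :
    s(P.node v n, P.node v (n - 1)) = P.pE v (n - 1) := by
  unfold pE
  rw [Sym2.eq_swap, Nat.sub_add_cancel h]

theorem s_chord (v : P.Va) : s(P.node v 3, P.node v 1) = P.cE v := by
  unfold cE
  rw [Sym2.eq_swap]

theorem all_node {v : P.Va} {n : ℕ} (hn : 1 ≤ n ∧ n ≤ P.M) {H : Set (Sym2 P.Vx)} :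
    (∀ u, P.G.Adj (P.node v n) u → s(P.node v n, u) ∈ H) ↔
      P.pE v (n - 1) ∈ H ∧ P.pE v n ∈ H ∧ ((n = 1 ∨ n = 3) → P.cE v ∈ H) := by
  simp only [P.adj_node v hn]
  constructor
  · intro h
    refine ⟨?_, h _ (Or.inr (Or.inl rfl)), ?_⟩
    · rw [← s_down v hn.1]
      exact h _ (Or.inl rfl)
    · rintro (rfl | rfl)
      · exact h _ (Or.inr (Or.inr (Or.inl ⟨rfl, rfl⟩)))
      · rw [← s_chord]
        exact h _ (Or.inr (Or.inr (Or.inr ⟨rfl, rfl⟩)))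
  · rintro ⟨h1, h2, h3⟩ u (rfl | rfl | ⟨rfl, rfl⟩ | ⟨rfl, rfl⟩)
    · rw [s_down v hn.1]
      exact h1
    · exact h2
    · exact h3 (Or.inl rfl)
    · rw [s_chord]
      exact h3 (Or.inr rfl)

theorem VInv.step {x w : P.Vx} {H : Set (Sym2 P.Vx)} (h : P.VInv x H)
    (hw : w ∈ allowed P.G x H) : P.VInv w (insert s(x, w) H) := by
  have hM := P.hM
  obtain ⟨hadj, hal⟩ := hw
  rcases x with j | ⟨v, n, hn⟩
  · rcases (P.adj_hub j w).1 hadj with ⟨v, rfl, rfl⟩ | ⟨v, rfl, rfl⟩ | ⟨i, _, rfl⟩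
    · rw [← P.node_zero] at h ⊢
      refine h.step_valve (ε := P.pE v 0) (Or.inl ⟨0, by omega, rfl⟩) ?_
      have := h v
      rw [P.loc_node v (by omega)] at this ⊢
      exact this.small_path hM (m₀ := 0) (by omega) (Or.inl ⟨rfl, rfl⟩) (fun a => absurd rfl a)
        (fun m hm => pE_ins_pE hm (by omega) H) (cE_ins_pE _ _ _ _)
    · rw [← P.node_top] at h ⊢
      have e1 : s(P.node v (P.M + 1), P.node v P.M) = P.pE v P.M := s_down v (n := P.M + 1) (by omega)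
      rw [e1]
      refine h.step_valve (Or.inl ⟨P.M, le_rfl, rfl⟩) ?_
      have := h v
      rw [P.loc_node_top] at this
      rw [P.loc_node v le_rfl]
      exact this.long_down hM (by omega) le_rfl (Or.inr ⟨rfl, rfl⟩) (fun a => absurd rfl a)
        (fun m hm => pE_ins_pE hm le_rfl H) (cE_ins_pE _ _ _ _)
    · intro v
      exact (h v).congr hM (fun m hm => pE_ins_tE v hm j i H) (cE_ins_tE v j i H)
  · rw [← P.node_inn v hn] at h hadj hal ⊢
    rw [all_node hn] at hal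
    have hv := h v
    rw [P.loc_node v hn.2] at hv
    rcases (P.adj_node v hn w).1 hadj with rfl | rfl | ⟨rfl, rfl⟩ | ⟨rfl, rfl⟩
    · rw [s_down v hn.1] at hal ⊢
      refine h.step_valve (Or.inl ⟨n - 1, by omega, rfl⟩) ?_
      rw [P.loc_node v (by omega)]
      by_cases h3 : n ≤ 3
      · exact hv.small_path hM (m₀ := n - 1) (by omega) (Or.inr ⟨by omega, rfl⟩) (fun _ => hal)
          (fun m hm => pE_ins_pE hm (by omega) H) (cE_ins_pE _ _ _ _)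
      · exact hv.long_down hM (by omega) (by omega) (Or.inl ⟨by omega, by omega⟩)
          (fun _ => hal.imp_right fun a => ⟨a.1, a.2.1⟩)
          (fun m hm => pE_ins_pE hm (by omega) H) (cE_ins_pE _ _ _ _)
    · refine h.step_valve (ε := P.pE v n) (Or.inl ⟨n, hn.2, rfl⟩) ?_
      by_cases h3 : n ≤ 2
      · rw [P.loc_node v (by omega)]
        exact hv.small_path hM (m₀ := n) h3 (Or.inl ⟨rfl, rfl⟩) (fun _ => hal)
          (fun m hm => pE_ins_pE hm (by omega) H) (cE_ins_pE _ _ _ _)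
      · refine hv.long_up hM (by omega) hn.2 ?_ (hal.imp_right fun a => ⟨a.1, a.2.1⟩)
          (fun m hm => pE_ins_pE hm hn.2 H) (cE_ins_pE _ _ _ _)
        by_cases h4 : n = P.M
        · right
          refine ⟨h4, ?_⟩
          rw [h4, P.loc_node_top]
        · left
          exact ⟨by omega, P.loc_node v (by omega)⟩
    · refine h.step_valve (ε := P.cE v) (Or.inr rfl) ?_
      rw [P.loc_node v (by omega)]
      exact hv.chord hM (Or.inl ⟨rfl, rfl⟩)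
        (hal.imp_right fun a => ⟨a.1, a.2.1, a.2.2 (Or.inl rfl)⟩)
        (fun m _ => pE_ins_cE _ _ _ _) (Set.mem_insert _ _)
    · rw [s_chord] at hal ⊢
      refine h.step_valve (Or.inr rfl) ?_
      rw [P.loc_node v (by omega)]
      exact hv.chord hM (Or.inr ⟨rfl, rfl⟩)
        (hal.imp_right fun a => ⟨a.1, a.2.1, a.2.2 (Or.inr rfl)⟩)
        (fun m _ => pE_ins_cE _ _ _ _) (Set.mem_insert _ _)

theorem VInv.init (P : Par) : P.VInv (Sum.inl 0) ∅ := fun v => by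
  simpa [P.loc_hub] using LocInv.init P.M

end Par

end Pool.Agent.H487Z
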