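import Pool.Agent.H487Z.Hub

set_option autoImplicit false
set_option linter.unusedSectionVars false

namespace Pool.Agent.H487Z

open scoped Classical

namespace Par

variable {P : Par}

theorem I_step (j : ℕ) : I (j + 1) + 1 / 150 * (17 / 18) ^ (j + 1) ≤ I j := by
  unfold I
  have : (0 : ℝ) ≤ (17 / 18) ^ j := by positivity
  rw [pow_succ]
  linarith

theorem drift_hub {k N j : ℕ} {H : Set (Sym2 P.Vx)} (hV : P.VInv (Sum.inl (j + 1)) H)
    (hF : P.Fr k H) (hN : j + 1 < N) :
    ∑ w ∈ alF P.G P.hfin (Sum.inl (j + 1)) H,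
      (P.Φf k N w (insert s(Sum.inl (j + 1), w) H) - P.Φf k N (Sum.inl (j + 1)) H) ≤ 0 := by
  have hM := P.hM
  have hl : ∀ v, LocInv P.M (fun m => P.pE v m ∈ H) (P.cE v ∈ H) 0 := hV
  -- the three groups of neighbours
  have eU : ∀ v ∈ P.fib (j + 1), s(Sum.inl (j + 1), P.node v 1) = P.pE v 0 ∧
      P.Φf k N (P.node v 1) (insert (P.pE v 0) H) - P.Φf k N (Sum.inl (j + 1)) H =
      P.T k (j + 1) (P.node v 1) (insert (P.pE v 0) H) - P.T k (j + 1) (P.node v 0) H := by
    intro v hv
    have h1 := P.mem_fib.1 hv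
    rw [← h1, ← P.node_zero]
    exact ⟨rfl, (vE v (by omega)).Φ_diff H (by omega) k _ _⟩
  have eD : ∀ v ∈ P.fib j, s(Sum.inl (j + 1), P.node v P.M) = P.pE v P.M ∧
      P.Φf k N (P.node v P.M) (insert (P.pE v P.M) H) - P.Φf k N (Sum.inl (j + 1)) H =
      P.T k j (P.node v P.M) (insert (P.pE v P.M) H) - P.T k j (P.node v (P.M + 1)) H := by
    intro v hv
    have h1 := P.mem_fib.1 hv
    rw [← h1, ← P.node_top]
    exact ⟨s_down v (n := P.M + 1) (by omega), (vE v le_rfl).Φ_diff H (by omega) k _ _⟩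
  have hW : 0 ≤ P.W * (17 / 16) ^ (j + 1) := mul_nonneg P.hW0 (by positivity)
  by_cases hall : ∀ u, P.G.Adj (Sum.inl (j + 1)) u → s(Sum.inl (j + 1), u) ∈ H
  · -- simple random walk step
    have aU : ∀ v ∈ P.fib (j + 1), P.pE v 0 ∈ H := fun v hv => by
      rw [← (eU v hv).1]
      exact hall _ ((P.adj_hub _ _).2 (Or.inl ⟨v, P.mem_fib.1 hv, rfl⟩))
    have aD : ∀ v ∈ P.fib j, P.pE v P.M ∈ H := fun v hv => by
      rw [← (eD v hv).1]
      exact hall _ ((P.adj_hub _ _).2 (Or.inr (Or.inl ⟨v, by rw [P.mem_fib.1 hv], rfl⟩)))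
    have aT : ∀ i ∈ P.nb (j + 1), P.tE (j + 1) i ∈ H := fun i hi =>
      hall _ ((P.adj_hub _ _).2 (Or.inr (Or.inr ⟨i, hi, rfl⟩)))
    have hjk : j < k := by
      by_contra hc
      have h1 := hF.D_ge (not_lt.1 hc)
      have h2 : P.D j H = 0 := Finset.sum_eq_zero fun v hv => ind_neg fun a => a.2 (aD v hv)
      linarith
    have hfull : P.full j H := by
      intro v hv
      have h1 := aD v (P.mem_fib.2 hv)
      refine ⟨?_, h1⟩
      by_contra h3
      have := ((hl v).tdown h3 h1).1
      omega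
    rw [P.sum_alF_all hall, P.sum_nbF_hub]
    have s1 : ∑ v ∈ P.fib (j + 1), (P.Φf k N (P.node v 1)
        (insert s(Sum.inl (j + 1), P.node v 1) H) - P.Φf k N (Sum.inl (j + 1)) H) ≤ I (j + 1) := by
      rw [Finset.sum_congr rfl fun v hv => by rw [(eU v hv).1, (eU v hv).2]]
      rcases Nat.lt_or_ge (j + 1) k with h | h
      · calc _ ≤ ∑ _v ∈ P.fib (j + 1), I (j + 1) / P.e (j + 1) := by
              refine Finset.sum_le_sum fun v hv => ?_
              have h1 := P.mem_fib.1 hv
              rw [T_low h, T_low h, Set.insert_eq_of_mem (aU v hv), ← h1]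
              have h3 : 0 ≤ I v.1 / P.e v.1 :=
                div_nonneg (by linarith [one_le_I v.1]) (P.e_pos' v.1).le
              unfold LC
              by_cases hf : P.full v.1 H
              · rw [Low_full hf (by omega), Low_full hf (by omega), h_zero, h_one]
                have := P.R_pos
                apply le_of_eq
                field_simp
                ring
              · unfold Low
                rw [if_neg hf, if_neg hf]
                linarith
          _ = _ := by
              rw [Finset.sum_const, card_fib, nsmul_eq_mul]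
              have := P.e_pos' (j + 1)
              field_simp
      · obtain rfl : k = j + 1 := by omega
        have hF0 : P.F (j + 1) H = 0 :=
          Finset.sum_eq_zero fun v hv => ind_neg fun a => a.2 (aU v hv)
        have h1 := enter_sum (κ := 5) (by norm_num) (hF _ le_rfl) hl (by rw [hF0, mul_zero])
          (fun _ => True)
        refine le_trans (le_of_eq ?_) (h1.trans (by linarith [one_le_I (j + 1)]))
        refine Finset.sum_congr rfl fun v hv => ?_
        rw [T_eq, T_eq, ind_true, one_mul, Set.insert_eq_of_mem (aU v hv)]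
        ring
    have s2 : ∑ v ∈ P.fib j, (P.Φf k N (P.node v P.M)
        (insert s(Sum.inl (j + 1), P.node v P.M) H) - P.Φf k N (Sum.inl (j + 1)) H) = - I j := by
      rw [Finset.sum_congr rfl fun v hv => by rw [(eD v hv).1, (eD v hv).2]]
      calc _ = ∑ _v ∈ P.fib j, - (I j / P.e j) := by
            refine Finset.sum_congr rfl fun v hv => ?_
            obtain rfl := P.mem_fib.1 hv
            rw [T_low hjk, T_low hjk, Set.insert_eq_of_mem (aD v hv)]
            unfold LC
            rw [Low_full hfull (by omega), Low_full hfull le_rfl, h_top, P.h_big (by omega)]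
            have h1 := P.R_pos
            have h2 : (P.M : ℝ) = P.R + 1 / 3 := by unfold R; ring
            rw [h2]
            field_simp
            ring
        _ = _ := by
            rw [Finset.sum_const, card_fib, nsmul_eq_mul]
            have := P.e_pos' j
            field_simp
    have s3 : ∑ i ∈ P.nb (j + 1), (P.Φf k N (Sum.inl i)
        (insert s(Sum.inl (j + 1), Sum.inl i) H) - P.Φf k N (Sum.inl (j + 1)) H) ≤
        1 / 150 * (17 / 18) ^ (j + 1) := by
      calc _ ≤ ∑ i ∈ P.nb (j + 1), P.τ (j + 1) * ((i - (j + 1) : ℕ) : ℝ) := by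
            refine Finset.sum_le_sum fun i hi => ?_
            have h1 := thin_Φ hF hN i
            rw [Set.insert_eq_of_mem (aT i hi), sub_self, ite_self, add_zero,
              min_eq_left (by omega)] at h1
            have h2 : insert s(Sum.inl (j + 1), Sum.inl i) H = H := Set.insert_eq_of_mem (aT i hi)
            rw [h2]
            exact h1
        _ ≤ _ := by
            rw [← Finset.mul_sum]
            exact (mul_le_mul_of_nonneg_left (P.hw _) (P.τ_nonneg _)).trans (P.τ_W _)
    linarith [I_step j]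
  · -- greedy step
    rw [P.sum_alF_greedy hall, P.sum_nbF_hub,
      Finset.sum_congr rfl fun v hv => by rw [(eU v hv).1, (eU v hv).2],
      Finset.sum_congr (s₁ := P.fib j) rfl fun v hv => by rw [(eD v hv).1, (eD v hv).2]]
    rcases Nat.lt_or_ge j k with hjk | hjk
    · refine add_nonpos (add_nonpos ?_ ?_) ?_
      · refine Finset.sum_nonpos fun v hv => ind_mul_nonpos fun hn => ?_
        have h1 := P.mem_fib.1 hv
        rcases Nat.lt_or_ge (j + 1) k with h | h
        · rw [T_low h, T_low h, ← h1]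
          exact sub_nonpos.2 (LC_small (Or.inl rfl) hn (by omega) (by omega)
            (h_step (by omega) (by omega) (by omega)))
        · obtain rfl : k = j + 1 := by omega
          rw [← h1] at hF ⊢
          exact enter_frontier hF (hl v) hn
      · refine Finset.sum_nonpos fun v hv => ind_mul_nonpos fun hn => ?_
        rw [T_low hjk, T_low hjk]
        exact sub_nonpos.2 (LC_notfull (fun a => hn (a v (P.mem_fib.1 hv)).2)
          (Set.subset_insert _ _) _ _)
      · refine Finset.sum_nonpos fun i hi => ind_mul_nonpos fun hn => ?_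
        have h1 := thin_Φ hF hN i
        rw [min_eq_left (by omega), if_pos (by omega)] at h1
        have h2 := thin_Cred hi hn
        exact le_trans h1 (by linarith)
    · have hlam : (0 : ℝ) < (9 / 8) ^ (j - k) := by positivity
      have s1 : ∑ v ∈ P.fib (j + 1), ind (P.pE v 0 ∉ H) * (P.T k (j + 1) (P.node v 1)
          (insert (P.pE v 0) H) - P.T k (j + 1) (P.node v 0) H) ≤
          (9 / 8) ^ (j - k) * (9 / 8 * (833 / 1000)) := by
        have h1 := enter_sum (κ := 0) le_rfl (hF (j + 1) (by omega)) hl (zero_mul _)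
          (fun v => P.pE v 0 ∉ H)
        have h2 := mul_le_mul_of_nonneg_left h1 (show (0 : ℝ) ≤ (9 / 8) ^ (j + 1 - k) by positivity)
        rw [Finset.mul_sum] at h2
        rw [← mul_assoc, ← pow_succ, show j - k + 1 = j + 1 - k by omega]
        refine le_trans (le_of_eq (Finset.sum_congr rfl fun v _ => ?_)) h2
        rw [T_high (by omega), T_high (by omega)]
        ring
      have s2 : ∑ v ∈ P.fib j, ind (P.pE v P.M ∉ H) * (P.T k j (P.node v P.M)
          (insert (P.pE v P.M) H) - P.T k j (P.node v (P.M + 1)) H) ≤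
          (9 / 8) ^ (j - k) * (- 97 / 100) := by
        rcases Nat.eq_or_lt_of_le hjk with h | h
        · subst h
          rw [Nat.sub_self, pow_zero, one_mul]
          refine le_trans (Finset.sum_le_sum fun v _ => ?_)
            (descend_sum (κ := 5) (hF.D_ge le_rfl) hl)
          refine mul_le_mul_of_nonneg_left ?_ (ind_nonneg _)
          rw [T_eq, T_eq]
          linarith [P.Cred_mono (Set.subset_insert (P.pE v P.M) H) k]
        · have h2 := mul_le_mul_of_nonneg_left (descend_sum (κ := 0) (hF.D_ge hjk) hl) hlam.le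
          rw [Finset.mul_sum] at h2
          refine le_trans (le_of_eq (Finset.sum_congr rfl fun v _ => ?_)) h2
          rw [T_high h, T_high h]
          ring
      have s3 : ∑ i ∈ P.nb (j + 1), ind (s(Sum.inl (j + 1), Sum.inl i) ∉ H) *
          (P.Φf k N (Sum.inl i) (insert s(Sum.inl (j + 1), Sum.inl i) H) -
            P.Φf k N (Sum.inl (j + 1)) H) ≤ (9 / 8) ^ (j - k) * (1 / 100) := by
        calc _ ≤ ∑ i ∈ P.nb (j + 1), P.τ k * ((i - (j + 1) : ℕ) : ℝ) := by
              refine Finset.sum_le_sum fun i hi => ?_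
              have h1 := thin_Φ hF hN i
              rw [if_neg (by omega), add_zero, min_eq_right (by omega)] at h1
              have h2 : 0 ≤ P.τ k * ((i - (j + 1) : ℕ) : ℝ) :=
                mul_nonneg (P.τ_nonneg _) (Nat.cast_nonneg _)
              by_cases hq : s(Sum.inl (j + 1), Sum.inl i) ∉ H
              · rw [ind_pos hq, one_mul]; exact h1
              · rw [ind_neg hq, zero_mul]; exact h2
          _ ≤ P.τ k * (P.W * (17 / 16) ^ (j + 1)) := by
              rw [← Finset.mul_sum]
              exact mul_le_mul_of_nonneg_left (P.hw _) (P.τ_nonneg _)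
          _ = (9 / 8) ^ (j - k) * (9 / 8 * (P.τ (j + 1) * (P.W * (17 / 16) ^ (j + 1)))) := by
              have h1 : P.τ k = (9 / 8) ^ (j - k) * (9 / 8 * P.τ (j + 1)) := by
                have := P.E_pos
                have h2 : ((9 : ℝ) / 8) ^ (j + 1) = (9 / 8) ^ (j - k) * (9 / 8) * (9 / 8) ^ k := by
                  rw [← pow_succ, ← pow_add]
                  congr 1
                  omega
                unfold τ
                rw [h2]
                field_simp
              rw [h1]
              ring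
          _ ≤ _ := by
              refine mul_le_mul_of_nonneg_left ?_ hlam.le
              have h1 := P.τ_W (j + 1)
              have h5 : (17 / 18 : ℝ) ^ (j + 1) ≤ 1 := pow_le_one₀ (by norm_num) (by norm_num)
              linarith
      nlinarith

theorem drift {k N : ℕ} {x : P.Vx} {H : Set (Sym2 P.Vx)} (hV : P.VInv x H) (hF : P.Fr k H)
    (hN : P.lev x < N) (hx : x ≠ Sum.inl 0) :
    ∑ w ∈ alF P.G P.hfin x H, (P.Φf k N w (insert s(x, w) H) - P.Φf k N x H) ≤ 0 := by
  rcases x with j | ⟨v, n, hn⟩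
  · obtain ⟨i, rfl⟩ : ∃ i, j = i + 1 := ⟨j - 1, by
      have : j ≠ 0 := fun a => hx (by rw [a])
      omega⟩
    exact drift_hub hV hF hN
  · rw [← P.node_inn v hn] at hV ⊢
    exact drift_inner hn hV hF hN

theorem T_nonneg {k j : ℕ} {H : Set (Sym2 P.Vx)} (hD : k ≤ j → 1 < P.D j H) (x : P.Vx) :
    0 ≤ P.T k j x H := by
  rcases lt_trichotomy j k with h | h | h
  · rw [T_low h]
    exact add_nonneg (P.Low_nonneg _ _ _) (P.Cred_nonneg _ _)
  · subst h
    rw [T_eq]
    exact add_nonneg (P.Up_nonneg (by norm_num) (hD le_rfl) x) (P.Cred_nonneg _ _)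
  · rw [T_high h]
    exact mul_nonneg (by positivity) (P.Up_nonneg le_rfl (hD h.le) x)

theorem jump {k j N : ℕ} {H : Set (Sym2 P.Vx)} (hkj : k ≤ j) (hN : j + 1 < N)
    (hD : ∀ i, k ≤ i → 2 ≤ P.D i H) (hj : P.D j H ≤ P.δ * P.e j) (x : P.Vx) :
    P.Φf (j + 1) N x H ≤ P.Φf k N x H := by
  have hD1 : ∀ i, k ≤ i → 1 < P.D i H := fun i hi => by linarith [hD i hi]
  have key : ∀ i, P.T (j + 1) i x H - P.T k i x H ≤
      (if k ≤ i ∧ i < j + 2 then 19 else 0) - (if i = j then (9 / 8) ^ (j - k) * 200 else 0) := by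
    intro i
    rcases Nat.lt_or_ge i k with h | h
    · rw [T_low h, T_low (by omega), if_neg (by omega), if_neg (by omega)]
      simp
    rcases lt_trichotomy i (j + 1) with h' | h' | h'
    · rw [T_low h', if_pos (by omega)]
      have h1 : P.LC i x H ≤ 10 := by
        unfold LC
        linarith [P.Low_le_one i x H, P.Cred_le i H]
      split_ifs with hij
      · subst hij
        have h2 : 200 ≤ 1 / 50 * Real.log (P.e i / P.D i H) := by
          have h3 : 1 / P.δ ≤ P.e i / P.D i H := by
            rw [div_le_div_iff₀ P.hδ0 (by linarith [hD1 i h])]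
            linarith
          have h4 := Real.log_le_log (one_div_pos.2 P.hδ0) h3
          linarith [P.hδ]
        rcases Nat.eq_or_lt_of_le h with e | e
        · subst e
          rw [T_eq, Nat.sub_self, pow_zero]
          linarith [P.Up_ge (κ := 5) (by norm_num) (hD1 k le_rfl) x, P.Cred_nonneg k H]
        · rw [T_high e]
          have h5 := mul_le_mul_of_nonneg_left (h2.trans (P.Up_ge (κ := 0) le_rfl (hD1 i h) x))
            (show (0 : ℝ) ≤ (9 / 8) ^ (i - k) by positivity)
          linarith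
      · linarith [T_nonneg (k := k) (hD1 i) x]
    · subst h'
      rw [T_eq, T_high (by omega), if_pos (by omega), if_neg (by omega)]
      have h1 := P.Up_five_le (hD _ h) x
      have h2 := P.Cred_le (j + 1) H
      have h3 := P.Up_nonneg (κ := 0) le_rfl (hD1 _ h) x
      have h4 : (1 : ℝ) ≤ (9 / 8) ^ (j + 1 - k) := one_le_pow₀ (by norm_num)
      nlinarith
    · rw [T_high h', T_high (by omega), if_neg (by omega), if_neg (by omega)]
      have h3 := P.Up_nonneg (κ := 0) le_rfl (hD1 _ h) x
      have h4 : ((9 : ℝ) / 8) ^ (i - (j + 1)) ≤ (9 / 8) ^ (i - k) :=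
        pow_le_pow_right₀ (by norm_num) (by omega)
      nlinarith
  have h1 : ∑ i ∈ Finset.range N, (P.T (j + 1) i x H - P.T k i x H) ≤
      19 * ((j - k : ℕ) + 2) - (9 / 8) ^ (j - k) * 200 := by
    refine (Finset.sum_le_sum fun i _ => key i).trans ?_
    rw [Finset.sum_sub_distrib, Finset.sum_ite_eq' , if_pos (Finset.mem_range.2 (by omega)),
      ← Finset.sum_filter, Finset.sum_const, nsmul_eq_mul, mul_comm]
    have h2 : ((Finset.range N).filter fun l => k ≤ l ∧ l < j + 2) ⊆ Finset.Ico k (j + 2) := by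
      intro l hl
      exact Finset.mem_Ico.2 (Finset.mem_filter.1 hl).2
    have h3 := Finset.card_le_card h2
    rw [Nat.card_Ico, show j + 2 - k = j - k + 2 by omega] at h3
    have h4 : (((Finset.range N).filter fun l => k ≤ l ∧ l < j + 2).card : ℝ) ≤
      (j - k : ℕ) + 2 := by exact_mod_cast h3
    linarith
  have h2 : 1 + ((j - k : ℕ) : ℝ) * (1 / 8) ≤ (9 / 8) ^ (j - k) := by
    have := one_add_mul_le_pow (a := (1 / 8 : ℝ)) (by norm_num) (j - k)
    norm_num at this ⊢
    linarith
  have h3 : ((j - k : ℕ) : ℝ) = j - k := by rw [Nat.cast_sub hkj]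
  have h4 : (0 : ℝ) ≤ (j - k : ℕ) := Nat.cast_nonneg _
  unfold Φf
  rw [Finset.sum_sub_distrib] at h1
  push_cast
  linarith

theorem D_full {j : ℕ} {H : Set (Sym2 P.Vx)} (h : ∀ v : P.Va, v.1 = j → P.tn v H) :
    P.D j H = P.e j := by
  unfold D
  rw [Finset.sum_congr rfl fun v hv => ind_pos (h v (P.mem_fib.1 hv))]
  simp [card_fib]

theorem Φ_ext {k N N' : ℕ} {x : P.Vx} {H : Set (Sym2 P.Vx)} (hk : k < N) (hx : P.lev x < N)
    (hu : ∀ v : P.Va, N ≤ v.1 → P.tn v H) (hN : N ≤ N') : P.Φf k N' x H = P.Φf k N x H := by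
  unfold Φf
  congr 1
  symm
  refine Finset.sum_subset (Finset.range_subset_range.2 hN) fun j _ hj => ?_
  have hj' : N ≤ j := by simpa using hj
  rw [T_high (by omega)]
  unfold Up Psi
  rw [P.rel_of_lev_lt (by omega), D_full fun v hv => hu v (by omega),
    div_self (P.e_pos' j).ne']
  simp

/-- the frontier -/
noncomputable def kk (P : Par) (H : Set (Sym2 P.Vx)) : ℕ := sInf {k | P.Fr k H}

theorem Fr_of_untouched {N : ℕ} {H : Set (Sym2 P.Vx)} (hu : ∀ v : P.Va, N ≤ v.1 → P.tn v H) :
    P.Fr N H := by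
  intro j hj
  rw [D_full fun v hv => hu v (by omega)]
  nlinarith [P.δ_lt, P.e_pos' j]

/-- bound for the levels of the neighbours -/
noncomputable def bd (P : Par) (x : P.Vx) : ℕ := (P.nbF x).sup P.lev + 1

/-- good states -/
def Good (P : Par) (s : P.Vx × Set (Sym2 P.Vx) × ℕ) : Prop :=
  P.VInv s.1 s.2.1 ∧ P.lev s.1 < s.2.2 ∧ ∀ v : P.Va, s.2.2 ≤ v.1 → P.tn v s.2.1

theorem lev_node_ge (v : P.Va) (n : ℕ) : v.1 ≤ P.lev (P.node v n) := by
  unfold node
  split_ifs <;> simp [lev]

theorem tn_step {x w : P.Vx} {H : Set (Sym2 P.Vx)} {v : P.Va} (hx : P.lev x < v.1)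
    (h : P.tn v H) : P.tn v (insert s(x, w) H) := by
  have key : ∀ m, P.pE v m ≠ s(x, w) := by
    intro m he
    unfold pE at he
    rw [Sym2.eq_iff] at he
    rcases he with ⟨h1, _⟩ | ⟨_, h1⟩
    · have := lev_node_ge v m
      rw [h1] at this
      omega
    · have := lev_node_ge v (m + 1)
      rw [h1] at this
      omega
  exact ⟨fun a => a.elim (key 3) h.1, fun a => a.elim (key _) h.2⟩

theorem Good.Fr {s : P.Vx × Set (Sym2 P.Vx) × ℕ} (h : P.Good s) : P.Fr (P.kk s.2.1) s.2.1 :=
  Nat.sInf_mem (s := {k | P.Fr k s.2.1}) ⟨_, Fr_of_untouched h.2.2⟩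

theorem Good.kk_le {s : P.Vx × Set (Sym2 P.Vx) × ℕ} (h : P.Good s) : P.kk s.2.1 ≤ s.2.2 :=
  Nat.sInf_le (s := {k | P.Fr k s.2.1}) (Fr_of_untouched h.2.2)

theorem Good.step {s : P.Vx × Set (Sym2 P.Vx) × ℕ} (h : P.Good s) {w : P.Vx}
    (hw : w ∈ allowed P.G s.1 s.2.1) :
    P.Good (w, insert s(s.1, w) s.2.1, s.2.2 + P.bd s.1) := by
  refine ⟨h.1.step hw, ?_, fun v hv => tn_step ?_ (h.2.2 v ?_)⟩
  · have := Finset.le_sup (f := P.lev) (P.mem_nbF.2 hw.1)
    unfold bd
    dsimp only
    omega
  · have := h.2.1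
    dsimp only at hv
    omega
  · dsimp only at hv
    omega

/-- vertices of bounded level -/
theorem finite_lev (P : Par) (K : ℕ) : {x : P.Vx | P.lev x ≤ K}.Finite := by
  have h1 : {x : P.Vx | P.lev x ≤ K} ⊆ ↑(((Finset.range (K + 1)).image Sum.inl) ∪
      ((Finset.range (K + 1)).biUnion fun j => ((P.fib j) ×ˢ (Finset.range (P.M + 1))).image
        fun p => P.node p.1 p.2)) := by
    rintro (i | ⟨v, n, hn⟩) hx
    · simp only [lev, Set.mem_ofPred_eq] at hx
      simp only [Finset.coe_union, Set.mem_union, Finset.mem_coe]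
      exact Or.inl (Finset.mem_image.2 ⟨i, Finset.mem_range.2 (by omega), rfl⟩)
    · simp only [lev, Set.mem_ofPred_eq] at hx
      simp only [Finset.coe_union, Set.mem_union, Finset.mem_coe]
      refine Or.inr (Finset.mem_biUnion.2 ⟨v.1, Finset.mem_range.2 (by omega),
        Finset.mem_image.2 ⟨(v, n), Finset.mem_product.2
          ⟨P.mem_fib.2 rfl, Finset.mem_range.2 (by omega)⟩, P.node_inn v hn⟩⟩)
  exact (Finset.finite_toSet _).subset h1

theorem Φ_lower {k N : ℕ} {x : P.Vx} {H : Set (Sym2 P.Vx)} (hF : P.Fr k H) (hN : P.lev x ≤ N) :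
    k + ((P.lev x - k : ℕ) : ℝ) * (1 / (2 * P.E * (9 / 8) ^ k)) ≤ P.Φf k N x H := by
  have hD1 : ∀ i, k ≤ i → 1 < P.D i H := fun i hi => by linarith [hF.D_ge hi]
  have hE := P.E_pos
  unfold Φf
  refine add_le_add le_rfl ?_
  calc _ = ∑ _i ∈ Finset.Ico k (P.lev x), 1 / (2 * P.E * (9 / 8) ^ k) := by
        rw [Finset.sum_const, Nat.card_Ico, nsmul_eq_mul]
    _ ≤ ∑ i ∈ Finset.Ico k (P.lev x), P.T k i x H := by
        refine Finset.sum_le_sum fun i hi => ?_
        obtain ⟨h1, h2⟩ := Finset.mem_Ico.1 hi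
        have hUp : ∀ κ : ℝ, 0 ≤ κ → 1 / (2 * P.E * (9 / 8) ^ k) ≤
            (9 / 8) ^ (i - k) * P.Up κ i x H := by
          intro κ hκ
          have h3 : 1 / P.D i H ≤ P.Up κ i x H := by
            unfold Up Psi
            rw [P.rel_of_lt_lev h2]
            have h4 := P.log_nonneg (hD1 i h1)
            have h5 : 0 ≤ κ * P.F i H / P.D i H := by
              have := P.F_nonneg i H
              have := P.D_nonneg i H
              positivity
            linarith
          refine le_trans ?_ (mul_le_mul_of_nonneg_left h3 (by positivity))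
          rw [mul_one_div, div_le_div_iff₀ (by positivity) (by linarith [hD1 i h1])]
          have h6 : ((9 : ℝ) / 8) ^ (i - k) * (2 * P.E * (9 / 8) ^ k) = 2 * P.E * (9 / 8) ^ i := by
            rw [mul_left_comm, ← pow_add, Nat.sub_add_cancel h1]
          rw [h6]
          linarith [P.D_le_e i H, P.he2 i]
        rcases Nat.eq_or_lt_of_le h1 with e | e
        · subst e
          have := hUp 5 (by norm_num)
          rw [Nat.sub_self, pow_zero, one_mul] at this
          rw [T_eq]
          linarith [P.Cred_nonneg k H]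
        · rw [T_high e]
          exact hUp 0 le_rfl
    _ ≤ _ := by
        refine Finset.sum_le_sum_of_subset_of_nonneg ?_ fun i _ _ => T_nonneg (hD1 i) x
        intro i hi
        have := (Finset.mem_Ico.1 hi).2
        exact Finset.mem_range.2 (by omega)

/-- the Lyapunov system -/
noncomputable def lyap (P : Par) :
    Lyap P.G P.hfin (Sum.inl 0) (P.Vx × Set (Sym2 P.Vx) × ℕ) where
  pos s := s.1
  cr s := s.2.1
  nxt s w := (w, insert s(s.1, w) s.2.1, s.2.2 + P.bd s.1)
  Good := P.Good
  Φ s := P.Φf (P.kk s.2.1) (s.2.2 + 1) s.1 s.2.1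
  s₀ := (Sum.inl 0, ∅, 1)
  pos₀ := rfl
  cr₀ := rfl
  good₀ := ⟨VInv.init P, Nat.zero_lt_one, fun _ _ => ⟨id, id⟩⟩
  pos_nxt _ _ := rfl
  cr_nxt _ _ := rfl
  good_nxt _ _ h hw := h.step hw
  nonneg s h := by
    refine le_trans ?_ (Φ_lower h.Fr (by have := h.2.1; omega))
    have := P.E_pos
    positivity
  super s h hs := by
    have hF := h.Fr
    have hk := h.kk_le
    have hl := h.2.1
    refine le_trans (Finset.sum_le_sum fun w hw => ?_)
      (drift (N := s.2.2 + P.bd s.1 + 1) h.1 hF (by omega) hs)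
    have hg := h.step ((mem_alF _ _).1 hw)
    have hk' := hg.kk_le
    have hF' := hg.Fr
    dsimp only at hk' hF' ⊢
    rw [Φ_ext (N := s.2.2 + 1) (N' := s.2.2 + P.bd s.1 + 1) (x := s.1) (by omega) (by omega)
      (fun v hv => h.2.2 v (by omega)) (by omega)]
    refine sub_le_sub_right ?_ _
    have hle : P.kk s.2.1 ≤ P.kk (insert s(s.1, w) s.2.1) :=
      Nat.sInf_le (s := {k | P.Fr k s.2.1}) fun j hj =>
        (hF' j hj).trans_le (D_mono (Set.subset_insert _ _) j)
    rcases Nat.eq_or_lt_of_le hle with e | e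
    · rw [← e]
    · obtain ⟨j, hj⟩ : ∃ j, P.kk (insert s(s.1, w) s.2.1) = j + 1 :=
        ⟨P.kk (insert s(s.1, w) s.2.1) - 1, by omega⟩
      have hnot : ¬ P.Fr j (insert s(s.1, w) s.2.1) := fun a => by
        have := Nat.sInf_le (s := {k | P.Fr k (insert s(s.1, w) s.2.1)}) a
        unfold kk at hj
        omega
      rw [hj] at hF' hk' ⊢
      refine jump (by omega) (by omega) (fun i hi => ?_) ?_ w
      · linarith [hF.D_ge hi, D_insert_ge i s.2.1 s(s.1, w)]
      · by_contra hc
        refine hnot fun i hi => ?_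
        rcases Nat.eq_or_lt_of_le hi with e' | e'
        · rw [← e']
          exact not_le.1 hc
        · exact hF' i e'
  proper A := by
    have hE := P.E_pos
    obtain ⟨K, hK⟩ := exists_nat_ge A
    obtain ⟨K', hK'⟩ := exists_nat_ge (A * (2 * P.E * (9 / 8) ^ K))
    refine ⟨(P.finite_lev (K + K')).toFinset, fun s h hA => ?_⟩
    rw [Set.Finite.mem_toFinset]
    have h1 := Φ_lower (N := s.2.2 + 1) (x := s.1) h.Fr (by have := h.2.1; omega)
    have h2 : 0 ≤ ((P.lev s.1 - P.kk s.2.1 : ℕ) : ℝ) * (1 / (2 * P.E * (9 / 8) ^ P.kk s.2.1)) := by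
      positivity
    have h3 : P.kk s.2.1 ≤ K := by
      have : (P.kk s.2.1 : ℝ) ≤ K := by linarith
      exact_mod_cast this
    have h4 : ((P.lev s.1 - P.kk s.2.1 : ℕ) : ℝ) * (1 / (2 * P.E * (9 / 8) ^ P.kk s.2.1)) ≤ A := by
      have : (0 : ℝ) ≤ P.kk s.2.1 := Nat.cast_nonneg _
      linarith
    rw [mul_one_div, div_le_iff₀ (by positivity)] at h4
    have h5 : A * (2 * P.E * (9 / 8) ^ P.kk s.2.1) ≤ A * (2 * P.E * (9 / 8) ^ K) := by
      have hA0 : 0 ≤ A := by
        have : (0 : ℝ) ≤ P.kk s.2.1 := Nat.cast_nonneg _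
        linarith
      gcongr
      norm_num
    have h6 : P.lev s.1 - P.kk s.2.1 ≤ K' := by
      have : ((P.lev s.1 - P.kk s.2.1 : ℕ) : ℝ) ≤ K' := by linarith
      exact_mod_cast this
    change P.lev s.1 ≤ K + K'
    omega

theorem recurrent (P : Par) : GRWRecurrent P.G (Sum.inl 0) :=
  P.lyap.recurrent P.conn P.hne

end Par

end Pool.Agent.H487Z
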