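import Pool.Agent.H487Z.Main

set_option autoImplicit false
set_option linter.unusedSectionVars false

namespace Pool.Agent.H487Z

open scoped Classical

theorem exists_par (nb : ℕ → Finset ℕ) (nb_symm : ∀ i j, i ∈ nb j → j ∈ nb i)
    (nb_irr : ∀ j, j ∉ nb j) (W : ℝ) (hW0 : 0 ≤ W)
    (hw : ∀ j, (∑ i ∈ nb j, ((i - j : ℕ) : ℝ)) ≤ W * (17 / 16) ^ j) :
    ∃ P : Par, P.nb = nb := by
  obtain ⟨δ, hδ0, hδ⟩ : ∃ δ : ℝ, 0 < δ ∧ 10000 ≤ Real.log (1 / δ) :=
    ⟨1 / Real.exp 10000, by positivity, by rw [one_div_one_div, Real.log_exp]⟩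
  obtain ⟨M₀, hM₀⟩ := exists_nat_ge (200 / δ)
  have hR : (0 : ℝ) ≤ ((M₀ + 4 : ℕ) : ℝ) - 1 / 3 := by
    push_cast
    have : (0 : ℝ) ≤ M₀ := Nat.cast_nonneg _
    linarith
  set R : ℝ := ((M₀ + 4 : ℕ) : ℝ) - 1 / 3 with hRdef
  set E : ℝ := 1 + 102 / δ + 2 * R + 300 * R * W with hE
  have h1 : 0 ≤ 102 / δ := by positivity
  have h2 : 0 ≤ 300 * R * W := by positivity
  have hE1 : 1 ≤ E := by linarith
  refine ⟨⟨fun j => ⌈E * (9 / 8) ^ j⌉₊, M₀ + 4, nb, E, W, δ, by omega, nb_symm, nb_irr,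
    fun j => Nat.le_ceil _, fun j => ?_, hδ0, hδ, ?_, ?_, by linarith, hW0,
    by rw [← hRdef]; linarith, hw⟩, rfl⟩
  · have h3 : (1 : ℝ) ≤ E * (9 / 8) ^ j :=
      one_le_mul_of_one_le_of_one_le hE1 (one_le_pow₀ (by norm_num))
    have h4 := Nat.ceil_lt_add_one (show (0 : ℝ) ≤ E * (9 / 8) ^ j by linarith)
    linarith
  · rw [div_le_iff₀ hδ0] at hM₀
    push_cast
    nlinarith
  · have h3 : δ * (102 / δ) = 102 := by field_simp
    have h4 : 102 / δ ≤ E := by linarith
    nlinarith [mul_le_mul_of_nonneg_left h4 hδ0.le]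

theorem edgeBoundary_finite {V : Type} (G : SimpleGraph V) (hfin : ∀ v, (G.neighborSet v).Finite)
    (S : Finset V) : (edgeBoundary G S).Finite := by
  refine (S.finite_toSet.biUnion fun a _ => (hfin a).image fun b => s(a, b)).subset ?_
  rintro ε ⟨a, b, hab, ha, _, rfl⟩
  exact Set.mem_biUnion ha ⟨b, hab, rfl⟩

namespace Par

variable {P : Par}

/-- a valve is split by `S` -/
def Split (P : Par) (S : Finset P.Vx) (v : P.Va) : Prop :=
  ∃ n, n ≤ P.M ∧ P.pE v n ∈ edgeBoundary P.G S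

theorem not_split {S : Finset P.Vx} {v : P.Va} (h : ¬ P.Split S v) :
    ∀ n, n ≤ P.M + 1 → (P.node v n ∈ S ↔ P.node v 0 ∈ S) := by
  intro n
  induction n with
  | zero => intro _; rfl
  | succ n ih =>
    intro hn
    rw [← ih (by omega)]
    have hadj := P.adj_succ v (n := n) (by omega)
    constructor
    · intro a
      by_contra b
      exact h ⟨n, by omega, _, _, hadj.symm, a, b, Sym2.eq_swap⟩
    · intro a
      by_contra b
      exact h ⟨n, by omega, _, _, hadj, a, b, rfl⟩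

theorem card_split_le {S : Finset P.Vx} {A : Finset P.Va} (h : ∀ v ∈ A, P.Split S v) :
    A.card ≤ (edgeBoundary P.G S).ncard := by
  choose! f hf1 hf2 using h
  rw [← Set.ncard_coe_finset]
  refine Set.ncard_le_ncard_of_injOn (fun v => P.pE v (f v)) (fun v hv => hf2 v hv) ?_
    (edgeBoundary_finite P.G P.hfin S)
  intro v hv v' hv' he
  exact ((P.pE_inj (hf1 v hv) (hf1 v' hv')).1 he).1

theorem sum_e_le (K : ℕ) : ∑ j ∈ Finset.range (K + 1), (P.e j : ℝ) ≤ 18 * P.e K := by
  have h1 : ∀ K : ℕ, ∑ j ∈ Finset.range (K + 1), ((9 : ℝ) / 8) ^ j ≤ 9 * (9 / 8) ^ K := by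
    intro K
    induction K with
    | zero => norm_num
    | succ K ih =>
      rw [Finset.sum_range_succ, pow_succ]
      linarith
  have hE := P.E_pos
  calc _ ≤ ∑ j ∈ Finset.range (K + 1), 2 * P.E * (9 / 8) ^ j := Finset.sum_le_sum fun j _ => P.he2 j
    _ ≤ 2 * P.E * (9 * (9 / 8) ^ K) := by
        rw [← Finset.mul_sum]
        exact mul_le_mul_of_nonneg_left (h1 K) (by positivity)
    _ ≤ _ := by linarith [P.he1 K]

theorem deg_inn (p : P.Va × {n : ℕ // 1 ≤ n ∧ n ≤ P.M}) :
    (P.G.neighborSet (Sum.inr p)).ncard ≤ 4 := by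
  obtain ⟨v, n, hn⟩ := p
  have h1 : P.G.neighborSet (Sum.inr (v, ⟨n, hn⟩)) ⊆
      ↑({P.node v (n - 1), P.node v (n + 1), P.node v 3, P.node v 1} : Finset P.Vx) := by
    intro w hw
    have : P.G.Adj (P.node v n) w := by rw [P.node_inn v hn]; exact hw
    rw [P.adj_node v hn] at this
    simp only [Finset.coe_insert, Finset.coe_singleton, Set.mem_insert_iff, Set.mem_singleton_iff]
    tauto
  refine (Set.ncard_le_ncard h1 (Finset.finite_toSet _)).trans ?_
  rw [Set.ncard_coe_finset]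
  exact Finset.card_le_four

theorem deg_hub (hnb : ∀ j, P.nb j = ∅) (j : ℕ) :
    ((P.G.neighborSet (Sum.inl j)).ncard : ℝ) ≤ 3 * P.e j := by
  have h1 : P.G.neighborSet (Sum.inl j) = ↑(P.nbHub j) := by
    ext w
    simp [P.mem_nbHub]
  rw [h1, Set.ncard_coe_finset]
  have h2 : (P.nbHub j).card ≤ P.e j + P.e (j - 1) := by
    unfold nbHub
    rw [hnb, Finset.image_empty, Finset.union_empty]
    refine (Finset.card_union_le _ _).trans (add_le_add ?_ ?_)
    · exact Finset.card_image_le.trans (P.card_fib j).le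
    · exact Finset.card_image_le.trans ((Finset.card_filter_le _ _).trans (P.card_fib _).le)
  have h3 : ((P.nbHub j).card : ℝ) ≤ P.e j + P.e (j - 1) := by exact_mod_cast h2
  have h4 : P.E * (9 / 8) ^ (j - 1) ≤ P.E * (9 / 8) ^ j :=
    mul_le_mul_of_nonneg_left (pow_le_pow_right₀ (by norm_num) (by omega)) P.E_pos.le
  linarith [P.he1 j, P.he2 (j - 1)]

theorem vol_le (hnb : ∀ j, P.nb j = ∅) (S : Finset P.Vx) :
    ∑ x ∈ S, ((P.G.neighborSet x).ncard : ℝ) ≤
      (54 + 76 * (P.M + 1)) * (edgeBoundary P.G S).ncard := by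
  set b : ℝ := ((edgeBoundary P.G S).ncard : ℝ) with hb
  have hb0 : 0 ≤ b := Nat.cast_nonneg _
  let A : Finset P.Va := S.toRight.image Prod.fst
  have hA1 : ((A.filter (P.Split S)).card : ℝ) ≤ b := by
    rw [hb]
    exact_mod_cast card_split_le fun v hv => (Finset.mem_filter.1 hv).2
  have hin : ∀ v ∈ A, ¬ P.Split S v → v.1 + 1 ∈ S.toLeft := by
    intro v hv hs
    obtain ⟨⟨v', n, hn⟩, hp, rfl⟩ := Finset.mem_image.1 hv
    rw [Finset.mem_toRight, ← P.node_inn v' hn] at hp
    rw [Finset.mem_toLeft, ← P.node_top, not_split hs _ le_rfl, ← not_split hs n (by omega)]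
    exact hp
  have key : ∑ j ∈ S.toLeft, (P.e j : ℝ) ≤ 18 * b ∧
      ((A.filter fun v => ¬ P.Split S v).card : ℝ) ≤ 18 * b := by
    rcases S.toLeft.eq_empty_or_nonempty with h | h
    · have : (A.filter fun v => ¬ P.Split S v) = ∅ := by
        refine Finset.filter_eq_empty_iff.2 fun v hv hs => ?_
        have := hin v hv hs
        rw [h] at this
        simp at this
      rw [h, this]
      simp [hb0]
    · set K := S.toLeft.max' h with hK
      have hKS : K ∈ S.toLeft := Finset.max'_mem _ _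
      have hle : ∀ j ∈ S.toLeft, j ≤ K := fun j hj => Finset.le_max' _ _ hj
      have h1 : (P.e K : ℝ) ≤ b := by
        rw [hb, ← P.card_fib]
        refine Nat.cast_le.2 (card_split_le fun v hv => ?_)
        by_contra hs
        have h2 := (not_split hs _ le_rfl).2 (by
          rw [P.node_zero, P.mem_fib.1 hv]
          exact Finset.mem_toLeft.1 hKS)
        rw [P.node_top, P.mem_fib.1 hv] at h2
        have := hle _ (Finset.mem_toLeft.2 h2)
        omega
      have h2 := P.sum_e_le K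
      constructor
      · refine le_trans (Finset.sum_le_sum_of_subset_of_nonneg (t := Finset.range (K + 1)) ?_
          fun j _ _ => Nat.cast_nonneg _) (by linarith)
        intro j hj
        exact Finset.mem_range.2 (Nat.lt_succ_of_le (hle j hj))
      · have h3 : (A.filter fun v => ¬ P.Split S v) ⊆ (Finset.range (K + 1)).biUnion P.fib := by
          intro v hv
          have := hle _ (hin v (Finset.mem_filter.1 hv).1 (Finset.mem_filter.1 hv).2)
          exact Finset.mem_biUnion.2 ⟨v.1, Finset.mem_range.2 (by omega), P.mem_fib.2 rfl⟩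
        have h4 := (Finset.card_le_card h3).trans Finset.card_biUnion_le
        simp only [card_fib] at h4
        have h5 : ((A.filter fun v => ¬ P.Split S v).card : ℝ) ≤
            ∑ j ∈ Finset.range (K + 1), (P.e j : ℝ) := by exact_mod_cast h4
        linarith
  have hA : (A.card : ℝ) ≤ 19 * b := by
    have := Finset.card_filter_add_card_filter_not (s := A) (P.Split S)
    have h2 : (A.card : ℝ) = (A.filter (P.Split S)).card +
      (A.filter fun v => ¬ P.Split S v).card := by exact_mod_cast this.symm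
    linarith [key.2]
  have hR : S.toRight.card ≤ (P.M + 1) * A.card := by
    refine Finset.card_le_mul_card_image _ _ fun v _ => ?_
    rw [← Finset.card_range (P.M + 1)]
    refine Finset.card_le_card_of_injOn (fun p => p.2.1) ?_ ?_
    · intro p _
      have := p.2.2.2
      simp only [Finset.coe_range, Set.mem_Iio]
      omega
    · intro p hp q hq hpq
      have h1 := (Finset.mem_filter.1 hp).2
      have h2 := (Finset.mem_filter.1 hq).2
      exact Prod.ext (h1.trans h2.symm) (Subtype.ext hpq)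
  have hR' : (S.toRight.card : ℝ) ≤ (P.M + 1) * A.card := by exact_mod_cast hR
  rw [Finset.sum_sum_eq_sum_toLeft_add_sum_toRight]
  have s1 : ∑ j ∈ S.toLeft, ((P.G.neighborSet (Sum.inl j)).ncard : ℝ) ≤ 3 * (18 * b) := by
    refine (Finset.sum_le_sum fun j _ => deg_hub hnb j).trans ?_
    rw [← Finset.mul_sum]
    linarith [key.1]
  have s2 : ∑ p ∈ S.toRight, ((P.G.neighborSet (Sum.inr p)).ncard : ℝ) ≤ S.toRight.card * 4 := by
    rw [← nsmul_eq_mul, ← Finset.sum_const]
    exact Finset.sum_le_sum fun p _ => by exact_mod_cast deg_inn p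
  have hM : (0 : ℝ) ≤ P.M + 1 := by positivity
  nlinarith [mul_le_mul_of_nonneg_left hA hM]

end Par

theorem nonamenable_example : ∃ (V : Type) (G : SimpleGraph V) (v₀ : V), Infinite V ∧
    G.Connected ∧ (∀ v, (G.neighborSet v).Finite) ∧
    (∃ c : ℝ, 0 < c ∧ ∀ S : Finset V, c * (S.card : ℝ) ≤ (edgeBoundary G S).ncard ∧
      c * ∑ v ∈ S, ((G.neighborSet v).ncard : ℝ) ≤ (edgeBoundary G S).ncard) ∧
    GRWRecurrent G v₀ := by
  obtain ⟨P, hP⟩ := exists_par (fun _ => ∅) (by simp) (by simp) 0 le_rfl (by simp)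
  have hnb : ∀ j, P.nb j = ∅ := fun j => by rw [hP]
  refine ⟨P.Vx, P.G, Sum.inl 0, inferInstance, P.conn, P.hfin,
    ⟨1 / (54 + 76 * (P.M + 1)), by positivity, fun S => ?_⟩, P.recurrent⟩
  have h1 : 1 / (54 + 76 * ((P.M : ℝ) + 1)) * ∑ v ∈ S, ((P.G.neighborSet v).ncard : ℝ) ≤
      (edgeBoundary P.G S).ncard := by
    rw [one_div_mul_eq_div, div_le_iff₀ (by positivity), mul_comm]
    exact Par.vol_le hnb S
  refine ⟨le_trans (mul_le_mul_of_nonneg_left ?_ (by positivity)) h1, h1⟩
  rw [Finset.card_eq_sum_ones]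
  push_cast
  refine Finset.sum_le_sum fun v _ => ?_
  have : 0 < (P.G.neighborSet v).ncard := (Set.ncard_pos (P.hfin v)).2 (P.hne v)
  exact_mod_cast this

end Pool.Agent.H487Z
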