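import Pool.Agent.H487Z.Inv

set_option autoImplicit false
set_option linter.unusedSectionVars false

namespace Pool.Agent.H487Z

open scoped Classical

/-- base value -/
noncomputable def Psi (κ e D F : ℝ) : ℝ := 1 / 50 * Real.log (e / D) + κ * F / D

/-- cost of starting a long path from below -/
noncomputable def Del (κ e D F : ℝ) : ℝ := Psi κ e (D - 1) F + 1 / (D - 1) - Psi κ e D F

/-- passing probability from below -/
noncomputable def th (p1 p2 c : Prop) (n : ℕ) : ℝ :=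
  if n = 1 then (if p1 ∧ p2 ∧ c then 3 / 5 else 4 / 5)
  else if n = 2 then (if c ∧ ¬ p1 then 3 / 5 else 4 / 5)
  else if p1 ∧ p2 ∧ c then 1 else 4 / 5

theorem th_nonneg (p1 p2 c : Prop) (n : ℕ) : 0 ≤ th p1 p2 c n := by
  unfold th
  split_ifs <;> norm_num

theorem th_le_one (p1 p2 c : Prop) (n : ℕ) : th p1 p2 c n ≤ 1 := by
  unfold th
  split_ifs <;> norm_num

theorem th_one_le (p1 p2 c : Prop) : th p1 p2 c 1 ≤ 4 / 5 := by
  unfold th
  simp only [if_true]
  split_ifs <;> norm_num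

theorem log_step {e D : ℝ} (he : 0 < e) (hD : 1 < D) :
    0 ≤ Real.log (e / (D - 1)) - Real.log (e / D) ∧
      Real.log (e / (D - 1)) - Real.log (e / D) ≤ 1 / (D - 1) := by
  have h1 : 0 < D - 1 := by linarith
  have h0 : 0 < D := by linarith
  have h2 : Real.log (e / (D - 1)) - Real.log (e / D) = Real.log (D / (D - 1)) := by
    rw [Real.log_div he.ne' h1.ne', Real.log_div he.ne' h0.ne', Real.log_div h0.ne' h1.ne']
    ring
  rw [h2]
  constructor
  · apply Real.log_nonneg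
    rw [le_div_iff₀ h1]
    linarith
  · have := Real.log_le_sub_one_of_pos (div_pos h0 h1)
    have h3 : D / (D - 1) - 1 = 1 / (D - 1) := by
      field_simp
      ring
    linarith

theorem Del_eq {κ e D F : ℝ} (hD : 1 < D) : Del κ e D F =
    1 / 50 * (Real.log (e / (D - 1)) - Real.log (e / D)) + κ * F / (D * (D - 1)) + 1 / (D - 1) := by
  have h1 : D - 1 ≠ 0 := by linarith
  have h0 : D ≠ 0 := by linarith
  unfold Del Psi
  field_simp
  ring

theorem Del_nonneg {κ e D F : ℝ} (he : 0 < e) (hD : 1 < D) (hκ : 0 ≤ κ) (hF : 0 ≤ F) :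
    0 ≤ Del κ e D F := by
  rw [Del_eq hD]
  have := (log_step he hD).1
  have h1 : 0 < D - 1 := by linarith
  positivity

theorem Del_le {κ e D F : ℝ} (he : 0 < e) (hD : 1 < D) :
    Del κ e D F ≤ 51 / 50 / (D - 1) + κ * F / (D * (D - 1)) := by
  rw [Del_eq hD]
  have := (log_step he hD).2
  have h2 : 51 / 50 / (D - 1) = 1 / 50 * (1 / (D - 1)) + 1 / (D - 1) := by ring
  linarith

namespace Par

variable (P : Par)

/-- total resistance of a valve -/
noncomputable def R : ℝ := (P.M : ℝ) - 1 / 3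

/-- harmonic coordinate along a valve -/
noncomputable def h (n : ℕ) : ℝ :=
  if n = 0 then 0 else if n = 1 then 1 / P.R else if n = 2 then 4 / 3 / P.R
  else ((n : ℝ) - 4 / 3) / P.R

/-- current through the cut `j` -/
noncomputable def I (j : ℕ) : ℝ := 1 + (17 / 18) ^ j

/-- bound for potential differences of consecutive hubs -/
noncomputable def τ (j : ℕ) : ℝ := 2 * P.R / (P.E * (9 / 8) ^ j)

/-- value on a valve whose long path has been started -/
noncomputable def et (p1 p2 c p3 pM : Prop) (n : ℕ) : ℝ :=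
  if p3 ∧ ¬ pM then 1 else if ¬ p3 then P.h 3
  else if n ≤ 2 ∧ ¬ (p1 ∧ p2 ∧ c) then P.h 3 else P.h n

/-- the long path of `v` is untouched -/
def tn (v : P.Va) (H : Set (Sym2 P.Vx)) : Prop := P.pE v 3 ∉ H ∧ P.pE v P.M ∉ H

/-- number of valves with untouched long path -/
noncomputable def D (j : ℕ) (H : Set (Sym2 P.Vx)) : ℝ :=
  ∑ v ∈ P.fib j, ind (P.tn v H)

/-- number of fresh valves -/
noncomputable def F (j : ℕ) (H : Set (Sym2 P.Vx)) : ℝ :=
  ∑ v ∈ P.fib j, ind (P.tn v H ∧ P.pE v 0 ∉ H)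

/-- all long paths of the cut are crossed -/
def full (j : ℕ) (H : Set (Sym2 P.Vx)) : Prop :=
  ∀ v : P.Va, v.1 = j → P.pE v 3 ∈ H ∧ P.pE v P.M ∈ H

/-- number of uncrossed small edges of a valve -/
noncomputable def u (v : P.Va) (H : Set (Sym2 P.Vx)) : ℝ :=
  ind (P.pE v 0 ∉ H) + ind (P.pE v 1 ∉ H) + ind (P.pE v 2 ∉ H) + ind (P.cE v ∉ H)

/-- number of uncrossed small edges of a cut -/
noncomputable def U (j : ℕ) (H : Set (Sym2 P.Vx)) : ℝ := ∑ v ∈ P.fib j, P.u v H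

/-- weight of the uncrossed thin edges going up -/
noncomputable def TC (j : ℕ) (H : Set (Sym2 P.Vx)) : ℝ :=
  ∑ i ∈ P.nb j, ind (P.tE j i ∉ H) * ((i - j : ℕ) : ℝ)

/-- a function of the position relative to the cut `j` -/
noncomputable def rel (j : ℕ) (f : P.Va → ℕ → ℝ) (top : ℝ) : P.Vx → ℝ
  | Sum.inl i => if j < i then top else 0
  | Sum.inr (v, n) => if j < v.1 then top else if j = v.1 then f v n.1 else 0

/-- level of a vertex -/
def lev : P.Vx → ℕ
  | Sum.inl i => i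
  | Sum.inr (v, _) => v.1

/-- value inside a valve -/
noncomputable def inVal (κ : ℝ) (H : Set (Sym2 P.Vx)) (v : P.Va) (n : ℕ) : ℝ :=
  if P.tn v H then th (P.pE v 1 ∈ H) (P.pE v 2 ∈ H) (P.cE v ∈ H) n *
    Del κ (P.e v.1) (P.D v.1 H) (P.F v.1 H)
  else P.et (P.pE v 1 ∈ H) (P.pE v 2 ∈ H) (P.cE v ∈ H) (P.pE v 3 ∈ H) (P.pE v P.M ∈ H) n /
    P.D v.1 H

/-- potential of a cut at or above the frontier -/
noncomputable def Up (κ : ℝ) (j : ℕ) (x : P.Vx) (H : Set (Sym2 P.Vx)) : ℝ :=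
  Psi κ (P.e j) (P.D j H) (P.F j H) + P.rel j (P.inVal κ H) (1 / P.D j H) x

/-- potential of a cut below the frontier -/
noncomputable def Low (j : ℕ) (x : P.Vx) (H : Set (Sym2 P.Vx)) : ℝ :=
  I j * P.R / P.e j * (if P.full j H then P.rel j (fun _ n => P.h n) 1 x else 1)

/-- credits -/
noncomputable def Cred (j : ℕ) (H : Set (Sym2 P.Vx)) : ℝ :=
  I j / P.e j * P.U j H + P.τ j * P.TC j H

/-- the term of the cut `j` when the frontier is `k` -/
noncomputable def T (k j : ℕ) (x : P.Vx) (H : Set (Sym2 P.Vx)) : ℝ :=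
  if j < k then P.Low j x H + P.Cred j H
  else if j = k then P.Up 5 j x H + P.Cred j H
  else (9 / 8) ^ (j - k) * P.Up 0 j x H

/-- the potential -/
noncomputable def Φf (k N : ℕ) (x : P.Vx) (H : Set (Sym2 P.Vx)) : ℝ :=
  k + ∑ j ∈ Finset.range N, P.T k j x H

/-! ### numerical facts -/

theorem R_ge : 11 / 3 ≤ P.R := by
  have : (4 : ℝ) ≤ P.M := by exact_mod_cast P.hM
  unfold R
  linarith

theorem R_pos : 0 < P.R := by linarith [P.R_ge]

theorem δ_lt : P.δ ≤ 1 / 2 := by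
  have h1 := P.hδ
  have h0 := P.hδ0
  by_contra hc
  have h2 : 1 / P.δ ≤ 2 := by
    rw [div_le_iff₀ h0]
    linarith [not_le.1 hc]
  have h3 := Real.log_le_sub_one_of_pos (one_div_pos.2 h0)
  linarith

theorem E_pos : 0 < P.E := by
  have h2 := P.hδE
  have h3 := P.hδ0
  by_contra h
  nlinarith [not_lt.1 h]

theorem E_le_e (j : ℕ) : P.E ≤ P.e j := by
  have h1 := P.he1 j
  have h2 : (1 : ℝ) ≤ (9 / 8) ^ j := one_le_pow₀ (by norm_num)
  nlinarith [P.E_pos]

theorem e_pos' (j : ℕ) : (0 : ℝ) < P.e j := by exact_mod_cast P.e_pos j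

theorem δe_ge (j : ℕ) : 102 ≤ P.δ * P.e j := by
  have := mul_le_mul_of_nonneg_left (P.E_le_e j) P.hδ0.le
  linarith [P.hδE]

theorem δR_ge : 200 ≤ P.δ * P.R := P.hδR

theorem R_ge' : 400 ≤ P.R := by nlinarith [P.δR_ge, P.δ_lt, P.R_pos]

theorem one_le_I (j : ℕ) : 1 ≤ I j := by
  unfold I
  have : (0 : ℝ) ≤ (17 / 18) ^ j := by positivity
  linarith

theorem I_le_two (j : ℕ) : I j ≤ 2 := by
  unfold I
  have : (17 / 18 : ℝ) ^ j ≤ 1 := pow_le_one₀ (by norm_num) (by norm_num)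
  linarith

theorem τ_nonneg (j : ℕ) : 0 ≤ P.τ j := by
  have := P.R_pos
  have := P.E_pos
  unfold τ
  positivity

theorem h_zero : P.h 0 = 0 := by simp [h]

theorem h_one : P.h 1 = 1 / P.R := by simp [h]

theorem h_two : P.h 2 = 4 / 3 / P.R := by simp [h]

theorem h_three : P.h 3 = 5 / 3 / P.R := by
  simp only [h]
  norm_num

theorem h_big {n : ℕ} (hn : 3 ≤ n) : P.h n = ((n : ℝ) - 4 / 3) / P.R := by
  have h0 : n ≠ 0 := by omega
  have h1 : n ≠ 1 := by omega
  have h2 : n ≠ 2 := by omega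
  simp [h, h0, h1, h2]

theorem h_top : P.h (P.M + 1) = 1 := by
  rw [P.h_big (by have := P.hM; omega), div_eq_one_iff_eq P.R_pos.ne']
  unfold R
  push_cast
  ring

theorem h_nonneg (n : ℕ) : 0 ≤ P.h n := by
  have := P.R_pos
  by_cases hn : 3 ≤ n
  · rw [P.h_big hn]
    have : (3 : ℝ) ≤ n := by exact_mod_cast hn
    exact div_nonneg (by linarith) P.R_pos.le
  · interval_cases n
    · rw [h_zero]
    · rw [h_one]; positivity
    · rw [h_two]; positivity

theorem h_le_one {n : ℕ} (hn' : n ≤ P.M + 1) : P.h n ≤ 1 := by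
  have := P.R_ge
  by_cases hn : 3 ≤ n
  · rw [P.h_big hn, div_le_one P.R_pos]
    have : (n : ℝ) ≤ P.M + 1 := by exact_mod_cast hn'
    unfold R
    linarith
  · interval_cases n
    · rw [h_zero]; norm_num
    · rw [h_one, div_le_one P.R_pos]; linarith
    · rw [h_two, div_le_one P.R_pos]; linarith

theorem h_le_three {n : ℕ} (hn : n ≤ 3) : P.h n ≤ P.h 3 := by
  have := P.R_pos
  rw [h_three]
  interval_cases n
  · rw [h_zero]; positivity
  · rw [h_one]; gcongr; norm_num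
  · rw [h_two]; gcongr; norm_num
  · rw [h_three]

theorem et_nonneg (p1 p2 c p3 pM : Prop) (n : ℕ) : 0 ≤ P.et p1 p2 c p3 pM n := by
  unfold et
  split_ifs
  all_goals first | exact P.h_nonneg _ | norm_num

theorem et_le_one (p1 p2 c p3 pM : Prop) {n : ℕ} (hn : n ≤ P.M + 1) :
    P.et p1 p2 c p3 pM n ≤ 1 := by
  have hM := P.hM
  unfold et
  split_ifs
  all_goals first | exact P.h_le_one (by omega) | norm_num

/-! ### positions -/

theorem rel_hub (j i : ℕ) (f : P.Va → ℕ → ℝ) (top : ℝ) :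
    P.rel j f top (Sum.inl i) = if j < i then top else 0 := rfl

theorem rel_inn (v : P.Va) {n : ℕ} (hn : 1 ≤ n ∧ n ≤ P.M) (f : P.Va → ℕ → ℝ) (top : ℝ) :
    P.rel v.1 f top (P.node v n) = f v n := by
  rw [P.node_inn v hn]
  simp [rel]

theorem rel_zero (v : P.Va) (f : P.Va → ℕ → ℝ) (top : ℝ) :
    P.rel v.1 f top (P.node v 0) = 0 := by
  rw [P.node_zero]
  simp [rel]

theorem rel_top (v : P.Va) (f : P.Va → ℕ → ℝ) (top : ℝ) :
    P.rel v.1 f top (P.node v (P.M + 1)) = top := by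
  rw [P.node_top]
  simp [rel]

theorem rel_other (v : P.Va) {j : ℕ} (hj : j ≠ v.1) (n : ℕ) (f : P.Va → ℕ → ℝ) (top : ℝ) :
    P.rel j f top (P.node v n) = if j < v.1 then top else 0 := by
  unfold node
  split_ifs with h1 h2 h3 h4 h5 h6 <;> simp only [rel] <;> split_ifs <;> first | rfl | omega

theorem rel_h (v : P.Va) {n : ℕ} (hn : n ≤ P.M + 1) :
    P.rel v.1 (fun _ n => P.h n) 1 (P.node v n) = P.h n := by
  by_cases h0 : n = 0
  · rw [h0, rel_zero, h_zero]
  · by_cases h1 : n = P.M + 1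
    · rw [h1, rel_top, h_top]
    · rw [P.rel_inn v (by omega)]

theorem rel_of_lev_lt {j : ℕ} {x : P.Vx} (hx : P.lev x < j) (f : P.Va → ℕ → ℝ) (top : ℝ) :
    P.rel j f top x = 0 := by
  rcases x with i | ⟨v, n⟩
  · simp only [lev] at hx
    simp only [rel]
    rw [if_neg (by omega)]
  · simp only [lev] at hx
    simp only [rel]
    rw [if_neg (by omega), if_neg (by omega)]

theorem rel_of_lt_lev {j : ℕ} {x : P.Vx} (hx : j < P.lev x) (f : P.Va → ℕ → ℝ) (top : ℝ) :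
    P.rel j f top x = top := by
  rcases x with i | ⟨v, n⟩
  · simp only [lev] at hx
    simp only [rel]
    rw [if_pos hx]
  · simp only [lev] at hx
    simp only [rel]
    rw [if_pos hx]

theorem rel_mono {j : ℕ} {f g : P.Va → ℕ → ℝ} {a b : ℝ} (c : ℝ) (hc : 0 ≤ c) (hab : a ≤ b + c)
    (hfg : ∀ v n, v.1 = j → n ≤ P.M → f v n ≤ g v n + c) (x : P.Vx) :
    P.rel j f a x ≤ P.rel j g b x + c := by
  rcases x with i | ⟨v, n⟩
  · simp only [rel]
    split_ifs
    · exact hab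
    · linarith
  · simp only [rel]
    split_ifs with h1 h2
    · exact hab
    · exact hfg v n h2.symm n.2.2
    · linarith

theorem rel_nonneg {j : ℕ} {f : P.Va → ℕ → ℝ} {a : ℝ} (ha : 0 ≤ a)
    (hf : ∀ v n, v.1 = j → n ≤ P.M → 0 ≤ f v n) (x : P.Vx) : 0 ≤ P.rel j f a x := by
  rcases x with i | ⟨v, n⟩
  · simp only [rel]
    split_ifs
    · exact ha
    · exact le_rfl
  · simp only [rel]
    split_ifs with h1 h2
    · exact ha
    · exact hf v n h2.symm n.2.2
    · exact le_rfl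

theorem rel_h_le_one (j : ℕ) (x : P.Vx) : P.rel j (fun _ n => P.h n) 1 x ≤ 1 := by
  rcases x with i | ⟨v, n⟩
  · simp only [rel]
    split_ifs <;> norm_num
  · simp only [rel]
    split_ifs
    · exact le_rfl
    · exact P.h_le_one (by have := n.2.2; omega)
    · norm_num

theorem rel_h_nonneg (j : ℕ) (x : P.Vx) : 0 ≤ P.rel j (fun _ n => P.h n) 1 x :=
  P.rel_nonneg zero_le_one (fun _ n _ _ => P.h_nonneg n) x

/-! ### counts -/

theorem sum_fib_update {f g : P.Va → ℝ} {v : P.Va} (hfg : ∀ v', v' ≠ v → g v' = f v') :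
    ∑ v' ∈ P.fib v.1, g v' = ∑ v' ∈ P.fib v.1, f v' - f v + g v := by
  have hv : v ∈ P.fib v.1 := P.mem_fib.2 rfl
  rw [← Finset.add_sum_erase _ g hv, ← Finset.add_sum_erase _ f hv,
    Finset.sum_congr rfl (fun v' hv' => hfg v' (Finset.ne_of_mem_erase hv'))]
  ring

theorem sum_fib_other {f g : P.Va → ℝ} {v : P.Va} (hfg : ∀ v', v' ≠ v → g v' = f v') {j : ℕ}
    (hj : j ≠ v.1) : ∑ v' ∈ P.fib j, g v' = ∑ v' ∈ P.fib j, f v' :=
  Finset.sum_congr rfl fun v' hv' => hfg v' (by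
    rintro rfl
    exact hj (P.mem_fib.1 hv').symm)

theorem D_nonneg (j : ℕ) (H : Set (Sym2 P.Vx)) : 0 ≤ P.D j H :=
  Finset.sum_nonneg fun _ _ => ind_nonneg _

theorem F_nonneg (j : ℕ) (H : Set (Sym2 P.Vx)) : 0 ≤ P.F j H :=
  Finset.sum_nonneg fun _ _ => ind_nonneg _

theorem F_le_D (j : ℕ) (H : Set (Sym2 P.Vx)) : P.F j H ≤ P.D j H :=
  Finset.sum_le_sum fun _ _ => ind_mono fun h => h.1

theorem D_le_e (j : ℕ) (H : Set (Sym2 P.Vx)) : P.D j H ≤ P.e j := by
  calc P.D j H ≤ ∑ _v ∈ P.fib j, (1 : ℝ) := Finset.sum_le_sum fun _ _ => ind_le_one _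
    _ = _ := by simp [card_fib]

theorem u_nonneg (v : P.Va) (H : Set (Sym2 P.Vx)) : 0 ≤ P.u v H := by
  unfold u
  linarith [ind_nonneg (P.pE v 0 ∉ H), ind_nonneg (P.pE v 1 ∉ H), ind_nonneg (P.pE v 2 ∉ H),
    ind_nonneg (P.cE v ∉ H)]

theorem u_le (v : P.Va) (H : Set (Sym2 P.Vx)) : P.u v H ≤ 4 := by
  unfold u
  linarith [ind_le_one (P.pE v 0 ∉ H), ind_le_one (P.pE v 1 ∉ H), ind_le_one (P.pE v 2 ∉ H),
    ind_le_one (P.cE v ∉ H)]

theorem U_nonneg (j : ℕ) (H : Set (Sym2 P.Vx)) : 0 ≤ P.U j H :=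
  Finset.sum_nonneg fun _ _ => P.u_nonneg _ _

theorem U_le (j : ℕ) (H : Set (Sym2 P.Vx)) : P.U j H ≤ 4 * P.e j := by
  calc P.U j H ≤ ∑ _v ∈ P.fib j, (4 : ℝ) := Finset.sum_le_sum fun _ _ => P.u_le _ _
    _ = _ := by simp [card_fib, mul_comm]

theorem TC_nonneg (j : ℕ) (H : Set (Sym2 P.Vx)) : 0 ≤ P.TC j H :=
  Finset.sum_nonneg fun _ _ => mul_nonneg (ind_nonneg _) (Nat.cast_nonneg _)

theorem TC_le (j : ℕ) (H : Set (Sym2 P.Vx)) : P.TC j H ≤ P.W * (17 / 16) ^ j :=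
  le_trans (Finset.sum_le_sum fun _ _ =>
    mul_le_of_le_one_left (Nat.cast_nonneg _) (ind_le_one _)) (P.hw j)

theorem ite_mono {H H' : Set (Sym2 P.Vx)} (hH : H ⊆ H') (ε : Sym2 P.Vx) :
    ind (ε ∉ H') ≤ ind (ε ∉ H) := ind_mono fun a b => a (hH b)

theorem u_mono {H H' : Set (Sym2 P.Vx)} (hH : H ⊆ H') (v : P.Va) : P.u v H' ≤ P.u v H := by
  unfold u
  have h0 := P.ite_mono hH (P.pE v 0)
  have h1 := P.ite_mono hH (P.pE v 1)
  have h2 := P.ite_mono hH (P.pE v 2)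
  have h3 := P.ite_mono hH (P.cE v)
  linarith

theorem Cred_mono {H H' : Set (Sym2 P.Vx)} (hH : H ⊆ H') (j : ℕ) : P.Cred j H' ≤ P.Cred j H := by
  unfold Cred
  have h1 : P.U j H' ≤ P.U j H := Finset.sum_le_sum fun v _ => P.u_mono hH v
  have h2 : P.TC j H' ≤ P.TC j H :=
    Finset.sum_le_sum fun i _ =>
      mul_le_mul_of_nonneg_right (P.ite_mono hH _) (Nat.cast_nonneg _)
  have h3 : 0 ≤ I j / P.e j := div_nonneg (by linarith [one_le_I j]) (P.e_pos' j).le
  have h4 := P.τ_nonneg j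
  gcongr

theorem Cred_nonneg (j : ℕ) (H : Set (Sym2 P.Vx)) : 0 ≤ P.Cred j H := by
  unfold Cred
  have h1 := P.U_nonneg j H
  have h2 := P.TC_nonneg j H
  have h3 : 0 ≤ I j / P.e j := div_nonneg (by linarith [one_le_I j]) (P.e_pos' j).le
  have h4 := P.τ_nonneg j
  positivity

theorem τ_W (j : ℕ) : P.τ j * (P.W * (17 / 16) ^ j) ≤ 1 / 150 * (17 / 18) ^ j := by
  have hE := P.E_pos
  have h1 : ((17 : ℝ) / 16) ^ j = (17 / 18) ^ j * (9 / 8) ^ j := by
    rw [← mul_pow]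
    norm_num
  have h2 : P.τ j * (P.W * (17 / 16) ^ j) = (2 * P.R * P.W / P.E) * (17 / 18) ^ j := by
    unfold τ
    rw [h1]
    field_simp
  rw [h2]
  refine mul_le_mul_of_nonneg_right ?_ (by positivity)
  rw [div_le_iff₀ hE]
  have := P.hEW
  unfold R
  linarith

theorem Cred_le (j : ℕ) (H : Set (Sym2 P.Vx)) : P.Cred j H ≤ 9 := by
  unfold Cred
  have h1 : I j / P.e j * P.U j H ≤ 8 := by
    have he := P.e_pos' j
    calc I j / P.e j * P.U j H ≤ 2 / P.e j * (4 * P.e j) := by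
          have := P.U_nonneg j H
          gcongr
          · exact I_le_two j
          · exact P.U_le j H
      _ = 8 := by field_simp; norm_num
  have h2 : P.τ j * P.TC j H ≤ 1 := by
    have h3 := mul_le_mul_of_nonneg_left (P.TC_le j H) (P.τ_nonneg j)
    have h4 := P.τ_W j
    have h5 : (17 / 18 : ℝ) ^ j ≤ 1 := pow_le_one₀ (by norm_num) (by norm_num)
    linarith
  linarith

theorem IR_le_τ {a j : ℕ} (h : a ≤ j) : I j * P.R / P.e j ≤ P.τ a := by
  have hR := P.R_pos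
  have hE := P.E_pos
  unfold τ
  have h1 : P.E * (9 / 8) ^ a ≤ P.e j :=
    le_trans (by gcongr; norm_num) (P.he1 j)
  have h2 := I_le_two j
  gcongr

theorem Low_nonneg (j : ℕ) (x : P.Vx) (H : Set (Sym2 P.Vx)) : 0 ≤ P.Low j x H := by
  unfold Low
  have h1 := P.rel_h_nonneg j x
  have h2 := P.R_pos
  have h3 := P.e_pos' j
  have h4 := one_le_I j
  split_ifs <;> positivity

theorem Low_le (j : ℕ) (x : P.Vx) (H : Set (Sym2 P.Vx)) : P.Low j x H ≤ I j * P.R / P.e j := by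
  unfold Low
  have h1 := P.rel_h_le_one j x
  have h2 := P.R_pos
  have h3 := P.e_pos' j
  have h4 := one_le_I j
  have h5 : 0 ≤ I j * P.R / P.e j := by positivity
  split_ifs
  · nlinarith
  · simp

theorem Low_le_one (j : ℕ) (x : P.Vx) (H : Set (Sym2 P.Vx)) : P.Low j x H ≤ 1 := by
  refine (P.Low_le j x H).trans ?_
  rw [div_le_one (P.e_pos' j)]
  have h1 := P.hER
  have h2 := P.E_le_e j
  have h3 := I_le_two j
  have h4 := P.R_pos
  have h5 : 2 * P.R ≤ P.E := h1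
  nlinarith

theorem inVal_nonneg {κ : ℝ} (hκ : 0 ≤ κ) {H : Set (Sym2 P.Vx)} {v : P.Va}
    (hD : 1 < P.D v.1 H) (n : ℕ) : 0 ≤ P.inVal κ H v n := by
  unfold inVal
  split_ifs
  · exact mul_nonneg (th_nonneg _ _ _ _) (Del_nonneg (P.e_pos' _) hD hκ (P.F_nonneg _ _))
  · exact div_nonneg (P.et_nonneg _ _ _ _ _ _) (by linarith)

theorem Up_ge {κ : ℝ} (hκ : 0 ≤ κ) {j : ℕ} {H : Set (Sym2 P.Vx)} (hD : 1 < P.D j H) (x : P.Vx) :
    1 / 50 * Real.log (P.e j / P.D j H) ≤ P.Up κ j x H := by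
  unfold Up Psi
  have h1 : 0 ≤ P.rel j (P.inVal κ H) (1 / P.D j H) x :=
    P.rel_nonneg (by positivity) (fun v n hv _ => P.inVal_nonneg hκ (by rw [hv]; exact hD) n) x
  have h2 : 0 ≤ κ * P.F j H / P.D j H := by
    have := P.F_nonneg j H
    positivity
  linarith

theorem log_nonneg {j : ℕ} {H : Set (Sym2 P.Vx)} (hD : 1 < P.D j H) :
    0 ≤ Real.log (P.e j / P.D j H) := by
  apply Real.log_nonneg
  rw [le_div_iff₀ (by linarith)]
  linarith [P.D_le_e j H]

theorem Up_nonneg {κ : ℝ} (hκ : 0 ≤ κ) {j : ℕ} {H : Set (Sym2 P.Vx)} (hD : 1 < P.D j H)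
    (x : P.Vx) : 0 ≤ P.Up κ j x H := by
  have h1 := P.Up_ge hκ hD x
  have h2 := P.log_nonneg hD
  linarith

theorem Up_five_le {j : ℕ} {H : Set (Sym2 P.Vx)} (hD : 2 ≤ P.D j H) (x : P.Vx) :
    P.Up 5 j x H ≤ P.Up 0 j x H + 10 := by
  have hF0 := P.F_nonneg j H
  have hF := P.F_le_D j H
  have h1 : 5 * P.F j H / P.D j H ≤ 5 := by
    rw [div_le_iff₀ (by linarith)]
    linarith
  have h2 : P.rel j (P.inVal 5 H) (1 / P.D j H) x ≤ P.rel j (P.inVal 0 H) (1 / P.D j H) x + 5 := by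
    refine P.rel_mono 5 (by norm_num) (by linarith) (fun v n hv _ => ?_) x
    unfold inVal
    split_ifs
    · rw [hv, Del_eq (by linarith), Del_eq (by linarith)]
      have h3 := th_nonneg (P.pE v 1 ∈ H) (P.pE v 2 ∈ H) (P.cE v ∈ H) n
      have h4 := th_le_one (P.pE v 1 ∈ H) (P.pE v 2 ∈ H) (P.cE v ∈ H) n
      have h5 : 5 * P.F j H / (P.D j H * (P.D j H - 1)) ≤ 5 := by
        rw [div_le_iff₀ (by nlinarith)]
        nlinarith
      have h6 : 0 ≤ 5 * P.F j H / (P.D j H * (P.D j H - 1)) :=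
        div_nonneg (by linarith) (by nlinarith)
      simp only [zero_mul, zero_div, add_zero]
      nlinarith
    · linarith
  unfold Up Psi
  simp only [zero_mul, zero_div, add_zero]
  linarith

/-! ### locality -/

variable {P}

theorem ValveEdge.tn_other {v v' : P.Va} {ε : Sym2 P.Vx} (hε : P.ValveEdge v ε) (hv : v' ≠ v)
    (H : Set (Sym2 P.Vx)) : P.tn v' (insert ε H) ↔ P.tn v' H := by
  have hM := P.hM
  unfold tn
  rw [hε.pE_other hv (by omega), hε.pE_other hv le_rfl]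

theorem ValveEdge.D_same {v : P.Va} {ε : Sym2 P.Vx} (hε : P.ValveEdge v ε)
    (H : Set (Sym2 P.Vx)) : P.D v.1 (insert ε H) =
      P.D v.1 H - ind (P.tn v H) + ind (P.tn v (insert ε H)) :=
  P.sum_fib_update fun v' hv => by simp only [hε.tn_other hv]

theorem ValveEdge.F_same {v : P.Va} {ε : Sym2 P.Vx} (hε : P.ValveEdge v ε)
    (H : Set (Sym2 P.Vx)) : P.F v.1 (insert ε H) =
      P.F v.1 H - ind (P.tn v H ∧ P.pE v 0 ∉ H) +
        ind (P.tn v (insert ε H) ∧ P.pE v 0 ∉ insert ε H) :=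
  P.sum_fib_update fun v' hv => by simp only [hε.tn_other hv, hε.pE_other hv (Nat.zero_le _)]

theorem ValveEdge.u_other {v v' : P.Va} {ε : Sym2 P.Vx} (hε : P.ValveEdge v ε) (hv : v' ≠ v)
    (H : Set (Sym2 P.Vx)) : P.u v' (insert ε H) = P.u v' H := by
  have hM := P.hM
  unfold u
  simp only [hε.pE_other hv (Nat.zero_le _), hε.pE_other hv (show 1 ≤ P.M by omega),
    hε.pE_other hv (show 2 ≤ P.M by omega), hε.cE_other hv]

theorem ValveEdge.U_same {v : P.Va} {ε : Sym2 P.Vx} (hε : P.ValveEdge v ε)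
    (H : Set (Sym2 P.Vx)) : P.U v.1 (insert ε H) = P.U v.1 H - P.u v H + P.u v (insert ε H) :=
  P.sum_fib_update fun _ hv => hε.u_other hv H

theorem ValveEdge.TC_same {v : P.Va} {ε : Sym2 P.Vx} (hε : P.ValveEdge v ε)
    (H : Set (Sym2 P.Vx)) (j : ℕ) : P.TC j (insert ε H) = P.TC j H := by
  unfold TC
  simp only [hε.tE_mem]

theorem ValveEdge.T_other {v : P.Va} {ε : Sym2 P.Vx} (hε : P.ValveEdge v ε)
    (H : Set (Sym2 P.Vx)) {j : ℕ} (hj : j ≠ v.1) (k n n' : ℕ) :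
    P.T k j (P.node v n') (insert ε H) = P.T k j (P.node v n) H := by
  have hM := P.hM
  have hD : P.D j (insert ε H) = P.D j H :=
    P.sum_fib_other (fun v' hv => by simp only [hε.tn_other hv]) hj
  have hF : P.F j (insert ε H) = P.F j H :=
    P.sum_fib_other (fun v' hv => by
      simp only [hε.tn_other hv, hε.pE_other hv (Nat.zero_le _)]) hj
  have hU : P.U j (insert ε H) = P.U j H := P.sum_fib_other (fun v' hv => hε.u_other hv H) hj
  have hfull : P.full j (insert ε H) ↔ P.full j H := by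
    unfold full
    refine forall_congr' fun v' => forall_congr' fun hv' => ?_
    have hv : v' ≠ v := by
      rintro rfl
      exact hj hv'.symm
    rw [hε.pE_other hv (by omega), hε.pE_other hv le_rfl]
  unfold T Low Cred Up
  simp only [hD, hF, hU, hfull, hε.TC_same, P.rel_other v hj]

theorem ValveEdge.Φ_diff {v : P.Va} {ε : Sym2 P.Vx} (hε : P.ValveEdge v ε)
    (H : Set (Sym2 P.Vx)) {N : ℕ} (hN : v.1 < N) (k n n' : ℕ) :
    P.Φf k N (P.node v n') (insert ε H) - P.Φf k N (P.node v n) H =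
      P.T k v.1 (P.node v n') (insert ε H) - P.T k v.1 (P.node v n) H := by
  unfold Φf
  rw [add_sub_add_left_eq_sub, ← Finset.sum_sub_distrib]
  refine Finset.sum_eq_single_of_mem _ (Finset.mem_range.2 hN) fun j _ hj => ?_
  rw [hε.T_other H hj k n n', sub_self]

theorem D_insert_ge (j : ℕ) (H : Set (Sym2 P.Vx)) (ε : Sym2 P.Vx) :
    P.D j H - 1 ≤ P.D j (insert ε H) := by
  have hM := P.hM
  by_cases hε : ∃ v, P.ValveEdge v ε
  · obtain ⟨v, hε⟩ := hε
    by_cases hj : j = v.1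
    · rw [hj, hε.D_same]
      linarith [ind_le_one (P.tn v H), ind_nonneg (P.tn v (insert ε H))]
    · have hD : P.D j (insert ε H) = P.D j H :=
        P.sum_fib_other (fun v' hv => by simp only [hε.tn_other hv]) hj
      linarith
  · have : P.D j (insert ε H) = P.D j H := by
      unfold D
      refine Finset.sum_congr rfl fun v _ => ?_
      have h1 : ∀ m, m ≤ P.M → (P.pE v m ∈ insert ε H ↔ P.pE v m ∈ H) := by
        intro m hm
        rw [Set.mem_insert_iff]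
        exact ⟨fun a => a.resolve_left fun b => hε ⟨v, Or.inl ⟨m, hm, b.symm⟩⟩, Or.inr⟩
      simp only [tn, h1 3 (by omega), h1 P.M le_rfl]
    linarith

theorem D_mono {H H' : Set (Sym2 P.Vx)} (hH : H ⊆ H') (j : ℕ) : P.D j H' ≤ P.D j H :=
  Finset.sum_le_sum fun _ _ => ind_mono fun h1 => ⟨fun a => h1.1 (hH a), fun a => h1.2 (hH a)⟩

end Par

end Pool.Agent.H487Z
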