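import Pool.Agent.H487Z.NonAm

set_option autoImplicit false
set_option linter.unusedSectionVars false

namespace Pool.Agent.H487Z

open scoped Classical

/-- one step of the zigzag through the quarter plane -/
def zstep (p : ℕ × ℕ) : ℕ × ℕ :=
  if (p.1 + p.2) % 2 = 0 then (p.1 + 1, p.2 - 1) else (p.1 - 1, p.2 + 1)

/-- the zigzag enumeration of the quarter plane -/
def zig : ℕ → ℕ × ℕ
  | 0 => (0, 0)
  | j + 1 => zstep (zig j)

/-- triangular numbers -/
def tri : ℕ → ℕ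
  | 0 => 0
  | s + 1 => tri s + s + 1

/-- position in the zigzag -/
def zidx (p : ℕ × ℕ) : ℕ := tri (p.1 + p.2) + if (p.1 + p.2) % 2 = 0 then p.1 else p.2

theorem tri_le (s : ℕ) : s ≤ tri s ∧ tri s ≤ s * s := by
  induction s with
  | zero => simp [tri]
  | succ s ih =>
    rw [tri]
    constructor
    · omega
    · nlinarith [ih.2]

theorem zidx_step (p : ℕ × ℕ) : zidx (zstep p) = zidx p + 1 := by
  obtain ⟨a, b⟩ := p
  unfold zstep zidx
  by_cases h : (a + b) % 2 = 0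
  · rcases b with _ | b
    · have h1 : ¬ (a + 1) % 2 = 0 := by omega
      have h2 : a % 2 = 0 := by omega
      simp [h1, h2, tri]
    · have h1 : a + 1 + b = a + (b + 1) := by omega
      simp [h, h1]
      omega
  · rcases a with _ | a
    · have h1 : (b + 1) % 2 = 0 := by omega
      have h2 : ¬ b % 2 = 0 := by omega
      simp [h1, h2, tri]
    · have h1 : a + (b + 1) = a + 1 + b := by omega
      simp [h, h1]
      omega

theorem zidx_zig (j : ℕ) : zidx (zig j) = j := by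
  induction j with
  | zero => simp [zig, zidx, tri]
  | succ j ih => rw [zig, zidx_step, ih]

theorem exists_zpred (a b : ℕ) (h : 0 < a + b) : ∃ q, zstep q = (a, b) := by
  unfold zstep
  by_cases h2 : (a + b) % 2 = 0
  · rcases a with _ | a
    · refine ⟨(0, b - 1), ?_⟩
      rw [if_neg (by simp only; omega)]
      ext <;> simp only; omega
    · refine ⟨(a, b + 1), ?_⟩
      rw [if_pos (by simp only; omega)]
      simp
  · rcases b with _ | b
    · refine ⟨(a - 1, 0), ?_⟩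
      rw [if_pos (by simp only; omega)]
      ext <;> simp only; omega
    · refine ⟨(a + 1, b), ?_⟩
      rw [if_neg (by simp only; omega)]
      simp

theorem zig_zidx : ∀ (n : ℕ) (p : ℕ × ℕ), zidx p = n → zig n = p := by
  intro n
  induction n with
  | zero =>
    rintro ⟨a, b⟩ h
    unfold zidx at h
    have := (tri_le (a + b)).1
    simp only at h
    ext <;> simp only [zig] <;> omega
  | succ n ih =>
    rintro ⟨a, b⟩ h
    have h0 : 0 < a + b := by
      by_contra h1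
      have ha : a = 0 := by omega
      have hb : b = 0 := by omega
      subst ha hb
      simp [zidx, tri] at h
    obtain ⟨q, hq⟩ := exists_zpred a b h0
    have := zidx_step q
    rw [zig, ih q (by rw [hq] at this; omega), hq]

theorem le_zig (j : ℕ) : j ≤ ((zig j).1 + (zig j).2 + 1) ^ 2 := by
  have h := zidx_zig j
  unfold zidx at h
  have h2 := (tri_le ((zig j).1 + (zig j).2)).2
  split_ifs at h <;> nlinarith

theorem zig_lip (j : ℕ) : ((zig (j + 1)).1 ≤ (zig j).1 + 1 ∧ (zig j).1 ≤ (zig (j + 1)).1 + 1) ∧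
    (zig (j + 1)).2 ≤ (zig j).2 + 1 ∧ (zig j).2 ≤ (zig (j + 1)).2 + 1 := by
  rw [zig]
  unfold zstep
  split_ifs <;> simp only <;> omega

theorem zig_lip' {i j : ℕ} (h1 : i ≤ j + 1) (h2 : j ≤ i + 1) :
    ((zig i).1 ≤ (zig j).1 + 1 ∧ (zig j).1 ≤ (zig i).1 + 1) ∧
    (zig i).2 ≤ (zig j).2 + 1 ∧ (zig j).2 ≤ (zig i).2 + 1 := by
  rcases (by omega : i = j ∨ i = j + 1 ∨ j = i + 1) with rfl | rfl | rfl
  · omega
  · exact zig_lip j
  · have := zig_lip i
    omega

/-- unfolding the octant onto the whole lattice -/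
def unf (a b c : ℤ) : Fin 3 → ℤ :=
  ![a - b, |min a b - c| - min (min a b) c,
    max (-min (min a b) c) (min (min a b - c) (min (min a b) c))]

/-- the `ℓ¹` distance -/
def d3 (p q : Fin 3 → ℤ) : ℤ := ∑ i, |p i - q i|

theorem d3_eq (p q : Fin 3 → ℤ) : d3 p q = |p 0 - q 0| + |p 1 - q 1| + |p 2 - q 2| := by
  simp [d3, Fin.sum_univ_three]

theorem d3_comm (p q : Fin 3 → ℤ) : d3 p q = d3 q p := by
  simp only [d3, abs_sub_comm]

theorem d3_tri (p q r : Fin 3 → ℤ) : d3 p r ≤ d3 p q + d3 q r := by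
  simp only [d3_eq]
  linarith [abs_sub_le (p 0) (q 0) (r 0), abs_sub_le (p 1) (q 1) (r 1),
    abs_sub_le (p 2) (q 2) (r 2)]

theorem d3_self (p : Fin 3 → ℤ) : d3 p p = 0 := by simp [d3]

theorem d3_nonneg (p q : Fin 3 → ℤ) : 0 ≤ d3 p q := by
  rw [d3_eq]
  positivity

theorem unf_lip {a b c a' b' c' : ℤ} (ha : a ≤ a' + 1 ∧ a' ≤ a + 1) (hb : b ≤ b' + 1 ∧ b' ≤ b + 1)
    (hc : c ≤ c' + 1 ∧ c' ≤ c + 1) : d3 (unf a b c) (unf a' b' c') ≤ 7 := by
  rw [d3_eq]
  simp only [unf, Matrix.cons_val_zero, Matrix.cons_val_one, Matrix.cons_val]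
  have hm : min a b ≤ min a' b' + 1 ∧ min a' b' ≤ min a b + 1 := by omega
  generalize min a b = m at *
  generalize min a' b' = m' at *
  have hh : min m c ≤ min m' c' + 1 ∧ min m' c' ≤ min m c + 1 := by omega
  generalize min m c = h at *
  generalize min m' c' = h' at *
  have h1 : |a - b - (a' - b')| ≤ 2 := abs_le.2 (by omega)
  have h2 : |(|m - c| - h) - (|m' - c'| - h')| ≤ 3 := by
    refine abs_le.2 ?_
    simp only [abs_eq_max_neg]
    omega
  have h3 : |max (-h) (min (m - c) h) - max (-h') (min (m' - c') h')| ≤ 2 := abs_le.2 (by omega)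
  linarith

theorem unf_proper {a b c : ℤ} (ha : 0 ≤ a) (hb : 0 ≤ b) (hc : 0 ≤ c) :
    a + b + c ≤ 8 * d3 (unf a b c) 0 := by
  rw [d3_eq]
  simp only [unf, Matrix.cons_val_zero, Matrix.cons_val_one, Matrix.cons_val, Pi.zero_apply,
    sub_zero]
  have hm : a + b = |a - b| + 2 * min a b ∧ 0 ≤ min a b := by
    simp only [abs_eq_max_neg]
    omega
  generalize min a b = m at *
  have hh : m + c = |m - c| + 2 * min m c ∧ 0 ≤ min m c := by
    simp only [abs_eq_max_neg]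
    omega
  generalize min m c = h at *
  generalize m - c = z at *
  have h3 : |z| + h = |(|z| - h)| + 2 * |max (-h) (min z h)| := by
    simp only [abs_eq_max_neg]
    omega
  linarith [abs_nonneg (a - b), abs_nonneg z, abs_nonneg (|z| - h), abs_nonneg (max (-h) (min z h))]

theorem unf_surj (p : Fin 3 → ℤ) : ∃ a b c : ℕ, unf a b c = p := by
  obtain ⟨z, h, h0, h1, h2⟩ : ∃ z h : ℤ, 0 ≤ h ∧ |z| - h = p 1 ∧ max (-h) (min z h) = p 2 := by
    by_cases hy : 0 ≤ p 2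
    · refine ⟨p 2 + max (p 1) 0, p 2 + max (-p 1) 0, ?_⟩
      simp only [abs_eq_max_neg]
      omega
    · refine ⟨p 2 - max (p 1) 0, -p 2 + max (-p 1) 0, ?_⟩
      simp only [abs_eq_max_neg]
      omega
  obtain ⟨m, c, hm, hc, h3, h4⟩ : ∃ m c : ℤ, 0 ≤ m ∧ 0 ≤ c ∧ m - c = z ∧ min m c = h :=
    ⟨h + max z 0, h + max (-z) 0, by omega⟩
  obtain ⟨a, b, ha, hb, h5, h6⟩ : ∃ a b : ℤ, 0 ≤ a ∧ 0 ≤ b ∧ a - b = p 0 ∧ min a b = m :=
    ⟨m + max (p 0) 0, m + max (-p 0) 0, by omega⟩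
  lift a to ℕ using ha
  lift b to ℕ using hb
  lift c to ℕ using hc
  refine ⟨a, b, c, ?_⟩
  unfold unf
  rw [h5, h6, h3, h4, h1, h2]
  ext i
  fin_cases i <;> rfl

/-- a space-filling lattice path -/
def sig (j : ℕ) : Fin 3 → ℤ := unf (zig j).1 (zig (zig j).2).1 (zig (zig j).2).2

theorem sig_surj (p : Fin 3 → ℤ) : ∃ j, sig j = p := by
  obtain ⟨a, b, c, h⟩ := unf_surj p
  refine ⟨zidx (a, zidx (b, c)), ?_⟩
  unfold sig
  rw [zig_zidx _ _ rfl]
  simp only
  rw [zig_zidx _ _ rfl]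
  exact h

theorem sig_lip (j : ℕ) : d3 (sig (j + 1)) (sig j) ≤ 7 := by
  have h1 := zig_lip j
  have h2 := zig_lip' h1.2.1 h1.2.2
  exact unf_lip (by omega) (by omega) (by omega)

theorem sig_le (j : ℕ) : d3 (sig j) 0 ≤ 7 * j := by
  induction j with
  | zero => simp [sig, zig, unf, d3_eq]
  | succ j ih =>
    have := d3_tri (sig (j + 1)) (sig j) 0
    have := sig_lip j
    push_cast
    linarith

theorem sig_proper {i j : ℕ} (h : d3 (sig i) (sig j) ≤ 1) : i ≤ 4 * (56 * j + 9) ^ 4 := by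
  have h1 := d3_tri (sig i) (sig j) 0
  have h2 := sig_le j
  have h3 : ((zig i).1 : ℤ) + (zig (zig i).2).1 + (zig (zig i).2).2 ≤ 8 * d3 (sig i) 0 :=
    unf_proper (by positivity) (by positivity) (by positivity)
  have h4 : (zig i).1 + (zig (zig i).2).1 + (zig (zig i).2).2 + 1 ≤ 56 * j + 9 := by omega
  have h5 := le_zig i
  have h6 := le_zig (zig i).2
  generalize 56 * j + 9 = K at *
  have h7 : (zig i).2 ≤ K ^ 2 := h6.trans (Nat.pow_le_pow_left (by omega) 2)
  have h8 : (zig i).1 + (zig i).2 + 1 ≤ 2 * K ^ 2 := by nlinarith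
  calc i ≤ _ := h5
    _ ≤ (2 * K ^ 2) ^ 2 := Nat.pow_le_pow_left h8 2
    _ = _ := by ring

/-- thin neighbours -/
noncomputable def nbZ (j : ℕ) : Finset ℕ :=
  (Finset.range (4 * (56 * j + 9) ^ 4 + 1)).filter fun i => i ≠ j ∧ d3 (sig i) (sig j) ≤ 1

theorem mem_nbZ {i j : ℕ} : i ∈ nbZ j ↔ i ≠ j ∧ d3 (sig i) (sig j) ≤ 1 := by
  rw [nbZ, Finset.mem_filter, Finset.mem_range]
  exact ⟨fun h => h.2, fun h => ⟨Nat.lt_succ_of_le (sig_proper h.2), h⟩⟩

theorem nbZ_sum : ∃ W : ℝ, 0 ≤ W ∧ ∀ j, (∑ i ∈ nbZ j, ((i - j : ℕ) : ℝ)) ≤ W * (17 / 16) ^ j := by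
  obtain ⟨K, hK⟩ := (tendsto_pow_const_div_const_pow_of_one_lt 8
    (show (1 : ℝ) < 17 / 16 by norm_num)).bddAbove_range
  have hK' : ∀ n : ℕ, (n : ℝ) ^ 8 ≤ K * (17 / 16) ^ n := fun n => by
    have := hK ⟨n, rfl⟩
    rwa [div_le_iff₀ (by positivity)] at this
  have hK0 : 0 ≤ K := by simpa using hK' 0
  refine ⟨(5 * 56 ^ 4) ^ 2 * (K * (17 / 16)), by positivity, fun j => ?_⟩
  have h1 : 4 * (56 * j + 9) ^ 4 + 1 ≤ 5 * 56 ^ 4 * (j + 1) ^ 4 := by
    have h2 : (56 * j + 9) ^ 4 ≤ (56 * (j + 1)) ^ 4 := Nat.pow_le_pow_left (by omega) 4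
    have h3 : 1 ≤ (56 * (j + 1)) ^ 4 := Nat.one_le_pow _ _ (by omega)
    rw [mul_pow] at h2 h3
    omega
  generalize hB : 4 * (56 * j + 9) ^ 4 + 1 = B at h1
  have h2 : ∑ i ∈ nbZ j, (i - j) ≤ B * B := by
    refine (Finset.sum_le_card_nsmul _ _ B fun i hi => ?_).trans ?_
    · have := Finset.mem_range.1 (Finset.mem_filter.1 hi).1
      omega
    · rw [smul_eq_mul]
      refine Nat.mul_le_mul_right _ ((Finset.card_filter_le _ _).trans ?_)
      rw [Finset.card_range, hB]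
  have h3 : ∑ i ∈ nbZ j, (i - j) ≤ (5 * 56 ^ 4) ^ 2 * (j + 1) ^ 8 :=
    h2.trans ((Nat.mul_le_mul h1 h1).trans (le_of_eq (by ring)))
  have h4 : (∑ i ∈ nbZ j, ((i - j : ℕ) : ℝ)) ≤ (5 * 56 ^ 4) ^ 2 * ((j + 1 : ℕ) : ℝ) ^ 8 := by
    exact_mod_cast h3
  refine h4.trans ?_
  have h5 := hK' (j + 1)
  rw [mul_assoc]
  refine mul_le_mul_of_nonneg_left (h5.trans (le_of_eq ?_)) (by positivity)
  ring

theorem exists_mid {p q : Fin 3 → ℤ} {n : ℕ} (h : d3 p q ≤ (n + 1 : ℕ)) :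
    ∃ r, d3 p r ≤ n ∧ d3 r q ≤ 1 := by
  simp only [d3_eq, abs_eq_max_neg] at *
  rcases lt_trichotomy (p 0) (q 0) with h0 | h0 | h0
  · refine ⟨![q 0 - 1, q 1, q 2], ?_⟩
    simp only [Matrix.cons_val_zero, Matrix.cons_val_one, Matrix.cons_val]
    omega
  · rcases lt_trichotomy (p 1) (q 1) with h1 | h1 | h1
    · refine ⟨![q 0, q 1 - 1, q 2], ?_⟩
      simp only [Matrix.cons_val_zero, Matrix.cons_val_one, Matrix.cons_val]
      omega
    · rcases lt_trichotomy (p 2) (q 2) with h2 | h2 | h2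
      · refine ⟨![q 0, q 1, q 2 - 1], ?_⟩
        simp only [Matrix.cons_val_zero, Matrix.cons_val_one, Matrix.cons_val]
        omega
      · exact ⟨q, by omega⟩
      · refine ⟨![q 0, q 1, q 2 + 1], ?_⟩
        simp only [Matrix.cons_val_zero, Matrix.cons_val_one, Matrix.cons_val]
        omega
    · refine ⟨![q 0, q 1 + 1, q 2], ?_⟩
      simp only [Matrix.cons_val_zero, Matrix.cons_val_one, Matrix.cons_val]
      omega
  · refine ⟨![q 0 + 1, q 1, q 2], ?_⟩
    simp only [Matrix.cons_val_zero, Matrix.cons_val_one, Matrix.cons_val]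
    omega

namespace Par

variable (P : Par)

/-- the hub below a vertex -/
def hubOf : P.Vx → ℕ
  | Sum.inl i => i
  | Sum.inr p => p.1.1

theorem dist_node (v : P.Va) :
    ∀ n, n ≤ P.M + 1 → P.G.dist (Sum.inl v.1) (P.node v n) ≤ n := by
  intro n
  induction n with
  | zero => intro _; rw [P.node_zero, SimpleGraph.dist_self]
  | succ n ih =>
    intro h
    have h1 := P.conn.dist_triangle (u := Sum.inl v.1) (v := P.node v n) (w := P.node v (n + 1))
    have h2 := SimpleGraph.dist_eq_one_iff_adj.2 (P.adj_succ v (n := n) (by omega))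
    have := ih (by omega)
    omega

theorem dist_hubOf (x : P.Vx) : P.G.dist (Sum.inl (P.hubOf x)) x ≤ P.M := by
  rcases x with i | ⟨v, n, hn⟩
  · simp [hubOf]
  · have := P.dist_node v n (by omega)
    rw [P.node_inn v hn] at this
    exact this.trans hn.2

variable {P}

theorem dist_close (hP : P.nb = nbZ) {i j : ℕ} (h : d3 (sig i) (sig j) ≤ 1) :
    P.G.dist (Sum.inl i) (Sum.inl j) ≤ 1 := by
  by_cases hij : i = j
  · simp [hij]
  · have : P.G.Adj (Sum.inl i) (Sum.inl j) := by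
      change i ∈ P.nb j
      rw [hP]
      exact mem_nbZ.2 ⟨hij, h⟩
    exact (SimpleGraph.dist_eq_one_iff_adj.2 this).le

theorem dist_hubs (hP : P.nb = nbZ) : ∀ (n i j : ℕ), d3 (sig i) (sig j) ≤ n →
    P.G.dist (Sum.inl i) (Sum.inl j) ≤ n + 1 := by
  intro n
  induction n with
  | zero => exact fun i j h => dist_close hP (h.trans (by norm_num))
  | succ n ih =>
    intro i j h
    obtain ⟨r, h1, h2⟩ := exists_mid h
    obtain ⟨k, rfl⟩ := sig_surj r
    have h3 := P.conn.dist_triangle (u := Sum.inl i) (v := Sum.inl k) (w := Sum.inl j)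
    have := ih i k h1
    have := dist_close hP h2
    omega

theorem adj_lip (hP : P.nb = nbZ) {x y : P.Vx} (h : P.G.Adj x y) :
    d3 (sig (P.hubOf x)) (sig (P.hubOf y)) ≤ 7 := by
  rcases x with i | ⟨v, n⟩ <;> rcases y with j | ⟨v', n'⟩
  · change i ∈ P.nb j at h
    rw [hP] at h
    exact (mem_nbZ.1 h).2.trans (by norm_num)
  · rcases h with ⟨rfl, _⟩ | ⟨rfl, _⟩
    · exact (d3_self _).le.trans (by norm_num)
    · exact sig_lip _
  · rcases h with ⟨rfl, _⟩ | ⟨rfl, _⟩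
    · exact (d3_self _).le.trans (by norm_num)
    · rw [d3_comm]
      exact sig_lip _
  · obtain ⟨rfl, _⟩ := h
    exact (d3_self _).le.trans (by norm_num)

theorem walk_lip (hP : P.nb = nbZ) {x y : P.Vx} (w : P.G.Walk x y) :
    d3 (sig (P.hubOf x)) (sig (P.hubOf y)) ≤ 7 * w.length := by
  induction w with
  | nil => simp [d3_self]
  | @cons a b c h w ih =>
    have h1 := d3_tri (sig (P.hubOf a)) (sig (P.hubOf b)) (sig (P.hubOf c))
    have h2 := adj_lip hP h
    rw [SimpleGraph.Walk.length_cons]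
    push_cast
    linarith

theorem rough (hP : P.nb = nbZ) : RoughlyIsometricZ3 P.G := by
  refine ⟨fun x => sig (P.hubOf x), 7, 2 * P.M + 1, 0, by norm_num, by positivity, le_rfl,
    fun x y => ⟨?_, ?_⟩, fun p => ?_⟩
  · change _ ≤ ((d3 (sig (P.hubOf x)) (sig (P.hubOf y)) : ℤ) : ℝ)
    obtain ⟨n, hn⟩ := Int.eq_ofNat_of_zero_le (d3_nonneg (sig (P.hubOf x)) (sig (P.hubOf y)))
    have h1 := dist_hubs hP n _ _ hn.le
    have h2 := P.dist_hubOf x
    have h3 := P.dist_hubOf y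
    have h4 := P.conn.dist_triangle (u := x) (v := Sum.inl (P.hubOf x)) (w := y)
    have h5 := P.conn.dist_triangle (u := Sum.inl (P.hubOf x)) (v := Sum.inl (P.hubOf y)) (w := y)
    rw [SimpleGraph.dist_comm] at h2
    have h6 : P.G.dist x y ≤ n + (2 * P.M + 1) := by omega
    have h7 : (P.G.dist x y : ℝ) ≤ n + (2 * P.M + 1) := by exact_mod_cast h6
    have h8 : (0 : ℝ) ≤ P.G.dist x y := Nat.cast_nonneg _
    rw [hn]
    push_cast
    linarith
  · change ((d3 (sig (P.hubOf x)) (sig (P.hubOf y)) : ℤ) : ℝ) ≤ _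
    obtain ⟨w, hw⟩ := (P.conn x y).exists_walk_length_eq_dist
    have h1 := walk_lip hP w
    rw [hw] at h1
    have h2 : ((d3 (sig (P.hubOf x)) (sig (P.hubOf y)) : ℤ) : ℝ) ≤ 7 * P.G.dist x y := by
      exact_mod_cast h1
    have h3 : (0 : ℝ) ≤ 2 * P.M + 1 := by positivity
    linarith
  · obtain ⟨j, rfl⟩ := sig_surj p
    exact ⟨Sum.inl j, by simp [hubOf]⟩

end Par

theorem z3_example : ∃ (V : Type) (G : SimpleGraph V) (v₀ : V),
    G.Connected ∧ (∀ v, (G.neighborSet v).Finite) ∧ RoughlyIsometricZ3 G ∧ GRWRecurrent G v₀ := by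
  obtain ⟨W, hW0, hw⟩ := nbZ_sum
  obtain ⟨P, hP⟩ := exists_par nbZ
    (fun i j h => mem_nbZ.2 ⟨(mem_nbZ.1 h).1.symm, d3_comm _ _ ▸ (mem_nbZ.1 h).2⟩)
    (fun j h => (mem_nbZ.1 h).1 rfl) W hW0 hw
  exact ⟨P.Vx, P.G, Sum.inl 0, P.conn, P.hfin, Par.rough hP, P.recurrent⟩

end Pool.Agent.H487Z
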